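import Pool.Agent.NCF.FF.Mat

/-!
The algebra generated by matrices over a finite field, in polynomial time: basis, commutators,
radical, centre modulo the radical, Frobenius-fixed centre.
-/

set_option autoImplicit false
set_option linter.unusedSectionVars false

namespace Pool.NCF.FF

open Pool.Agent.PolyTime Pool.Agent.LinAlg

section

variable {k : Type} [Field k] [DecidableEq k]

/-! ### the generated algebra -/

/-- One round of the closure. -/
def algStep (n : ℕ) (G : List (List (List k))) (B : List (List k)) : List (List k) :=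
  bas (n * n) (B ++ G.flatMap fun g => B.map fun b => mulF n (flF n g) b)

/-- A basis of the algebra generated by a list of matrices. -/
def algB (n : ℕ) (G : List (List (List k))) : List (List k) :=
  (algStep n G)^[n * n] [oneF k n]

theorem fl_algStep (n : ℕ) (G : List (List (List k))) (B : List (List k)) :
    Fl n (algStep n G B) := fl_bas _ _

theorem fl_iter (n : ℕ) (G : List (List (List k))) (i : ℕ) :
    Fl n ((algStep n G)^[i] [oneF k n]) := by
  cases i with
  | zero =>
    intro v hv
    rw [Function.iterate_zero, id, List.mem_singleton] at hv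
    rw [hv]
    exact length_mkv _ _
  | succ i =>
    rw [Function.iterate_succ_apply']
    exact fl_algStep _ _ _

theorem fl_algB (n : ℕ) (G : List (List (List k))) : Fl n (algB n G) := fl_iter n G _

theorem es_algStep (n : ℕ) (G : List (List (List k))) {B : List (List k)} (hB : Fl n B) :
    es n (algStep n G B) = es n B ⊔ ⨆ g : {g // g ∈ G},
      (es n B).map (LinearMap.mulLeft k (endo n g.1)) := by
  unfold algStep
  rw [es_bas, es_append]
  · congr 1
    apply le_antisymm
    · rw [es_le]
      intro v hv
      obtain ⟨g, hg, hv⟩ := List.mem_flatMap.1 hv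
      obtain ⟨b, hb, rfl⟩ := List.mem_map.1 hv
      refine Submodule.mem_iSup_of_mem ⟨g, hg⟩ ?_
      exact ⟨ue n (vl b), mem_es hb, by rw [LinearMap.mulLeft_apply, ue_mulF, ue_flF]⟩
    · refine iSup_le fun g => ?_
      rw [Submodule.map_le_iff_le_comap, es_le]
      intro b hb
      rw [Submodule.mem_comap, LinearMap.mulLeft_apply, ← ue_flF, ← ue_mulF]
      exact mem_es (List.mem_flatMap.2 ⟨g.1, g.2, List.mem_map.2 ⟨b, hb, rfl⟩⟩)
  · intro v hv
    rcases List.mem_append.1 hv with h | h
    · exact hB v h
    · obtain ⟨g, _, h⟩ := List.mem_flatMap.1 h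
      obtain ⟨b, _, rfl⟩ := List.mem_map.1 h
      exact length_mulF _ _ _

theorem algRound_stable (n : ℕ) (G : List (List (List k))) :
    es n (algStep n G (algB n G)) = es n (algB n G) := by
  set W : ℕ → Submodule k (Module.End k (Fin n → k)) :=
    fun i => es n ((algStep n G)^[i] [oneF k n]) with hW
  have hWs : ∀ i, W (i + 1) = es n (algStep n G ((algStep n G)^[i] [oneF k n])) := by
    intro i
    simp only [hW]
    rw [Function.iterate_succ_apply']
  have hmono : ∀ i, W i ≤ W (i + 1) := by
    intro i
    rw [hWs, es_algStep n G (fl_iter n G i)]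
    exact le_sup_left
  have hstab : ∀ i, W i = W (i + 1) → ∀ j, i ≤ j → W j = W i := by
    intro i hi j hij
    obtain ⟨l, rfl⟩ := Nat.exists_eq_add_of_le hij
    induction l with
    | zero => rfl
    | succ l ih =>
      have h1 := ih (by omega)
      have h2 : W (i + l + 1) = W (i + 1) := by
        rw [hWs, hWs, es_algStep n G (fl_iter n G _), es_algStep n G (fl_iter n G _)]
        change W (i + l) ⊔ _ = W i ⊔ _
        rw [h1]
        have h3 : es n ((algStep n G)^[i + l] [oneF k n]) = es n ((algStep n G)^[i] [oneF k n]) :=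
          h1
        rw [h3]
      rw [← Nat.add_assoc, h2, ← hi]
  have hfin : Module.finrank k (Module.End k (Fin n → k)) = n * n := by
    rw [Module.finrank_linearMap]; simp
  obtain ⟨i, hin, hi⟩ : ∃ i ≤ n * n, W i = W (i + 1) := by
    by_contra hcon
    push Not at hcon
    have hlt : ∀ i ≤ n * n, i + 1 ≤ Module.finrank k (W (i + 1)) := by
      intro i
      induction i with
      | zero =>
        intro h0
        have h1 := lt_of_le_of_ne (hmono 0) (hcon 0 h0)
        have h2 := Submodule.finrank_lt_finrank_of_lt h1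
        omega
      | succ i ih =>
        intro h0
        have h1 := lt_of_le_of_ne (hmono (i + 1)) (hcon (i + 1) h0)
        have h2 := Submodule.finrank_lt_finrank_of_lt h1
        have h3 := ih (by omega)
        omega
    have h1 := hlt (n * n) le_rfl
    have h2 := Submodule.finrank_le (W (n * n + 1))
    rw [hfin] at h2
    omega
  have h1 := hstab i hi (n * n) hin
  have h2 := hstab i hi (n * n + 1) (by omega)
  have h3 : W (n * n + 1) = W (n * n) := by rw [h1, h2]
  rwa [hWs] at h3

/-- The computed list spans the generated algebra. -/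
theorem es_algB (n : ℕ) (G : List (List (List k))) :
    es n (algB n G) = Subalgebra.toSubmodule (genAlg n G) := by
  apply le_antisymm
  · have key : ∀ i, es n ((algStep n G)^[i] [oneF k n]) ≤
        Subalgebra.toSubmodule (genAlg n G) := by
      intro i
      induction i with
      | zero =>
        rw [es_le]
        intro A hA
        rw [Function.iterate_zero, id, List.mem_singleton] at hA
        rw [hA, ue_oneF, Subalgebra.mem_toSubmodule]
        exact one_mem _
      | succ i ih =>
        rw [Function.iterate_succ_apply', es_algStep n G (fl_iter n G i)]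
        refine sup_le ih (iSup_le fun g => ?_)
        rw [Submodule.map_le_iff_le_comap]
        intro M hM
        rw [Submodule.mem_comap, LinearMap.mulLeft_apply, Subalgebra.mem_toSubmodule]
        exact mul_mem (Algebra.subset_adjoin ⟨g.1, g.2, rfl⟩) (ih hM)
    exact key _
  · have h1mem : (1 : Module.End k (Fin n → k)) ∈ es n (algB n G) := by
      have key : ∀ i, (1 : Module.End k (Fin n → k)) ∈
          es n ((algStep n G)^[i] [oneF k n]) := by
        intro i
        induction i with
        | zero =>
          rw [← ue_oneF n]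
          exact mem_es (by simp)
        | succ i ih =>
          rw [Function.iterate_succ_apply', es_algStep n G (fl_iter n G i)]
          exact Submodule.mem_sup_left ih
      exact key _
    have hgen : ∀ g ∈ G, ∀ w ∈ es n (algB n G), endo n g * w ∈ es n (algB n G) := by
      intro g hg w hw
      rw [← algRound_stable n G, es_algStep n G (fl_algB n G)]
      refine Submodule.mem_sup_right (Submodule.mem_iSup_of_mem ⟨g, hg⟩ ?_)
      exact ⟨w, hw, rfl⟩
    intro a ha
    rw [Subalgebra.mem_toSubmodule] at ha
    have key : ∀ w ∈ es n (algB n G), a * w ∈ es n (algB n G) := by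
      unfold genAlg at ha
      induction ha using Algebra.adjoin_induction with
      | mem x hx =>
        obtain ⟨g, hg, rfl⟩ := hx
        exact hgen g hg
      | algebraMap r =>
        intro w hw
        rw [← Algebra.smul_def]
        exact Submodule.smul_mem _ _ hw
      | add x y _ _ hx hy =>
        intro w hw
        rw [add_mul]
        exact Submodule.add_mem _ (hx w hw) (hy w hw)
      | mul x y _ _ hx hy =>
        intro w hw
        rw [mul_assoc]
        exact hx _ (hy w hw)
    have := key 1 h1mem
    rwa [mul_one] at this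

theorem mem_genAlg {n : ℕ} {G : List (List (List k))} {a : Module.End k (Fin n → k)} :
    a ∈ genAlg n G ↔ a ∈ es n (algB n G) := by
  rw [es_algB, Subalgebra.mem_toSubmodule]

/-! ### commutators -/

/-- The span of the commutators. -/
def komF (n : ℕ) (B : List (List k)) : List (List k) :=
  bas (n * n) (B.flatMap fun a => B.map fun b => subF n (mulF n a b) (mulF n b a))

theorem fl_komF (n : ℕ) (B : List (List k)) : Fl n (komF n B) := fl_bas _ _

theorem es_komF {n : ℕ} {B : List (List k)} {𝒜 : Subalgebra k (Module.End k (Fin n → k))}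
    (hB : ∀ a, a ∈ 𝒜 ↔ a ∈ es n B) : es n (komF n B) = Kom 𝒜 := by
  unfold komF
  rw [es_bas]
  · apply le_antisymm
    · rw [es_le]
      intro v hv
      obtain ⟨a, ha, hv⟩ := List.mem_flatMap.1 hv
      obtain ⟨b, hb, rfl⟩ := List.mem_map.1 hv
      rw [ue_subF, ue_mulF, ue_mulF]
      exact Submodule.subset_span ⟨_, (hB _).2 (mem_es ha), _, (hB _).2 (mem_es hb), rfl⟩
    · unfold Kom
      rw [Submodule.span_le]
      rintro _ ⟨a, ha, b, hb, rfl⟩
      rw [hB] at ha hb
      set U := es n (B.flatMap fun a => B.map fun b => subF n (mulF n a b) (mulF n b a)) with hU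
      -- bilinearity
      have h1 : ∀ u ∈ B, ∀ v ∈ B, ue n (vl u) * ue n (vl v) - ue n (vl v) * ue n (vl u) ∈ U := by
        intro u hu v hv
        rw [← ue_mulF, ← ue_mulF, ← ue_subF]
        exact mem_es (List.mem_flatMap.2 ⟨u, hu, List.mem_map.2 ⟨v, hv, rfl⟩⟩)
      have h2 : ∀ u ∈ B, ue n (vl u) * b - b * ue n (vl u) ∈ U := by
        intro u hu
        have h3 : es n B ≤ U.comap (LinearMap.mulLeft k (ue n (vl u)) -
            LinearMap.mulRight k (ue n (vl u))) := by
          rw [es_le]
          intro v hv
          exact h1 u hu v hv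
        exact h3 hb
      have h4 : es n B ≤ U.comap (LinearMap.mulRight k b - LinearMap.mulLeft k b) := by
        rw [es_le]
        intro u hu
        exact h2 u hu
      exact h4 ha
  · intro v hv
    obtain ⟨a, _, hv⟩ := List.mem_flatMap.1 hv
    obtain ⟨b, _, rfl⟩ := List.mem_map.1 hv
    exact length_mkv _ _

/-! ### the spaces `T` -/

/-- The elements of the algebra whose `q ^ i`-th power is in the span of the commutators. -/
def TF (n q : ℕ) (B : List (List k)) (i : ℕ) : List (List k) :=
  (fun U => preE n B (powF n q) U)^[i] (komF n B)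

theorem fl_TF (n q : ℕ) (B : List (List k)) (i : ℕ) : Fl n (TF n q B i) := by
  unfold TF
  cases i with
  | zero => exact fl_komF _ _
  | succ i => rw [Function.iterate_succ_apply']; exact fl_preE _ _ _ _

theorem TF_succ (n q : ℕ) (B : List (List k)) (i : ℕ) :
    TF n q B (i + 1) = preE n B (powF n q) (TF n q B i) := by
  unfold TF
  rw [Function.iterate_succ_apply']

/-- Hypotheses on the Frobenius map modulo the commutators. -/
structure Frob (q : ℕ) {n : ℕ} (𝒜 : Subalgebra k (Module.End k (Fin n → k))) : Prop where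
  add : ∀ a ∈ 𝒜, ∀ b ∈ 𝒜, (a + b) ^ q - a ^ q - b ^ q ∈ Kom 𝒜
  kom : ∀ a ∈ Kom 𝒜, a ^ q ∈ Kom 𝒜
  card : ∀ c : k, c ^ q = c

theorem kom_le_alg {V : Type*} [AddCommGroup V] [Module k V]
    (𝒜 : Subalgebra k (Module.End k V)) : ∀ a ∈ Kom 𝒜, a ∈ 𝒜 := by
  have : Kom 𝒜 ≤ Subalgebra.toSubmodule 𝒜 := by
    unfold Kom
    rw [Submodule.span_le]
    rintro _ ⟨a, ha, b, hb, rfl⟩
    exact 𝒜.sub_mem (𝒜.mul_mem ha hb) (𝒜.mul_mem hb ha)
  exact fun a ha => this ha

theorem es_TF {n q : ℕ} {B : List (List k)} {𝒜 : Subalgebra k (Module.End k (Fin n → k))}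
    (hB : ∀ a, a ∈ 𝒜 ↔ a ∈ es n B) (hF : Fl n B) (hq : Frob q 𝒜) (i : ℕ) :
    Kom 𝒜 ≤ es n (TF n q B i) ∧ ∀ a, a ∈ es n (TF n q B i) ↔ InT q i 𝒜 a := by
  induction i with
  | zero =>
    have h0 : TF n q B 0 = komF n B := rfl
    rw [h0, es_komF hB]
    refine ⟨le_rfl, fun a => ?_⟩
    unfold InT
    rw [pow_zero, pow_one]
    exact ⟨fun h => ⟨kom_le_alg 𝒜 a h, h⟩, fun h => h.2⟩
  | succ i ih =>
    have hmem : ∀ a, a ∈ es n (TF n q B (i + 1)) ↔ a ∈ 𝒜 ∧ a ^ q ∈ es n (TF n q B i) := by
      intro a
      rw [TF_succ, mem_es_preE hF (length_powF n q) (fl_TF n q B i) (fun a => a ^ q)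
        (ue_powF n q), hB]
      · intro a ha b hb
        exact ih.1 (hq.add a ((hB a).2 ha) b ((hB b).2 hb))
      · intro c a _
        beta_reduce
        rw [smul_pow, hq.card, sub_self]
        exact Submodule.zero_mem _
    refine ⟨fun a ha => (hmem a).2 ⟨kom_le_alg 𝒜 a ha, ih.1 (hq.kom a ha)⟩, fun a => ?_⟩
    rw [hmem, ih.2]
    unfold InT
    constructor
    · rintro ⟨h1, _, h2⟩
      refine ⟨h1, ?_⟩
      rwa [← pow_mul, ← pow_succ'] at h2
    · rintro ⟨h1, h2⟩
      refine ⟨h1, 𝒜.pow_mem h1 q, ?_⟩
      rwa [← pow_mul, ← pow_succ']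

/-! ### the radical -/

/-- Intersection of preimages of the span of `U` under linear maps. -/
def meet (n : ℕ) (φ : List k → List k → List k) (U : List (List k)) (S : List (List k))
    (bs : List (List k)) : List (List k) :=
  bs.foldl (fun R b => preE n R (φ b) U) S

theorem fl_meet {n : ℕ} (φ : List k → List k → List k) (U : List (List k)) (bs : List (List k)) :
    ∀ {S : List (List k)}, Fl n S → Fl n (meet n φ U S bs) := by
  induction bs with
  | nil => intro S h; exact h
  | cons b bs ih => intro S _; exact ih (fl_preE _ _ _ _)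

theorem mem_meet {n : ℕ} {φ : List k → List k → List k} {U : List (List k)}
    (hφ : ∀ b v, (φ b v).length = n * n) (hU : Fl n U)
    (Φ : Module.End k (Fin n → k) → Module.End k (Fin n → k) →ₗ[k] Module.End k (Fin n → k))
    (hΦ : ∀ b v, ue n (vl (φ b v)) = Φ (ue n (vl b)) (ue n (vl v)))
    (bs : List (List k)) : ∀ {S : List (List k)}, Fl n S → ∀ {a : Module.End k (Fin n → k)},
    (a ∈ es n (meet n φ U S bs) ↔ a ∈ es n S ∧ ∀ b ∈ bs, Φ (ue n (vl b)) a ∈ es n U) := by
  induction bs with
  | nil => intro S _ a; simp [meet]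
  | cons b bs ih =>
    intro S hS a
    have h1 : meet n φ U S (b :: bs) = meet n φ U (preE n S (φ b) U) bs := rfl
    rw [h1, ih (fl_preE _ _ _ _), mem_es_preE hS (hφ b) hU (fun a => Φ (ue n (vl b)) a) (hΦ b)]
    · simp only [List.forall_mem_cons, and_assoc]
    · intro a _ c _
      beta_reduce
      rw [map_add, add_sub_cancel_left, sub_self]
      exact Submodule.zero_mem _
    · intro c a _
      beta_reduce
      rw [map_smul, sub_self]
      exact Submodule.zero_mem _

/-- The radical. -/
def RF (n q : ℕ) (B : List (List k)) : List (List k) :=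
  meet n (fun b r => mulF n r b) (TF n q B n) B B

theorem fl_RF {n q : ℕ} {B : List (List k)} (hF : Fl n B) : Fl n (RF n q B) := fl_meet _ _ _ hF

theorem mem_RF {n q : ℕ} {B : List (List k)} {𝒜 : Subalgebra k (Module.End k (Fin n → k))}
    (hB : ∀ a, a ∈ 𝒜 ↔ a ∈ es n B) (hF : Fl n B) (hq : Frob q 𝒜)
    {a : Module.End k (Fin n → k)} : a ∈ es n (RF n q B) ↔ InR q n 𝒜 a := by
  unfold RF
  rw [mem_meet (fun b v => length_mulF n v b) (fl_TF n q B n)
    (fun b => LinearMap.mulRight k b) (fun b v => by rw [ue_mulF]; rfl) B hF]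
  unfold InR
  rw [← hB]
  refine and_congr_right fun _ => ?_
  constructor
  · intro h b hb
    rw [hB] at hb
    rw [← (es_TF hB hF hq n).2]
    have h1 : es n B ≤ (es n (TF n q B n)).comap (LinearMap.mulLeft k a) := by
      rw [es_le]
      intro v hv
      exact h v hv
    exact h1 hb
  · intro h b hb
    have h1 := h (ue n (vl b)) ((hB _).2 (mem_es hb))
    rwa [← (es_TF hB hF hq n).2] at h1

/-! ### the centre modulo the radical -/

theorem length_subF (n : ℕ) (a b : List k) : (subF n a b).length = n * n := length_mkv _ _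

/-- The centre modulo the radical. -/
def CF (n q : ℕ) (B : List (List k)) : List (List k) :=
  meet n (fun b c => subF n (mulF n c b) (mulF n b c)) (RF n q B) B B

theorem fl_CF {n q : ℕ} {B : List (List k)} (hF : Fl n B) : Fl n (CF n q B) := fl_meet _ _ _ hF

theorem mem_CF {n q : ℕ} {B : List (List k)} {𝒜 : Subalgebra k (Module.End k (Fin n → k))}
    (hB : ∀ a, a ∈ 𝒜 ↔ a ∈ es n B) (hF : Fl n B) (hq : Frob q 𝒜)
    {a : Module.End k (Fin n → k)} : a ∈ es n (CF n q B) ↔ RCen q n 𝒜 a := by
  unfold CF
  rw [mem_meet (fun b v => length_subF _ _ _) (fl_RF hF)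
    (fun b => LinearMap.mulRight k b - LinearMap.mulLeft k b)
    (fun b v => by rw [ue_subF, ue_mulF, ue_mulF]; rfl) B hF]
  unfold RCen
  rw [← hB]
  refine and_congr_right fun _ => ?_
  constructor
  · intro h b hb
    rw [hB] at hb
    rw [← mem_RF hB hF hq]
    have h1 : es n B ≤ (es n (RF n q B)).comap
        (LinearMap.mulLeft k a - LinearMap.mulRight k a) := by
      rw [es_le]
      intro v hv
      exact h v hv
    exact h1 hb
  · intro h b hb
    have h1 := h (ue n (vl b)) ((hB _).2 (mem_es hb))
    rwa [← mem_RF hB hF hq] at h1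

/-- The Frobenius-fixed centre modulo the radical. -/
def C1F (n q : ℕ) (B : List (List k)) : List (List k) :=
  preE n (CF n q B) (fun z => subF n (powF n q z) z) (RF n q B)

theorem fl_C1F (n q : ℕ) (B : List (List k)) : Fl n (C1F n q B) := fl_preE _ _ _ _

theorem mem_C1F {n q : ℕ} {B : List (List k)} {𝒜 : Subalgebra k (Module.End k (Fin n → k))}
    (hB : ∀ a, a ∈ 𝒜 ↔ a ∈ es n B) (hF : Fl n B) (hq : Frob q 𝒜)
    (hC : ∀ a b, RCen q n 𝒜 a → RCen q n 𝒜 b → InR q n 𝒜 ((a + b) ^ q - a ^ q - b ^ q))
    {a : Module.End k (Fin n → k)} : a ∈ es n (C1F n q B) ↔ FCen q n 𝒜 a := by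
  unfold C1F
  rw [mem_es_preE (fl_CF hF) (fun v => length_subF _ _ _) (fl_RF hF) (fun z => z ^ q - z)
    (fun v => by rw [ue_subF, ue_powF]), mem_CF hB hF hq, mem_RF hB hF hq]
  · rfl
  · intro a ha b hb
    beta_reduce
    have h1 : (a + b) ^ q - (a + b) - (a ^ q - a) - (b ^ q - b) =
        (a + b) ^ q - a ^ q - b ^ q := by abel
    rw [h1, mem_RF hB hF hq]
    exact hC a b ((mem_CF hB hF hq).1 ha) ((mem_CF hB hF hq).1 hb)
  · intro c a _
    beta_reduce
    rw [smul_pow, hq.card, smul_sub, sub_self]
    exact Submodule.zero_mem _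

end

/-! ### polynomial time -/

section pt

variable {k : Type} [Field k] [Finite k] [DecidableEq k] [PEnc k] {α : Type} [PEnc α]

theorem pt_algStep {n : α → ℕ} {G : α → List (List (List k))} {B : α → List (List k)}
    (hn : PolyTime n) (hnb : PBd n) (hG : PolyTime G) (hB : PolyTime B) :
    PolyTime (fun a => algStep (n a) (G a) (B a)) := by
  unfold algStep
  refine pt_bas (by fun_prop) (hnb.mul hnb) (PolyTime.append hB (PolyTime.flatMap hG ?_))
  refine PolyTime.map (l := fun q : α × List (List k) => B q.1) (by fun_prop) ?_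
  have h := hnb.comp (f := fun q : (α × List (List k)) × List k => q.1.1) (by fun_prop)
  exact pt_mulF (α := (α × List (List k)) × List k) (n := fun q => n q.1.1)
    (a := fun q => flF (n q.1.1) q.1.2) (b := fun q => q.2) (by fun_prop) h
    (pt_flF (α := (α × List (List k)) × List k) (n := fun q => n q.1.1) (A := fun q => q.1.2)
      (by fun_prop) h (by fun_prop)) (by fun_prop)

theorem pt_algB {n : α → ℕ} {G : α → List (List (List k))} (hn : PolyTime n)
    (hnb : PBd n) (hG : PolyTime G) : PolyTime (fun a => algB (n a) (G a)) := by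
  unfold algB
  have hNN : PBd fun a => n a * n a := hnb.mul hnb
  refine PolyTime.iterate (f := fun a B => algStep (n a) (G a) B) (n := fun a => n a * n a)
    (B := fun a => (n a * n a + 1) * (2 * (n a * n a * (2 * csz k + 1)) + 1))
    ?_ (by fun_prop) hNN ?_ ?_ ?_
  · exact pt_algStep (α := α × List (List k)) (n := fun q => n q.1) (by fun_prop)
      (hnb.comp PolyTime.fst') (by fun_prop) (by fun_prop)
  · exact PolyTime.cons (pt_oneF hn hnb) (PolyTime.const [])
  · exact (hNN.add (PBd.const 1)).mul (((PBd.const 2).mul (hNN.mul (PBd.const _))).add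
      (PBd.const 1))
  · intro a i _
    have h1 := fl_iter (n a) (G a) i
    have h2 : ((algStep (n a) (G a))^[i] [oneF k (n a)]).length ≤ n a * n a + 1 := by
      cases i with
      | zero => simp
      | succ i =>
        rw [Function.iterate_succ_apply']
        exact (length_bas_le _ _).trans (Nat.le_succ _)
    refine (size_le_of_forall (B := n a * n a * (2 * csz k + 1)) fun v hv => ?_).trans
      (Nat.mul_le_mul_right _ h2)
    have := size_list_le v
    rwa [h1 v hv] at this

theorem pt_komF {n : α → ℕ} {B : α → List (List k)} (hn : PolyTime n) (hnb : PBd n)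
    (hB : PolyTime B) : PolyTime (fun a => komF (n a) (B a)) := by
  unfold komF
  refine pt_bas (by fun_prop) (hnb.mul hnb) (PolyTime.flatMap hB ?_)
  refine PolyTime.map (l := fun q : α × List k => B q.1) (by fun_prop) ?_
  have h := hnb.comp (f := fun q : (α × List k) × List k => q.1.1) (by fun_prop)
  exact pt_subF (α := (α × List k) × List k) (n := fun q => n q.1.1) (by fun_prop) h
    (pt_mulF (α := (α × List k) × List k) (n := fun q => n q.1.1) (a := fun q => q.1.2)
      (b := fun q => q.2) (by fun_prop) h (by fun_prop) (by fun_prop))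
    (pt_mulF (α := (α × List k) × List k) (n := fun q => n q.1.1) (a := fun q => q.2)
      (b := fun q => q.1.2) (by fun_prop) h (by fun_prop) (by fun_prop))

theorem size_fl_bas (n : ℕ) (L : List (List k)) :
    size (bas (n * n) L) ≤ n * n * (2 * (n * n * (2 * csz k + 1)) + 1) := size_bas_le _ _

theorem pt_TF (q : ℕ) {n : α → ℕ} {B : α → List (List k)} (hn : PolyTime n) (hnb : PBd n)
    (hB : PolyTime B) : PolyTime (fun a => TF (n a) q (B a) (n a)) := by
  unfold TF
  have hNN : PBd fun a => n a * n a := hnb.mul hnb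
  refine PolyTime.iterate (f := fun a U => preE (n a) (B a) (powF (n a) q) U) (n := n)
    (B := fun a => n a * n a * (2 * (n a * n a * (2 * csz k + 1)) + 1)) ?_ hn hnb
    (pt_komF hn hnb hB) ?_ ?_
  · have h : PBd fun p : α × List (List k) => n p.1 := hnb.comp PolyTime.fst'
    refine pt_preE (α := α × List (List k)) (n := fun p => n p.1) (L := fun p => B p.1)
      (φ := fun p => powF (n p.1) q) (by fun_prop) h (by fun_prop) ?_ (by fun_prop)
    exact pt_powF (α := (α × List (List k)) × List k) q (n := fun p => n p.1.1)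
      (a := fun p => p.2) (by fun_prop) (hnb.comp (f := fun p : (α × List (List k)) × List k =>
        p.1.1) (by fun_prop)) (by fun_prop)
  · exact hNN.mul (((PBd.const 2).mul (hNN.mul (PBd.const _))).add (PBd.const 1))
  · intro a i _
    cases i with
    | zero => exact size_fl_bas _ _
    | succ i => rw [Function.iterate_succ_apply']; exact size_fl_bas _ _

theorem pt_meet {n : α → ℕ} {φ : α → List k → List k → List k} {U S bs : α → List (List k)}
    (hn : PolyTime n) (hnb : PBd n)
    (hφ : PolyTime fun p : (α × List k) × List k => φ p.1.1 p.1.2 p.2) (hU : PolyTime U)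
    (hS : PolyTime S) (hbs : PolyTime bs) :
    PolyTime (fun a => meet (n a) (φ a) (U a) (S a) (bs a)) := by
  unfold meet
  have hNN : PBd fun a => n a * n a := hnb.mul hnb
  refine PolyTime.foldl (h := fun a R b => preE (n a) R (φ a b) (U a))
    (B := fun a => size (S a) + n a * n a * (2 * (n a * n a * (2 * csz k + 1)) + 1)) hbs hS ?_ ?_ ?_
  · refine pt_preE (α := α × List (List k) × List k) (n := fun p => n p.1) (L := fun p => p.2.1)
      (φ := fun p => φ p.1 p.2.2) (U := fun p => U p.1) (by fun_prop) (hnb.comp PolyTime.fst')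
      (by fun_prop) ?_ (by fun_prop)
    exact hφ.comp (f := fun p : (α × List (List k) × List k) × List k => ((p.1.1, p.1.2.2), p.2))
      (by fun_prop)
  · exact hS.pbd.add (hNN.mul (((PBd.const 2).mul (hNN.mul (PBd.const _))).add (PBd.const 1)))
  · intro a i
    have key : ∀ (l : List (List k)) (T : List (List k)),
        size (l.foldl (fun R b => preE (n a) R (φ a b) (U a)) T) ≤
          size T + n a * n a * (2 * (n a * n a * (2 * csz k + 1)) + 1) := by
      intro l
      induction l using List.reverseRecOn with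
      | nil => intro T; exact Nat.le_add_right _ _
      | append_singleton l b _ =>
        intro T
        rw [List.foldl_append]
        exact (size_fl_bas _ _).trans (Nat.le_add_left _ _)
    exact key _ _

theorem pt_RF (q : ℕ) {n : α → ℕ} {B : α → List (List k)} (hn : PolyTime n) (hnb : PBd n)
    (hB : PolyTime B) : PolyTime (fun a => RF (n a) q (B a)) := by
  unfold RF
  refine pt_meet hn hnb ?_ (pt_TF q hn hnb hB) hB hB
  exact pt_mulF (α := (α × List k) × List k) (n := fun p => n p.1.1) (a := fun p => p.2)
    (b := fun p => p.1.2) (by fun_prop)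
    (hnb.comp (f := fun p : (α × List k) × List k => p.1.1) (by fun_prop))
    (by fun_prop) (by fun_prop)

theorem pt_CF (q : ℕ) {n : α → ℕ} {B : α → List (List k)} (hn : PolyTime n) (hnb : PBd n)
    (hB : PolyTime B) : PolyTime (fun a => CF (n a) q (B a)) := by
  unfold CF
  refine pt_meet hn hnb ?_ (pt_RF q hn hnb hB) hB hB
  have h := hnb.comp (f := fun q : (α × List k) × List k => q.1.1) (by fun_prop)
  exact pt_subF (α := (α × List k) × List k) (n := fun q => n q.1.1) (by fun_prop) h
    (pt_mulF (α := (α × List k) × List k) (n := fun q => n q.1.1) (a := fun q => q.2)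
      (b := fun q => q.1.2) (by fun_prop) h (by fun_prop) (by fun_prop))
    (pt_mulF (α := (α × List k) × List k) (n := fun q => n q.1.1) (a := fun q => q.1.2)
      (b := fun q => q.2) (by fun_prop) h (by fun_prop) (by fun_prop))

theorem pt_C1F (q : ℕ) {n : α → ℕ} {B : α → List (List k)} (hn : PolyTime n) (hnb : PBd n)
    (hB : PolyTime B) : PolyTime (fun a => C1F (n a) q (B a)) := by
  unfold C1F
  refine pt_preE hn hnb (pt_CF q hn hnb hB) ?_ (pt_RF q hn hnb hB)
  have h := hnb.comp (f := fun q : α × List k => q.1) (by fun_prop)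
  exact pt_subF (α := α × List k) (n := fun p => n p.1) (by fun_prop) h
    (pt_powF (α := α × List k) q (n := fun p => n p.1) (a := fun p => p.2) (by fun_prop) h
      (by fun_prop)) (by fun_prop)

end pt

end Pool.NCF.FF
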