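import Pool.Agent.NCF.FF.Rad

/-!
# No invariant subspace between two consecutive members of the chain (finite fields)
-/

set_option autoImplicit false

namespace Pool.NCF.FF

/-! ### two sided ideals of a semisimple ring are generated by central idempotents -/

section central

theorem exists_central_idempotent {S : Type*} [Ring S] [IsSemisimpleRing S] (I : Ideal S)
    [I.IsTwoSided] : ∃ g : S, g * g = g ∧ (∀ x, x ∈ I ↔ x * g = x) ∧ ∀ r, g * r = r * g := by
  obtain ⟨g, hg, hI⟩ := IsSemisimpleRing.ideal_eq_span_idempotent I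
  have hg' : g * g = g := hg
  have hmem : ∀ x, x ∈ I ↔ x * g = x := by
    intro x
    constructor
    · intro hx
      rw [hI, Ideal.mem_span_singleton'] at hx
      obtain ⟨y, rfl⟩ := hx
      rw [mul_assoc, hg']
    · intro hx
      rw [hI, Ideal.mem_span_singleton']
      exact ⟨x, hx⟩
  have hgI : g ∈ I := (hmem g).2 hg'
  refine ⟨g, hg', hmem, fun r => ?_⟩
  have h1 : ∀ r, g * r * g = g * r := fun r => (hmem _).1 (Ideal.mul_mem_right _ _ hgI)
  have h2 : r * g - g * r * g = 0 := by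
    set t := r * g - g * r * g with ht
    have h3 : ∀ s, t * s * t = 0 := by
      intro s
      have e1 : t * s * t = (r - g * r) * (g * s * r * g - g * s * g * r * g) := by
        rw [ht]; noncomm_ring
      rw [e1, h1 s]
      have e2 : g * s * r * g - g * s * r * g = 0 := sub_self _
      rw [e2, mul_zero]
    obtain ⟨h, hh, hth⟩ := IsSemisimpleRing.ideal_eq_span_idempotent (Ideal.span {t})
    have hh' : h * h = h := hh
    have h4 : h ∈ Ideal.span {t} := by rw [hth]; exact Ideal.subset_span rfl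
    rw [Ideal.mem_span_singleton'] at h4
    obtain ⟨s, hs⟩ := h4
    have h5 : h = 0 := by
      rw [← hh', ← hs]
      have : s * t * (s * t) = s * (t * s * t) := by noncomm_ring
      rw [this, h3, mul_zero]
    have h6 : t ∈ Ideal.span {t} := Ideal.subset_span rfl
    rw [hth, h5, Ideal.mem_span_singleton'] at h6
    obtain ⟨y, hy⟩ := h6
    rw [← hy, mul_zero]
  rw [sub_eq_zero] at h2
  rw [h2, h1]

end central

section iso

variable {k V : Type*} [Field k] [Finite k] [AddCommGroup V] [Module k V]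
  [FiniteDimensional k V]

/-- Simple modules killed by an ideal `J'` above the radical are isomorphic, if all Frobenius
fixed central elements are scalars modulo `J'`. -/
theorem exists_isoR (𝒜 : Subalgebra k (Module.End k V)) {n : ℕ} (hn : Module.finrank k V ≤ n)
    (J' : Ideal 𝒜) (hJJ : Ring.jacobson 𝒜 ≤ J')
    (hc : ∀ z : 𝒜, FCen (Nat.card k) n 𝒜 z.1 → ∃ s : k, z - algebraMap k 𝒜 s ∈ J')
    (S₁ S₂ : Type*) [AddCommGroup S₁] [AddCommGroup S₂] [Module 𝒜 S₁] [Module 𝒜 S₂]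
    [Module k S₁] [IsScalarTower k 𝒜 S₁] [FiniteDimensional k S₁]
    [IsSimpleModule 𝒜 S₁] [IsSimpleModule 𝒜 S₂]
    (hJ₁ : ∀ a ∈ J', ∀ s : S₁, a • s = 0)
    (hJ₂ : ∀ a ∈ J', ∀ s : S₂, a • s = 0) :
    Nonempty (S₁ ≃ₗ[𝒜] S₂) := by
  set J := Ring.jacobson 𝒜 with hJ
  -- the annihilator of `S₁` as an ideal of the quotient
  let I : Ideal (𝒜 ⧸ J) :=
    { carrier := {x | ∃ a : 𝒜, Ideal.Quotient.mk J a = x ∧ ∀ s : S₁, a • s = 0}
      add_mem' := by
        rintro _ _ ⟨a, rfl, ha⟩ ⟨b, rfl, hb⟩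
        exact ⟨a + b, map_add _ _ _, fun s => by rw [add_smul, ha, hb, add_zero]⟩
      zero_mem' := ⟨0, map_zero _, fun s => zero_smul _ _⟩
      smul_mem' := by
        rintro c _ ⟨a, rfl, ha⟩
        obtain ⟨c, rfl⟩ := Ideal.Quotient.mk_surjective c
        exact ⟨c * a, map_mul _ _ _, fun s => by rw [mul_smul, ha, smul_zero]⟩ }
  have hI2 : I.IsTwoSided := ⟨by
    rintro _ c ⟨a, rfl, ha⟩
    obtain ⟨c, rfl⟩ := Ideal.Quotient.mk_surjective c
    exact ⟨a * c, map_mul _ _ _, fun s => by rw [mul_smul, ha]⟩⟩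
  have hmemI : ∀ a : 𝒜, Ideal.Quotient.mk J a ∈ I ↔ ∀ s : S₁, a • s = 0 := by
    intro a
    constructor
    · rintro ⟨b, hb, hb0⟩ s
      rw [Ideal.Quotient.mk_eq_mk_iff_sub_mem] at hb
      have := hJ₁ _ (hJJ hb) s
      rw [sub_smul, hb0, zero_sub, neg_eq_zero] at this
      exact this
    · intro h
      exact ⟨a, rfl, h⟩
  obtain ⟨g', hg1, hg2, hg3⟩ := exists_central_idempotent I
  obtain ⟨g, rfl⟩ := Ideal.Quotient.mk_surjective g'
  have hgI : ∀ s : S₁, g • s = 0 := (hmemI g).1 ((hg2 _).2 hg1)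
  have hmk : ∀ a b : 𝒜, Ideal.Quotient.mk J a = Ideal.Quotient.mk J b →
      InR (Nat.card k) n 𝒜 (a.1 - b.1) := by
    intro a b h
    rw [Ideal.Quotient.mk_eq_mk_iff_sub_mem] at h
    exact jacobson_le_RI 𝒜 hn h
  have hcard : Nat.card k ≠ 0 := Nat.card_pos.ne'
  have hgfix : FCen (Nat.card k) n 𝒜 g.1 := by
    refine ⟨⟨g.2, fun a ha => ?_⟩, ?_⟩
    · have := hg3 (Ideal.Quotient.mk J ⟨a, ha⟩)
      rw [← map_mul, ← map_mul] at this
      exact hmk _ _ this
    · have h1 : ∀ m : ℕ, m ≠ 0 → (Ideal.Quotient.mk J g) ^ m = Ideal.Quotient.mk J g := by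
        intro m hm
        obtain ⟨m, rfl⟩ := Nat.exists_eq_succ_of_ne_zero hm
        clear hm
        induction m with
        | zero => rw [Nat.succ_eq_add_one, zero_add, pow_one]
        | succ m ih => rw [Nat.succ_eq_add_one, pow_succ, ih, hg1]
      have h2 := h1 _ hcard
      rw [← map_pow] at h2
      exact hmk _ _ h2
  obtain ⟨c, hc'⟩ := hc g hgfix
  -- on `S₁`: `c = 0`
  have hc0 : c = 0 := by
    have := IsSimpleModule.nontrivial 𝒜 S₁
    obtain ⟨s, hs⟩ := exists_ne (0 : S₁)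
    have h1 := hJ₁ _ hc' s
    rw [sub_smul, hgI, zero_sub, neg_eq_zero, algebraMap_smul] at h1
    exact (smul_eq_zero.1 h1).resolve_right hs
  have hg₂ : ∀ s : S₂, g • s = 0 := by
    intro s
    have h1 := hJ₂ _ hc' s
    rw [hc0, map_zero, sub_zero] at h1
    exact h1
  apply iso_of_ann (k := k) S₁ S₂
  intro r hr s
  have h1 := (hg2 _).1 ((hmemI r).2 hr)
  rw [← map_mul, eq_comm, Ideal.Quotient.mk_eq_mk_iff_sub_mem] at h1
  have h2 := hJ₂ _ (hJJ h1) s
  rw [sub_smul, mul_smul, hg₂, smul_zero, sub_zero] at h2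
  exact h2

end iso

section between

variable {k V : Type*} [Field k] [Finite k] [AddCommGroup V] [Module k V]
  (𝒜 : Subalgebra k (Module.End k V)) [FiniteDimensional k V]

/-- The elements that map `Z` into `Y`. -/
def mapsInto (Y Z : Submodule k V) (hY : Inv 𝒜 Y) : Ideal 𝒜 where
  carrier := {a | ∀ z ∈ Z, a.1 z ∈ Y}
  add_mem' := fun {a b} ha hb z hz => Y.add_mem (ha z hz) (hb z hz)
  zero_mem' := fun z _ => Y.zero_mem
  smul_mem' := fun c a ha z hz => hY c.1 c.2 _ (ha z hz)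

theorem no_between {n : ℕ} (hn : Module.finrank k V ≤ n) (N : Submodule k V)
    (hND : NoDouble 𝒜 N) (Y Z : Submodule k V) (hNY : N ≤ Y) (hYZ : Y ≤ Z) (hY : Inv 𝒜 Y)
    (hZ : Inv 𝒜 Z) (hJ : ∀ a, InR (Nat.card k) n 𝒜 a → ∀ z ∈ Z, a z ∈ Y)
    (hc : ∀ z, FCen (Nat.card k) n 𝒜 z → ∃ s : k, ∀ v ∈ Z, z v - s • v ∈ Y)
    (W : Submodule k V) (hW : Inv 𝒜 W) (hYW : Y ≤ W) (hWZ : W ≤ Z) : W = Y ∨ W = Z := by
  have _ := hYZ
  by_contra hcon
  push Not at hcon
  obtain ⟨hWY, hWZ'⟩ := hcon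
  have hle : Ring.jacobson 𝒜 ≤ mapsInto 𝒜 Y Z hY := fun a ha =>
    hJ a.1 (jacobson_le_RI 𝒜 hn ha)
  have htwo : (mapsInto 𝒜 Y Z hY).IsTwoSided :=
    ⟨fun {a} b ha z hz => ha (b.1 z) (hZ b.1 b.2 z hz)⟩
  have hss0 : IsSemisimpleRing (𝒜 ⧸ Ring.jacobson 𝒜) := inferInstance
  have hss : IsSemisimpleRing (𝒜 ⧸ mapsInto 𝒜 Y Z hY) :=
    RingHom.isSemisimpleRing_of_surjective (Ideal.Quotient.factor hle)
      (Ideal.Quotient.factor_surjective hle)
  obtain ⟨V₁, V₂, Γ, h1, h2, h3, h4, h5, p, hp, hpY⟩ := exists_double (k := k) (R := 𝒜) (V := V)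
    (mapsInto 𝒜 Y Z hY) (0 : 𝒜)
    (fun S₁ S₂ => by
      intros _ _ _ _ _ _ _ _ _ g1 g2 g3 g4
      refine exists_isoR 𝒜 hn (mapsInto 𝒜 Y Z hY) hle ?_ S₁ S₂ g1 g2
      intro z hz
      obtain ⟨s, hs⟩ := hc z.1 hz
      exact ⟨s, hs⟩)
    (toA 𝒜 Y hY) (toA 𝒜 Z hZ) (toA 𝒜 W hW) hYW hWZ
    (fun h => hWY (by
      ext x
      exact SetLike.ext_iff.1 h x))
    (fun h => hWZ' (by
      ext x
      exact SetLike.ext_iff.1 h x))
    (fun a ha z hz => ha z hz)
    (fun z hz => by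
      rw [zero_smul]
      exact (toA 𝒜 Y hY).zero_mem)
  refine hpY (hND Y (V₁.restrictScalars k) (V₂.restrictScalars k) hY ?_ ?_ hNY h1 h2 h3
    (Γ.restrictScalars k) ?_ h4 h5 p hp)
  · intro a ha y hy
    exact V₁.smul_mem (⟨a, ha⟩ : 𝒜) hy
  · intro a ha y hy
    exact V₂.smul_mem (⟨a, ha⟩ : 𝒜) hy
  · intro a ha q hq
    exact Γ.smul_mem (⟨a, ha⟩ : 𝒜) hq

end between

end Pool.NCF.FF
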