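import Pool.Agent.NCF.FF.Defs

/-!
# The Frobenius modulo commutators (Jacobson, Brauer)
-/

set_option autoImplicit false

namespace Pool.NCF.FF

open Polynomial

section frob

variable {R : Type*} [Ring R]

/-- the additive group generated by the commutators -/
def Kg (R : Type*) [Ring R] : AddSubgroup R := AddSubgroup.closure {x | ∃ u v : R, x = u * v - v * u}

theorem comm_mem (u v : R) : u * v - v * u ∈ Kg R := AddSubgroup.subset_closure ⟨u, v, rfl⟩

/-- coefficients of commutators of polynomials -/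
theorem coeff_comm_mem (f g : R[X]) (n : ℕ) : (f * g - g * f).coeff n ∈ Kg R := by
  rw [coeff_sub, coeff_mul, coeff_mul, ← Finset.Nat.sum_antidiagonal_swap
    (f := fun x => g.coeff x.1 * f.coeff x.2), ← Finset.sum_sub_distrib]
  exact AddSubgroup.sum_mem _ (fun x _ => comm_mem _ _)

theorem coeff_Kg {f : R[X]} (hf : f ∈ Kg R[X]) (n : ℕ) : f.coeff n ∈ Kg R := by
  induction hf using AddSubgroup.closure_induction with
  | mem x hx => obtain ⟨u, v, rfl⟩ := hx; exact coeff_comm_mem u v n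
  | zero => rw [coeff_zero]; exact AddSubgroup.zero_mem _
  | add x y _ _ hx hy => rw [coeff_add]; exact AddSubgroup.add_mem _ hx hy
  | neg x _ hx => rw [coeff_neg]; exact AddSubgroup.neg_mem _ hx

theorem derivative_pow_eq (u : R[X]) (n : ℕ) :
    derivative (u ^ n) = ∑ i ∈ Finset.range n, u ^ i * derivative u * u ^ (n - 1 - i) := by
  induction n with
  | zero => simp
  | succ n ih =>
    rw [pow_succ, derivative_mul, ih, Finset.sum_range_succ, Finset.sum_mul]
    congr 1
    · refine Finset.sum_congr rfl (fun i hi => ?_)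
      rw [Finset.mem_range] at hi
      have : n + 1 - 1 - i = (n - 1 - i) + 1 := by omega
      rw [this, pow_succ]
      noncomm_ring
    · simp

theorem derivative_pow_char {p : ℕ} [CharP R p] (u : R[X]) :
    derivative (u ^ p) ∈ Kg R[X] := by
  rw [derivative_pow_eq]
  have h1 : ∀ i ∈ Finset.range p, u ^ i * derivative u * u ^ (p - 1 - i) -
      derivative u * u ^ (p - 1) ∈ Kg R[X] := by
    intro i hi
    rw [Finset.mem_range] at hi
    have : u ^ (p - 1) = u ^ (p - 1 - i) * u ^ i := by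
      rw [← pow_add]; congr 1; omega
    rw [this, mul_assoc, ← mul_assoc (derivative u)]
    exact comm_mem _ _
  have h2 := AddSubgroup.sum_mem _ h1
  rw [Finset.sum_sub_distrib, Finset.sum_const, Finset.card_range, nsmul_eq_mul,
    CharP.cast_eq_zero, zero_mul, sub_zero] at h2
  exact h2

/-- Jacobson's formula modulo commutators. -/
theorem add_pow_char_sub_mem {p : ℕ} [Fact p.Prime] [CharP R p] (a b : R) :
    (a + b) ^ p - (a ^ p + b ^ p) ∈ Kg R := by
  have hp : p.Prime := Fact.out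
  set u : R[X] := C a + C b * X with hu
  have hdeg : u.natDegree ≤ 1 := by
    rw [hu]
    compute_degree
  have hdeg2 : (u ^ p).natDegree ≤ p := by
    calc (u ^ p).natDegree ≤ p * u.natDegree := natDegree_pow_le
      _ ≤ p * 1 := Nat.mul_le_mul_left _ hdeg
      _ = p := mul_one p
  have hs : ∀ j, 1 ≤ j → j < p → (u ^ p).coeff j ∈ Kg R := by
    intro j hj1 hj2
    have h1 := coeff_Kg (derivative_pow_char (p := p) u) (j - 1)
    rw [coeff_derivative] at h1
    have h2 : j - 1 + 1 = j := by omega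
    rw [h2] at h1
    have h3 : (((j - 1 : ℕ) : R) + 1) = (j : R) := by
      have := congrArg (Nat.cast (R := R)) h2
      rwa [Nat.cast_add, Nat.cast_one] at this
    rw [h3] at h1
    -- multiply by an inverse of j modulo p
    obtain ⟨c, hc⟩ : ∃ c : ℕ, ((c * j : ℕ) : R) = 1 := by
      have hne : (j : ZMod p) ≠ 0 := by
        intro h0
        rw [ZMod.natCast_eq_zero_iff] at h0
        exact absurd (Nat.le_of_dvd hj1 h0) (by omega)
      refine ⟨((j : ZMod p)⁻¹).val, ?_⟩
      have h4 : (((((j : ZMod p)⁻¹).val * j : ℕ)) : ZMod p) = 1 := by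
        rw [Nat.cast_mul, ZMod.natCast_zmod_val, inv_mul_cancel₀ hne]
      have h5 := congrArg (ZMod.castHom (dvd_refl p) R) h4
      rwa [map_natCast, map_one] at h5
    have h4 := AddSubgroup.nsmul_mem _ h1 c
    rw [nsmul_eq_mul] at h4
    have h5 : (c : R) * ((u ^ p).coeff j * (j : R)) = (u ^ p).coeff j := by
      rw [← Nat.cast_comm, ← mul_assoc, ← Nat.cast_mul, hc, one_mul]
    rwa [h5] at h4
  -- evaluation at one
  have heval : (a + b) ^ p = ∑ j ∈ Finset.range (p + 1), (u ^ p).coeff j := by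
    set φ : R[X] →+* R := eval₂RingHom' (RingHom.id R) 1 (fun a => Commute.one_right _) with hφ
    have h1 : φ u = a + b := by
      rw [hφ, hu]; simp
    have h2 : φ (u ^ p) = ∑ j ∈ Finset.range (p + 1), (u ^ p).coeff j := by
      rw [hφ]
      simp only [eval₂RingHom', RingHom.coe_mk, MonoidHom.coe_mk, OneHom.coe_mk]
      rw [eval₂_eq_sum_range' _ (Nat.lt_succ_of_le hdeg2)]
      simp
    rw [← h1, ← map_pow, h2]
  have h0 : (u ^ p).coeff 0 = a ^ p := by
    rw [← constantCoeff_apply, map_pow, constantCoeff_apply, hu]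
    simp
  have hp' : (u ^ p).coeff p = b ^ p := by
    have := coeff_pow_of_natDegree_le (m := p) hdeg
    rw [mul_one] at this
    rw [this, hu]
    simp
  obtain ⟨p', hpp⟩ : ∃ p', p = p' + 1 := ⟨p - 1, by have := hp.pos; omega⟩
  have hsum : ∑ j ∈ Finset.range p, (u ^ p).coeff j =
      (∑ j ∈ Finset.range p', (u ^ p).coeff (j + 1)) + a ^ p := by
    conv_lhs => rw [hpp, Finset.sum_range_succ']
    rw [← hpp, h0]
  rw [heval, Finset.sum_range_succ, hp', hsum]
  have h1 : (∑ j ∈ Finset.range p', (u ^ p).coeff (j + 1)) + a ^ p + b ^ p - (a ^ p + b ^ p) =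
      ∑ j ∈ Finset.range p', (u ^ p).coeff (j + 1) := by abel
  rw [h1]
  refine AddSubgroup.sum_mem _ (fun j hj => hs _ (by omega) ?_)
  rw [Finset.mem_range] at hj
  omega

end frob

section powers

variable {R : Type*} [Ring R]

theorem cyc_pow_mem (x y : R) (m : ℕ) : (x * y) ^ m - (y * x) ^ m ∈ Kg R := by
  cases m with
  | zero => simp
  | succ m =>
    have h1 : (x * y) ^ (m + 1) = x * (y * (x * y) ^ m) := by rw [pow_succ']; noncomm_ring
    have h2 : (y * x) ^ (m + 1) = (y * (x * y) ^ m) * x := by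
      have : ∀ j : ℕ, y * (x * y) ^ j = (y * x) ^ j * y := by
        intro j
        induction j with
        | zero => simp
        | succ j ih => rw [pow_succ, ← mul_assoc, ih, pow_succ]; noncomm_ring
      rw [this, pow_succ]
      noncomm_ring
    rw [h1, h2]
    exact comm_mem _ _

variable {p : ℕ} [Fact p.Prime] [CharP R p]

theorem neg_pow_char_mem (x : R) (hx : x ^ p ∈ Kg R) : (-x) ^ p ∈ Kg R := by
  have hp : p.Prime := Fact.out
  have h1 := add_pow_char_sub_mem (p := p) x (-x)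
  rw [add_neg_cancel, zero_pow hp.ne_zero, zero_sub] at h1
  have h2 := AddSubgroup.neg_mem _ h1
  rw [neg_neg] at h2
  have h3 := AddSubgroup.sub_mem _ h2 hx
  rwa [add_sub_cancel_left] at h3

theorem pow_char_mem {x : R} (hx : x ∈ Kg R) : x ^ p ∈ Kg R := by
  have hp : p.Prime := Fact.out
  induction hx using AddSubgroup.closure_induction with
  | mem x hx =>
    obtain ⟨u, v, rfl⟩ := hx
    have h1 := add_pow_char_sub_mem (p := p) (u * v - v * u) (v * u)
    rw [sub_add_cancel] at h1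
    have h2 := cyc_pow_mem u v p
    have h3 := AddSubgroup.sub_mem _ h2 h1
    have h4 : (u * v) ^ p - (v * u) ^ p - ((u * v) ^ p - ((u * v - v * u) ^ p + (v * u) ^ p)) =
        (u * v - v * u) ^ p := by abel
    rwa [h4] at h3
  | zero => rw [zero_pow hp.ne_zero]; exact AddSubgroup.zero_mem _
  | add x y _ _ hx hy =>
    have h1 := add_pow_char_sub_mem (p := p) x y
    have h2 := AddSubgroup.add_mem _ h1 (AddSubgroup.add_mem _ hx hy)
    rwa [sub_add_cancel] at h2
  | neg x _ hx => exact neg_pow_char_mem x hx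

theorem pow_char_congr {x y : R} (h : x - y ∈ Kg R) : x ^ p - y ^ p ∈ Kg R := by
  have h1 := add_pow_char_sub_mem (p := p) (x - y) y
  rw [sub_add_cancel] at h1
  have h2 := AddSubgroup.add_mem _ h1 (pow_char_mem (p := p) h)
  have h3 : x ^ p - ((x - y) ^ p + y ^ p) + (x - y) ^ p = x ^ p - y ^ p := by abel
  rwa [h3] at h2

theorem pow_char_pow_mem {x : R} (hx : x ∈ Kg R) (N : ℕ) : x ^ p ^ N ∈ Kg R := by
  induction N with
  | zero => simpa using hx
  | succ N ih => rw [pow_succ, pow_mul]; exact pow_char_mem ih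

theorem pow_char_pow_congr {x y : R} (h : x - y ∈ Kg R) (N : ℕ) :
    x ^ p ^ N - y ^ p ^ N ∈ Kg R := by
  induction N with
  | zero => simpa using h
  | succ N ih => rw [pow_succ, pow_mul, pow_mul]; exact pow_char_congr ih

theorem add_pow_char_pow_sub_mem (a b : R) (N : ℕ) :
    (a + b) ^ p ^ N - (a ^ p ^ N + b ^ p ^ N) ∈ Kg R := by
  induction N with
  | zero => simp
  | succ N ih =>
    rw [pow_succ, pow_mul, pow_mul, pow_mul]
    have h1 := pow_char_congr (p := p) ih
    have h2 := add_pow_char_sub_mem (p := p) (a ^ p ^ N) (b ^ p ^ N)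
    have h3 := AddSubgroup.add_mem _ h1 h2
    rwa [sub_add_sub_cancel] at h3

end powers

/-! ### algebras of endomorphisms over a finite field -/

section algebras

variable {k V : Type*} [Field k] [AddCommGroup V] [Module k V]
  {𝒜 : Subalgebra k (Module.End k V)}

theorem Kg.smul_mem {R : Type*} [Ring R] [Algebra k R] {x : R} (hx : x ∈ Kg R) (c : k) :
    c • x ∈ Kg R := by
  induction hx using AddSubgroup.closure_induction with
  | mem x hx =>
    obtain ⟨u, v, rfl⟩ := hx
    have : c • (u * v - v * u) = (c • u) * v - v * (c • u) := by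
      rw [smul_sub, smul_mul_assoc, mul_smul_comm]
    rw [this]
    exact comm_mem _ _
  | zero => rw [smul_zero]; exact AddSubgroup.zero_mem _
  | add x y _ _ hx hy => rw [smul_add]; exact AddSubgroup.add_mem _ hx hy
  | neg x _ hx => rw [smul_neg]; exact AddSubgroup.neg_mem _ hx

theorem mem_Kom_iff (x : 𝒜) : x.1 ∈ Kom 𝒜 ↔ x ∈ Kg 𝒜 := by
  constructor
  · intro h
    have key : ∀ y ∈ Kom 𝒜, ∃ hy : y ∈ 𝒜, (⟨y, hy⟩ : 𝒜) ∈ Kg 𝒜 := by
      intro y hy
      induction hy using Submodule.span_induction with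
      | mem y hy =>
        obtain ⟨a, ha, b, hb, rfl⟩ := hy
        exact ⟨𝒜.sub_mem (𝒜.mul_mem ha hb) (𝒜.mul_mem hb ha),
          comm_mem (⟨a, ha⟩ : 𝒜) (⟨b, hb⟩ : 𝒜)⟩
      | zero => exact ⟨𝒜.zero_mem, AddSubgroup.zero_mem _⟩
      | add y z _ _ hy hz =>
        obtain ⟨hy1, hy2⟩ := hy
        obtain ⟨hz1, hz2⟩ := hz
        exact ⟨𝒜.add_mem hy1 hz1, AddSubgroup.add_mem _ hy2 hz2⟩
      | smul c y _ hy =>
        obtain ⟨hy1, hy2⟩ := hy
        exact ⟨𝒜.smul_mem hy1 c, Kg.smul_mem hy2 c⟩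
    obtain ⟨h1, h2⟩ := key x.1 h
    exact h2
  · intro h
    induction h using AddSubgroup.closure_induction with
    | mem x hx =>
      obtain ⟨u, v, rfl⟩ := hx
      exact Submodule.subset_span ⟨u.1, u.2, v.1, v.2, rfl⟩
    | zero => exact Submodule.zero_mem _
    | add x y _ _ hx hy => exact Submodule.add_mem _ hx hy
    | neg x _ hx => exact Submodule.neg_mem _ hx

theorem Kom_le {x : Module.End k V} (hx : x ∈ Kom 𝒜) : x ∈ 𝒜 := by
  induction hx using Submodule.span_induction with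
  | mem y hy =>
    obtain ⟨a, ha, b, hb, rfl⟩ := hy
    exact 𝒜.sub_mem (𝒜.mul_mem ha hb) (𝒜.mul_mem hb ha)
  | zero => exact 𝒜.zero_mem
  | add y z _ _ hy hz => exact 𝒜.add_mem hy hz
  | smul c y _ hy => exact 𝒜.smul_mem hy c

/-- the cardinality of a finite field is a power of its characteristic -/
theorem exists_char (k : Type*) [Field k] [Finite k] :
    ∃ (p e : ℕ), Fact p.Prime ∧ CharP k p ∧ Nat.card k = p ^ e := by
  have := Fintype.ofFinite k
  obtain ⟨p, hp⟩ := CharP.exists k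
  obtain ⟨n, hprime, hn⟩ := FiniteField.card k p
  exact ⟨p, n, ⟨hprime⟩, hp, by rw [Nat.card_eq_fintype_card, hn]⟩

variable [Finite k]

theorem pow_card_pow (c : k) (N : ℕ) : c ^ Nat.card k ^ N = c := by
  have := Fintype.ofFinite k
  rw [Nat.card_eq_fintype_card]
  exact FiniteField.pow_card_pow N c

variable (𝒜)

theorem pow_pow_add_mem_Kom {a b : Module.End k V} (ha : a ∈ 𝒜) (hb : b ∈ 𝒜) (N : ℕ) :
    (a + b) ^ Nat.card k ^ N - (a ^ Nat.card k ^ N + b ^ Nat.card k ^ N) ∈ Kom 𝒜 := by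
  rcases subsingleton_or_nontrivial V with hV | hV
  · have : ∀ x : Module.End k V, x = 0 := fun x => LinearMap.ext fun v => Subsingleton.elim _ _
    rw [this ((a + b) ^ Nat.card k ^ N - (a ^ Nat.card k ^ N + b ^ Nat.card k ^ N))]
    exact Submodule.zero_mem _
  obtain ⟨p, e, hp, hc, hq⟩ := exists_char k
  have hchar : CharP 𝒜 p := charP_of_injective_algebraMap (algebraMap k 𝒜).injective p
  have h1 := add_pow_char_pow_sub_mem (p := p) (⟨a, ha⟩ : 𝒜) ⟨b, hb⟩ (e * N)
  rw [← mem_Kom_iff] at h1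
  rw [hq, ← pow_mul]
  exact h1

theorem pow_pow_mem_Kom {a : Module.End k V} (ha : a ∈ Kom 𝒜) (N : ℕ) :
    a ^ Nat.card k ^ N ∈ Kom 𝒜 := by
  rcases subsingleton_or_nontrivial V with hV | hV
  · have : ∀ x : Module.End k V, x = 0 := fun x => LinearMap.ext fun v => Subsingleton.elim _ _
    rw [this (a ^ Nat.card k ^ N)]
    exact Submodule.zero_mem _
  obtain ⟨p, e, hp, hc, hq⟩ := exists_char k
  have hchar : CharP 𝒜 p := charP_of_injective_algebraMap (algebraMap k 𝒜).injective p
  have h0 := (mem_Kom_iff (⟨a, Kom_le ha⟩ : 𝒜)).1 ha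
  have h1 := pow_char_pow_mem (p := p) h0 (e * N)
  rw [← mem_Kom_iff] at h1
  rw [hq, ← pow_mul]
  exact h1

theorem pow_add_mem_Kom {a b : Module.End k V} (ha : a ∈ 𝒜) (hb : b ∈ 𝒜) :
    (a + b) ^ Nat.card k - a ^ Nat.card k - b ^ Nat.card k ∈ Kom 𝒜 := by
  have := pow_pow_add_mem_Kom 𝒜 ha hb 1
  rw [pow_one] at this
  rwa [sub_sub]

theorem pow_mem_Kom {a : Module.End k V} (ha : a ∈ Kom 𝒜) : a ^ Nat.card k ∈ Kom 𝒜 := by
  have := pow_pow_mem_Kom 𝒜 ha 1
  rwa [pow_one] at this

theorem smul_pow_pow (c : k) (a : Module.End k V) (N : ℕ) :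
    (c • a) ^ Nat.card k ^ N = c • a ^ Nat.card k ^ N := by
  rw [_root_.smul_pow, pow_card_pow]

theorem cyc_mem_Kom {a b : Module.End k V} (ha : a ∈ 𝒜) (hb : b ∈ 𝒜) (m : ℕ) :
    (a * b) ^ m - (b * a) ^ m ∈ Kom 𝒜 := by
  have h1 := cyc_pow_mem (⟨a, ha⟩ : 𝒜) ⟨b, hb⟩ m
  rw [← mem_Kom_iff] at h1
  exact h1

end algebras

end Pool.NCF.FF
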