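import Pool.Agent.NCF.FF.Defs

/-!
The chain of subspaces refined by elements that are central modulo the radical and fixed by the
Frobenius map.
-/

set_option autoImplicit false
set_option linter.unusedSectionVars false

namespace Pool.NCF.FF

section

variable {k V : Type*} [Field k] [AddCommGroup V] [Module k V]

/-- Relation between consecutive members of the chain: `R` is the radical, the members of `zs` act
as scalars on the quotient. -/
structure GG (𝒜 : Subalgebra k (Module.End k V)) (R : Module.End k V → Prop)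
    (zs : Set (Module.End k V)) (Z Y : Submodule k V) : Prop where
  invZ : Inv 𝒜 Z
  invY : Inv 𝒜 Y
  le : Y ≤ Z
  rad : ∀ a, R a → ∀ v ∈ Z, a v ∈ Y
  sc : ∀ z ∈ zs, ∃ s : k, ∀ v ∈ Z, z v - s • v ∈ Y

/-- The next subspace. -/
def nextW (z : Module.End k V) (Y W : Submodule k V) (s : k) : Submodule k V :=
  Y ⊔ W.map (z - s • 1)

/-- The list of intermediate subspaces. -/
def pairS (z : Module.End k V) (Y : Submodule k V) :
    List k → Submodule k V → List (Submodule k V)
  | [], W => [W]
  | s :: sc, W => W :: pairS z Y sc (nextW z Y W s)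

variable {𝒜 : Subalgebra k (Module.End k V)} {R : Module.End k V → Prop}
  {zs : Set (Module.End k V)} {Z Y : Submodule k V} {z : Module.End k V}

theorem GG.refl (hR : ∀ a, R a → a ∈ 𝒜) (hzs : ∀ z ∈ zs, z ∈ 𝒜) (hY : Inv 𝒜 Y) :
    GG 𝒜 R zs Y Y where
  invZ := hY
  invY := hY
  le := le_rfl
  rad a ha v hv := hY a (hR a ha) v hv
  sc z hz := ⟨0, fun v hv => by rw [zero_smul, sub_zero]; exact hY z (hzs z hz) v hv⟩

theorem GG.mono (h : GG 𝒜 R zs Z Y) {zs' : Set (Module.End k V)} (hz : zs' ⊆ zs) :
    GG 𝒜 R zs' Z Y := ⟨h.invZ, h.invY, h.le, h.rad, fun z hz' => h.sc z (hz hz')⟩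

theorem inv_sup {A B : Submodule k V} (hA : Inv 𝒜 A) (hB : Inv 𝒜 B) : Inv 𝒜 (A ⊔ B) := by
  intro a ha y hy
  obtain ⟨y1, h1, y2, h2, rfl⟩ := Submodule.mem_sup.1 hy
  rw [map_add]
  exact Submodule.add_mem _ (Submodule.mem_sup_left (hA a ha y1 h1))
    (Submodule.mem_sup_right (hB a ha y2 h2))

/-- Properties of the next subspace. -/
theorem GG.next (h : GG 𝒜 R zs Z Y) (hz : z ∈ 𝒜) (hzc : ∀ a ∈ 𝒜, R (z * a - a * z))
    {W : Submodule k V} (hYW : Y ≤ W) (hWZ : W ≤ Z) (hW : Inv 𝒜 W) (s : k) :
    Y ≤ nextW z Y W s ∧ nextW z Y W s ≤ Z ∧ GG 𝒜 R (insert z zs) W (nextW z Y W s) := by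
  have h1 : Y ≤ nextW z Y W s := le_sup_left
  have hle : nextW z Y W s ≤ W := by
    refine sup_le hYW ?_
    rintro _ ⟨w, hw, rfl⟩
    rw [LinearMap.sub_apply, LinearMap.smul_apply, Module.End.one_apply]
    exact W.sub_mem (hW z hz w hw) (W.smul_mem _ hw)
  refine ⟨h1, hle.trans hWZ, hW, ?_, hle, ?_, ?_⟩
  · intro a ha y hy
    obtain ⟨y1, hy1, y2, ⟨w, hw, rfl⟩, rfl⟩ := Submodule.mem_sup.1 hy
    rw [map_add]
    refine Submodule.add_mem _ (h1 (h.invY a ha y1 hy1)) ?_
    have e : a ((z - s • (1 : Module.End k V)) w) =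
        (z - s • (1 : Module.End k V)) (a w) - (z * a - a * z) w := by
      simp only [LinearMap.sub_apply, LinearMap.smul_apply, Module.End.one_apply,
        Module.End.mul_apply, map_sub, map_smul]
      abel
    rw [e]
    refine Submodule.sub_mem _ (Submodule.mem_sup_right ⟨a w, hW a ha w hw, rfl⟩) ?_
    exact h1 (h.rad _ (hzc a ha) w (hWZ hw))
  · intro a ha v hv
    exact h1 (h.rad a ha v (hWZ hv))
  · intro z' hz'
    rcases Set.mem_insert_iff.1 hz' with rfl | hz'
    · refine ⟨s, fun v hv => Submodule.mem_sup_right ⟨v, hv, ?_⟩⟩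
      rw [LinearMap.sub_apply, LinearMap.smul_apply, Module.End.one_apply]
    · obtain ⟨s', hs'⟩ := h.sc z' hz'
      exact ⟨s', fun v hv => h1 (hs' v (hWZ hv))⟩

theorem pairS_head? (z : Module.End k V) (Y : Submodule k V) (sc : List k)
    (W : Submodule k V) : (pairS z Y sc W).head? = some W := by
  cases sc <;> rfl

theorem pairS_ne_nil (z : Module.End k V) (Y : Submodule k V) (sc : List k)
    (W : Submodule k V) : pairS z Y sc W ≠ [] := by
  intro h
  have := pairS_head? z Y sc W
  rw [h] at this
  simp at this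

/-- The last intermediate subspace. -/
def lastW (z : Module.End k V) (Y : Submodule k V) (sc : List k) (W : Submodule k V) :
    Submodule k V := sc.foldl (nextW z Y) W

theorem pairS_getLast? (z : Module.End k V) (Y : Submodule k V) (sc : List k) :
    ∀ W : Submodule k V, (pairS z Y sc W).getLast? = some (lastW z Y sc W) := by
  induction sc with
  | nil => intro W; rfl
  | cons s sc ih =>
    intro W
    have h1 : pairS z Y (s :: sc) W = W :: pairS z Y sc (nextW z Y W s) := rfl
    rw [h1, List.getLast?_cons, ih]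
    rfl

theorem GG.pairS (h : GG 𝒜 R zs Z Y) (hz : z ∈ 𝒜) (hzc : ∀ a ∈ 𝒜, R (z * a - a * z))
    (sc : List k) : ∀ {W : Submodule k V}, Y ≤ W → W ≤ Z → Inv 𝒜 W →
      (FF.pairS z Y sc W).IsChain (GG 𝒜 R (insert z zs)) ∧ Y ≤ lastW z Y sc W := by
  induction sc with
  | nil =>
    intro W hYW _ _
    exact ⟨List.isChain_singleton _, hYW⟩
  | cons s sc ih =>
    intro W hYW hWZ hW
    obtain ⟨h1, h2, h3⟩ := h.next hz hzc hYW hWZ hW s
    obtain ⟨h4, h5⟩ := ih h1 h2 h3.invY
    refine ⟨?_, h5⟩
    change (W :: FF.pairS z Y sc (nextW z Y W s)).IsChain _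
    rw [List.isChain_cons]
    refine ⟨?_, h4⟩
    intro y hy
    rw [pairS_head?] at hy
    rw [← Option.some.inj hy]
    exact h3

theorem lastW_le (hz : ∀ y ∈ Y, z y ∈ Y) (sc : List k) : ∀ W : Submodule k V,
    lastW z Y sc W ≤ Y ⊔ W.map (sc.map fun s => z - s • (1 : Module.End k V)).prod := by
  induction sc with
  | nil =>
    intro W w hw
    refine Submodule.mem_sup_right ⟨w, hw, ?_⟩
    simp
  | cons s sc ih =>
    intro W
    refine (ih (nextW z Y W s)).trans (sup_le le_sup_left ?_)
    rintro _ ⟨y, hy, rfl⟩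
    obtain ⟨y1, hy1, y2, ⟨w, hw, rfl⟩, rfl⟩ := Submodule.mem_sup.1 hy
    rw [map_add]
    have hprod : ∀ (l : List k), ∀ y ∈ Y,
        (l.map fun s => z - s • (1 : Module.End k V)).prod y ∈ Y := by
      intro l
      induction l with
      | nil => intro y hy; simpa using hy
      | cons t l ihl =>
        intro y hy
        rw [List.map_cons, List.prod_cons, Module.End.mul_apply, LinearMap.sub_apply,
          LinearMap.smul_apply, Module.End.one_apply]
        exact Y.sub_mem (hz _ (ihl y hy)) (Y.smul_mem _ (ihl y hy))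
    refine Submodule.add_mem _ (Submodule.mem_sup_left (hprod sc y1 hy1))
      (Submodule.mem_sup_right ⟨w, hw, ?_⟩)
    have hcomm : Commute (z - s • (1 : Module.End k V))
        (sc.map fun s => z - s • (1 : Module.End k V)).prod := by
      apply Commute.list_prod_right
      intro x hx
      obtain ⟨t, _, rfl⟩ := List.mem_map.1 hx
      refine Commute.sub_left (Commute.sub_right (Commute.refl z) ?_) (Commute.sub_right ?_ ?_)
      · exact (Commute.one_right z).smul_right t
      · exact (Commute.one_left z).smul_left s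
      · exact ((Commute.one_right (1 : Module.End k V)).smul_right t).smul_left s
    rw [List.map_cons, List.prod_cons, hcomm.eq]
    rfl

/-- Refinement of a chain. -/
def refS (z : Module.End k V) (sc : List k) : List (Submodule k V) → List (Submodule k V)
  | [] => []
  | [Z] => [Z]
  | Z :: Y :: rest => pairS z Y sc Z ++ refS z sc (Y :: rest)

theorem refS_head? (z : Module.End k V) (sc : List k) (L : List (Submodule k V)) :
    (refS z sc L).head? = L.head? := by
  cases L with
  | nil => rfl
  | cons Z L =>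
    cases L with
    | nil => rfl
    | cons Y rest =>
      change (pairS z Y sc Z ++ refS z sc (Y :: rest)).head? = _
      rw [List.head?_append_of_ne_nil _ (pairS_ne_nil z Y sc Z), pairS_head?]
      rfl

theorem refS_ne_nil (z : Module.End k V) (sc : List k) {L : List (Submodule k V)} (h : L ≠ []) :
    refS z sc L ≠ [] := by
  intro h1
  have h2 := refS_head? z sc L
  rw [h1] at h2
  cases L with
  | nil => exact h rfl
  | cons Z L => simp at h2

theorem refS_getLast? (z : Module.End k V) (sc : List k) (L : List (Submodule k V)) :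
    (refS z sc L).getLast? = L.getLast? := by
  induction L with
  | nil => rfl
  | cons Z L ih =>
    cases L with
    | nil => rfl
    | cons Y rest =>
      change (pairS z Y sc Z ++ refS z sc (Y :: rest)).getLast? = _
      rw [List.getLast?_append_of_ne_nil _ (refS_ne_nil z sc (by simp)), ih]
      simp

theorem isChain_refS (hR : ∀ a, R a → a ∈ 𝒜) (hzs : ∀ z ∈ zs, z ∈ 𝒜) (hz : z ∈ 𝒜)
    (hzc : ∀ a ∈ 𝒜, R (z * a - a * z)) {sc : List k}
    (hsc : R (sc.map fun s => z - s • (1 : Module.End k V)).prod)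
    {L : List (Submodule k V)} (hL : L.IsChain (GG 𝒜 R zs)) :
    (refS z sc L).IsChain (GG 𝒜 R (insert z zs)) := by
  induction L with
  | nil => exact List.isChain_nil
  | cons Z L ih =>
    cases L with
    | nil => exact List.isChain_singleton _
    | cons Y rest =>
      rw [List.isChain_cons_cons] at hL
      obtain ⟨h1, h2⟩ := hL
      change (FF.pairS z Y sc Z ++ refS z sc (Y :: rest)).IsChain _
      rw [List.isChain_append]
      obtain ⟨h3, h4⟩ := h1.pairS hz hzc sc h1.le le_rfl h1.invZ
      refine ⟨h3, ih h2, ?_⟩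
      intro x hx y hy
      rw [pairS_getLast?] at hx
      rw [refS_head?] at hy
      have hy' : Y = y := Option.some.inj hy
      have hx' : lastW z Y sc Z = x := Option.some.inj hx
      rw [← hy', ← hx']
      have h5 : lastW z Y sc Z = Y := by
        refine le_antisymm ((lastW_le (h1.invY z hz) sc Z).trans (sup_le le_rfl ?_)) h4
        rintro _ ⟨v, hv, rfl⟩
        exact h1.rad _ hsc v hv
      rw [h5]
      refine GG.refl hR ?_ h1.invY
      intro z' hz'
      rcases Set.mem_insert_iff.1 hz' with rfl | hz'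
      · exact hz
      · exact hzs z' hz'

/-- The span of the images under the radical. -/
def RZ (R : Module.End k V → Prop) (Z : Submodule k V) : Submodule k V :=
  Submodule.span k {v | ∃ a, R a ∧ ∃ z ∈ Z, v = a z}

theorem GG_RZ (hR : ∀ a, R a → a ∈ 𝒜) (hmul : ∀ a b, R a → b ∈ 𝒜 → R (b * a))
    (hZ : Inv 𝒜 Z) : GG 𝒜 R ∅ Z (RZ R Z) where
  invZ := hZ
  invY := by
    intro b hb y hy
    induction hy using Submodule.span_induction with
    | mem x hx =>
      obtain ⟨a, ha, z, hz, rfl⟩ := hx
      exact Submodule.subset_span ⟨b * a, hmul a b ha hb, z, hz, rfl⟩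
    | zero => rw [map_zero]; exact Submodule.zero_mem _
    | add x y _ _ hx hy => rw [map_add]; exact Submodule.add_mem _ hx hy
    | smul c x _ hx => rw [map_smul]; exact Submodule.smul_mem _ _ hx
  le := by
    unfold RZ
    rw [Submodule.span_le]
    rintro _ ⟨a, ha, z, hz, rfl⟩
    exact hZ a (hR a ha) z hz
  rad a ha v hv := Submodule.subset_span ⟨a, ha, v, hv, rfl⟩
  sc z hz := absurd hz (Set.notMem_empty z)

theorem inv_iter_RZ (hR : ∀ a, R a → a ∈ 𝒜) (hmul : ∀ a b, R a → b ∈ 𝒜 → R (b * a)) (i : ℕ) :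
    Inv 𝒜 ((RZ R)^[i] (⊤ : Submodule k V)) := by
  induction i with
  | zero => intro a _ y _; exact Submodule.mem_top
  | succ i ih => rw [Function.iterate_succ_apply']; exact (GG_RZ hR hmul ih).invY

theorem iter_RZ_eq_bot [FiniteDimensional k V] (hR : ∀ a, R a → a ∈ 𝒜)
    (hmul : ∀ a b, R a → b ∈ 𝒜 → R (b * a))
    (hbot : ∀ Z : Submodule k V, Inv 𝒜 Z → Z ≤ RZ R Z → Z = ⊥) (n : ℕ)
    (hn : Module.finrank k V ≤ n) : (RZ R)^[n] (⊤ : Submodule k V) = ⊥ := by
  have key : ∀ i, Module.finrank k ((RZ R)^[i] (⊤ : Submodule k V)) ≤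
      Module.finrank k V - i := by
    intro i
    induction i with
    | zero =>
      change Module.finrank k (⊤ : Submodule k V) ≤ _
      rw [finrank_top, Nat.sub_zero]
    | succ i ih =>
      set Z := (RZ R)^[i] (⊤ : Submodule k V) with hZ
      have hinv : Inv 𝒜 Z := inv_iter_RZ hR hmul i
      rw [Function.iterate_succ_apply', ← hZ]
      have hle := (GG_RZ hR hmul hinv).le
      by_cases hb : Z = ⊥
      · rw [hb] at hle ⊢
        rw [le_bot_iff.1 hle, finrank_bot]
        omega
      · have hne : RZ R Z ≠ Z := fun heq => hb (hbot Z hinv heq.ge)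
        have h3 := Submodule.finrank_lt_finrank_of_lt (lt_of_le_of_ne hle hne)
        omega
  have h := key n
  rw [Nat.sub_eq_zero_of_le hn, Nat.le_zero] at h
  exact Submodule.finrank_eq_zero.1 h

end

/-- The product of all `z - s`. -/
theorem prod_sub_smul {k E : Type*} [Field k] [Fintype k] [Ring E] [Algebra k E] (z : E)
    {sc : List k} (hsc : sc.Perm (Finset.univ : Finset k).toList) :
    (sc.map fun s => z - s • (1 : E)).prod = z ^ Nat.card k - z := by
  have h1 : (sc.map fun s => z - s • (1 : E)).prod =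
      Polynomial.aeval z ((sc.map fun s => Polynomial.X - Polynomial.C s).prod) := by
    rw [map_list_prod, List.map_map]
    congr 1
    refine List.map_congr_left fun s _ => ?_
    simp [Algebra.algebraMap_eq_smul_one]
  have h2 : (sc.map fun s => (Polynomial.X - Polynomial.C s : Polynomial k)).prod =
      Polynomial.X ^ Nat.card k - Polynomial.X := by
    rw [(hsc.map _).prod_eq]
    have h3 := FiniteField.roots_X_pow_card_sub_X k
    have hmon : (Polynomial.X ^ Fintype.card k - Polynomial.X : Polynomial k).Monic := by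
      apply Polynomial.monic_X_pow_sub
      rw [Polynomial.degree_X]
      exact_mod_cast Fintype.one_lt_card
    have h4 := Polynomial.prod_multiset_X_sub_C_of_monic_of_roots_card_eq hmon (by
      rw [h3, FiniteField.X_pow_card_sub_X_natDegree_eq k Fintype.one_lt_card]
      rfl)
    rw [h3] at h4
    rw [Nat.card_eq_fintype_card, ← h4, ← Finset.prod_eq_multiset_prod, Finset.prod_map_toList]
  rw [h1, h2]
  simp

end Pool.NCF.FF
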