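import Pool.Agent.NCF.FF.Alg
import Pool.Agent.NCF.FF.ChainMath

/-!
The chain of stable subspaces over a finite field in polynomial time.
-/

set_option autoImplicit false
set_option linter.unusedSectionVars false

namespace Pool.NCF.FF

open Pool.Agent.PolyTime Pool.Agent.LinAlg

section

variable {k : Type} [Field k]

/-! ### subspaces of `k ^ n` -/

/-- Restriction to the first `n` coordinates. -/
def rs (n : ℕ) : (ℕ → k) →ₗ[k] (Fin n → k) where
  toFun x := fun i => x i
  map_add' _ _ := rfl
  map_smul' _ _ := rfl

theorem vec_eq (n : ℕ) (v : List k) : vec n v = rs n (vl v) := rfl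

theorem rowSpan_eq (n : ℕ) (L : List (List k)) : rowSpan n L = (Sp L).map (rs n) := by
  unfold rowSpan Sp
  rw [Submodule.map_span]
  congr 1
  ext x
  constructor
  · rintro ⟨l, hl, rfl⟩
    exact ⟨vl l, ⟨l, hl, rfl⟩, rfl⟩
  · rintro ⟨_, ⟨l, hl, rfl⟩, rfl⟩
    exact ⟨l, hl, rfl⟩

theorem rowSpan_le {n : ℕ} {L : List (List k)} {U : Submodule k (Fin n → k)} :
    rowSpan n L ≤ U ↔ ∀ v ∈ L, vec n v ∈ U := by
  unfold rowSpan
  rw [Submodule.span_le]
  constructor
  · intro h v hv; exact h ⟨v, hv, rfl⟩
  · rintro h _ ⟨v, hv, rfl⟩; exact h v hv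

theorem mem_rowSpan {n : ℕ} {L : List (List k)} {v : List k} (h : v ∈ L) :
    vec n v ∈ rowSpan n L := Submodule.subset_span ⟨v, h, rfl⟩

theorem rowSpan_append (n : ℕ) (L M : List (List k)) :
    rowSpan n (L ++ M) = rowSpan n L ⊔ rowSpan n M := by
  rw [rowSpan_eq, rowSpan_eq, rowSpan_eq, Sp_append, Submodule.map_sup]

theorem rowSpan_mono {n : ℕ} {L M : List (List k)} (h : L ⊆ M) : rowSpan n L ≤ rowSpan n M :=
  rowSpan_le.2 fun _ hv => mem_rowSpan (h hv)

theorem rs_inj {n : ℕ} {x y : ℕ → k} (hx : Supp n x) (hy : Supp n y) (h : rs n x = rs n y) :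
    x = y := by
  funext i
  by_cases hi : i < n
  · exact congrFun h ⟨i, hi⟩
  · rw [hx i (by omega), hy i (by omega)]

/-- All vectors of the list have length `n`. -/
def LN (n : ℕ) (L : List (List k)) : Prop := ∀ v ∈ L, v.length = n

theorem LN.supp {n : ℕ} {L : List (List k)} (h : LN n L) : ∀ v ∈ L, Supp n (vl v) :=
  fun v hv => supp_vl (h v hv).le

variable [DecidableEq k]

theorem rowSpan_bas {n : ℕ} {L : List (List k)} (hL : LN n L) :
    rowSpan n (bas n L) = rowSpan n L := by
  rw [rowSpan_eq, rowSpan_eq, Sp_bas hL.supp]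

/-- The list is a computed basis. -/
def IsB (n : ℕ) (Z : List (List k)) : Prop := ∃ L, LN n L ∧ Z = bas n L

theorem IsB.length_le {n : ℕ} {Z : List (List k)} (h : IsB n Z) : Z.length ≤ n := by
  obtain ⟨L, _, rfl⟩ := h
  exact length_bas_le n L

theorem IsB.ln {n : ℕ} {Z : List (List k)} (h : IsB n Z) : LN n Z := by
  obtain ⟨L, _, rfl⟩ := h
  exact fun v hv => length_bas_mem hv

theorem IsB.finrank {n : ℕ} {Z : List (List k)} (h : IsB n Z) :
    Module.finrank k (rowSpan n Z) = Z.length := by
  obtain ⟨L, hL, rfl⟩ := h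
  have h1 : Module.finrank k (Sp (bas n L)) = (bas n L).length := by
    unfold bas rows
    rw [List.length_map]
    exact (ech_rref n L).finrank
  rw [← h1, rowSpan_eq]
  have hle : Sp (bas n L) ≤ Fn k n := Sp_le_Fn fun v hv => supp_vl (length_bas_mem hv).le
  have hinj : Function.Injective ((rs n).domRestrict (Sp (bas n L))) := by
    intro x y hxy
    exact Subtype.ext (rs_inj (hle x.2) (hle y.2) hxy)
  have h2 : (Sp (bas n L)).map (rs n) = LinearMap.range ((rs n).domRestrict (Sp (bas n L))) := by
    rw [LinearMap.range_domRestrict]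
  rw [h2]
  exact LinearMap.finrank_range_of_inj hinj

/-! ### operations -/

/-- A matrix applied to a vector. -/
def applyF (n : ℕ) (a v : List k) : List k :=
  mkv n fun i => ((List.range n).map fun l => vl a (i * n + l) * vl v l).sum

theorem vec_applyF (n : ℕ) (a v : List k) :
    vec n (applyF n a v) = ue n (vl a) (vec n v) := by
  rw [ue_apply, toE_apply]
  funext i
  rw [vec_eq]
  change vl (applyF n a v) i = _
  unfold applyF
  rw [vl_mkv_lt i.2, list_sum_range']
  rfl

/-- All images. -/
def imgF (n : ℕ) (ops Z : List (List k)) : List (List k) :=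
  ops.flatMap fun a => Z.map (applyF n a)

theorem ln_imgF (n : ℕ) (ops Z : List (List k)) : LN n (imgF n ops Z) := by
  intro v hv
  obtain ⟨a, _, hv⟩ := List.mem_flatMap.1 hv
  obtain ⟨z, _, rfl⟩ := List.mem_map.1 hv
  exact length_mkv _ _

theorem rowSpan_map_applyF (n : ℕ) (a : List k) (Z : List (List k)) :
    rowSpan n (Z.map (applyF n a)) = (rowSpan n Z).map (ue n (vl a)) := by
  apply le_antisymm
  · rw [rowSpan_le]
    intro v hv
    obtain ⟨z, hz, rfl⟩ := List.mem_map.1 hv
    rw [vec_applyF]
    exact ⟨_, mem_rowSpan hz, rfl⟩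
  · rw [Submodule.map_le_iff_le_comap, rowSpan_le]
    intro z hz
    rw [Submodule.mem_comap, ← vec_applyF]
    exact mem_rowSpan (List.mem_map.2 ⟨z, hz, rfl⟩)

theorem rowSpan_imgF {n : ℕ} {ops Z : List (List k)} {R : Module.End k (Fin n → k) → Prop}
    (hR : ∀ a, R a ↔ a ∈ es n ops) : rowSpan n (imgF n ops Z) = RZ R (rowSpan n Z) := by
  apply le_antisymm
  · rw [rowSpan_le]
    intro v hv
    obtain ⟨a, ha, hv⟩ := List.mem_flatMap.1 hv
    obtain ⟨z, hz, rfl⟩ := List.mem_map.1 hv
    rw [vec_applyF]
    exact Submodule.subset_span ⟨_, (hR _).2 (mem_es ha), _, mem_rowSpan hz, rfl⟩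
  · unfold RZ
    rw [Submodule.span_le]
    rintro _ ⟨a, ha, v, hv, rfl⟩
    rw [hR] at ha
    have h1 : es n ops ≤ (rowSpan n (imgF n ops Z)).comap
        (LinearMap.applyₗ v : Module.End k (Fin n → k) →ₗ[k] (Fin n → k)) := by
      rw [es_le]
      intro a ha
      rw [Submodule.mem_comap, LinearMap.applyₗ_apply_apply]
      have h2 : ue n (vl a) v ∈ rowSpan n (Z.map (applyF n a)) := by
        rw [rowSpan_map_applyF]
        exact ⟨v, hv, rfl⟩
      refine rowSpan_mono ?_ h2
      intro w hw
      exact List.mem_flatMap.2 ⟨a, ha, hw⟩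
    exact h1 ha

/-- The next subspace. -/
def stepW (n : ℕ) (z : List k) (Y W : List (List k)) (s : k) : List (List k) :=
  bas n (Y ++ W.map (applyF n (subF n z (scF n s))))

theorem ln_stepW {n : ℕ} {z : List k} {Y W : List (List k)} {s : k} (hY : LN n Y) :
    LN n (Y ++ W.map (applyF n (subF n z (scF n s)))) := by
  intro v hv
  rcases List.mem_append.1 hv with h | h
  · exact hY v h
  · obtain ⟨w, _, rfl⟩ := List.mem_map.1 h
    exact length_mkv _ _

theorem rowSpan_stepW {n : ℕ} {z : List k} {Y W : List (List k)} {s : k} (hY : LN n Y) :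
    rowSpan n (stepW n z Y W s) = nextW (ue n (vl z)) (rowSpan n Y) (rowSpan n W) s := by
  unfold stepW nextW
  rw [rowSpan_bas (ln_stepW hY), rowSpan_append, rowSpan_map_applyF, ue_subF, ue_scF]

/-- The list of intermediate subspaces. -/
def pairL (n : ℕ) (z : List k) (Y : List (List k)) :
    List k → List (List k) → List (List (List k))
  | [], W => [W]
  | s :: sc, W => W :: pairL n z Y sc (stepW n z Y W s)

theorem map_pairL {n : ℕ} {z : List k} {Y : List (List k)} (hY : LN n Y) (sc : List k) :
    ∀ W : List (List k), (pairL n z Y sc W).map (rowSpan n) =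
      pairS (ue n (vl z)) (rowSpan n Y) sc (rowSpan n W) := by
  induction sc with
  | nil => intro W; rfl
  | cons s sc ih =>
    intro W
    change rowSpan n W :: (pairL n z Y sc (stepW n z Y W s)).map (rowSpan n) = _
    rw [ih, rowSpan_stepW hY]
    rfl

theorem isB_pairL {n : ℕ} {z : List k} {Y : List (List k)} (hY : IsB n Y) (sc : List k) :
    ∀ W : List (List k), IsB n W → ∀ X ∈ pairL n z Y sc W, IsB n X := by
  induction sc with
  | nil =>
    intro W hW X hX
    rw [List.mem_singleton.1 hX]
    exact hW
  | cons s sc ih =>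
    intro W hW X hX
    rcases List.mem_cons.1 hX with rfl | hX
    · exact hW
    · exact ih _ ⟨_, ln_stepW hY.ln, rfl⟩ X hX

/-- Refinement of a chain. -/
def refL (n : ℕ) (z : List k) (sc : List k) : List (List (List k)) → List (List (List k))
  | [] => []
  | [Z] => [Z]
  | Z :: Y :: rest => pairL n z Y sc Z ++ refL n z sc (Y :: rest)

theorem map_refL {n : ℕ} {z : List k} {sc : List k} {L : List (List (List k))}
    (hL : ∀ X ∈ L, IsB n X) :
    (refL n z sc L).map (rowSpan n) = refS (ue n (vl z)) sc (L.map (rowSpan n)) := by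
  induction L with
  | nil => rfl
  | cons Z L ih =>
    cases L with
    | nil => rfl
    | cons Y rest =>
      change (pairL n z Y sc Z ++ refL n z sc (Y :: rest)).map (rowSpan n) = _
      rw [List.map_append, ih fun X hX => hL X (List.mem_cons_of_mem _ hX),
        map_pairL (hL Y (by simp)).ln]
      rfl

theorem isB_refL {n : ℕ} {z : List k} {sc : List k} {L : List (List (List k))}
    (hL : ∀ X ∈ L, IsB n X) : ∀ X ∈ refL n z sc L, IsB n X := by
  induction L with
  | nil => intro X hX; simp [refL] at hX
  | cons Z L ih =>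
    cases L with
    | nil => exact hL
    | cons Y rest =>
      intro X hX
      change X ∈ pairL n z Y sc Z ++ refL n z sc (Y :: rest) at hX
      rcases List.mem_append.1 hX with h | h
      · exact isB_pairL (hL Y (by simp)) sc Z (hL Z (by simp)) X h
      · exact ih (fun X hX => hL X (List.mem_cons_of_mem _ hX)) X h

/-- One step of the removal of repetitions. -/
def prStep (Z : List (List k)) (acc : List (List (List k))) : List (List (List k)) :=
  acc.head?.elim [Z] fun Z' => if Z.length ≤ Z'.length then acc else Z :: acc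

/-- Removal of repetitions. -/
def prL (L : List (List (List k))) : List (List (List k)) := L.foldr prStep []

theorem prL_cons (Z : List (List k)) (L : List (List (List k))) :
    prL (Z :: L) = prStep Z (prL L) := rfl

theorem prL_sublist (L : List (List (List k))) : (prL L).Sublist L := by
  induction L with
  | nil => exact List.Sublist.refl _
  | cons Z L ih =>
    rw [prL_cons]
    unfold prStep
    cases h : (prL L).head? with
    | none =>
      rw [List.head?_eq_none_iff] at h
      exact List.Sublist.cons_cons Z (List.nil_sublist L)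
    | some Z' =>
      change (if Z.length ≤ Z'.length then prL L else Z :: prL L).Sublist (Z :: L)
      split_ifs
      · exact ih.cons Z
      · exact List.Sublist.cons_cons Z ih

theorem prL_lengths (L : List (List (List k))) :
    (prL L).IsChain fun Z Y => Y.length < Z.length := by
  induction L with
  | nil => exact List.isChain_nil
  | cons Z L ih =>
    rw [prL_cons]
    unfold prStep
    cases h : (prL L).head? with
    | none => exact List.isChain_singleton _
    | some Z' =>
      change (if Z.length ≤ Z'.length then prL L else Z :: prL L).IsChain _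
      split_ifs with h1
      · exact ih
      · rw [List.isChain_cons]
        refine ⟨fun y hy => ?_, ih⟩
        rw [h] at hy
        rw [← Option.some.inj hy]
        omega

theorem length_of_isChain {L : List (List (List k))}
    (h : L.IsChain fun Z Y => Y.length < Z.length) {n : ℕ} (hn : ∀ Z ∈ L, Z.length ≤ n) :
    L.length ≤ n + 1 := by
  induction L generalizing n with
  | nil => simp
  | cons Z L ih =>
    rw [List.isChain_cons] at h
    rw [List.length_cons]
    cases L with
    | nil => simp
    | cons Y rest =>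
      have h1 : Y.length < Z.length := h.1 Y (by simp)
      have h2 : Z.length ≤ n := hn Z (by simp)
      have h3 : ∀ X ∈ Y :: rest, X.length ≤ n - 1 := by
        have key : ∀ (M : List (List (List k))) (Y : List (List k)),
            (Y :: M).IsChain (fun Z Y => Y.length < Z.length) →
            ∀ X ∈ Y :: M, X.length ≤ Y.length := by
          intro M
          induction M with
          | nil => intro Y _ X hX; rw [List.mem_singleton.1 hX]
          | cons W M ihM =>
            intro Y hc X hX
            rw [List.isChain_cons_cons] at hc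
            rcases List.mem_cons.1 hX with rfl | hX
            · exact le_rfl
            · exact (ihM W hc.2 X hX).trans hc.1.le
        intro X hX
        have := key rest Y h.2 X hX
        omega
      have := ih h.2 h3
      omega

section prune

variable {n : ℕ} {𝒜 : Subalgebra k (Module.End k (Fin n → k))}
  {R : Module.End k (Fin n → k) → Prop} {zs : Set (Module.End k (Fin n → k))}

theorem prL_spec {L : List (List (List k))} (hB : ∀ X ∈ L, IsB n X)
    (hL : (L.map (rowSpan n)).IsChain (GG 𝒜 R zs)) :
    ((prL L).map (rowSpan n)).IsChain (GG 𝒜 R zs) ∧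
      ((prL L).head?.map (rowSpan n)) = (L.head?.map (rowSpan n)) ∧
      ((prL L).getLast?.map (rowSpan n)) = (L.getLast?.map (rowSpan n)) := by
  induction L with
  | nil => exact ⟨List.isChain_nil, rfl, rfl⟩
  | cons Z L ih =>
    rw [List.map_cons, List.isChain_cons] at hL
    obtain ⟨h1, h2, h3⟩ := ih (fun X hX => hB X (List.mem_cons_of_mem _ hX)) hL.2
    have hsub := prL_sublist L
    rw [prL_cons]
    cases h : (prL L).head? with
    | none =>
      have h4 : prL L = [] := by rwa [List.head?_eq_none_iff] at h
      have h5 : L = [] := by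
        rw [h4] at h2
        cases L with
        | nil => rfl
        | cons Y rest => simp at h2
      subst h5
      refine ⟨?_, ?_, ?_⟩
      · exact List.isChain_singleton _
      · rfl
      · rfl
    | some Z' =>
      have hZ'mem : Z' ∈ prL L := List.mem_of_head? h
      have hZ'B : IsB n Z' := hB Z' (List.mem_cons_of_mem _ (hsub.subset hZ'mem))
      have hne : prL L ≠ [] := List.ne_nil_of_mem hZ'mem
      have hLne : L ≠ [] := List.ne_nil_of_mem (hsub.subset hZ'mem)
      have hhead : L.head?.map (rowSpan n) = some (rowSpan n Z') := by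
        rw [← h2, h]; rfl
      have hGG : GG 𝒜 R zs (rowSpan n Z) (rowSpan n Z') := by
        refine hL.1 _ ?_
        rw [List.head?_map, hhead]
        rfl
      have hps : prStep Z (prL L) = if Z.length ≤ Z'.length then prL L else Z :: prL L := by
        unfold prStep
        rw [h]
        rfl
      rw [hps]
      have hlast : ∀ (M : List (List (List k))), M ≠ [] → (Z :: M).getLast? = M.getLast? := by
        intro M hM
        cases M with
        | nil => exact absurd rfl hM
        | cons Y rest => simp
      split_ifs with h4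
      · have heq : rowSpan n Z' = rowSpan n Z := by
          refine Submodule.eq_of_le_of_finrank_le hGG.le ?_
          rw [hZ'B.finrank, (hB Z (by simp)).finrank]
          exact h4
        refine ⟨h1, ?_, ?_⟩
        · rw [h]
          change some (rowSpan n Z') = some (rowSpan n Z)
          rw [heq]
        · rw [h3, hlast L hLne]
      · refine ⟨?_, rfl, ?_⟩
        · rw [List.map_cons, List.isChain_cons]
          refine ⟨?_, h1⟩
          intro y hy
          rw [List.head?_map, h] at hy
          rw [← Option.some.inj hy]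
          exact hGG
        · rw [hlast _ hne, hlast L hLne, h3]

end prune

/-! ### the chain -/

/-- The unit vectors. -/
def units (k : Type) [Field k] (n : ℕ) : List (List k) :=
  (List.range n).map fun i => mkv n fun j => if j = i then 1 else 0

theorem ln_units (n : ℕ) : LN n (units k n) := by
  intro v hv
  obtain ⟨i, _, rfl⟩ := List.mem_map.1 hv
  exact length_mkv _ _

theorem rowSpan_units (n : ℕ) : rowSpan n (units k n) = ⊤ := by
  rw [eq_top_iff]
  intro v _
  have h1 : v = ∑ i, v i • (Pi.single i (1 : k) : Fin n → k) := by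
    funext j
    simp [Finset.sum_apply, Pi.single_apply]
  rw [h1]
  refine Submodule.sum_mem _ fun i _ => Submodule.smul_mem _ _ ?_
  have h2 : (Pi.single i (1 : k) : Fin n → k) =
      vec n (mkv n fun j => if j = (i : ℕ) then 1 else 0) := by
    funext j
    rw [vec_eq]
    change _ = vl (mkv n fun j => if j = (i : ℕ) then 1 else 0) j
    rw [vl_mkv_lt j.2, Pi.single_apply]
    by_cases h : j = i
    · rw [if_pos h, if_pos (by rw [h])]
    · rw [if_neg h, if_neg fun h' => h (Fin.ext h')]
  rw [h2]
  exact mem_rowSpan (List.mem_map.2 ⟨i, List.mem_range.2 i.2, rfl⟩)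

/-- The powers of the radical applied to the whole space. -/
def radIt (n : ℕ) (R : List (List k)) (i : ℕ) : List (List k) :=
  (fun Z => bas n (imgF n R Z))^[i] (bas n (units k n))

theorem isB_radIt (n : ℕ) (R : List (List k)) (i : ℕ) : IsB n (radIt n R i) := by
  unfold radIt
  cases i with
  | zero => exact ⟨_, ln_units n, rfl⟩
  | succ i => rw [Function.iterate_succ_apply']; exact ⟨_, ln_imgF _ _ _, rfl⟩

/-- The first chain. -/
def chain0 (n : ℕ) (R : List (List k)) : List (List (List k)) :=
  (List.range (n + 1)).map fun i => radIt n R (min i n)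

/-- The chain. -/
def chainL (n q : ℕ) (sc : List k) (G : List (List (List k))) : List (List (List k)) :=
  (C1F n q (algB n G)).foldl (fun L z => prL (refL n z sc L)) (chain0 n (RF n q (algB n G)))

theorem rowSpan_radIt {n : ℕ} {L : List (List k)} {R : Module.End k (Fin n → k) → Prop}
    (hR : ∀ a, R a ↔ a ∈ es n L) (i : ℕ) :
    rowSpan n (radIt n L i) = (RZ R)^[i] ⊤ := by
  unfold radIt
  induction i with
  | zero => rw [Function.iterate_zero, Function.iterate_zero, id, id, rowSpan_bas (ln_units n),
      rowSpan_units]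
  | succ i ih =>
    rw [Function.iterate_succ_apply', Function.iterate_succ_apply',
      rowSpan_bas (ln_imgF _ _ _), rowSpan_imgF hR, ih]

theorem isB_foldl (n : ℕ) (sc : List k) (C : List (List k)) : ∀ L : List (List (List k)),
    (∀ X ∈ L, IsB n X) → ∀ X ∈ C.foldl (fun L z => prL (refL n z sc L)) L, IsB n X := by
  induction C with
  | nil => intro L hL; exact hL
  | cons z C ih =>
    intro L hL
    refine ih _ fun X hX => ?_
    exact isB_refL hL X ((prL_sublist _).subset hX)

theorem foldl_spec {n : ℕ} {𝒜 : Subalgebra k (Module.End k (Fin n → k))}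
    {R : Module.End k (Fin n → k) → Prop} (hR : ∀ a, R a → a ∈ 𝒜) {sc : List k}
    (C : List (List k))
    (hC : ∀ z ∈ C, ue n (vl z) ∈ 𝒜 ∧ (∀ a ∈ 𝒜, R (ue n (vl z) * a - a * ue n (vl z))) ∧
      R (sc.map fun s => ue n (vl z) - s • (1 : Module.End k (Fin n → k))).prod) :
    ∀ (L : List (List (List k))) (zs : Set (Module.End k (Fin n → k))), (∀ z ∈ zs, z ∈ 𝒜) →
      (∀ X ∈ L, IsB n X) → (L.map (rowSpan n)).IsChain (GG 𝒜 R zs) →
      ((C.foldl (fun L z => prL (refL n z sc L)) L).map (rowSpan n)).IsChain
        (GG 𝒜 R (zs ∪ {a | ∃ z ∈ C, a = ue n (vl z)})) ∧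
      ((C.foldl (fun L z => prL (refL n z sc L)) L).head?.map (rowSpan n)) =
        (L.head?.map (rowSpan n)) ∧
      ((C.foldl (fun L z => prL (refL n z sc L)) L).getLast?.map (rowSpan n)) =
        (L.getLast?.map (rowSpan n)) := by
  induction C with
  | nil =>
    intro L zs _ _ hL
    refine ⟨?_, rfl, rfl⟩
    simpa using hL
  | cons z C ih =>
    intro L zs hzs hB hL
    obtain ⟨h1, h2, h3⟩ := hC z List.mem_cons_self
    have h4 : ((refL n z sc L).map (rowSpan n)).IsChain (GG 𝒜 R (insert (ue n (vl z)) zs)) := by
      rw [map_refL hB]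
      exact isChain_refS hR hzs h1 h2 h3 hL
    obtain ⟨h5, h6, h7⟩ := prL_spec (isB_refL hB) h4
    obtain ⟨h8, h9, h10⟩ := ih (fun z hz => hC z (List.mem_cons_of_mem _ hz))
      (prL (refL n z sc L)) (insert (ue n (vl z)) zs) (by
        intro z' hz'
        rcases Set.mem_insert_iff.1 hz' with rfl | hz'
        · exact h1
        · exact hzs z' hz')
      (fun X hX => isB_refL hB X ((prL_sublist _).subset hX)) h5
    have hset : insert (ue n (vl z)) zs ∪ {a | ∃ z ∈ C, a = ue n (vl z)} =
        zs ∪ {a | ∃ z' ∈ z :: C, a = ue n (vl z')} := by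
      ext a
      simp only [Set.mem_union, Set.mem_insert_iff, Set.mem_setOf_eq, List.mem_cons,
        exists_eq_or_imp]
      tauto
    rw [hset] at h8
    refine ⟨h8, ?_, ?_⟩
    · rw [List.foldl_cons, h9, h6, ← List.head?_map, map_refL hB, refS_head?, List.head?_map]
    · rw [List.foldl_cons, h10, h7, ← List.getLast?_map, map_refL hB, refS_getLast?,
        List.getLast?_map]

end

/-! ### polynomial time -/

section pt

variable {k : Type} [Field k] [Finite k] [DecidableEq k] [PEnc k] {α : Type} [PEnc α]

theorem pt_applyF {n : α → ℕ} {a v : α → List k} (hn : PolyTime n) (hnb : PBd n)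
    (ha : PolyTime a) (hv : PolyTime v) : PolyTime (fun x => applyF (n x) (a x) (v x)) := by
  unfold applyF
  refine pt_mkv hn hnb (pt_list_sum ?_)
  refine PolyTime.map (PolyTime.range (by fun_prop) (hnb.comp PolyTime.fst')) ?_
  fun_prop

theorem pt_imgF {n : α → ℕ} {ops Z : α → List (List k)} (hn : PolyTime n) (hnb : PBd n)
    (ho : PolyTime ops) (hZ : PolyTime Z) : PolyTime (fun x => imgF (n x) (ops x) (Z x)) := by
  unfold imgF
  refine PolyTime.flatMap ho ?_
  refine PolyTime.map (l := fun q : α × List k => Z q.1) (by fun_prop) ?_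
  exact pt_applyF (α := (α × List k) × List k) (n := fun q => n q.1.1) (a := fun q => q.1.2)
    (v := fun q => q.2) (by fun_prop)
    (hnb.comp (f := fun q : (α × List k) × List k => q.1.1) (by fun_prop)) (by fun_prop)
    (by fun_prop)

theorem pt_stepW {n : α → ℕ} {z : α → List k} {Y W : α → List (List k)} {s : α → k}
    (hn : PolyTime n) (hnb : PBd n) (hz : PolyTime z) (hY : PolyTime Y) (hW : PolyTime W)
    (hs : PolyTime s) : PolyTime (fun x => stepW (n x) (z x) (Y x) (W x) (s x)) := by
  unfold stepW
  refine pt_bas hn hnb (PolyTime.append hY (PolyTime.map hW ?_))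
  have h := hnb.comp (f := fun q : α × List k => q.1) (by fun_prop)
  exact pt_applyF (α := α × List k) (n := fun q => n q.1) (v := fun q => q.2) (by fun_prop) h
    (pt_subF (α := α × List k) (n := fun q => n q.1) (by fun_prop) h (by fun_prop)
      (pt_scF (α := α × List k) (n := fun q => n q.1) (by fun_prop) h (by fun_prop)))
    (by fun_prop)

theorem pt_pairL (sc : List k) {n : α → ℕ} {z : α → List k} {Y : α → List (List k)}
    (hn : PolyTime n) (hnb : PBd n) (hz : PolyTime z) (hY : PolyTime Y) :
    ∀ {W : α → List (List k)}, PolyTime W →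
      PolyTime (fun x => pairL (n x) (z x) (Y x) sc (W x)) := by
  induction sc with
  | nil => intro W hW; exact PolyTime.cons hW (PolyTime.const [])
  | cons s sc ih =>
    intro W hW
    exact PolyTime.cons hW (ih (pt_stepW hn hnb hz hY hW (PolyTime.const s)))

theorem refL_eq (n : ℕ) (z : List k) (sc : List k) (L : List (List (List k))) :
    refL n z sc L = ((L.zip L.tail).flatMap fun p => pairL n z p.2 sc p.1) ++
      L.reverse.head?.elim [] fun Z => [Z] := by
  induction L with
  | nil => rfl
  | cons Z L ih =>
    cases L with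
    | nil => rfl
    | cons Y rest =>
      change pairL n z Y sc Z ++ refL n z sc (Y :: rest) = _
      rw [ih, ← List.append_assoc, List.head?_reverse, List.head?_reverse,
        List.getLast?_cons_cons]
      rfl

theorem pt_refL (sc : List k) {n : α → ℕ} {z : α → List k} {L : α → List (List (List k))}
    (hn : PolyTime n) (hnb : PBd n) (hz : PolyTime z) (hL : PolyTime L) :
    PolyTime (fun x => refL (n x) (z x) sc (L x)) := by
  have h1 : PolyTime fun x => (((L x).zip (L x).tail).flatMap fun p => pairL (n x) (z x) p.2 sc p.1)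
      ++ (L x).reverse.head?.elim [] fun Z => [Z] := by
    refine PolyTime.append (PolyTime.flatMap (PolyTime.zip hL (PolyTime.tail hL)) ?_) ?_
    · exact pt_pairL (α := α × (List (List k) × List (List k))) sc (n := fun p => n p.1)
        (z := fun p => z p.1) (Y := fun p => p.2.2) (by fun_prop) (hnb.comp PolyTime.fst')
        (by fun_prop) (by fun_prop) (W := fun p => p.2.1) (by fun_prop)
    · exact PolyTime.option_elim (PolyTime.head? (PolyTime.reverse hL)) (PolyTime.const [])
        (PolyTime.cons PolyTime.snd' (PolyTime.const []))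
  exact h1.congr fun x => (refL_eq _ _ _ _).symm

theorem pt_prL {L : α → List (List (List k))} (hL : PolyTime L) :
    PolyTime (fun x => prL (L x)) := by
  unfold prL
  refine PolyTime.foldr (s := fun _ => []) (h := fun _ Z acc => prStep Z acc) hL
    (PolyTime.const []) ?_ hL.pbd ?_
  · unfold prStep
    refine PolyTime.option_elim (PolyTime.head? (by fun_prop))
      (PolyTime.cons (by fun_prop) (PolyTime.const [])) ?_
    refine PolyTime.ite (PolyTime.decide_le (by fun_prop) (by fun_prop)) (by fun_prop) ?_
    exact PolyTime.cons (by fun_prop) (by fun_prop)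
  · intro a i
    exact size_sublist ((prL_sublist ((L a).drop i)).trans (List.drop_sublist _ _))

theorem size_isB {n : ℕ} {L : List (List (List k))} (h : ∀ X ∈ L, IsB n X) :
    size L ≤ L.length * (2 * (n * (2 * (n * (2 * csz k + 1)) + 1)) + 1) :=
  size_le_of_forall fun X hX => by
    obtain ⟨M, _, rfl⟩ := h X hX
    exact size_bas_le n M

theorem pt_chain0 {n : α → ℕ} {R : α → List (List k)} (hn : PolyTime n) (hnb : PBd n)
    (hR : PolyTime R) : PolyTime (fun x => chain0 (n x) (R x)) := by
  unfold chain0
  refine PolyTime.map (PolyTime.range (by fun_prop) (hnb.add (PBd.const 1))) ?_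
  unfold radIt
  have hb : PBd fun p : α × ℕ => n p.1 := hnb.comp PolyTime.fst'
  refine PolyTime.iterate (f := fun (p : α × ℕ) Z => bas (n p.1) (imgF (n p.1) (R p.1) Z))
    (n := fun p => min p.2 (n p.1))
    (B := fun p => n p.1 * (2 * (n p.1 * (2 * csz k + 1)) + 1)) ?_ (by fun_prop)
    (hb.mono fun _ => min_le_right _ _) ?_ ?_ ?_
  · have hb' : PBd fun p : (α × ℕ) × List (List k) => n p.1.1 :=
      hnb.comp (f := fun p : (α × ℕ) × List (List k) => p.1.1) (by fun_prop)
    exact pt_bas (α := (α × ℕ) × List (List k)) (n := fun p => n p.1.1) (by fun_prop) hb'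
      (pt_imgF (α := (α × ℕ) × List (List k)) (n := fun p => n p.1.1) (by fun_prop) hb'
        (by fun_prop) (by fun_prop))
  · refine pt_bas (α := α × ℕ) (n := fun p => n p.1) (by fun_prop) hb ?_
    unfold units
    refine PolyTime.map (PolyTime.range (by fun_prop) hb) ?_
    exact pt_mkv (α := (α × ℕ) × ℕ) (n := fun p => n p.1.1) (by fun_prop)
      (hnb.comp (f := fun p : (α × ℕ) × ℕ => p.1.1) (by fun_prop))
      (PolyTime.ite (by fun_prop) (PolyTime.const 1) (PolyTime.const 0))
  · exact hb.mul (((PBd.const 2).mul (hb.mul (PBd.const _))).add (PBd.const 1))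
  · intro p i _
    cases i with
    | zero => exact size_bas_le _ _
    | succ i => rw [Function.iterate_succ_apply']; exact size_bas_le _ _

theorem isB_chain0 (n : ℕ) (R : List (List k)) : ∀ X ∈ chain0 n R, IsB n X := by
  intro X hX
  obtain ⟨i, _, rfl⟩ := List.mem_map.1 hX
  exact isB_radIt n R _

theorem size_state {n : ℕ} {sc : List k} {L₀ : List (List (List k))} (h₀ : ∀ X ∈ L₀, IsB n X)
    (hl : L₀.length ≤ n + 1) (C : List (List k)) :
    size (C.foldl (fun L z => prL (refL n z sc L)) L₀) ≤
      (n + 1) * (2 * (n * (2 * (n * (2 * csz k + 1)) + 1)) + 1) := by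
  refine (size_isB (isB_foldl n sc C L₀ h₀)).trans (Nat.mul_le_mul_right _ ?_)
  induction C using List.reverseRecOn with
  | nil => exact hl
  | append_singleton C z _ =>
    rw [List.foldl_append, List.foldl_cons, List.foldl_nil]
    refine length_of_isChain (prL_lengths _) fun Z hZ => ?_
    exact (isB_refL (isB_foldl n sc C L₀ h₀) Z ((prL_sublist _).subset hZ)).length_le

theorem pt_chainL (q : ℕ) (sc : List k) {n : α → ℕ} {G : α → List (List (List k))}
    (hn : PolyTime n) (hnb : PBd n) (hG : PolyTime G) :
    PolyTime (fun x => chainL (n x) q sc (G x)) := by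
  unfold chainL
  have hB := pt_algB hn hnb hG
  refine PolyTime.foldl (h := fun a L z => prL (refL (n a) z sc L))
    (B := fun a => (n a + 1) * (2 * (n a * (2 * (n a * (2 * csz k + 1)) + 1)) + 1))
    (pt_C1F q hn hnb hB) (pt_chain0 hn hnb (pt_RF q hn hnb hB)) ?_ ?_ ?_
  · refine pt_prL ?_
    exact pt_refL (α := α × List (List (List k)) × List k) sc (n := fun p => n p.1)
      (z := fun p => p.2.2) (L := fun p => p.2.1) (by fun_prop) (hnb.comp PolyTime.fst')
      (by fun_prop) (by fun_prop)
  · exact (hnb.add (PBd.const 1)).mul (((PBd.const 2).mul (hnb.mul (((PBd.const 2).mul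
      (hnb.mul (PBd.const _))).add (PBd.const 1)))).add (PBd.const 1))
  · intro a i
    refine size_state (isB_chain0 _ _) ?_ _
    simp [chain0]

end pt

/-! ### the specification, relative to the theorems on the radical -/

section spec

variable {k : Type} [Field k] [Finite k] [DecidableEq k]

theorem chainL_spec (n : ℕ) (sc : List k) (G : List (List (List k)))
    (hsc : ∀ z : Module.End k (Fin n → k),
      (sc.map fun s => z - s • (1 : Module.End k (Fin n → k))).prod = z ^ Nat.card k - z)
    (hq : Frob (Nat.card k) (genAlg n G))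
    (hC : ∀ a b, RCen (Nat.card k) n (genAlg n G) a → RCen (Nat.card k) n (genAlg n G) b →
      InR (Nat.card k) n (genAlg n G) ((a + b) ^ Nat.card k - a ^ Nat.card k - b ^ Nat.card k))
    (hmul : ∀ a b, InR (Nat.card k) n (genAlg n G) a → b ∈ genAlg n G →
      InR (Nat.card k) n (genAlg n G) (b * a))
    (hbot : ∀ Z : Submodule k (Fin n → k), Inv (genAlg n G) Z →
      Z ≤ RZ (InR (Nat.card k) n (genAlg n G)) Z → Z = ⊥)
    (hstep : ∀ Z Y : Submodule k (Fin n → k), GG (genAlg n G)
      (InR (Nat.card k) n (genAlg n G)) {z | FCen (Nat.card k) n (genAlg n G) z} Z Y →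
      Step (genAlg n G) Z Y) :
    ((chainL n (Nat.card k) sc G).head?.map (rowSpan n)) = some ⊤ ∧
    ((chainL n (Nat.card k) sc G).getLast?.map (rowSpan n)) = some ⊥ ∧
    ((chainL n (Nat.card k) sc G).map (rowSpan n)).IsChain (Step (genAlg n G)) := by
  set 𝒜 := genAlg n G with h𝒜
  set q := Nat.card k with hqdef
  set B := algB n G with hBdef
  have hB : ∀ a, a ∈ 𝒜 ↔ a ∈ es n B := fun a => mem_genAlg
  have hF : Fl n B := fl_algB n G
  set R : Module.End k (Fin n → k) → Prop := InR q n 𝒜 with hRdef
  have hR : ∀ a, R a → a ∈ 𝒜 := fun a ha => ha.1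
  have hRF : ∀ a, R a ↔ a ∈ es n (RF n q B) := fun a => (mem_RF hB hF hq).symm
  have hchain0 : ((chain0 n (RF n q B)).map (rowSpan n)).IsChain (GG 𝒜 R ∅) := by
    rw [List.isChain_iff_getElem]
    intro i hi
    have hlen : ((chain0 n (RF n q B)).map (rowSpan n)).length = n + 1 := by simp [chain0]
    rw [hlen] at hi
    simp only [chain0, List.getElem_map, List.getElem_range]
    rw [min_eq_left (by omega : i ≤ n), min_eq_left (by omega : i + 1 ≤ n),
      rowSpan_radIt hRF, rowSpan_radIt hRF, Function.iterate_succ_apply']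
    exact GG_RZ hR hmul (inv_iter_RZ hR hmul i)
  have hC1 : ∀ a, a ∈ es n (C1F n q B) ↔ FCen q n 𝒜 a := fun a => mem_C1F hB hF hq hC
  obtain ⟨h1, h2, h3⟩ := foldl_spec (𝒜 := 𝒜) (R := R) hR (sc := sc) (C1F n q B) (by
    intro z hz
    have hz' := (hC1 _).1 (mem_es hz)
    refine ⟨hz'.1.1, hz'.1.2, ?_⟩
    rw [hsc]
    exact hz'.2) (chain0 n (RF n q B)) ∅ (by simp) (by
      intro X hX
      obtain ⟨i, _, rfl⟩ := List.mem_map.1 hX
      exact isB_radIt n _ _) hchain0
  refine ⟨?_, ?_, ?_⟩
  · unfold chainL
    rw [h2]
    unfold chain0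
    rw [List.range_succ_eq_map, List.map_cons, List.head?_cons, Option.map_some]
    rw [Nat.zero_min, rowSpan_radIt hRF]
    rfl
  · unfold chainL
    rw [h3]
    unfold chain0
    rw [List.range_succ, List.map_append, List.map_singleton, List.getLast?_concat,
      Option.map_some, min_self, rowSpan_radIt hRF]
    congr 1
    exact iter_RZ_eq_bot hR hmul hbot n (by simp)
  · unfold chainL
    refine List.IsChain.imp ?_ h1
    intro Z Y hZY
    apply hstep
    refine ⟨hZY.invZ, hZY.invY, hZY.le, hZY.rad, ?_⟩
    intro z hz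
    have hz1 : z ∈ es n (C1F n q B) := (hC1 z).2 hz
    -- the elements acting as scalars form a subspace
    let P : Submodule k (Module.End k (Fin n → k)) :=
      { carrier := {a | ∃ s : k, ∀ v ∈ Z, a v - s • v ∈ Y}
        add_mem' := by
          rintro a b ⟨s, hs⟩ ⟨t, ht⟩
          refine ⟨s + t, fun v hv => ?_⟩
          have e : (a + b) v - (s + t) • v = (a v - s • v) + (b v - t • v) := by
            rw [LinearMap.add_apply, add_smul]; abel
          rw [e]
          exact Y.add_mem (hs v hv) (ht v hv)
        zero_mem' := ⟨0, fun v _ => by simp⟩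
        smul_mem' := by
          rintro c a ⟨s, hs⟩
          refine ⟨c * s, fun v hv => ?_⟩
          have e : (c • a) v - (c * s) • v = c • (a v - s • v) := by
            rw [LinearMap.smul_apply, smul_sub, smul_smul]
          rw [e]
          exact Y.smul_mem c (hs v hv) }
    have hP : es n (C1F n q B) ≤ P := by
      rw [es_le]
      intro w hw
      exact hZY.sc _ (Set.mem_union_right _ ⟨w, hw, rfl⟩)
    exact hP hz1

end spec

end Pool.NCF.FF
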