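import Pool.Agent.NCF.FF.Chain
import Pool.Agent.NCF.FF.Between

/-!
Block FH: the chain of stable subspaces over a finite field.
-/

set_option autoImplicit false

namespace Pool.NCF.FF

open Pool.Agent.PolyTime Pool.Agent.LinAlg

theorem step_of_GG {k V : Type*} [Field k] [Finite k] [AddCommGroup V] [Module k V]
    [FiniteDimensional k V] (𝒜 : Subalgebra k (Module.End k V)) {n : ℕ}
    (hn : Module.finrank k V ≤ n) (Z Y : Submodule k V)
    (h : GG 𝒜 (InR (Nat.card k) n 𝒜) {z | FCen (Nat.card k) n 𝒜 z} Z Y) : Step 𝒜 Z Y := by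
  refine ⟨h.invZ, h.invY, h.le, fun N hN hND W hW hYW hWZ => ?_⟩
  refine no_between 𝒜 hn N hND (N ⊔ Y) (N ⊔ Z) le_sup_left (sup_le_sup_left h.le N)
    (inv_sup hN h.invY) (inv_sup hN h.invZ) ?_ ?_ W hW hYW hWZ
  · intro a ha z hz
    obtain ⟨y1, h1, y2, h2, rfl⟩ := Submodule.mem_sup.1 hz
    rw [map_add]
    exact Submodule.add_mem _ (Submodule.mem_sup_left (hN a ha.1 y1 h1))
      (Submodule.mem_sup_right (h.rad a ha y2 h2))
  · intro z hz
    obtain ⟨s, hs⟩ := h.sc z hz
    refine ⟨s, fun v hv => ?_⟩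
    obtain ⟨y1, h1, y2, h2, rfl⟩ := Submodule.mem_sup.1 hv
    have e : z (y1 + y2) - s • (y1 + y2) = (z y1 - s • y1) + (z y2 - s • y2) := by
      rw [map_add, smul_add]; abel
    rw [e]
    exact Submodule.add_mem _ (Submodule.mem_sup_left
      (N.sub_mem (hN z hz.1.1 y1 h1) (N.smul_mem s h1))) (Submodule.mem_sup_right (hs y2 h2))

/-- BLOCK FH: the chain of stable subspaces. -/
theorem exists_chain (k : Type) [Field k] [Finite k] [PEnc k] :
    ∃ chain : List Unit × List (List (List k)) → List (List (List k)), PolyTime chain ∧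
      ∀ (u : List Unit) (gens : List (List (List k))),
        ((chain (u, gens)).head?.map (rowSpan u.length)) = some ⊤ ∧
        ((chain (u, gens)).getLast?.map (rowSpan u.length)) = some ⊥ ∧
        ((chain (u, gens)).map (rowSpan u.length)).IsChain (Step (genAlg u.length gens)) := by
  classical
  have := Fintype.ofFinite k
  refine ⟨fun p => chainL p.1.length (Nat.card k) (Finset.univ : Finset k).toList p.2, ?_,
    fun u gens => ?_⟩
  · exact pt_chainL (Nat.card k) _ (n := fun p : List Unit × List (List (List k)) => p.1.length)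
      (by fun_prop) (pbd_length PolyTime.fst') (by fun_prop)
  · refine chainL_spec u.length _ gens (fun z => prod_sub_smul z (List.Perm.refl _))
      ⟨fun a ha b hb => pow_add_mem_Kom _ ha hb, fun a ha => pow_mem_Kom _ ha, fun c => ?_⟩
      (fun a b ha hb => RCen.pow_add _ ha hb) (fun a b ha hb => InR.mul_left _ ha hb)
      (fun Z hZ h => eq_bot_of_R _ (by simp) Z hZ h)
      (fun Z Y h => step_of_GG _ (by simp) Z Y h)
    rw [Nat.card_eq_fintype_card]
    exact FiniteField.pow_card c

end Pool.NCF.FF
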