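import Pool.Agent.NCF.FF.Defs

/-!
The determinant of a sparse noncommutative polynomial evaluated at cyclic shift matrices with
monomial entries: the diagonal entries have larger degree than all other entries.
-/

set_option autoImplicit false

namespace Pool.NCF.FF

/-- The matrix of the letter `x` over the polynomial ring: cyclic shift with monomials. -/
noncomputable def TP (k : Type) [Field k] (D : ℕ) (e : ℕ → ℕ → ℕ) (x : ℕ) :
    Matrix (Fin D) (Fin D) (Polynomial k) :=
  fun i j => if (j : ℕ) = (i + 1) % D then Polynomial.X ^ (e i x) else 0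

/-- The weight of a (reversed) word that is read from position `i` on. -/
def wt (D : ℕ) (e : ℕ → ℕ → ℕ) : ℕ → List ℕ → ℕ
  | _, [] => 0
  | i, x :: u => e (i % D) x + wt D e (i + 1) u

/-- Evaluation of the reversed polynomial at the matrices `TP`. -/
noncomputable def evP {k : Type} [Field k] (D : ℕ) (e : ℕ → ℕ → ℕ) (l : List (List ℕ × k)) :
    Matrix (Fin D) (Fin D) (Polynomial k) :=
  (l.map fun t => Polynomial.C t.2 • (t.1.reverse.map (TP k D e)).prod).sum

theorem wt_mod (D : ℕ) (e : ℕ → ℕ → ℕ) (u : List ℕ) :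
    ∀ i : ℕ, wt D e (i % D) u = wt D e i u := by
  induction u with
  | nil => intro i; rfl
  | cons x u ih =>
    intro i
    rw [wt, wt, Nat.mod_mod, ← ih (i % D + 1), ← ih (i + 1), Nat.mod_add_mod]

theorem wt_le {D : ℕ} {e : ℕ → ℕ → ℕ} {B : ℕ} (he : ∀ i x, e i x ≤ B) (u : List ℕ) :
    ∀ i, wt D e i u ≤ u.length * B := by
  induction u with
  | nil => intro i; simp [wt]
  | cons x u ih =>
    intro i
    have h1 := ih (i + 1)
    have h2 := he (i % D) x
    rw [wt, List.length_cons, Nat.add_mul, one_mul]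
    omega

theorem le_wt {D : ℕ} {e : ℕ → ℕ → ℕ} {B : ℕ} (he : ∀ i x, B ≤ e i x) (u : List ℕ) :
    ∀ i, u.length * B ≤ wt D e i u := by
  induction u with
  | nil => intro i; simp [wt]
  | cons x u ih =>
    intro i
    have h1 := ih (i + 1)
    have h2 := he (i % D) x
    rw [wt, List.length_cons, Nat.add_mul, one_mul]
    omega

theorem prod_TP (k : Type) [Field k] (D : ℕ) (e : ℕ → ℕ → ℕ) (u : List ℕ) (i j : Fin D) :
    (u.map (TP k D e)).prod i j =
      if (j : ℕ) = (i + u.length) % D then Polynomial.X ^ wt D e i u else 0 := by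
  induction u generalizing i with
  | nil =>
    have h : ((i : ℕ) + ([] : List ℕ).length) % D = i := by simp [Nat.mod_eq_of_lt i.isLt]
    rw [h, List.map_nil, List.prod_nil, Matrix.one_apply]
    by_cases hij : i = j
    · simp [hij, wt]
    · have : ¬ ((j : ℕ) = (i : ℕ)) := fun h => hij (Fin.ext h.symm)
      simp [hij, this]
  | cons x u ih =>
    have hD : 0 < D := lt_of_le_of_lt (Nat.zero_le _) i.isLt
    rw [List.map_cons, List.prod_cons, Matrix.mul_apply,
      Finset.sum_eq_single (⟨((i : ℕ) + 1) % D, Nat.mod_lt _ hD⟩ : Fin D)]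
    · rw [ih]
      have h1 : TP k D e x i ⟨((i : ℕ) + 1) % D, Nat.mod_lt _ hD⟩ = Polynomial.X ^ (e i x) := by
        simp [TP]
      have h2 : (((i : ℕ) + 1) % D + u.length) % D = ((i : ℕ) + (x :: u).length) % D := by
        rw [Nat.mod_add_mod, List.length_cons]
        congr 1
        ring
      have h3 : wt D e i (x :: u) = e i x + wt D e (((i : ℕ) + 1) % D) u := by
        rw [wt, wt_mod, Nat.mod_eq_of_lt i.isLt]
      rw [h1]
      simp only [h2, h3]
      split_ifs
      · rw [pow_add]
      · rw [mul_zero]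
    · intro b _ hb
      have : ¬ ((b : ℕ) = ((i : ℕ) + 1) % D) := fun h => hb (Fin.ext h)
      simp [TP, this]
    · simp

theorem evP_apply {k : Type} [Field k] (D : ℕ) (e : ℕ → ℕ → ℕ) (l : List (List ℕ × k))
    (i j : Fin D) : evP D e l i j = (l.map fun t => Polynomial.C t.2 *
      (if (j : ℕ) = (i + t.1.length) % D then Polynomial.X ^ wt D e i t.1.reverse else 0)).sum := by
  induction l with
  | nil => simp [evP]
  | cons t l ih =>
    have h : evP D e (t :: l) =
        Polynomial.C t.2 • (t.1.reverse.map (TP k D e)).prod + evP D e l := by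
      simp [evP]
    rw [h, Matrix.add_apply, ih, List.map_cons, List.sum_cons, Matrix.smul_apply, prod_TP,
      List.length_reverse, smul_eq_mul]

/-- Bound for the degree of an entry. -/
theorem natDegree_evP_le {k : Type} [Field k] (D : ℕ) (e : ℕ → ℕ → ℕ) (l : List (List ℕ × k))
    (i j : Fin D) (B : ℕ)
    (h : ∀ t ∈ l, (j : ℕ) = (i + t.1.length) % D → wt D e i t.1.reverse ≤ B) :
    (evP D e l i j).natDegree ≤ B := by
  rw [evP_apply]
  induction l with
  | nil => simp
  | cons t l ih =>
    rw [List.map_cons, List.sum_cons]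
    refine (Polynomial.natDegree_add_le _ _).trans (max_le ?_ ?_)
    · split_ifs with hj
      · exact (Polynomial.natDegree_C_mul_X_pow_le _ _).trans (h t (by simp) hj)
      · simp
    · exact ih fun t' ht' => h t' (List.mem_cons_of_mem _ ht')

theorem coeff_evP {k : Type} [Field k] (D : ℕ) (e : ℕ → ℕ → ℕ) (l : List (List ℕ × k))
    (i j : Fin D) (n : ℕ) : (evP D e l i j).coeff n = (l.map fun t =>
      if (j : ℕ) = (i + t.1.length) % D ∧ n = wt D e i t.1.reverse then t.2 else 0).sum := by
  rw [evP_apply]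
  induction l with
  | nil => simp
  | cons t l ih =>
    rw [List.map_cons, List.sum_cons, Polynomial.coeff_add, ih, List.map_cons, List.sum_cons]
    congr 1
    split_ifs with h1 h2 h2
    · rw [Polynomial.coeff_C_mul_X_pow, if_pos h2.2]
    · rw [Polynomial.coeff_C_mul_X_pow, if_neg]
      exact fun h => h2 ⟨h1, h⟩
    · exact absurd h2.1 h1
    · simp

/-- The diagonal entries have large degree. -/
theorem le_natDegree_evP {k : Type} [Field k] (l : List (List ℕ × k)) (hl : Red l) (D : ℕ)
    (hD : 1 ≤ D) (hle : ∀ t ∈ l, t.1.length ≤ D) (hex : ∃ t ∈ l, t.1.length = D) (Λ : ℕ)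
    (hΛ : 1 ≤ Λ) (e : ℕ → ℕ → ℕ) (he : ∀ i x, Λ ≤ e i x)
    (hinj : ∀ i < D, ∀ t ∈ l, ∀ t' ∈ l, t.1.length = D → t'.1.length = D →
      wt D e i t.1.reverse = wt D e i t'.1.reverse → t.1 = t'.1) (i : Fin D) :
    evP D e l i i ≠ 0 ∧ D * Λ ≤ (evP D e l i i).natDegree := by
  classical
  obtain ⟨t₀, ht₀, hlen⟩ := hex
  have hnd : l.Nodup := List.Nodup.of_map _ hl.1
  have hwt : D * Λ ≤ wt D e i t₀.1.reverse := by
    have := le_wt (D := D) he t₀.1.reverse i
    rwa [List.length_reverse, hlen] at this
  have hpos : 1 ≤ D * Λ := Nat.mul_pos hD hΛ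
  have hcoeff : (evP D e l i i).coeff (wt D e i t₀.1.reverse) ≠ 0 := by
    rw [coeff_evP, ← List.sum_toFinset _ hnd, Finset.sum_eq_single t₀]
    · rw [if_pos]
      · exact hl.2 t₀ ht₀
      · refine ⟨?_, rfl⟩
        rw [hlen, Nat.add_mod_right, Nat.mod_eq_of_lt i.isLt]
    · intro t ht hne
      rw [List.mem_toFinset] at ht
      rw [if_neg]
      rintro ⟨h1, h2⟩
      have hlt := hle t ht
      have hi := i.isLt
      have hcase : t.1.length = 0 ∨ t.1.length = D := by
        by_cases hc : (i : ℕ) + t.1.length < D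
        · rw [Nat.mod_eq_of_lt hc] at h1
          omega
        · rw [Nat.mod_eq_sub_mod (by omega)] at h1
          by_cases hc2 : (i : ℕ) + t.1.length - D < D
          · rw [Nat.mod_eq_of_lt hc2] at h1
            omega
          · omega
      rcases hcase with h0 | h0
      · have : t.1 = [] := List.length_eq_zero_iff.1 h0
        rw [this] at h2
        simp only [List.reverse_nil, wt] at h2
        omega
      · have heq := hinj i i.isLt t₀ ht₀ t ht hlen h0 h2
        apply hne
        exact (List.inj_on_of_nodup_map hl.1 ht₀ ht heq).symm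
    · intro h
      exact absurd (List.mem_toFinset.2 ht₀) h
  exact ⟨fun h => hcoeff (by rw [h, Polynomial.coeff_zero]),
    hwt.trans (Polynomial.le_natDegree_of_ne_zero hcoeff)⟩

theorem natDegree_det_le {k : Type} [Field k] {D : ℕ} (A : Matrix (Fin D) (Fin D) (Polynomial k))
    (B : ℕ) (h : ∀ i j, (A i j).natDegree ≤ B) : A.det.natDegree ≤ D * B := by
  rw [Matrix.det_apply]
  refine Polynomial.natDegree_sum_le_of_forall_le _ _ fun σ _ => ?_
  have h1 : (∏ i, A (σ i) i).natDegree ≤ D * B := by
    refine (Polynomial.natDegree_prod_le _ _).trans ?_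
    refine (Finset.sum_le_sum fun i _ => h (σ i) i).trans ?_
    simp
  rcases Int.units_eq_one_or (Equiv.Perm.sign σ) with hs | hs
  · rw [hs]; simpa using h1
  · rw [hs]; simpa using h1

theorem det_evP {k : Type} [Field k] (l : List (List ℕ × k)) (hl : Red l) (D : ℕ) (hD : 1 ≤ D)
    (hle : ∀ t ∈ l, t.1.length ≤ D) (hex : ∃ t ∈ l, t.1.length = D) (M Λ : ℕ)
    (hΛ : D * M ≤ Λ) (hM : 1 ≤ M) (e : ℕ → ℕ → ℕ) (he : ∀ i x, Λ ≤ e i x ∧ e i x < Λ + M)
    (hinj : ∀ i < D, ∀ t ∈ l, ∀ t' ∈ l, t.1.length = D → t'.1.length = D →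
      wt D e i t.1.reverse = wt D e i t'.1.reverse → t.1 = t'.1) :
    (evP D e l).det ≠ 0 ∧ (evP D e l).det.natDegree ≤ D * (D * (Λ + M)) := by
  classical
  have hΛ1 : 1 ≤ Λ := le_trans (Nat.mul_pos hD hM) hΛ
  have hdiag := le_natDegree_evP l hl D hD hle hex Λ hΛ1 e (fun i x => (he i x).1) hinj
  have hB : ∀ i x, e i x ≤ Λ + M - 1 := fun i x => by have := (he i x).2; omega
  have hoff : ∀ i j : Fin D, i ≠ j → (evP D e l i j).natDegree < D * Λ := by
    intro i j hij
    have h1 : (evP D e l i j).natDegree ≤ (D - 1) * (Λ + M - 1) := by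
      refine natDegree_evP_le D e l i j _ fun t ht hj => ?_
      have h2 := wt_le (D := D) hB t.1.reverse i
      rw [List.length_reverse] at h2
      refine h2.trans (Nat.mul_le_mul_right _ ?_)
      have h3 := hle t ht
      have h4 : t.1.length ≠ D := by
        intro h
        rw [h, Nat.add_mod_right, Nat.mod_eq_of_lt i.isLt] at hj
        exact hij (Fin.ext hj.symm)
      omega
    refine lt_of_le_of_lt h1 ?_
    obtain ⟨D', rfl⟩ : ∃ D', D = D' + 1 := ⟨D - 1, by omega⟩
    obtain ⟨M', rfl⟩ : ∃ M', M = M' + 1 := ⟨M - 1, by omega⟩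
    have e1 : D' + 1 - 1 = D' := by omega
    have e2 : Λ + (M' + 1) - 1 = Λ + M' := by omega
    rw [e1, e2]
    nlinarith
  refine ⟨?_, natDegree_det_le _ _ fun i j => natDegree_evP_le D e l i j _ fun t ht _ => ?_⟩
  · intro hdet
    obtain ⟨v, hv, hv0⟩ := Matrix.exists_mulVec_eq_zero_iff.2 hdet
    have hne : (Finset.univ.filter fun i => v i ≠ 0).Nonempty := by
      by_contra h
      rw [Finset.not_nonempty_iff_eq_empty, Finset.filter_eq_empty_iff] at h
      apply hv
      funext i
      have := h (Finset.mem_univ i)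
      simpa using this
    obtain ⟨i, hi, hmax⟩ := Finset.exists_max_image _ (fun i => (v i).natDegree) hne
    have hvi : v i ≠ 0 := (Finset.mem_filter.1 hi).2
    have hrow : ∑ j, evP D e l i j * v j = 0 := congrFun hv0 i
    rw [← Finset.add_sum_erase _ _ (Finset.mem_univ i)] at hrow
    have hle2 : (∑ j ∈ Finset.univ.erase i, evP D e l i j * v j).natDegree <
        D * Λ + (v i).natDegree := by
      refine lt_of_le_of_lt (Polynomial.natDegree_sum_le_of_forall_le
        (n := D * Λ - 1 + (v i).natDegree) _ _ fun j hj => ?_) ?_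
      · by_cases hj0 : v j = 0
        · simp [hj0]
        · refine Polynomial.natDegree_mul_le.trans (Nat.add_le_add ?_ ?_)
          · have := hoff i j (Finset.ne_of_mem_erase hj).symm
            omega
          · exact hmax j (Finset.mem_filter.2 ⟨Finset.mem_univ j, hj0⟩)
      · have : 1 ≤ D * Λ := Nat.mul_pos hD hΛ1
        omega
    have heq : evP D e l i i * v i = - ∑ j ∈ Finset.univ.erase i, evP D e l i j * v j :=
      eq_neg_of_add_eq_zero_left hrow
    have h3 := congrArg Polynomial.natDegree heq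
    rw [Polynomial.natDegree_mul (hdiag i).1 hvi, Polynomial.natDegree_neg] at h3
    have := (hdiag i).2
    omega
  · have h2 := wt_le (D := D) (fun i x => (he i x).2.le) t.1.reverse i
    rw [List.length_reverse] at h2
    exact h2.trans (Nat.mul_le_mul_right _ (hle t ht))

end Pool.NCF.FF
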