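import Pool.Agent.NCF.FF.Theta
import Pool.Agent.NCF.FF.Weights
import Pool.Agent.NCF.LPrime

/-!
Deterministic choice of matrices over a finite field at which a sparse noncommutative polynomial
takes an invertible value, in polynomial time.
-/

set_option autoImplicit false

namespace Pool.NCF.FF

open Pool.Agent.PolyTime Pool.Agent.LinAlg

namespace CT

/-! ### numbers attached to words -/

theorem wt_append (D : ℕ) (e : ℕ → ℕ → ℕ) (u v : List ℕ) (i : ℕ) :
    wt D e i (u ++ v) = wt D e i u + wt D e (i + u.length) v := by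
  induction u generalizing i with
  | nil => simp [wt]
  | cons x u ih =>
    rw [List.cons_append, wt, wt, ih, List.length_cons]
    have : i + 1 + u.length = i + (u.length + 1) := by omega
    rw [this]
    omega

theorem wt_digits {D B : ℕ} (u : List ℕ) {i : ℕ} (h : i + u.length ≤ D) :
    wt D (fun i x => B ^ i * x) i u = B ^ i * Nat.ofDigits B u := by
  induction u generalizing i with
  | nil => simp [wt]
  | cons x u ih =>
    rw [List.length_cons] at h
    rw [wt, ih (by omega), Nat.mod_eq_of_lt (by omega), Nat.ofDigits_cons, pow_succ]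
    ring

/-- The permuted digits determine the word. -/
theorem wt_rot {D B : ℕ} (u : List ℕ) (hu : u.length = D) {i : ℕ} (hi : i < D) :
    wt D (fun i x => B ^ i * x) i u = Nat.ofDigits B (u.drop (D - i) ++ u.take (D - i)) := by
  conv_lhs => rw [← List.take_append_drop (D - i) u]
  have h1 : (u.take (D - i)).length = D - i := by rw [List.length_take]; omega
  have h2 : (u.drop (D - i)).length = i := by rw [List.length_drop]; omega
  rw [wt_append, h1, wt_digits _ (by omega), Nat.ofDigits_append, h2]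
  have h3 : wt D (fun i x => B ^ i * x) (i + (D - i)) (u.drop (D - i)) =
      wt D (fun i x => B ^ i * x) 0 (u.drop (D - i)) := by
    rw [← wt_mod D _ _ (i + (D - i))]
    congr 1
    rw [Nat.add_sub_cancel' hi.le, Nat.mod_self]
  rw [h3, wt_digits _ (by omega)]
  ring

theorem wt_inj {D B : ℕ} (hB : 1 < B) {u v : List ℕ} (hu : u.length = D) (hv : v.length = D)
    (hu' : ∀ x ∈ u, x < B) (hv' : ∀ x ∈ v, x < B) {i : ℕ} (hi : i < D)
    (h : wt D (fun i x => B ^ i * x) i u = wt D (fun i x => B ^ i * x) i v) : u = v := by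
  rw [wt_rot u hu hi, wt_rot v hv hi] at h
  have h1 := Nat.ofDigits_inj_of_len_eq hB (by simp [hu, hv]) (by
    intro x hx
    rcases List.mem_append.1 hx with h | h
    · exact hu' x (List.mem_of_mem_drop h)
    · exact hu' x (List.mem_of_mem_take h)) (by
    intro x hx
    rcases List.mem_append.1 hx with h | h
    · exact hv' x (List.mem_of_mem_drop h)
    · exact hv' x (List.mem_of_mem_take h)) h
  obtain ⟨h2, h3⟩ := List.append_inj h1 (by simp [hu, hv])
  rw [← List.take_append_drop (D - i) u, ← List.take_append_drop (D - i) v, h2, h3]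

/-- The exponents. -/
def ex (D B Λ M : ℕ) (i x : ℕ) : ℕ := Λ + (B ^ (min i D) * x) % M

/-- The weights modulo `M`. -/
theorem wt_modEq (D B Λ M : ℕ) (hD : 1 ≤ D) (u : List ℕ) (i : ℕ) :
    wt D (ex D B Λ M) i u ≡
      Λ * u.length + wt D (fun i x => B ^ i * x) i u [MOD M] := by
  induction u generalizing i with
  | nil => simp [wt, Nat.ModEq]
  | cons x u ih =>
    rw [wt, wt, List.length_cons]
    have h0 : min (i % D) D = i % D := min_eq_left (Nat.mod_lt _ hD).le
    have h1 : ex D B Λ M (i % D) x ≡ Λ + B ^ (i % D) * x [MOD M] := by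
      unfold ex
      rw [h0]
      exact Nat.ModEq.add_left _ (Nat.mod_modEq _ _)
    have h2 := h1.add (ih (i + 1))
    refine h2.trans ?_
    have : Λ + B ^ (i % D) * x + (Λ * u.length + wt D (fun i x => B ^ i * x) (i + 1) u) =
      Λ * (u.length + 1) + (B ^ (i % D) * x + wt D (fun i x => B ^ i * x) (i + 1) u) := by ring
    rw [this]

theorem wt_lt {D B : ℕ} (hB : 1 < B) {u : List ℕ} (hu : u.length = D)
    (hu' : ∀ x ∈ u, x < B) {i : ℕ} (hi : i < D) :
    wt D (fun i x => B ^ i * x) i u < B ^ D := by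
  rw [wt_rot u hu hi]
  have h1 := Nat.ofDigits_lt_base_pow_length (b := B) (l := u.drop (D - i) ++ u.take (D - i)) hB (by
    intro x hx
    rcases List.mem_append.1 hx with h | h
    · exact hu' x (List.mem_of_mem_drop h)
    · exact hu' x (List.mem_of_mem_take h))
  have h2 : (u.drop (D - i) ++ u.take (D - i)).length = D := by
    rw [List.length_append, List.length_drop, List.length_take]; omega
  rwa [h2] at h1

/-! ### a small modulus -/

variable {k : Type}

/-- The largest length of a word. -/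
def mxl (l : List (List ℕ × k)) : ℕ :=
  ((l.map fun t => t.1.length).find? fun d => l.all fun t => decide (t.1.length ≤ d)).getD 0

theorem mxl_spec {l : List (List ℕ × k)} (hl : l ≠ []) :
    (∀ t ∈ l, t.1.length ≤ mxl l) ∧ ∃ t ∈ l, t.1.length = mxl l := by
  obtain ⟨t₀, ht₀, hmax⟩ : ∃ t ∈ l, ∀ q ∈ l, q.1.length ≤ t.1.length := by
    induction l with
    | nil => exact absurd rfl hl
    | cons a l ih =>
      by_cases h : l = []
      · subst h
        exact ⟨a, List.mem_cons_self, by simp⟩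
      · obtain ⟨t, ht, hm⟩ := ih h
        by_cases hc : t.1.length ≤ a.1.length
        · refine ⟨a, List.mem_cons_self, ?_⟩
          intro q hq
          rcases List.mem_cons.1 hq with rfl | hq
          · exact le_rfl
          · exact (hm q hq).trans hc
        · refine ⟨t, List.mem_cons_of_mem _ ht, ?_⟩
          intro q hq
          rcases List.mem_cons.1 hq with rfl | hq
          · omega
          · exact hm q hq
  have h2 : mxl l = t₀.1.length := by
    unfold mxl
    cases h : (l.map fun t => t.1.length).find? (fun d => l.all fun t => decide (t.1.length ≤ d)) with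
    | none =>
      exfalso
      rw [List.find?_eq_none] at h
      refine h t₀.1.length (List.mem_map.2 ⟨t₀, ht₀, rfl⟩) ?_
      rw [List.all_eq_true]
      intro q hq
      simpa using hmax q hq
    | some d =>
      have h3 := List.find?_some h
      rw [List.all_eq_true] at h3
      have h4 : t₀.1.length ≤ d := by
        have := h3 t₀ ht₀
        simp only [decide_eq_true_eq] at this
        omega
      have h5 := List.mem_of_find?_eq_some h
      obtain ⟨q, hq, rfl⟩ := List.mem_map.1 h5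
      exact le_antisymm (hmax q hq) h4
  rw [h2]
  exact ⟨hmax, t₀, ht₀, rfl⟩

theorem mxl_le_size [PEnc k] (l : List (List ℕ × k)) : mxl l ≤ size l := by
  unfold mxl
  cases h : (l.map fun t => t.1.length).find? (fun d => l.all fun t => decide (t.1.length ≤ d)) with
  | none => simp
  | some d =>
    have h5 := List.mem_of_find?_eq_some h
    obtain ⟨q, hq, rfl⟩ := List.mem_map.1 h5
    simp only [Option.getD_some]
    refine (length_le_size _).trans (le_trans ?_ (size_mem_le hq))
    rw [size_prod]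
    omega

/-- The letters of the words, with repetitions. -/
def letters (l : List (List ℕ × k)) : List ℕ := l.flatMap fun t => t.1

/-- The base of the digits. -/
def base (l : List (List ℕ × k)) : ℕ := (letters l).sum + 2

theorem lt_base {l : List (List ℕ × k)} {x : ℕ} (hx : x ∈ letters l) : x < base l := by
  have := List.single_le_sum (l := letters l) (by simp) x hx
  unfold base
  omega

/-- The test for the modulus. -/
def okM (l : List (List ℕ × k)) (M : ℕ) : Bool :=
  (List.range (mxl l)).all fun i =>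
    (l.filter fun t => decide (t.1.length = mxl l)).all fun t =>
      (l.filter fun t => decide (t.1.length = mxl l)).all fun t' =>
        !(decide (wt (mxl l) (ex (mxl l) (base l) (mxl l * M) M) i t.1.reverse =
          wt (mxl l) (ex (mxl l) (base l) (mxl l * M) M) i t'.1.reverse)) || decide (t.1 = t'.1)

/-- The bound for the modulus. -/
def bdM (l : List (List ℕ × k)) : ℕ :=
  4 * (mxl l * (l.length * l.length) * (mxl l * Nat.size (base l)) + 3) ^ 2 + 1

/-- The modulus. -/
def modulus (l : List (List ℕ × k)) : ℕ :=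
  ((List.range (bdM l)).find? fun M => decide (1 ≤ M) && okM l M).getD 1

/-- The difference of the numbers of two words. -/
def df (l : List (List ℕ × k)) (i : ℕ) (u v : List ℕ) : ℕ :=
  ((wt (mxl l) (fun i x => base l ^ i * x) i u : ℤ) -
    (wt (mxl l) (fun i x => base l ^ i * x) i v : ℤ)).natAbs

/-- All differences. -/
def dfs (l : List (List ℕ × k)) : List ℕ :=
  (List.range (mxl l)).flatMap fun i =>
    (l.filter fun t => decide (t.1.length = mxl l)).flatMap fun t =>
      (l.filter fun t => decide (t.1.length = mxl l)).map fun t' =>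
        if t.1 = t'.1 then 1 else df l i t.1.reverse t'.1.reverse

theorem length_dfs (l : List (List ℕ × k)) :
    (dfs l).length ≤ mxl l * (l.length * l.length) := by
  unfold dfs
  simp only [List.length_flatMap, List.length_map, List.map_const', List.sum_replicate,
    List.length_range, smul_eq_mul]
  have := List.length_filter_le (fun t : List ℕ × k => decide (t.1.length = mxl l)) l
  gcongr

theorem le_dfs (l : List (List ℕ × k)) : ∀ x ∈ dfs l, x ≤ base l ^ mxl l := by
  intro x hx
  unfold dfs at hx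
  obtain ⟨i, hi, hx⟩ := List.mem_flatMap.1 hx
  obtain ⟨t, ht, hx⟩ := List.mem_flatMap.1 hx
  obtain ⟨t', ht', rfl⟩ := List.mem_map.1 hx
  have hi' := List.mem_range.1 hi
  have hB : 1 < base l := by unfold base; omega
  have key : ∀ t ∈ l.filter (fun t => decide (t.1.length = mxl l)),
      wt (mxl l) (fun i x => base l ^ i * x) i t.1.reverse < base l ^ mxl l := by
    intro t ht
    have h1 := List.mem_filter.1 ht
    simp only [decide_eq_true_eq] at h1
    exact wt_lt hB (by rw [List.length_reverse, h1.2]) (fun x hx => lt_base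
      (List.mem_flatMap.2 ⟨t, h1.1, List.mem_reverse.1 hx⟩)) hi'
  split_ifs with h
  · exact Nat.one_le_pow _ _ (by omega)
  · have h1 := key t ht
    have h2 := key t' ht'
    unfold df
    omega

theorem zero_notMem_dfs (l : List (List ℕ × k)) : 0 ∉ dfs l := by
  intro hx
  unfold dfs at hx
  obtain ⟨i, hi, hx⟩ := List.mem_flatMap.1 hx
  obtain ⟨t, ht, hx⟩ := List.mem_flatMap.1 hx
  obtain ⟨t', ht', hx⟩ := List.mem_map.1 hx
  have hi' := List.mem_range.1 hi
  have hB : 1 < base l := by unfold base; omega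
  split_ifs at hx with h
  have h1 := List.mem_filter.1 ht
  have h2 := List.mem_filter.1 ht'
  simp only [decide_eq_true_eq] at h1 h2
  apply h
  apply List.reverse_injective
  refine wt_inj hB (by rw [List.length_reverse, h1.2]) (by rw [List.length_reverse, h2.2])
    (fun x hx => lt_base (List.mem_flatMap.2 ⟨t, h1.1, List.mem_reverse.1 hx⟩))
    (fun x hx => lt_base (List.mem_flatMap.2 ⟨t', h2.1, List.mem_reverse.1 hx⟩)) hi' ?_
  unfold df at hx
  omega

theorem exists_modulus (l : List (List ℕ × k)) : ∃ M < bdM l, 1 ≤ M ∧ okM l M = true := by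
  have hP0 : (dfs l).prod ≠ 0 := List.prod_ne_zero (zero_notMem_dfs l)
  obtain ⟨p, hp, _, hpd, hpb⟩ := Pool.NCF.L5.small_prime (dfs l).prod 0 hP0
  refine ⟨p, ?_, hp.one_lt.le, ?_⟩
  · have h1 : (dfs l).prod ≤ (base l ^ mxl l) ^ (mxl l * (l.length * l.length)) := by
      refine (List.prod_le_pow_card _ _ (le_dfs l)).trans ?_
      exact Nat.pow_le_pow_right (Nat.pow_pos (by unfold base; omega)) (length_dfs l)
    rw [← pow_mul] at h1
    have h2 : Nat.size (dfs l).prod ≤
        mxl l * (l.length * l.length) * (mxl l * Nat.size (base l)) + 1 := by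
      refine (Nat.size_le_size h1).trans ?_
      have h3 := size_pow_le (base l) (mxl l * (mxl l * (l.length * l.length)))
      rw [size_nat, size_nat] at h3
      refine h3.trans ?_
      apply le_of_eq
      ring
    unfold bdM
    refine lt_of_le_of_lt hpb (Nat.lt_succ_of_le (Nat.mul_le_mul_left _
      (Nat.pow_le_pow_left ?_ 2)))
    omega
  · unfold okM
    rw [List.all_eq_true]
    intro i hi
    rw [List.all_eq_true]
    intro t ht
    rw [List.all_eq_true]
    intro t' ht'
    have hi' := List.mem_range.1 hi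
    have h1 := List.mem_filter.1 ht
    have h2 := List.mem_filter.1 ht'
    simp only [decide_eq_true_eq] at h1 h2
    rw [Bool.or_eq_true, Bool.not_eq_true', decide_eq_false_iff_not, decide_eq_true_eq]
    by_contra hcon
    push Not at hcon
    obtain ⟨he, hne⟩ := hcon
    apply hpd
    have h3 : df l i t.1.reverse t'.1.reverse ∈ dfs l := by
      unfold dfs
      refine List.mem_flatMap.2 ⟨i, hi, List.mem_flatMap.2 ⟨t, ht, List.mem_map.2 ⟨t', ht', ?_⟩⟩⟩
      rw [if_neg hne]
    refine dvd_trans ?_ (List.dvd_prod h3)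
    have h4 := wt_modEq (mxl l) (base l) (mxl l * p) p (by omega) t.1.reverse i
    have h5 := wt_modEq (mxl l) (base l) (mxl l * p) p (by omega) t'.1.reverse i
    rw [he] at h4
    have h7 := h4.symm.trans h5
    rw [List.length_reverse, List.length_reverse, h1.2, h2.2] at h7
    have h8 := Nat.ModEq.add_left_cancel' _ h7
    unfold df
    rw [← Int.natCast_dvd]
    exact (Nat.modEq_iff_dvd.1 h8.symm)

theorem modulus_spec (l : List (List ℕ × k)) :
    modulus l < bdM l ∧ 1 ≤ modulus l ∧ okM l (modulus l) = true := by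
  obtain ⟨M, hM, h1, h2⟩ := exists_modulus l
  unfold modulus
  have h3 : ((List.range (bdM l)).find? fun M => decide (1 ≤ M) && okM l M).isSome := by
    rw [List.find?_isSome]
    exact ⟨M, List.mem_range.2 hM, by simp [h1, h2]⟩
  obtain ⟨w, hw⟩ := Option.isSome_iff_exists.1 h3
  have h4 := List.find?_some hw
  rw [Bool.and_eq_true, decide_eq_true_eq] at h4
  have h5 := List.mem_range.1 (List.mem_of_find?_eq_some hw)
  rw [hw]
  exact ⟨h5, h4.1, h4.2⟩

/-- The hypothesis of `det_evP`. -/
theorem hinj_modulus (l : List (List ℕ × k)) : ∀ i < mxl l, ∀ t ∈ l, ∀ t' ∈ l,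
    t.1.length = mxl l → t'.1.length = mxl l →
    wt (mxl l) (ex (mxl l) (base l) (mxl l * modulus l) (modulus l)) i t.1.reverse =
      wt (mxl l) (ex (mxl l) (base l) (mxl l * modulus l) (modulus l)) i t'.1.reverse → t.1 = t'.1 := by
  intro i hi t ht t' ht' h1 h2 h3
  have h4 := (modulus_spec l).2.2
  unfold okM at h4
  rw [List.all_eq_true] at h4
  have h5 := h4 i (List.mem_range.2 hi)
  rw [List.all_eq_true] at h5
  have h6 := h5 t (List.mem_filter.2 ⟨ht, by simpa using h1⟩)
  rw [List.all_eq_true] at h6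
  have h7 := h6 t' (List.mem_filter.2 ⟨ht', by simpa using h2⟩)
  rw [Bool.or_eq_true, Bool.not_eq_true', decide_eq_false_iff_not, decide_eq_true_eq] at h7
  exact h7.resolve_left (fun h => h h3)

/-! ### the size of the blocks -/

/-- One step of the search for a power of `ℓ` above `b`. -/
def pst (ℓ b m : ℕ) : ℕ := if m ≤ b then m * ℓ else m

theorem pst_iter (ℓ b : ℕ) (hℓ : 2 ≤ ℓ) (j : ℕ) :
    (∃ i, (pst ℓ b)^[j] 1 = ℓ ^ i) ∧ (pst ℓ b)^[j] 1 ≤ ℓ * (b + 1) ∧
      (b < (pst ℓ b)^[j] 1 ∨ 2 ^ j ≤ (pst ℓ b)^[j] 1) := by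
  induction j with
  | zero =>
    refine ⟨⟨0, rfl⟩, ?_, Or.inr le_rfl⟩
    show 1 ≤ _
    have := Nat.mul_le_mul (show 1 ≤ ℓ by omega) (show 1 ≤ b + 1 by omega)
    omega
  | succ j ih =>
    rw [Function.iterate_succ_apply']
    obtain ⟨⟨i, hi⟩, h2, h3⟩ := ih
    unfold pst
    change (∃ i, (if (pst ℓ b)^[j] 1 ≤ b then (pst ℓ b)^[j] 1 * ℓ else (pst ℓ b)^[j] 1) = ℓ ^ i) ∧
      (if (pst ℓ b)^[j] 1 ≤ b then (pst ℓ b)^[j] 1 * ℓ else (pst ℓ b)^[j] 1) ≤ ℓ * (b + 1) ∧
      (b < (if (pst ℓ b)^[j] 1 ≤ b then (pst ℓ b)^[j] 1 * ℓ else (pst ℓ b)^[j] 1) ∨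
      2 ^ (j + 1) ≤ (if (pst ℓ b)^[j] 1 ≤ b then (pst ℓ b)^[j] 1 * ℓ else (pst ℓ b)^[j] 1))
    split_ifs with h
    · refine ⟨⟨i + 1, by rw [hi, pow_succ]⟩, ?_, ?_⟩
      · rw [mul_comm]
        exact Nat.mul_le_mul_left _ (by omega)
      · right
        rw [pow_succ]
        exact Nat.mul_le_mul (h3.resolve_left (by omega)) hℓ
    · exact ⟨⟨i, hi⟩, h2, Or.inl (by omega)⟩

/-- A power of `ℓ` above `b`. -/
def pw (ℓ b : ℕ) : ℕ := (pst ℓ b)^[b + 1] 1

theorem pw_spec (ℓ b : ℕ) (hℓ : 2 ≤ ℓ) :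
    (∃ i, pw ℓ b = ℓ ^ i) ∧ pw ℓ b ≤ ℓ * (b + 1) ∧ b < pw ℓ b := by
  obtain ⟨h1, h2, h3⟩ := pst_iter ℓ b hℓ (b + 1)
  refine ⟨h1, h2, ?_⟩
  rcases h3 with h | h
  · exact h
  · have : b + 1 < 2 ^ (b + 1) := Nat.lt_two_pow_self
    unfold pw
    omega

/-- The bound for the exponents. -/
def eb (l : List (List ℕ × k)) : ℕ :=
  mxl l * (mxl l * (mxl l * modulus l + modulus l))

/-- The number of blocks. -/
def bl (ℓ : ℕ) (l : List (List ℕ × k)) : ℕ := pw ℓ (eb l)

/-! ### the matrices -/

section mats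

variable [Field k]

/-- The entry of a power of `Th`. -/
def ent (m : ℕ) (A : ℕ → ℕ → k) (e r u c v : ℕ) : k :=
  if r = c + e then (if u = v then 1 else 0) else if r + m = c + e then A u v else 0

/-- The entry of the matrix of a letter. -/
def entry (D m : ℕ) (A : ℕ → ℕ → k) (e : ℕ → ℕ → ℕ) (x a b : ℕ) : k :=
  if b / (m * 3) = (a / (m * 3) + 1) % D then
    ent m A (e (a / (m * 3)) x) (a % (m * 3) / 3) (a % (m * 3) % 3) (b % (m * 3) / 3)
      (b % (m * 3) % 3) else 0

/-- The numbering of the rows. -/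
def sig (D m : ℕ) : Fin D × (Fin m × Fin 3) ≃ Fin (D * (m * 3)) :=
  (Equiv.prodCongr (Equiv.refl _) finProdFinEquiv).trans finProdFinEquiv

/-- Substitution of `Th` for the variable. -/
noncomputable def Psi (D m : ℕ) (A : Matrix (Fin 3) (Fin 3) k) :
    Matrix (Fin D) (Fin D) (Polynomial k) →ₐ[k]
      Matrix (Fin (D * (m * 3))) (Fin (D * (m * 3))) k :=
  (((Matrix.reindexAlgEquiv k k (sig D m)).toAlgHom).comp
    ((Matrix.compAlgEquiv (Fin D) (Fin m × Fin 3) k k).toAlgHom)).comp
    ((Polynomial.aeval (Th m A)).mapMatrix)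

theorem Psi_apply (D m : ℕ) (A : Matrix (Fin 3) (Fin 3) k)
    (M : Matrix (Fin D) (Fin D) (Polynomial k)) (a b : Fin (D * (m * 3))) :
    Psi D m A M a b = Polynomial.aeval (Th m A) (M ((sig D m).symm a).1 ((sig D m).symm b).1)
      ((sig D m).symm a).2 ((sig D m).symm b).2 := rfl

theorem det_Psi_ne (D m : ℕ) (A : Matrix (Fin 3) (Fin 3) k)
    (M : Matrix (Fin D) (Fin D) (Polynomial k))
    (h : IsUnit (Polynomial.aeval (Th m A) M.det)) : (Psi D m A M).det ≠ 0 := by
  have h1 : Psi D m A M * Psi D m A M.adjugate = Psi D m A (M.det • 1) := by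
    rw [← map_mul, Matrix.mul_adjugate]
  have h2 : IsUnit (Psi D m A (M.det • 1)) := by
    have h3 : Psi D m A (M.det • 1) =
        (((Matrix.reindexAlgEquiv k k (sig D m)).toAlgHom).comp
          ((Matrix.compAlgEquiv (Fin D) (Fin m × Fin 3) k k).toAlgHom))
          (Matrix.scalar (Fin D) (Polynomial.aeval (Th m A) M.det)) := by
      unfold Psi
      rw [AlgHom.comp_apply]
      congr 1
      ext i j
      rw [AlgHom.mapMatrix_apply, Matrix.map_apply, Matrix.smul_apply, Matrix.one_apply,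
        Matrix.scalar_apply, Matrix.diagonal_apply]
      split_ifs <;> simp
    rw [h3]
    exact (h.map (Matrix.scalar (Fin D))).map _
  have h4 := ((Matrix.isUnit_iff_isUnit_det _).1 h2).ne_zero
  rw [← h1, Matrix.det_mul] at h4
  exact left_ne_zero_of_mul h4

/-- The matrix of a letter. -/
theorem Psi_TP (D m : ℕ) (A : Matrix (Fin 3) (Fin 3) k) (AN : ℕ → ℕ → k)
    (hA : ∀ u v : Fin 3, AN u v = A u v) (e : ℕ → ℕ → ℕ) (x : ℕ) (he : ∀ i, e i x ≤ m)
    (a b : Fin (D * (m * 3))) : Psi D m A (TP k D e x) a b = entry D m AN e x a b := by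
  rw [Psi_apply]
  have key : ∀ a : Fin (D * (m * 3)), (((sig D m).symm a).1 : ℕ) = (a : ℕ) / (m * 3) ∧
      (((sig D m).symm a).2.1 : ℕ) = (a : ℕ) % (m * 3) / 3 ∧
      (((sig D m).symm a).2.2 : ℕ) = (a : ℕ) % (m * 3) % 3 := by
    intro a
    exact ⟨rfl, rfl, rfl⟩
  obtain ⟨a1, a2, a3⟩ := key a
  obtain ⟨b1, b2, b3⟩ := key b
  unfold TP entry ent
  rw [← a1, ← a2, ← a3, ← b1, ← b2, ← b3, apply_ite (Polynomial.aeval (Th m A)), map_pow,
    Polynomial.aeval_X, map_zero]
  by_cases h : (((sig D m).symm b).1 : ℕ) = ((((sig D m).symm a).1 : ℕ) + 1) % D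
  · rw [if_pos h, if_pos h, Th_pow m A _ (he _), hA]
    congr 2
    exact propext Fin.ext_iff
  · rw [if_neg h, if_neg h]
    rfl

/-- Evaluation term by term. -/
theorem revEval_ncK {s : ℕ} (T : ℕ → Matrix (Fin s) (Fin s) k) (l : List (List ℕ × k)) :
    revEval T (ncK l) = (l.map fun t => t.2 • (t.1.reverse.map T).prod).sum := by
  unfold ncK
  induction l with
  | nil =>
    simp [revEval]
  | cons t l ih =>
    rw [List.map_cons, List.sum_cons, List.map_cons, List.sum_cons, ← ih]
    unfold revEval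
    rw [MonoidAlgebra.coeff_add, Finsupp.sum_add_index']
    · congr 1
      rw [MonoidAlgebra.coeff_single, Finsupp.sum_single_index]
      · rfl
      · rw [zero_smul]
    · intro w; rw [zero_smul]
    · intro w a b; rw [add_smul]

theorem Psi_evP (D m : ℕ) (A : Matrix (Fin 3) (Fin 3) k) (e : ℕ → ℕ → ℕ)
    (l : List (List ℕ × k)) (T : ℕ → Matrix (Fin (D * (m * 3))) (Fin (D * (m * 3))) k)
    (hT : ∀ x ∈ letters l, T x = Psi D m A (TP k D e x)) :
    revEval T (ncK l) = Psi D m A (evP D e l) := by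
  rw [revEval_ncK]
  unfold evP
  rw [map_list_sum, List.map_map]
  congr 1
  apply List.map_congr_left
  intro t ht
  rw [Function.comp]
  have h1 : Polynomial.C t.2 • (t.1.reverse.map (TP k D e)).prod =
      t.2 • (t.1.reverse.map (TP k D e)).prod := by
    ext i j
    simp [Polynomial.smul_eq_C_mul]
  rw [h1, map_smul, map_list_prod, List.map_map]
  congr 2
  apply List.map_congr_left
  intro x hx
  exact hT x (List.mem_flatMap.2 ⟨t, ht, List.mem_reverse.1 hx⟩)

end mats

/-! ### the choice -/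

/-- The exponents for `l`. -/
def exl (l : List (List ℕ × k)) : ℕ → ℕ → ℕ :=
  ex (mxl l) (base l) (mxl l * modulus l) (modulus l)

/-- The size of the matrices. -/
def ssz (ℓ : ℕ) (l : List (List ℕ × k)) : ℕ := mxl l * (bl ℓ l * 3)

section choice

variable [Field k]

/-- The entries of a constant matrix. -/
def AN (AL : List (List k)) (u v : ℕ) : k := (AL.getD u []).getD v 0

/-- The chosen matrices. -/
def chooseT (ℓ : ℕ) (AL : List (List k)) (l : List (List ℕ × k)) : List (ℕ × List (List k)) :=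
  (letters l).map fun x => (x, (List.range (ssz ℓ l)).map fun a =>
    (List.range (ssz ℓ l)).map fun b => entry (mxl l) (bl ℓ l) (AN AL) (exl l) x a b)

theorem getD_map_range {β : Type} (f : ℕ → β) {D i : ℕ} (h : i < D) (d : β) :
    ((List.range D).map f).getD i d = f i := by
  rw [List.getD_eq_getElem _ _ (by simpa using h)]
  simp

theorem tabMat_chooseT (ℓ : ℕ) (AL : List (List k)) (l : List (List ℕ × k)) {x : ℕ}
    (hx : x ∈ letters l) (i j : Fin (ssz ℓ l)) : tabMat (ssz ℓ l) (chooseT ℓ AL l) x i j =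
      entry (mxl l) (bl ℓ l) (AN AL) (exl l) x i j := by
  unfold tabMat chooseT
  rw [List.find?_map]
  set g : ℕ → ℕ × List (List k) := fun x => (x, (List.range (ssz ℓ l)).map fun a =>
    (List.range (ssz ℓ l)).map fun b => entry (mxl l) (bl ℓ l) (AN AL) (exl l) x a b) with hg
  have h1 : (letters l).find? ((fun p : ℕ × List (List k) => p.1 == x) ∘ g) = some x := by
    have h2 : ((letters l).find? ((fun p : ℕ × List (List k) => p.1 == x) ∘ g)).isSome := by
      rw [List.find?_isSome]
      exact ⟨x, hx, by simp [hg]⟩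
    obtain ⟨y, hy⟩ := Option.isSome_iff_exists.1 h2
    have h3 := List.find?_some hy
    simp only [hg, Function.comp, beq_iff_eq] at h3
    rw [hy, h3]
  rw [h1]
  simp only [Option.map_some, Option.getD_some, hg]
  unfold mat
  rw [getD_map_range _ i.2, getD_map_range _ j.2]

theorem chooseT_spec (ℓ : ℕ) (A : Matrix (Fin 3) (Fin 3) k) (hℓ : 2 ≤ ℓ)
    (hA : ∀ (i : ℕ) (P : Polynomial k), P ≠ 0 → P.natDegree < ℓ ^ i →
      IsUnit (Polynomial.aeval (Th (ℓ ^ i) A) P)) (AL : List (List k))
    (hAL : ∀ u v : Fin 3, AN AL u v = A u v) (l : List (List ℕ × k)) (hl : Red l)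
    (hne : ∃ t ∈ l, t.1 ≠ []) : 1 ≤ ssz ℓ l ∧ (∀ p ∈ chooseT ℓ AL l, ∃ t ∈ l, p.1 ∈ t.1) ∧
      (revEval (tabMat (ssz ℓ l) (chooseT ℓ AL l)) (ncK l)).det ≠ 0 := by
  obtain ⟨t₁, ht₁, ht₁'⟩ := hne
  have hln : l ≠ [] := by rintro rfl; simp at ht₁
  obtain ⟨hle, hex⟩ := mxl_spec hln
  have hD : 1 ≤ mxl l := by
    have h1 := hle t₁ ht₁
    have h2 := List.length_pos_iff.2 ht₁'
    omega
  obtain ⟨⟨i, hi⟩, hm2, hm3⟩ := pw_spec ℓ (eb l) hℓ
  have hM := (modulus_spec l).2.1
  have hexl : ∀ i x, mxl l * modulus l ≤ exl l i x ∧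
      exl l i x < mxl l * modulus l + modulus l := by
    intro i x
    unfold exl ex
    have := Nat.mod_lt (base l ^ min i (mxl l) * x) hM
    omega
  have heb : mxl l * modulus l + modulus l ≤ eb l := by
    unfold eb
    exact (Nat.le_mul_of_pos_left _ hD).trans (Nat.le_mul_of_pos_left _ hD)
  refine ⟨?_, ?_, ?_⟩
  · unfold ssz bl
    have : 1 ≤ pw ℓ (eb l) * 3 := by omega
    exact Nat.mul_pos hD this
  · intro p hp
    obtain ⟨x, hx, rfl⟩ := List.mem_map.1 hp
    obtain ⟨t, ht, hxt⟩ := List.mem_flatMap.1 hx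
    exact ⟨t, ht, hxt⟩
  · obtain ⟨hdet, hdeg⟩ := det_evP l hl (mxl l) hD hle hex (modulus l) (mxl l * modulus l) le_rfl
      hM (exl l) hexl (hinj_modulus l)
    change (revEval (tabMat (mxl l * (bl ℓ l * 3)) (chooseT ℓ AL l)) (ncK l)).det ≠ 0
    rw [Psi_evP (mxl l) (bl ℓ l) A (exl l) l]
    · apply det_Psi_ne
      unfold bl
      rw [hi]
      apply hA i _ hdet
      rw [← hi]
      exact lt_of_le_of_lt hdeg hm3
    · intro x hx
      ext a b
      rw [Psi_TP (mxl l) (bl ℓ l) A (AN AL) hAL (exl l) x]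
      · exact tabMat_chooseT ℓ AL l hx a b
      · intro j
        have := (hexl j x).2
        unfold bl
        omega

end choice

/-! ### polynomial time -/

section time

variable [PEnc k] {α : Type} [PEnc α]

@[fun_prop]
theorem pt_mxl {l : α → List (List ℕ × k)} (hl : PolyTime l) : PolyTime (fun a => mxl (l a)) := by
  unfold mxl
  fun_prop

theorem pbd_mxl {l : α → List (List ℕ × k)} (hl : PolyTime l) : PBd (fun a => mxl (l a)) :=
  hl.pbd.mono fun _ => mxl_le_size _

@[fun_prop]
theorem pt_letters {l : α → List (List ℕ × k)} (hl : PolyTime l) :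
    PolyTime (fun a => letters (l a)) := by
  unfold letters
  fun_prop

@[fun_prop]
theorem pt_base {l : α → List (List ℕ × k)} (hl : PolyTime l) :
    PolyTime (fun a => base (l a)) := by
  unfold base
  fun_prop

@[fun_prop]
theorem pt_ex {D B Λ M i x : α → ℕ} (hD : PolyTime D) (hDb : PBd D) (hB : PolyTime B)
    (hΛ : PolyTime Λ) (hM : PolyTime M) (hi : PolyTime i) (hx : PolyTime x) :
    PolyTime (fun a => ex (D a) (B a) (Λ a) (M a) (i a) (x a)) := by
  unfold ex
  have h1 : PolyTime fun a => B a ^ (min (i a) (D a)) :=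
    PolyTime.pow hB (by fun_prop) (hDb.mono fun _ => min_le_right _ _)
  fun_prop

theorem wt_eq_sum (D : ℕ) (e : ℕ → ℕ → ℕ) (i n : ℕ) (u : List ℕ) :
    wt D e (i + n) u = ((u.zipIdx n).map fun p => e ((i + p.2) % D) p.1).sum := by
  induction u generalizing n with
  | nil => rfl
  | cons x u ih =>
    rw [wt, List.zipIdx_cons, List.map_cons, List.sum_cons, add_assoc, ih]

theorem pt_wt {D B Λ M i : α → ℕ} {u : α → List ℕ} (hD : PolyTime D) (hDb : PBd D)
    (hB : PolyTime B) (hΛ : PolyTime Λ) (hM : PolyTime M) (hi : PolyTime i) (hu : PolyTime u) :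
    PolyTime (fun a => wt (D a) (ex (D a) (B a) (Λ a) (M a)) (i a) (u a)) := by
  have h1 : PolyTime fun a => (((u a).zipIdx).map fun p =>
      ex (D a) (B a) (Λ a) (M a) ((i a + p.2) % D a) p.1).sum := by
    refine PolyTime.sum (PolyTime.map (by fun_prop) ?_)
    exact pt_ex (D := fun p : α × ℕ × ℕ => D p.1) (by fun_prop) (hDb.comp PolyTime.fst')
      (by fun_prop) (by fun_prop) (by fun_prop) (by fun_prop) (by fun_prop)
  exact h1.congr fun a => (wt_eq_sum _ _ _ 0 _).symm

@[fun_prop]
theorem pt_okM {l : α → List (List ℕ × k)} {M : α → ℕ} (hl : PolyTime l) (hM : PolyTime M) :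
    PolyTime (fun a => okM (l a) (M a)) := by
  unfold okM
  refine PolyTime.all (PolyTime.range (by fun_prop) (pbd_mxl hl)) ?_
  refine PolyTime.all (PolyTime.filter (by fun_prop) (by fun_prop)) ?_
  refine PolyTime.all (PolyTime.filter (by fun_prop) (by fun_prop)) ?_
  refine PolyTime.or (PolyTime.not (PolyTime.decideEq ?_ ?_))
    (PolyTime.decideEq (by fun_prop) (by fun_prop))
  · exact pt_wt (D := fun q : ((α × ℕ) × (List ℕ × k)) × (List ℕ × k) => mxl (l q.1.1.1))
      (by fun_prop) (pbd_mxl (by fun_prop)) (by fun_prop) (by fun_prop) (by fun_prop)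
      (by fun_prop) (by fun_prop)
  · exact pt_wt (D := fun q : ((α × ℕ) × (List ℕ × k)) × (List ℕ × k) => mxl (l q.1.1.1))
      (by fun_prop) (pbd_mxl (by fun_prop)) (by fun_prop) (by fun_prop) (by fun_prop)
      (by fun_prop) (by fun_prop)

theorem pt_bdM {l : α → List (List ℕ × k)} (hl : PolyTime l) :
    PolyTime (fun a => bdM (l a)) := by
  unfold bdM
  fun_prop

theorem pbd_bdM {l : α → List (List ℕ × k)} (hl : PolyTime l) : PBd (fun a => bdM (l a)) := by
  unfold bdM
  have h1 : PBd fun a => Nat.size (base (l a)) :=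
    (pt_base hl).pbd.mono fun a => (size_nat (base (l a))).ge
  exact ((PBd.const 4).mul ((((pbd_mxl hl).mul ((pbd_length hl).mul (pbd_length hl))).mul
    ((pbd_mxl hl).mul h1)).add (PBd.const 3) |>.pow 2)).add (PBd.const 1)

@[fun_prop]
theorem pt_modulus {l : α → List (List ℕ × k)} (hl : PolyTime l) :
    PolyTime (fun a => modulus (l a)) := by
  unfold modulus
  refine PolyTime.option_getD (PolyTime.find? (PolyTime.range (pt_bdM hl) (pbd_bdM hl)) ?_)
    (PolyTime.const 1)
  fun_prop

theorem pbd_modulus {l : α → List (List ℕ × k)} (hl : PolyTime l) :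
    PBd (fun a => modulus (l a)) :=
  (pbd_bdM hl).mono fun a => (modulus_spec (l a)).1.le

attribute [local irreducible] modulus mxl base letters okM bdM

@[fun_prop]
theorem pt_eb {l : α → List (List ℕ × k)} (hl : PolyTime l) : PolyTime (fun a => eb (l a)) := by
  unfold eb
  fun_prop

theorem pbd_eb {l : α → List (List ℕ × k)} (hl : PolyTime l) : PBd (fun a => eb (l a)) := by
  unfold eb
  exact (pbd_mxl hl).mul ((pbd_mxl hl).mul (((pbd_mxl hl).mul (pbd_modulus hl)).add
    (pbd_modulus hl)))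

theorem pt_pst_iter (ℓ : ℕ) (hℓ : 2 ≤ ℓ) {b n : α → ℕ} (hb : PolyTime b) (hbb : PBd b)
    (hn : PolyTime n) (hnb : PBd n) : PolyTime (fun a => (pst ℓ (b a))^[n a] 1) := by
  have h1 : PolyTime (fun p : α × ℕ => pst ℓ (b p.1) p.2) := by
    unfold pst
    exact PolyTime.ite (by fun_prop) (by fun_prop) (by fun_prop)
  have h2 : PBd fun a => ℓ * (b a + 1) := (PBd.const ℓ).mul (hbb.add (PBd.const 1))
  refine PolyTime.iterate (f := fun a => pst ℓ (b a)) (g := fun _ => 1) h1 hn hnb
    (PolyTime.const 1) h2 ?_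
  intro a i _
  exact (size_nat_self _).trans (pst_iter ℓ (b a) hℓ i).2.1

theorem pt_pw (ℓ : ℕ) (hℓ : 2 ≤ ℓ) {b : α → ℕ} (hb : PolyTime b) (hbb : PBd b) :
    PolyTime (fun a => pw ℓ (b a)) :=
  pt_pst_iter ℓ hℓ (n := fun a => b a + 1) hb hbb (by fun_prop) (hbb.add (PBd.const 1))

attribute [local irreducible] pw eb

theorem pt_bl (ℓ : ℕ) (hℓ : 2 ≤ ℓ) {l : α → List (List ℕ × k)} (hl : PolyTime l) :
    PolyTime (fun a => bl ℓ (l a)) :=
  pt_pw ℓ hℓ (pt_eb hl) (pbd_eb hl)

theorem pbd_bl (ℓ : ℕ) (hℓ : 2 ≤ ℓ) {l : α → List (List ℕ × k)} (hl : PolyTime l) :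
    PBd (fun a => bl ℓ (l a)) :=
  ((PBd.const ℓ).mul ((pbd_eb hl).add (PBd.const 1))).mono fun a => (pw_spec ℓ (eb (l a)) hℓ).2.1

theorem pt_ssz (ℓ : ℕ) (hℓ : 2 ≤ ℓ) {l : α → List (List ℕ × k)} (hl : PolyTime l) :
    PolyTime (fun a => ssz ℓ (l a)) := by
  unfold ssz
  have := pt_bl ℓ hℓ hl
  fun_prop

theorem pbd_ssz (ℓ : ℕ) (hℓ : 2 ≤ ℓ) {l : α → List (List ℕ × k)} (hl : PolyTime l) :
    PBd (fun a => ssz ℓ (l a)) :=
  (pbd_mxl hl).mul ((pbd_bl ℓ hℓ hl).mul (PBd.const 3))

theorem pt_exl {l : α → List (List ℕ × k)} {i x : α → ℕ} (hl : PolyTime l) (hi : PolyTime i)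
    (hx : PolyTime x) : PolyTime (fun a => exl (l a) (i a) (x a)) := by
  unfold exl
  exact pt_ex (by fun_prop) (pbd_mxl hl) (by fun_prop) (by fun_prop) (by fun_prop) hi hx

variable [Field k]

theorem pt_ent {m e r u c v : α → ℕ} (A : ℕ → ℕ → k) (hm : PolyTime m)
    (he : PolyTime e) (hr : PolyTime r) (hu : PolyTime u) (hc : PolyTime c) (hv : PolyTime v)
    (hA : PolyTime fun a => A (u a) (v a)) :
    PolyTime (fun a => ent (m a) A (e a) (r a) (u a) (c a) (v a)) := by
  unfold ent
  exact PolyTime.ite (by fun_prop) (PolyTime.ite (by fun_prop) (by fun_prop) (by fun_prop))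
    (PolyTime.ite (by fun_prop) hA (by fun_prop))

theorem pt_entry {l : α → List (List ℕ × k)} {m x a' b' : α → ℕ} (AL : List (List k))
    (hl : PolyTime l) (hm : PolyTime m) (hx : PolyTime x) (ha : PolyTime a') (hb : PolyTime b') :
    PolyTime (fun a => entry (mxl (l a)) (m a) (AN AL) (exl (l a)) (x a) (a' a) (b' a)) := by
  unfold entry
  refine PolyTime.ite (PolyTime.decideEq (by fun_prop) (by fun_prop)) ?_ (by fun_prop)
  refine pt_ent (AN AL) hm (pt_exl hl (by fun_prop) hx) (by fun_prop) (by fun_prop)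
    (by fun_prop) (by fun_prop) ?_
  unfold AN
  fun_prop

theorem pt_chooseT (ℓ : ℕ) (hℓ : 2 ≤ ℓ) (AL : List (List k)) {l : α → List (List ℕ × k)}
    (hl : PolyTime l) : PolyTime (fun a => chooseT ℓ AL (l a)) := by
  unfold chooseT
  refine PolyTime.map (by fun_prop) ?_
  refine PolyTime.prodMk (by fun_prop) ?_
  refine PolyTime.map (PolyTime.range (pt_ssz ℓ hℓ (by fun_prop)) (pbd_ssz ℓ hℓ (by fun_prop))) ?_
  refine PolyTime.map (PolyTime.range (pt_ssz ℓ hℓ (by fun_prop)) (pbd_ssz ℓ hℓ (by fun_prop))) ?_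
  exact pt_entry AL (by fun_prop) (pt_bl ℓ hℓ (by fun_prop)) (by fun_prop) (by fun_prop)
    (by fun_prop)

end time

end CT

/-- **Invertible values of sparse noncommutative polynomials over a finite field.** -/
theorem exists_chooseT (k : Type) [Field k] [Finite k] [PEnc k] :
    ∃ (sz : List (List ℕ × k) → List Unit)
      (chooseT : List (List ℕ × k) → List (ℕ × List (List k))), PolyTime sz ∧ PolyTime chooseT ∧
    ∀ l : List (List ℕ × k), Red l → (∃ t ∈ l, t.1 ≠ []) → 1 ≤ (sz l).length ∧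
      (∀ p ∈ chooseT l, ∃ t ∈ l, p.1 ∈ t.1) ∧
      (revEval (tabMat (sz l).length (chooseT l)) (ncK l)).det ≠ 0 := by
  obtain ⟨ℓ, A, hℓ, hA⟩ := exists_Th k
  have hAL : ∀ u v : Fin 3, CT.AN (List.ofFn fun u : Fin 3 => List.ofFn fun v : Fin 3 => A u v)
      u v = A u v := by
    intro u v
    unfold CT.AN
    fin_cases u <;> fin_cases v <;> rfl
  refine ⟨fun l => List.replicate (CT.ssz ℓ l) (),
    CT.chooseT ℓ (List.ofFn fun u : Fin 3 => List.ofFn fun v : Fin 3 => A u v), ?_, ?_, ?_⟩
  · exact PolyTime.replicate (CT.pt_ssz ℓ hℓ PolyTime.id) (CT.pbd_ssz ℓ hℓ PolyTime.id)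
      (PolyTime.const ())
  · exact CT.pt_chooseT ℓ hℓ _ PolyTime.id
  · intro l hl hne
    rw [List.length_replicate]
    exact CT.chooseT_spec ℓ A hℓ hA _ hAL l hl hne

end Pool.NCF.FF
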