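import Pool.Agent.LinAlg.Solve
import Pool.Agent.PolyTime.Ints
import Pool.Agent.PolyTime.More

/-!
Polynomial time over a finite field: every function on a finite type is polynomial-time computable;
linear algebra on lists over a finite field.
-/

set_option autoImplicit false
set_option linter.unusedSectionVars false

namespace Pool.NCF.FF

open Pool.Agent.PolyTime Pool.Agent.LinAlg

/-! ### Finite types -/

theorem pt_finite {α β : Type} [PEnc α] [PEnc β] [Finite α] (f : α → β) : PolyTime f := by
  classical
  have key : ∀ l : List α, (∃ a : α, True) → ∃ g : α → β, PolyTime g ∧ ∀ a ∈ l, g a = f a := by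
    intro l ⟨a₀, _⟩
    induction l with
    | nil => exact ⟨fun _ => f a₀, PolyTime.const _, by simp⟩
    | cons b l ih =>
      obtain ⟨g, hg, hgl⟩ := ih
      refine ⟨fun a => if a = b then f b else g a, ?_, ?_⟩
      · exact PolyTime.ite (PolyTime.decideEq PolyTime.id (PolyTime.const b)) (PolyTime.const _) hg
      · intro a ha
        beta_reduce
        by_cases hab : a = b
        · rw [if_pos hab, hab]
        · rw [if_neg hab]
          exact hgl a ((List.mem_cons.1 ha).resolve_left hab)
  by_cases hne : ∃ a : α, True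
  · have := Fintype.ofFinite α
    obtain ⟨g, hg, hgl⟩ := key (Finset.univ : Finset α).toList hne
    exact hg.congr fun a => hgl a (by simp)
  · exact ⟨fun x => x, FP.id, fun a => absurd ⟨a, trivial⟩ hne⟩

theorem exists_size_le (α : Type) [PEnc α] [Finite α] : ∃ c : ℕ, ∀ a : α, size a ≤ c := by
  have := Fintype.ofFinite α
  refine ⟨∑ a : α, size a, fun a => ?_⟩
  exact Finset.single_le_sum (f := fun a : α => size a) (fun _ _ => Nat.zero_le _)
    (Finset.mem_univ a)

/-- A bound for the sizes of the elements of a finite type. -/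
noncomputable def csz (α : Type) [PEnc α] [Finite α] : ℕ := Classical.choose (exists_size_le α)

theorem size_le_csz {α : Type} [PEnc α] [Finite α] (a : α) : size a ≤ csz α :=
  Classical.choose_spec (exists_size_le α) a

theorem size_list_le {α : Type} [PEnc α] [Finite α] (l : List α) :
    size l ≤ l.length * (2 * csz α + 1) :=
  size_le_of_forall fun a _ => size_le_csz a

/-! ### Field operations -/

section field

variable {k : Type} [Field k] [Finite k] [PEnc k] {α β : Type} [PEnc α] [PEnc β]

@[fun_prop]
theorem pt_add {f g : α → k} (hf : PolyTime f) (hg : PolyTime g) :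
    PolyTime (fun a => f a + g a) :=
  (pt_finite fun p : k × k => p.1 + p.2).comp (hf.prodMk hg)

@[fun_prop]
theorem pt_mul {f g : α → k} (hf : PolyTime f) (hg : PolyTime g) :
    PolyTime (fun a => f a * g a) :=
  (pt_finite fun p : k × k => p.1 * p.2).comp (hf.prodMk hg)

@[fun_prop]
theorem pt_sub {f g : α → k} (hf : PolyTime f) (hg : PolyTime g) :
    PolyTime (fun a => f a - g a) :=
  (pt_finite fun p : k × k => p.1 - p.2).comp (hf.prodMk hg)

@[fun_prop]
theorem pt_div {f g : α → k} (hf : PolyTime f) (hg : PolyTime g) :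
    PolyTime (fun a => f a / g a) :=
  (pt_finite fun p : k × k => p.1 / p.2).comp (hf.prodMk hg)

@[fun_prop]
theorem pt_neg {f : α → k} (hf : PolyTime f) : PolyTime (fun a => -(f a)) :=
  (pt_finite fun p : k => -p).comp hf

@[fun_prop]
theorem pt_inv {f : α → k} (hf : PolyTime f) : PolyTime (fun a => (f a)⁻¹) :=
  (pt_finite fun p : k => p⁻¹).comp hf

theorem pt_list_sum {l : α → List k} (hl : PolyTime l) : PolyTime (fun a => (l a).sum) := by
  refine (PolyTime.foldr (s := fun _ => (0 : k)) (h := fun _ m n => m + n) hl (PolyTime.const 0)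
    (by fun_prop) (B := fun _ => csz k) (PBd.const _) ?_).congr (fun a => rfl)
  intro a i
  exact size_le_csz _

theorem pt_list_prod {l : α → List k} (hl : PolyTime l) : PolyTime (fun a => (l a).prod) := by
  refine (PolyTime.foldr (s := fun _ => (1 : k)) (h := fun _ m n => m * n) hl (PolyTime.const 1)
    (by fun_prop) (B := fun _ => csz k) (PBd.const _) ?_).congr (fun a => rfl)
  intro a i
  exact size_le_csz _

@[fun_prop]
theorem pt_vl {v : α → List k} {i : α → ℕ} (hv : PolyTime v) (hi : PolyTime i) :
    PolyTime (fun a => vl (v a) (i a)) := by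
  unfold vl
  exact PolyTime.getD hv hi (PolyTime.const 0)

theorem pt_mkv {n : α → ℕ} {f : α → ℕ → k} (hn : PolyTime n) (hb : PBd n)
    (hf : PolyTime fun p : α × ℕ => f p.1 p.2) : PolyTime (fun a => mkv (n a) (f a)) :=
  PolyTime.map (PolyTime.range hn hb) hf

theorem size_mkv_le (n : ℕ) (f : ℕ → k) : size (mkv n f) ≤ n * (2 * csz k + 1) := by
  have := size_list_le (mkv n f)
  rwa [length_mkv] at this

end field

/-! ### Elimination -/

section elim

variable {k : Type} [Field k] [Finite k] [DecidableEq k] [PEnc k] {α β : Type} [PEnc α] [PEnc β]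

theorem pt_red {n : α → ℕ} {S : α → St k} {v : α → List k} (hn : PolyTime n) (hb : PBd n)
    (hS : PolyTime S) (hv : PolyTime v) : PolyTime (fun a => red (n a) (S a) (v a)) := by
  unfold red
  refine pt_mkv hn hb ?_
  refine pt_sub (by fun_prop) ?_
  refine pt_list_sum ?_
  exact PolyTime.map (l := fun p : α × ℕ => S p.1)
    (g := fun (p : α × ℕ) (q : ℕ × List k) => vl (v p.1) q.1 * vl q.2 p.2) (by fun_prop)
    (by fun_prop)

theorem pt_lead {n : α → ℕ} {v : α → List k} (hn : PolyTime n) (hb : PBd n)
    (hv : PolyTime v) : PolyTime (fun a => lead (n a) (v a)) := by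
  unfold lead
  exact PolyTime.find? (PolyTime.range hn hb) (by fun_prop)

theorem pt_ins {n : α → ℕ} {S : α → St k} {w : α → List k} {j : α → ℕ} (hn : PolyTime n)
    (hb : PBd n) (hS : PolyTime S) (hw : PolyTime w) (hj : PolyTime j) :
    PolyTime (fun a => ins (n a) (S a) (w a) (j a)) := by
  unfold ins
  refine PolyTime.cons ?_ ?_
  · exact PolyTime.prodMk hj (pt_mkv hn hb (by fun_prop))
  · refine PolyTime.map hS ?_
    refine PolyTime.prodMk (by fun_prop) ?_
    exact pt_mkv (n := fun p : α × ℕ × List k => n p.1) (by fun_prop)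
      (hb.comp PolyTime.fst') (by fun_prop)

theorem pt_step {n : α → ℕ} {S : α → St k} {v : α → List k} (hn : PolyTime n) (hb : PBd n)
    (hS : PolyTime S) (hv : PolyTime v) : PolyTime (fun a => step (n a) (S a) (v a)) := by
  unfold step
  refine PolyTime.option_elim (pt_lead hn hb (pt_red hn hb hS hv)) hS ?_
  exact pt_ins (n := fun p : α × ℕ => n p.1) (S := fun p : α × ℕ => S p.1)
    (w := fun p : α × ℕ => red (n p.1) (S p.1) (v p.1)) (j := fun p => p.2)
    (by fun_prop) (hb.comp PolyTime.fst') (by fun_prop)
    ((pt_red hn hb hS hv).comp PolyTime.fst') (by fun_prop)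

theorem length_step {n : ℕ} {S : St k} (hS : ∀ p ∈ S, p.2.length = n) (v : List k) :
    ∀ p ∈ step n S v, p.2.length = n := by
  unfold step
  cases lead n (red n S v) with
  | none => exact hS
  | some j =>
    intro p hp
    rcases List.mem_cons.1 hp with rfl | hp
    · simp
    · obtain ⟨q, _, rfl⟩ := List.mem_map.1 hp
      simp

theorem length_rref_mem (n : ℕ) (L : List (List k)) : ∀ p ∈ rref n L, p.2.length = n := by
  unfold rref
  have key : ∀ (L : List (List k)) (S : St k), (∀ p ∈ S, p.2.length = n) →
      ∀ p ∈ L.foldl (step n) S, p.2.length = n := by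
    intro L
    induction L with
    | nil => intro S hS; exact hS
    | cons v L ih => intro S hS; exact ih _ (length_step hS v)
  exact key L [] (by simp)

theorem size_rref_le (n : ℕ) (L : List (List k)) :
    size (rref n L) ≤ n * (2 * (2 * n + 1 + n * (2 * csz k + 1)) + 1) := by
  have h1 := size_le_of_forall (l := rref n L) (B := 2 * n + 1 + n * (2 * csz k + 1))
    (fun p hp => by
      rw [size_prod]
      have h2 : size p.1 ≤ n := (size_nat_self _).trans ((ech_rref n L).lt p hp).le
      have h3 := size_list_le p.2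
      rw [length_rref_mem n L p hp] at h3
      omega)
  exact h1.trans (Nat.mul_le_mul_right _ (length_rref_le n L))

/-- The elimination is polynomial-time computable. -/
theorem pt_rref {n : α → ℕ} {L : α → List (List k)} (hn : PolyTime n) (hb : PBd n)
    (hL : PolyTime L) : PolyTime (fun a => rref (n a) (L a)) := by
  unfold rref
  refine PolyTime.foldl (h := fun a S v => step (n a) S v)
    (B := fun a => n a * (2 * (2 * n a + 1 + n a * (2 * csz k + 1)) + 1)) hL
    (PolyTime.const []) ?_ ?_ ?_
  · exact pt_step (n := fun q : α × St k × List k => n q.1) (by fun_prop)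
      (hb.comp PolyTime.fst') (by fun_prop) (by fun_prop)
  · exact hb.mul (((PBd.const 2).mul ((((PBd.const 2).mul hb).add (PBd.const 1)).add
      (hb.mul (PBd.const _)))).add (PBd.const 1))
  · intro a i
    exact size_rref_le (n a) ((L a).take i)

theorem pt_rows {S : α → St k} (hS : PolyTime S) : PolyTime (fun a => rows (S a)) := by
  unfold rows
  exact PolyTime.map hS (by fun_prop)

theorem pt_aug {n : α → ℕ} {L : α → List (List k)} (hn : PolyTime n) (hb : PBd n)
    (hL : PolyTime L) : PolyTime (fun a => aug (n a) (L a)) := by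
  unfold aug
  refine PolyTime.map (PolyTime.range_length hL) ?_
  refine pt_mkv (α := α × ℕ) (n := fun p => n p.1 + (L p.1).length) (by fun_prop)
    ((hb.comp PolyTime.fst').add ((pbd_length hL).comp PolyTime.fst')) ?_
  refine PolyTime.ite (by fun_prop) ?_ ?_
  · fun_prop
  · exact PolyTime.ite (by fun_prop) (by fun_prop) (by fun_prop)

theorem pt_augS {n : α → ℕ} {L : α → List (List k)} (hn : PolyTime n) (hb : PBd n)
    (hL : PolyTime L) : PolyTime (fun a => augS (n a) (L a)) :=
  pt_rref (by fun_prop) (hb.add (pbd_length hL)) (pt_aug hn hb hL)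

theorem pt_rels {n : α → ℕ} {L : α → List (List k)} (hn : PolyTime n) (hb : PBd n)
    (hL : PolyTime L) : PolyTime (fun a => rels (n a) (L a)) := by
  unfold rels
  refine PolyTime.map (PolyTime.filter (pt_augS hn hb hL) (by fun_prop)) ?_
  exact pt_mkv (α := α × ℕ × List k) (n := fun p => (L p.1).length) (by fun_prop)
    ((pbd_length hL).comp PolyTime.fst') (by fun_prop)

theorem pt_solve {n : α → ℕ} {L : α → List (List k)} {v : α → List k} (hn : PolyTime n)
    (hb : PBd n) (hL : PolyTime L) (hv : PolyTime v) :
    PolyTime (fun a => solve (n a) (L a) (v a)) := by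
  unfold solve
  have h1 : PolyTime fun a => red (n a + (L a).length) (augS (n a) (L a)) (mkv (n a) (vl (v a))) :=
    pt_red (by fun_prop) (hb.add (pbd_length hL)) (pt_augS hn hb hL)
      (pt_mkv hn hb (by fun_prop))
  exact pt_mkv (by fun_prop) (pbd_length hL)
    (pt_neg (pt_vl (h1.comp PolyTime.fst') (by fun_prop)))

theorem pt_memb {n : α → ℕ} {L : α → List (List k)} {v : α → List k} (hn : PolyTime n)
    (hb : PBd n) (hL : PolyTime L) (hv : PolyTime v) :
    PolyTime (fun a => memb (n a) (L a) (v a)) := by
  unfold memb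
  exact PolyTime.option_isNone (pt_lead hn hb (pt_red hn hb (pt_rref hn hb hL) hv))

theorem pt_lc {n : α → ℕ} {L : α → List (List k)} {c : α → List k} (hn : PolyTime n)
    (hb : PBd n) (hL : PolyTime L) (hc : PolyTime c) :
    PolyTime (fun a => lc (n a) (L a) (c a)) := by
  unfold lc
  refine pt_mkv hn hb (pt_list_sum ?_)
  exact PolyTime.map (PolyTime.range_length (by fun_prop)) (by fun_prop)

end elim

end Pool.NCF.FF
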