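import Pool.Agent.NCF.Defs2
import Pool.Agent.NCF.FF.Fin

/-!
Shared definitions for the factorisation of sparse noncommutative polynomials over a fixed finite
field `k` (problem MP_825bd2_lc).
-/

set_option autoImplicit false

namespace Pool.NCF.FF

/-! ### lists as vectors and matrices -/

section lists

variable {k : Type} [Field k]

/-- The vector with the given entries (missing entries are zero). -/
def vec (n : ℕ) (l : List k) : Fin n → k := fun i => l.getD i 0

/-- The matrix with the given rows (missing entries are zero). -/
def mat (m n : ℕ) (L : List (List k)) : Matrix (Fin m) (Fin n) k :=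
  fun i j => (L.getD i []).getD j 0

/-- The span of the rows. -/
def rowSpan (n : ℕ) (L : List (List k)) : Submodule k (Fin n → k) :=
  Submodule.span k {v | ∃ l ∈ L, v = vec n l}

/-- The endomorphism given by a matrix. -/
noncomputable def endo (n : ℕ) (A : List (List k)) : Module.End k (Fin n → k) :=
  Matrix.toLin' (mat n n A)

/-- The algebra generated by a list of matrices. -/
noncomputable def genAlg (n : ℕ) (gens : List (List (List k))) :
    Subalgebra k (Module.End k (Fin n → k)) :=
  Algebra.adjoin k {a | ∃ g ∈ gens, a = endo n g}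

/-- The noncommutative polynomial with the given terms. -/
noncomputable def ncK (l : List (List ℕ × k)) : NC k ℕ :=
  (l.map fun t => MonoidAlgebra.single (FreeMonoid.ofList t.1) t.2).sum

/-- Reduced lists of terms: different words, nonzero coefficients. -/
def Red (l : List (List ℕ × k)) : Prop := (l.map Prod.fst).Nodup ∧ ∀ t ∈ l, t.2 ≠ 0

/-- The matrix attached to a letter by an association list (zero if there is none). -/
def tabMat (s : ℕ) (tab : List (ℕ × List (List k))) (x : ℕ) : Matrix (Fin s) (Fin s) k :=
  mat s s (((tab.find? fun p => p.1 == x).map Prod.snd).getD [])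

/-- The linear map sending the `i`-th unit vector to the quotient by the `i`-th word. -/
noncomputable def phi (f : NC k ℕ) (ws : List (List ℕ)) :
    (Fin ws.length → k) →ₗ[k] NC k ℕ :=
  Fintype.linearCombination k (fun i : Fin ws.length => lq (FreeMonoid.ofList (ws.get i)) f)

end lists

/-! ### the radical in characteristic `p` -/

section radical

variable {k V : Type*} [Field k] [AddCommGroup V] [Module k V]

/-- The span of the commutators of the algebra. -/
def Kom (𝒜 : Subalgebra k (Module.End k V)) : Submodule k (Module.End k V) :=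
  Submodule.span k {x | ∃ a ∈ 𝒜, ∃ b ∈ 𝒜, x = a * b - b * a}

/-- Elements whose `q ^ N`-th power is in the span of the commutators. -/
def InT (q N : ℕ) (𝒜 : Subalgebra k (Module.End k V)) (a : Module.End k V) : Prop :=
  a ∈ 𝒜 ∧ a ^ q ^ N ∈ Kom 𝒜

/-- The radical. -/
def InR (q N : ℕ) (𝒜 : Subalgebra k (Module.End k V)) (a : Module.End k V) : Prop :=
  a ∈ 𝒜 ∧ ∀ b ∈ 𝒜, InT q N 𝒜 (a * b)

/-- Central modulo the radical. -/
def RCen (q N : ℕ) (𝒜 : Subalgebra k (Module.End k V)) (z : Module.End k V) : Prop :=
  z ∈ 𝒜 ∧ ∀ a ∈ 𝒜, InR q N 𝒜 (z * a - a * z)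

/-- Central modulo the radical and fixed by the Frobenius map modulo the radical. -/
def FCen (q N : ℕ) (𝒜 : Subalgebra k (Module.End k V)) (z : Module.End k V) : Prop :=
  RCen q N 𝒜 z ∧ InR q N 𝒜 (z ^ q - z)

end radical

end Pool.NCF.FF
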