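import Pool.Agent.NCF.FF.Defs

/-! An element of minimal degree in a span of combinations of left quotients, in polynomial
time, over a finite field. -/

set_option autoImplicit false
set_option linter.unusedSectionVars false

namespace Pool.NCF.FF

open Pool.Agent.PolyTime Pool.Agent.LinAlg
open MonoidAlgebra (coeff_add coeff_single coeff_sum coeff_smul)

namespace MinElt

section alg

variable {k : Type} [Field k] [DecidableEq k]

theorem rowSpan_eq_range (n : ℕ) (L : List (List k)) :
    rowSpan n L = Submodule.span k (Set.range fun i : Fin L.length => vec n (L.get i)) := by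
  unfold rowSpan
  congr 1
  ext x
  constructor
  · rintro ⟨l, hl, rfl⟩
    obtain ⟨i, rfl⟩ := List.get_of_mem hl
    exact ⟨i, rfl⟩
  · rintro ⟨i, rfl⟩
    exact ⟨_, List.get_mem L i, rfl⟩

theorem mem_rowSpan {n : ℕ} {L : List (List k)} {l : List k} (h : l ∈ L) :
    vec n l ∈ rowSpan n L := Submodule.subset_span ⟨l, h, rfl⟩

theorem rowSpan_le {n : ℕ} {L : List (List k)} {U : Submodule k (Fin n → k)} :
    rowSpan n L ≤ U ↔ ∀ l ∈ L, vec n l ∈ U := by
  unfold rowSpan
  rw [Submodule.span_le]
  constructor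
  · intro h l hl; exact h ⟨l, hl, rfl⟩
  · rintro h _ ⟨l, hl, rfl⟩; exact h l hl


/-- The coefficient of a word. -/
def cf (l : List (List ℕ × k)) (w : List ℕ) : k :=
  (l.map fun t => if t.1 = w then t.2 else 0).sum

theorem coeff_ncK (l : List (List ℕ × k)) (w : List ℕ) :
    (ncK l).coeff (FreeMonoid.ofList w) = cf l w := by
  induction l with
  | nil => simp [ncK, cf]
  | cons t l ih =>
    have h1 : ncK (t :: l) =
        MonoidAlgebra.single (FreeMonoid.ofList t.1) t.2 + ncK l := by
      simp [ncK]
    have h2 : cf (t :: l) w = (if t.1 = w then t.2 else 0) + cf l w := by simp [cf]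
    rw [h1, h2, coeff_add, Finsupp.add_apply, ih, coeff_single]
    congr 1
    by_cases h : t.1 = w
    · rw [if_pos h, h, Finsupp.single_eq_same]
    · rw [if_neg h, Finsupp.single_eq_of_ne fun h' => h (FreeMonoid.ofList.injective h').symm]

/-- The different suffixes of the words. -/
def us (l : List (List ℕ × k)) : List (List ℕ) :=
  (l.flatMap fun t => (List.range (t.1.length + 1)).map fun i => t.1.drop i).dedup

theorem nodup_us (l : List (List ℕ × k)) : (us l).Nodup := List.nodup_dedup _

theorem mem_us {l : List (List ℕ × k)} {u : List ℕ} : u ∈ us l ↔ ∃ t ∈ l, u <:+ t.1 := by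
  unfold us
  rw [List.mem_dedup, List.mem_flatMap]
  constructor
  · rintro ⟨t, ht, h⟩
    obtain ⟨i, _, rfl⟩ := List.mem_map.1 h
    exact ⟨t, ht, List.drop_suffix _ _⟩
  · rintro ⟨t, ht, v, hv⟩
    refine ⟨t, ht, List.mem_map.2 ⟨v.length, ?_, ?_⟩⟩
    · rw [List.mem_range, ← hv, List.length_append]; omega
    · rw [← hv, List.drop_left]

theorem cf_eq_zero {l : List (List ℕ × k)} {u : List ℕ} (hu : u ∉ us l) (v : List ℕ) :
    cf l (v ++ u) = 0 := by
  unfold cf
  apply List.sum_eq_zero
  intro x hx
  obtain ⟨t, ht, rfl⟩ := List.mem_map.1 hx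
  rw [if_neg]
  intro h
  exact hu (mem_us.2 ⟨t, ht, v, h.symm⟩)

/-- The coefficients of the combination of the quotients with coefficients `z`. -/
def ce (l : List (List ℕ × k)) (ws : List (List ℕ)) (z : List k) (u : List ℕ) : k :=
  ((List.range ws.length).map fun i => z.getD i 0 * cf l (ws.getD i [] ++ u)).sum

theorem ce_eq_zero {l : List (List ℕ × k)} {u : List ℕ} (hu : u ∉ us l) (ws : List (List ℕ))
    (z : List k) : ce l ws z u = 0 := by
  unfold ce
  apply List.sum_eq_zero
  intro x hx
  obtain ⟨i, _, rfl⟩ := List.mem_map.1 hx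
  rw [cf_eq_zero hu, mul_zero]

theorem coeff_phi (l : List (List ℕ × k)) (ws : List (List ℕ)) (z : List k) (u : List ℕ) :
    (phi (ncK l) ws (vec ws.length z)).coeff (FreeMonoid.ofList u) = ce l ws z u := by
  rw [phi, Fintype.linearCombination_apply, coeff_sum, Finsupp.finsetSum_apply, ce, list_sum_range,
    Finset.sum_range]
  refine Finset.sum_congr rfl fun i _ => ?_
  rw [coeff_smul, Finsupp.smul_apply, coeff_lq, ← FreeMonoid.ofList_append, coeff_ncK, smul_eq_mul]
  congr 2
  rw [List.getD_eq_getElem _ _ i.2]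
  rfl

/-- The coefficients of the combination of the rows `Z` with coefficients `y`. -/
def cy (l : List (List ℕ × k)) (ws : List (List ℕ)) (Z : List (List k)) (y : List k)
    (u : List ℕ) : k :=
  ((List.range Z.length).map fun j => y.getD j 0 * ce l ws (Z.getD j []) u).sum

/-- The terms of the combination. -/
def tms (l : List (List ℕ × k)) (ws : List (List ℕ)) (Z : List (List k)) (y : List k) :
    List (List ℕ × k) :=
  ((us l).map fun u => (u, cy l ws Z y u)).filter fun t => !decide (t.2 = 0)

/-- The linear map sending coefficients of the rows to the combination of quotients. -/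
noncomputable def Phi (l : List (List ℕ × k)) (ws : List (List ℕ)) (Z : List (List k)) :
    (Fin Z.length → k) →ₗ[k] NC k ℕ :=
  (phi (ncK l) ws) ∘ₗ Fintype.linearCombination k (fun j : Fin Z.length => vec ws.length (Z.get j))

theorem range_Phi (l : List (List ℕ × k)) (ws : List (List ℕ)) (Z : List (List k)) :
    LinearMap.range (Phi l ws Z) = Submodule.map (phi (ncK l) ws) (rowSpan ws.length Z) := by
  rw [Phi, LinearMap.range_comp, Fintype.range_linearCombination, rowSpan_eq_range]

theorem coeff_Phi (l : List (List ℕ × k)) (ws : List (List ℕ)) (Z : List (List k))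
    (y : Fin Z.length → k) (u : List ℕ) :
    (Phi l ws Z y).coeff (FreeMonoid.ofList u) =
      ∑ j : Fin Z.length, y j * ce l ws (Z.getD j []) u := by
  rw [Phi, LinearMap.comp_apply, Fintype.linearCombination_apply, map_sum, coeff_sum,
    Finsupp.finsetSum_apply]
  refine Finset.sum_congr rfl fun j _ => ?_
  rw [map_smul, coeff_smul, Finsupp.smul_apply, smul_eq_mul, List.getD_eq_getElem _ _ j.2]
  congr 1
  exact coeff_phi l ws _ u

theorem coeff_Phi_vec (l : List (List ℕ × k)) (ws : List (List ℕ)) (Z : List (List k))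
    (y : List k) (u : List ℕ) :
    (Phi l ws Z (vec Z.length y)).coeff (FreeMonoid.ofList u) = cy l ws Z y u := by
  rw [coeff_Phi, cy, list_sum_range, Finset.sum_range]
  rfl

theorem coeff_Phi_eq_zero {l : List (List ℕ × k)} {u : List ℕ} (hu : u ∉ us l)
    (ws : List (List ℕ)) (Z : List (List k)) (y : Fin Z.length → k) :
    (Phi l ws Z y).coeff (FreeMonoid.ofList u) = 0 := by
  rw [coeff_Phi]
  refine Finset.sum_eq_zero fun j _ => ?_
  rw [ce_eq_zero hu]
  simp

theorem cf_map_of_nodup {L : List (List ℕ)} (hL : L.Nodup) (c : List ℕ → k) (w : List ℕ) :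
    cf (L.map fun u => (u, c u)) w = if w ∈ L then c w else 0 := by
  induction L with
  | nil => simp [cf]
  | cons a L ih =>
    rw [List.nodup_cons] at hL
    have h2 : cf ((a :: L).map fun u => (u, c u)) w = (if a = w then c a else 0) +
        cf (L.map fun u => (u, c u)) w := by simp [cf]
    rw [h2, ih hL.2]
    by_cases h : a = w
    · subst h
      rw [if_pos rfl, if_neg hL.1, if_pos List.mem_cons_self, add_zero]
    · rw [if_neg h, zero_add]
      by_cases h' : w ∈ L
      · rw [if_pos h', if_pos (List.mem_cons_of_mem _ h')]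
      · rw [if_neg h', if_neg]
        intro h3
        rcases List.mem_cons.1 h3 with h4 | h4
        · exact h h4.symm
        · exact h' h4

theorem cf_filter (L : List (List ℕ × k)) (w : List ℕ) :
    cf (L.filter fun t => !decide (t.2 = 0)) w = cf L w := by
  induction L with
  | nil => rfl
  | cons a L ih =>
    have h2 : cf (a :: L) w = (if a.1 = w then a.2 else 0) + cf L w := by simp [cf]
    by_cases h : a.2 = 0
    · rw [List.filter_cons_of_neg (by simp [h]), ih, h2, h]
      simp
    · rw [List.filter_cons_of_pos (by simp [h]), h2, ← ih]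
      simp [cf]

theorem cf_tms (l : List (List ℕ × k)) (ws : List (List ℕ)) (Z : List (List k)) (y : List k)
    (w : List ℕ) : cf (tms l ws Z y) w = if w ∈ us l then cy l ws Z y w else 0 := by
  rw [tms, cf_filter, cf_map_of_nodup (nodup_us l)]

theorem ncK_tms (l : List (List ℕ × k)) (ws : List (List ℕ)) (Z : List (List k)) (y : List k) :
    ncK (tms l ws Z y) = Phi l ws Z (vec Z.length y) := by
  ext u
  obtain ⟨w, rfl⟩ : ∃ w, FreeMonoid.ofList w = u := ⟨u.toList, rfl⟩
  rw [coeff_ncK, cf_tms]
  by_cases h : w ∈ us l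
  · rw [if_pos h, coeff_Phi_vec]
  · rw [if_neg h, coeff_Phi_eq_zero h]

theorem red_tms (l : List (List ℕ × k)) (ws : List (List ℕ)) (Z : List (List k)) (y : List k) :
    Red (tms l ws Z y) := by
  constructor
  · have h1 : ((tms l ws Z y).map Prod.fst).Sublist (us l) := by
      have h2 : ((tms l ws Z y).map Prod.fst).Sublist
          (((us l).map fun u => (u, cy l ws Z y u)).map Prod.fst) :=
        List.Sublist.map _ List.filter_sublist
      rw [List.map_map] at h2
      have h3 : (Prod.fst ∘ fun u => (u, cy l ws Z y u)) = id := rfl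
      rwa [h3, List.map_id] at h2
    exact h1.nodup (nodup_us l)
  · intro t ht
    have := (List.mem_filter.1 ht).2
    simpa using this

theorem ncK_ne_zero {t : List (List ℕ × k)} (ht : Red t) (h : t ≠ []) : ncK t ≠ 0 := by
  obtain ⟨a, t, rfl⟩ := List.exists_cons_of_ne_nil h
  intro h0
  have h1 : (ncK (a :: t)).coeff (FreeMonoid.ofList a.1) = 0 := by rw [h0]; simp
  rw [coeff_ncK] at h1
  have h2 : cf (a :: t) a.1 = a.2 + cf t a.1 := by simp [cf]
  have h3 : cf t a.1 = 0 := by
    unfold cf
    apply List.sum_eq_zero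
    intro x hx
    obtain ⟨s, hs, rfl⟩ := List.mem_map.1 hx
    rw [if_neg]
    intro h4
    have h5 := ht.1
    rw [List.map_cons, List.nodup_cons] at h5
    exact h5.1 (List.mem_map.2 ⟨s, hs, h4⟩)
  rw [h2, h3, add_zero] at h1
  exact ht.2 a List.mem_cons_self (by exact_mod_cast h1)

/-- The suffixes of length more than `d`. -/
def big (l : List (List ℕ × k)) (d : ℕ) : List (List ℕ) :=
  (us l).filter fun u => decide (d < u.length)

theorem mem_big {l : List (List ℕ × k)} {d : ℕ} {u : List ℕ} :
    u ∈ big l d ↔ u ∈ us l ∧ d < u.length := by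
  rw [big, List.mem_filter, decide_eq_true_eq]

/-- The coefficients of the words of length more than `d` in the row `j`. -/
def hr (l : List (List ℕ × k)) (ws : List (List ℕ)) (Z : List (List k)) (d j : ℕ) : List k :=
  mkv (big l d).length fun i => ce l ws (Z.getD j []) ((big l d).getD i [])

/-- The matrix of the coefficients of the words of length more than `d`. -/
def hi (l : List (List ℕ × k)) (ws : List (List ℕ)) (Z : List (List k)) (d : ℕ) :
    List (List k) := (List.range Z.length).map fun j => hr l ws Z d j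

theorem length_hi (l : List (List ℕ × k)) (ws : List (List ℕ)) (Z : List (List k)) (d : ℕ) :
    (hi l ws Z d).length = Z.length := by simp [hi]

/-- Extension of a vector by zero. -/
def ext (n : ℕ) (y : Fin n → k) : ℕ → k := fun i => if h : i < n then y ⟨i, h⟩ else 0

theorem comb_hi (l : List (List ℕ × k)) (ws : List (List ℕ)) (Z : List (List k)) (d : ℕ)
    (c : ℕ → k) (i : ℕ) (h : i < (big l d).length) :
    comb (hi l ws Z d) c i =
      (Phi l ws Z fun j => c j).coeff (FreeMonoid.ofList ((big l d)[i])) := by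
  rw [comb, coeff_Phi, length_hi, Finset.sum_range]
  refine Finset.sum_congr rfl fun j _ => ?_
  have h1 : (hi l ws Z d).getD (j : ℕ) [] = hr l ws Z d j := by
    rw [List.getD_eq_getElem _ _ (by rw [length_hi]; exact j.2)]
    unfold hi
    rw [List.getElem_map, List.getElem_range]
  rw [h1, hr, vl_mkv_lt h, List.getD_eq_getElem _ _ h]

/-- Basis vectors of the coefficient vectors giving elements of degree at most `d`. -/
def kr (l : List (List ℕ × k)) (ws : List (List ℕ)) (Z : List (List k)) (d : ℕ) :
    List (List k) := rels (big l d).length (hi l ws Z d)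

/-- Restriction of functions. -/
def res (n : ℕ) : (ℕ → k) →ₗ[k] (Fin n → k) where
  toFun x i := x i
  map_add' _ _ := rfl
  map_smul' _ _ := rfl

theorem rowSpan_eq_map (n : ℕ) (L : List (List k)) :
    rowSpan n L = Submodule.map (res n) (Sp L) := by
  rw [rowSpan, Sp, Submodule.map_span]
  congr 1
  ext v
  constructor
  · rintro ⟨l, hl, rfl⟩
    exact ⟨vl l, ⟨l, hl, rfl⟩, rfl⟩
  · rintro ⟨_, ⟨l, hl, rfl⟩, rfl⟩
    exact ⟨l, hl, rfl⟩

theorem mem_kr {l : List (List ℕ × k)} {ws : List (List ℕ)} {Z : List (List k)} {d : ℕ}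
    {y : Fin Z.length → k} :
    y ∈ rowSpan Z.length (kr l ws Z d) ↔ ndeg (Phi l ws Z y) ≤ d := by
  rw [rowSpan_eq_map, ndeg_le_iff]
  constructor
  · rintro ⟨c, hc, rfl⟩ w hw
    rw [SetLike.mem_coe, kr, mem_rels] at hc
    by_contra hd
    rw [not_le] at hd
    obtain ⟨u, rfl⟩ : ∃ u, FreeMonoid.ofList u = w := ⟨w.toList, rfl⟩
    have hd' : d < u.length := hd
    by_cases hu : u ∈ us l
    · obtain ⟨i, hi', hiu⟩ := List.mem_iff_getElem.1 (mem_big.2 ⟨hu, hd'⟩)
      apply hw
      rw [← hiu]
      exact (comb_hi l ws Z d c i hi').symm.trans (hc.2 i hi')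
    · exact hw (coeff_Phi_eq_zero hu ws Z _)
  · intro h
    have h0 : res Z.length (ext Z.length y) = y := by
      funext i
      show ext Z.length y i = y i
      rw [ext, dif_pos i.2]
    refine ⟨ext Z.length y, ?_, h0⟩
    rw [SetLike.mem_coe, kr, mem_rels]
    refine ⟨fun i hi => ?_, fun i hi' => ?_⟩
    · rw [length_hi] at hi
      rw [ext, dif_neg (by omega)]
    · rw [comb_hi l ws Z d _ i hi']
      have h1 : (fun j : Fin Z.length => ext Z.length y j) = y := h0
      rw [h1]
      have hm := (mem_big.1 (List.getElem_mem hi')).2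
      by_contra h2
      have h3 : ((big l d)[i]).length ≤ d := h _ h2
      omega

/-- The nonzero candidates of degree at most `d`. -/
def cand (l : List (List ℕ × k)) (ws : List (List ℕ)) (Z : List (List k)) (d : ℕ) :
    List (List (List ℕ × k)) :=
  ((kr l ws Z d).map fun y => tms l ws Z y).filter fun t => !t.isEmpty

theorem cand_eq_nil {l : List (List ℕ × k)} {ws : List (List ℕ)} {Z : List (List k)} {d : ℕ}
    (h : cand l ws Z d = []) (y : Fin Z.length → k) (hy : ndeg (Phi l ws Z y) ≤ d) :
    Phi l ws Z y = 0 := by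
  have h1 : rowSpan Z.length (kr l ws Z d) ≤ LinearMap.ker (Phi l ws Z) := by
    rw [rowSpan_le]
    intro v hv
    rw [LinearMap.mem_ker, ← ncK_tms]
    have h2 : tms l ws Z v = [] := by
      by_contra h3
      have h4 : tms l ws Z v ∈ cand l ws Z d :=
        List.mem_filter.2 ⟨List.mem_map.2 ⟨v, hv, rfl⟩, by simpa using h3⟩
      rw [h] at h4
      exact absurd h4 (List.not_mem_nil)
    rw [h2]
    simp [ncK]
  exact LinearMap.mem_ker.1 (h1 (mem_kr.2 hy))

/-- The number of letters. -/
def nl (l : List (List ℕ × k)) : ℕ := (l.flatMap fun t => t.1).length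

theorem length_le_nl {l : List (List ℕ × k)} {t : List ℕ × k} (ht : t ∈ l) :
    t.1.length ≤ nl l := by
  unfold nl
  rw [List.length_flatMap]
  exact List.single_le_sum (by simp) _ (List.mem_map.2 ⟨t, ht, rfl⟩)

theorem ndeg_Phi_le (l : List (List ℕ × k)) (ws : List (List ℕ)) (Z : List (List k))
    (y : Fin Z.length → k) : ndeg (Phi l ws Z y) ≤ nl l := by
  rw [ndeg_le_iff]
  intro w hw
  obtain ⟨u, rfl⟩ : ∃ u, FreeMonoid.ofList u = w := ⟨w.toList, rfl⟩
  have hu : u ∈ us l := by
    by_contra h
    exact hw (coeff_Phi_eq_zero h ws Z y)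
  obtain ⟨t, ht, hut⟩ := mem_us.1 hu
  exact (hut.length_le).trans (length_le_nl ht)

/-- The algorithm. -/
def minElt (p : List (List ℕ × k) × List (List ℕ) × List (List k)) : List (List ℕ × k) :=
  ((List.range (nl p.1 + 1)).find? fun d => !(cand p.1 p.2.1 p.2.2 d).isEmpty).elim p.1
    fun d => (cand p.1 p.2.1 p.2.2 d).headD p.1

theorem minElt_spec (l : List (List ℕ × k)) (ws : List (List ℕ)) (Z : List (List k))
    (hl : Red l) : Red (minElt (l, ws, Z)) ∧
      ((Submodule.map (phi (ncK l) ws) (rowSpan ws.length Z) = ⊥ ∧ minElt (l, ws, Z) = l) ∨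
      (ncK (minElt (l, ws, Z)) ∈ Submodule.map (phi (ncK l) ws) (rowSpan ws.length Z) ∧
        ncK (minElt (l, ws, Z)) ≠ 0 ∧
        ∀ v ∈ Submodule.map (phi (ncK l) ws) (rowSpan ws.length Z), v ≠ 0 →
          ndeg (ncK (minElt (l, ws, Z))) ≤ ndeg v)) := by
  rw [← range_Phi]
  cases hf : (List.range (nl l + 1)).find? fun d => !(cand l ws Z d).isEmpty with
  | none =>
    have h0 : minElt (l, ws, Z) = l := by
      unfold minElt
      simp only [hf, Option.elim_none]
    rw [h0]
    refine ⟨hl, Or.inl ⟨?_, rfl⟩⟩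
    rw [List.find?_eq_none] at hf
    have h1 := hf (nl l) (List.mem_range.2 (by omega))
    have h2 : cand l ws Z (nl l) = [] := by simpa using h1
    rw [LinearMap.range_eq_bot]
    refine LinearMap.ext fun y => ?_
    exact cand_eq_nil h2 y (ndeg_Phi_le l ws Z y)
  | some d =>
    have hf' := hf
    rw [List.find?_range_eq_some] at hf
    obtain ⟨hd1, hd2, hd3⟩ := hf
    have hne : cand l ws Z d ≠ [] := by simpa using hd1
    have h0 : minElt (l, ws, Z) = (cand l ws Z d).headD l := by
      unfold minElt
      simp only [hf', Option.elim_some]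
    obtain ⟨t, rest, ht⟩ := List.exists_cons_of_ne_nil hne
    have h1 : minElt (l, ws, Z) = t := by rw [h0, ht]; rfl
    rw [h1]
    have h2 : t ∈ cand l ws Z d := by rw [ht]; exact List.mem_cons_self
    obtain ⟨h3, h4⟩ := List.mem_filter.1 h2
    obtain ⟨y, hy, rfl⟩ := List.mem_map.1 h3
    have h5 : tms l ws Z y ≠ [] := by simpa using h4
    have h6 : vec Z.length y ∈ rowSpan Z.length (kr l ws Z d) := mem_rowSpan hy
    refine ⟨red_tms l ws Z y, Or.inr ⟨?_, ncK_ne_zero (red_tms l ws Z y) h5, ?_⟩⟩
    · rw [ncK_tms]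
      exact LinearMap.mem_range_self _ _
    · rintro v ⟨x, rfl⟩ hv
      rw [ncK_tms]
      refine (mem_kr.1 h6).trans ?_
      by_contra hlt
      rw [not_le] at hlt
      have h7 := hd3 _ hlt
      have h8 : cand l ws Z (ndeg (Phi l ws Z x)) = [] := by simpa using h7
      exact hv (cand_eq_nil h8 x le_rfl)

end alg

/-! ### polynomial time -/

section pt

variable {α β : Type} [PEnc α] [PEnc β]

theorem pt_dedup [DecidableEq β] {L : α → List β} (hL : PolyTime L) :
    PolyTime (fun a => (L a).dedup) := by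
  have key : ∀ m : List β, m.foldr (fun b acc => if b ∈ acc then acc else b :: acc) [] =
      m.dedup := by
    intro m
    induction m with
    | nil => rfl
    | cons b m ih =>
      rw [List.foldr_cons, ih]
      by_cases h : b ∈ m
      · rw [if_pos (List.mem_dedup.2 h), List.dedup_cons_of_mem h]
      · rw [if_neg fun h' => h (List.mem_dedup.1 h'), List.dedup_cons_of_notMem h]
  refine (PolyTime.foldr (s := fun _ => []) (h := fun _ b acc => if b ∈ acc then acc else b :: acc)
    hL (PolyTime.const []) ?_ hL.pbd ?_).congr (fun a => key _)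
  · refine (PolyTime.cond (c := fun q : α × β × List β => decide (q.2.1 ∈ q.2.2))
      (f := fun q => q.2.2) (g := fun q => q.2.1 :: q.2.2) (by fun_prop) (by fun_prop)
      (by fun_prop)).congr (fun q => ?_)
    by_cases h : q.2.1 ∈ q.2.2 <;> simp [h]
  · intro a i
    rw [key]
    exact (size_sublist (List.dedup_sublist _)).trans (size_sublist (List.drop_sublist _ _))

variable {k : Type} [Field k] [Finite k] [DecidableEq k] [PEnc k]

theorem pt_cf {l : α → List (List ℕ × k)} {w : α → List ℕ} (hl : PolyTime l) (hw : PolyTime w) :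
    PolyTime (fun a => cf (l a) (w a)) := by
  unfold cf
  refine pt_list_sum (PolyTime.map hl ?_)
  exact PolyTime.ite (by fun_prop) (by fun_prop) (by fun_prop)

theorem pt_us {l : α → List (List ℕ × k)} (hl : PolyTime l) : PolyTime (fun a => us (l a)) := by
  unfold us
  refine pt_dedup (PolyTime.flatMap hl ?_)
  refine PolyTime.map (PolyTime.range (by fun_prop) ?_) (by fun_prop)
  exact (pbd_length (l := fun q : α × List ℕ × k => q.2.1) (by fun_prop)).add (PBd.const 1)

theorem pt_ce {l : α → List (List ℕ × k)} {ws : α → List (List ℕ)} {z : α → List k}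
    {u : α → List ℕ} (hl : PolyTime l) (hws : PolyTime ws) (hz : PolyTime z) (hu : PolyTime u) :
    PolyTime (fun a => ce (l a) (ws a) (z a) (u a)) := by
  unfold ce
  refine pt_list_sum (PolyTime.map (PolyTime.range_length hws) ?_)
  refine pt_mul (by fun_prop) ?_
  exact pt_cf (α := α × ℕ) (l := fun q => l q.1) (by fun_prop) (by fun_prop)

theorem pt_cy {l : α → List (List ℕ × k)} {ws : α → List (List ℕ)} {Z : α → List (List k)}
    {y : α → List k} {u : α → List ℕ} (hl : PolyTime l) (hws : PolyTime ws) (hZ : PolyTime Z)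
    (hy : PolyTime y) (hu : PolyTime u) :
    PolyTime (fun a => cy (l a) (ws a) (Z a) (y a) (u a)) := by
  unfold cy
  refine pt_list_sum (PolyTime.map (PolyTime.range_length hZ) ?_)
  refine pt_mul (by fun_prop) ?_
  exact pt_ce (α := α × ℕ) (l := fun q => l q.1) (ws := fun q => ws q.1) (by fun_prop)
    (by fun_prop) (by fun_prop) (by fun_prop)

theorem pt_tms {l : α → List (List ℕ × k)} {ws : α → List (List ℕ)} {Z : α → List (List k)}
    {y : α → List k} (hl : PolyTime l) (hws : PolyTime ws) (hZ : PolyTime Z)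
    (hy : PolyTime y) : PolyTime (fun a => tms (l a) (ws a) (Z a) (y a)) := by
  unfold tms
  refine PolyTime.filter (PolyTime.map (pt_us hl) ?_) (by fun_prop)
  refine PolyTime.prodMk (by fun_prop) ?_
  exact pt_cy (α := α × List ℕ) (l := fun q => l q.1) (ws := fun q => ws q.1)
    (Z := fun q => Z q.1) (y := fun q => y q.1) (by fun_prop) (by fun_prop) (by fun_prop)
    (by fun_prop) (by fun_prop)

theorem pt_big {l : α → List (List ℕ × k)} {d : α → ℕ} (hl : PolyTime l) (hd : PolyTime d) :
    PolyTime (fun a => big (l a) (d a)) := by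
  unfold big
  exact PolyTime.filter (pt_us hl) (by fun_prop)

theorem pt_hi {l : α → List (List ℕ × k)} {ws : α → List (List ℕ)} {Z : α → List (List k)}
    {d : α → ℕ} (hl : PolyTime l) (hws : PolyTime ws) (hZ : PolyTime Z)
    (hd : PolyTime d) : PolyTime (fun a => hi (l a) (ws a) (Z a) (d a)) := by
  unfold hi hr
  have hb := pt_big hl hd
  refine PolyTime.map (PolyTime.range_length hZ) ?_
  refine pt_mkv (α := α × ℕ) (n := fun p => (big (l p.1) (d p.1)).length)
    (PolyTime.length (hb.comp PolyTime.fst')) ((pbd_length hb).comp PolyTime.fst') ?_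
  have hb' : PolyTime fun q : (α × ℕ) × ℕ => big (l q.1.1) (d q.1.1) :=
    hb.comp (PolyTime.fst'.comp PolyTime.fst')
  exact pt_ce (α := (α × ℕ) × ℕ) (l := fun q => l q.1.1) (ws := fun q => ws q.1.1)
    (by fun_prop) (by fun_prop) (by fun_prop) (by fun_prop)

theorem pt_kr {l : α → List (List ℕ × k)} {ws : α → List (List ℕ)} {Z : α → List (List k)}
    {d : α → ℕ} (hl : PolyTime l) (hws : PolyTime ws) (hZ : PolyTime Z)
    (hd : PolyTime d) : PolyTime (fun a => kr (l a) (ws a) (Z a) (d a)) := by
  unfold kr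
  have hb := pt_big hl hd
  exact pt_rels (PolyTime.length hb) (pbd_length hb) (pt_hi hl hws hZ hd)

theorem pt_cand {l : α → List (List ℕ × k)} {ws : α → List (List ℕ)} {Z : α → List (List k)}
    {d : α → ℕ} (hl : PolyTime l) (hws : PolyTime ws) (hZ : PolyTime Z)
    (hd : PolyTime d) : PolyTime (fun a => cand (l a) (ws a) (Z a) (d a)) := by
  unfold cand
  refine PolyTime.filter (PolyTime.map (pt_kr hl hws hZ hd) ?_) (by fun_prop)
  exact pt_tms (α := α × List k) (l := fun q => l q.1) (ws := fun q => ws q.1)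
    (Z := fun q => Z q.1) (by fun_prop) (by fun_prop) (by fun_prop) (by fun_prop)

theorem pt_minElt : PolyTime (minElt (k := k)) := by
  unfold minElt
  have h1 : PolyTime fun p : List (List ℕ × k) × List (List ℕ) × List (List k) => nl p.1 := by
    unfold nl
    fun_prop
  have h2 : PBd fun p : List (List ℕ × k) × List (List ℕ) × List (List k) => nl p.1 := by
    unfold nl
    exact pbd_length (by fun_prop)
  have h3 : PolyTime fun q : (List (List ℕ × k) × List (List ℕ) × List (List k)) × ℕ =>
      cand q.1.1 q.1.2.1 q.1.2.2 q.2 :=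
    pt_cand (by fun_prop) (by fun_prop) (by fun_prop) (by fun_prop)
  refine PolyTime.option_elim (PolyTime.find? (PolyTime.range (by fun_prop)
    (h2.add (PBd.const 1))) (by fun_prop)) (by fun_prop) (by fun_prop)

end pt

end MinElt

theorem exists_minElt (k : Type) [Field k] [Finite k] [PEnc k] :
    ∃ minElt : List (List ℕ × k) × List (List ℕ) × List (List k) →
    List (List ℕ × k), PolyTime minElt ∧
    ∀ (l : List (List ℕ × k)) (ws : List (List ℕ)) (Z : List (List k)),
      Red l → l ≠ [] → (∀ w ∈ ws, w ≠ []) → Red (minElt (l, ws, Z)) ∧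
      ((Submodule.map (phi (ncK l) ws) (rowSpan ws.length Z) = ⊥ ∧ minElt (l, ws, Z) = l) ∨
      (ncK (minElt (l, ws, Z)) ∈ Submodule.map (phi (ncK l) ws) (rowSpan ws.length Z) ∧
        ncK (minElt (l, ws, Z)) ≠ 0 ∧
        ∀ v ∈ Submodule.map (phi (ncK l) ws) (rowSpan ws.length Z), v ≠ 0 →
          ndeg (ncK (minElt (l, ws, Z))) ≤ ndeg v)) := by
  classical
  exact ⟨MinElt.minElt, MinElt.pt_minElt, fun l ws Z hl _ _ => MinElt.minElt_spec l ws Z hl⟩

end Pool.NCF.FF
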