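import Pool.Agent.NCF.FF.Defs
import Pool.Agent.NCF.Ops3

/-! Finite fields: the operators as matrices. -/

set_option autoImplicit false

namespace Pool.NCF.FF

namespace OP

open MonoidAlgebra Pool.Agent.PolyTime Pool.Agent.LinAlg

set_option linter.unusedSectionVars false

section spec

variable {k : Type} [Field k]

/-! ### matrices as lists of rows -/

/-- An entry of a list of rows. -/
def ent (A : List (List k)) (i j : ℕ) : k := (A.getD i []).getD j 0

/-- The list of rows of the matrix with the given entries. -/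
def mk2 (m n : ℕ) (f : ℕ → ℕ → k) : List (List k) :=
  (List.range m).map fun i => (List.range n).map fun j => f i j

lemma ent_mk2 {m n : ℕ} (f : ℕ → ℕ → k) {i j : ℕ} (hi : i < m) (hj : j < n) :
    ent (mk2 m n f) i j = f i j := by
  unfold ent mk2
  rw [List.getD_eq_getElem?_getD, List.getD_eq_getElem?_getD, List.getElem?_map,
    List.getElem?_range hi, Option.map_some, Option.getD_some, List.getElem?_map,
    List.getElem?_range hj, Option.map_some, Option.getD_some]

lemma mat_apply (m n : ℕ) (A : List (List k)) (i : Fin m) (j : Fin n) :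
    mat m n A i j = ent A i j := rfl

lemma mat_mk2 (m n : ℕ) (f : ℕ → ℕ → k) (i : Fin m) (j : Fin n) :
    mat m n (mk2 m n f) i j = f i j := by
  rw [mat_apply, ent_mk2 f i.2 j.2]

/-- Product of matrices. -/
def mmul (s : ℕ) (A B : List (List k)) : List (List k) :=
  mk2 s s fun i j => ((List.range s).map fun m => ent A i m * ent B m j).sum

lemma mat_mmul (s : ℕ) (A B : List (List k)) :
    mat s s (mmul s A B) = mat s s A * mat s s B := by
  classical
  ext i j
  rw [mmul, mat_mk2, list_sum_range, Matrix.mul_apply, Finset.sum_range]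
  rfl

/-- The identity matrix. -/
def mident (s : ℕ) : List (List k) := mk2 s s fun i j => if i = j then 1 else 0

lemma mat_mident (s : ℕ) : mat s s (mident s : List (List k)) = 1 := by
  ext i j
  rw [mident, mat_mk2, Matrix.one_apply]
  by_cases h : i = j
  · simp [h]
  · rw [if_neg h, if_neg (fun h' => h (Fin.ext h'))]

section
variable [DecidableEq k]

/-- The inverse matrix. -/
def inv (s : ℕ) (F : List (List k)) : List (List k) :=
  (List.range s).map fun i => solve s (mk2 s s (ent F)) (mkv s fun j => if i = j then 1 else 0)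

lemma vl_getD_mk2 {s : ℕ} (F : List (List k)) {i : ℕ} (hi : i < s) :
    vl ((mk2 s s (ent F)).getD i []) = vl (mkv s (ent F i)) := by
  congr 1
  unfold mk2
  rw [List.getD_eq_getElem?_getD, List.getElem?_map, List.getElem?_range hi]
  rfl

lemma comb_mk2 {s : ℕ} (F : List (List k)) (c : ℕ → k) {j : ℕ} (hj : j < s) :
    comb (mk2 s s (ent F)) c j = ∑ i ∈ Finset.range s, c i * ent F i j := by
  unfold comb
  have : (mk2 s s (ent F)).length = s := by simp [mk2]
  rw [this]
  refine Finset.sum_congr rfl fun i hi => ?_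
  rw [vl_getD_mk2 F (Finset.mem_range.1 hi), vl_mkv_lt hj]

lemma supp_mk2 {s : ℕ} (F : List (List k)) : ∀ u ∈ mk2 s s (ent F), Supp s (vl u) := by
  intro u hu
  obtain ⟨i, _, rfl⟩ := List.mem_map.1 hu
  exact supp_mkv s _

lemma mat_inv {s : ℕ} {F : List (List k)} (hF : (mat s s F).det ≠ 0) :
    mat s s (inv s F) = (mat s s F)⁻¹ := by
  have hu : IsUnit (mat s s F).det := IsUnit.mk0 _ hF
  have key : mat s s (inv s F) * mat s s F = 1 := by
    ext i j
    have hmem : vl (mkv s fun j => if (i : ℕ) = j then (1 : k) else 0) ∈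
        Sp (mk2 s s (ent F)) := by
      rw [mem_Sp_iff_comb]
      refine ⟨fun m => if h : m < s then (mat s s F)⁻¹ i ⟨m, h⟩ else 0, ?_, ?_⟩
      · intro m hm
        have : (mk2 s s (ent F)).length = s := by simp [mk2]
        rw [this] at hm
        exact dif_neg (by omega)
      · funext j
        by_cases hj : j < s
        · rw [comb_mk2 F _ hj, vl_mkv_lt hj, Finset.sum_range]
          have h1 := congrFun (congrFun (Matrix.nonsing_inv_mul _ hu) i) ⟨j, hj⟩
          rw [Matrix.mul_apply, Matrix.one_apply] at h1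
          have h2 : (if i = (⟨j, hj⟩ : Fin s) then (1 : k) else 0) =
              if (i : ℕ) = j then 1 else 0 := by
            by_cases h : (i : ℕ) = j
            · rw [if_pos h, if_pos (Fin.ext h)]
            · rw [if_neg h, if_neg (fun h' => h (congrArg Fin.val h'))]
          rw [← h2, ← h1]
          refine Finset.sum_congr rfl fun m _ => ?_
          rw [dif_pos m.2]
          rfl
        · rw [vl_mkv_ge (by omega), Sp_le_Fn (supp_mk2 F) (comb_mem _ _) j (by omega)]
    have h3 := comb_solve (supp_mk2 F) (supp_mkv s _) hmem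
    have h4 := congrFun h3 j
    rw [comb_mk2 F _ j.2, vl_mkv_lt j.2, Finset.sum_range] at h4
    rw [Matrix.mul_apply, Matrix.one_apply]
    have h2 : (if i = j then (1 : k) else 0) = if (i : ℕ) = j then 1 else 0 := by
      by_cases h : i = j
      · rw [if_pos h, if_pos (congrArg Fin.val h)]
      · rw [if_neg h, if_neg (fun h' => h (Fin.ext h'))]
    rw [h2, ← h4]
    refine Finset.sum_congr rfl fun m _ => ?_
    have h5 : mat s s (inv s F) i m = vl (solve s (mk2 s s (ent F))
        (mkv s fun j => if (i : ℕ) = j then (1 : k) else 0)) m := by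
      rw [mat_apply]
      unfold ent inv
      rw [List.getD_eq_getElem?_getD (l := (List.range s).map _), List.getElem?_map,
        List.getElem?_range i.2]
      rfl
    rw [h5]
    rfl
  calc mat s s (inv s F) = mat s s (inv s F) * (mat s s F * (mat s s F)⁻¹) := by
        rw [Matrix.mul_nonsing_inv _ hu, mul_one]
    _ = (mat s s F)⁻¹ := by rw [← mul_assoc, key, one_mul]

end

/-! ### evaluation -/

/-- The matrix of a letter. -/
def Tmat (tab : List (ℕ × List (List k))) (x : ℕ) : List (List k) :=
  ((tab.find? fun p => p.1 == x).map Prod.snd).getD []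

/-- Product of the matrices of the letters, last letter first. -/
def rpL (s : ℕ) (tab : List (ℕ × List (List k))) (w : List ℕ) : List (List k) :=
  w.foldl (fun M x => mmul s (Tmat tab x) M) (mident s)

/-- Evaluation of a polynomial. -/
def evL (s : ℕ) (tab : List (ℕ × List (List k))) (l : List (List ℕ × k)) : List (List k) :=
  mk2 s s fun i j => (l.map fun t => t.2 * ent (rpL s tab t.1) i j).sum

/-- Left quotient of a polynomial. -/
def quo (w : List ℕ) (l : List (List ℕ × k)) : List (List ℕ × k) :=
  (l.filter fun t => decide (t.1.take w.length = w)).map fun t => (t.1.drop w.length, t.2)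

/-- The nonempty prefixes of the words. -/
def words (l : List (List ℕ × k)) : List (List ℕ) :=
  (l.flatMap fun t => (List.range t.1.length).map fun i => t.1.take (i + 1)).dedup

/-- One entry of the matrix of an operator. -/
def opEnt (s : ℕ) (tab : List (ℕ × List (List k))) (l : List (List ℕ × k))
    (Fh : List (List k)) (x i j : ℕ) (w1 w0 : List ℕ) : k :=
  if w1.getLast? = some x then
    (if w1.dropLast.take w0.length = w0 then
      ent (rpL s tab (w1.dropLast.drop w0.length)) i j else 0) -
    ent (mmul s (rpL s tab w1.dropLast) (mmul s Fh (evL s tab (quo w0 l)))) i j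
  else 0

/-- The matrix of an operator. -/
def opMat (s : ℕ) (tab : List (ℕ × List (List k))) (l : List (List ℕ × k))
    (Fh : List (List k)) (ws : List (List ℕ)) (x i j : ℕ) : List (List k) :=
  mk2 ws.length ws.length fun a b => opEnt s tab l Fh x i j (ws.getD a []) (ws.getD b [])

/-- All operators. -/
def opsL [DecidableEq k] (s : ℕ) (tab : List (ℕ × List (List k))) (l : List (List ℕ × k)) :
    List (List (List k)) :=
  (l.flatMap Prod.fst).flatMap fun x => (List.range s).flatMap fun i => (List.range s).map fun j =>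
    opMat s tab l (inv s (evL s tab l)) (words l) x i j

lemma tabMat_eq (s : ℕ) (tab : List (ℕ × List (List k))) (x : ℕ) :
    tabMat s tab x = mat s s (Tmat tab x) := rfl

lemma mat_rpL (s : ℕ) (tab : List (ℕ × List (List k))) (w : List ℕ) :
    mat s s (rpL s tab w) = revProd (tabMat s tab) (FreeMonoid.ofList w) := by
  induction w using List.reverseRecOn with
  | nil => rw [rpL, List.foldl_nil, mat_mident]; exact (revProd_one _).symm
  | append_singleton w x ih =>
    have h : FreeMonoid.ofList (w ++ [x]) = FreeMonoid.ofList w * FreeMonoid.of x := rfl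
    rw [h, revProd_mul_of, ← ih, rpL, List.foldl_append, List.foldl_cons, List.foldl_nil, mat_mmul]
    rfl

lemma ncK_nil : ncK ([] : List (List ℕ × k)) = 0 := rfl

lemma ncK_cons (t : List ℕ × k) (l : List (List ℕ × k)) :
    ncK (t :: l) = MonoidAlgebra.single (FreeMonoid.ofList t.1) t.2 + ncK l := rfl

lemma mat_evL (s : ℕ) (tab : List (ℕ × List (List k))) (l : List (List ℕ × k)) :
    mat s s (evL s tab l) = revEval (tabMat s tab) (ncK l) := by
  ext i j
  rw [evL, mat_mk2]
  induction l with
  | nil => simp [ncK_nil, revEval_zero]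
  | cons t l ih =>
    rw [ncK_cons, revEval_add, revEval_single, List.map_cons, List.sum_cons, ih,
      Matrix.add_apply, Matrix.smul_apply, ← mat_rpL, mat_apply]
    rfl

lemma lq_single_of_eq (w z u : List ℕ) (h : z = w ++ u) (c : k) :
    lq (FreeMonoid.ofList w) (MonoidAlgebra.single (FreeMonoid.ofList z) c) =
      MonoidAlgebra.single (FreeMonoid.ofList u) c := by
  classical
  ext v
  rw [coeff_lq, coeff_single, coeff_single, Finsupp.single_apply, Finsupp.single_apply]
  have h1 : FreeMonoid.ofList z = FreeMonoid.ofList w * FreeMonoid.ofList u := by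
    rw [h]; rfl
  simp only [h1, mul_right_inj]

lemma lq_single_of_ne (w z : List ℕ) (h : z.take w.length ≠ w) (c : k) :
    lq (FreeMonoid.ofList w) (MonoidAlgebra.single (FreeMonoid.ofList z) c) = 0 := by
  classical
  ext v
  rw [coeff_lq, coeff_single, Finsupp.single_apply, if_neg]
  · simp
  · intro h1
    apply h
    have h2 : z = w ++ v.toList := h1
    rw [h2]
    simp

lemma ncK_quo (w : List ℕ) (l : List (List ℕ × k)) :
    ncK (quo w l) = lq (FreeMonoid.ofList w) (ncK l) := by
  induction l with
  | nil => simp [quo, ncK_nil]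
  | cons t l ih =>
    rw [ncK_cons, map_add, ← ih, quo]
    by_cases h : t.1.take w.length = w
    · rw [List.filter_cons_of_pos (by simpa using h), List.map_cons, ncK_cons]
      rw [lq_single_of_eq w t.1 (t.1.drop w.length)]
      · rfl
      · conv_lhs => rw [← List.take_append_drop w.length t.1, h]
    · rw [List.filter_cons_of_neg (by simpa using h), lq_single_of_ne w t.1 h, zero_add]
      rfl

lemma coeff_ncK_cons (t : List ℕ × k) (l : List (List ℕ × k)) (z : List ℕ) :
    (ncK (t :: l)).coeff (FreeMonoid.ofList z) =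
      (if t.1 = z then t.2 else 0) + (ncK l).coeff (FreeMonoid.ofList z) := by
  classical
  rw [ncK_cons, coeff_add, Finsupp.add_apply, coeff_single, Finsupp.single_apply]
  congr 1
  by_cases h : t.1 = z
  · simp [h]
  · rw [if_neg h, if_neg (fun h' => h (FreeMonoid.ofList.injective h'))]

lemma coeff_ncK_of_notMem {l : List (List ℕ × k)} {z : List ℕ} (h : z ∉ l.map Prod.fst) :
    (ncK l).coeff (FreeMonoid.ofList z) = 0 := by
  induction l with
  | nil => simp [ncK_nil]
  | cons t l ih =>
    rw [List.map_cons, List.mem_cons, not_or] at h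
    rw [coeff_ncK_cons, ih h.2, if_neg (fun h' => h.1 h'.symm), add_zero]

lemma coeff_ncK_of_mem {l : List (List ℕ × k)} (hl : (l.map Prod.fst).Nodup)
    {t : List ℕ × k} (ht : t ∈ l) : (ncK l).coeff (FreeMonoid.ofList t.1) = t.2 := by
  induction l with
  | nil => simp at ht
  | cons t' l ih =>
    rw [List.map_cons, List.nodup_cons] at hl
    rw [coeff_ncK_cons]
    rcases List.mem_cons.1 ht with rfl | ht'
    · rw [if_pos rfl, coeff_ncK_of_notMem hl.1, add_zero]
    · rw [ih hl.2 ht', if_neg, zero_add]
      intro h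
      exact hl.1 (h ▸ List.mem_map.2 ⟨t, ht', rfl⟩)

lemma mem_words {l : List (List ℕ × k)} {w : List ℕ} :
    w ∈ words l ↔ w ≠ [] ∧ ∃ t ∈ l, w <+: t.1 := by
  rw [words, List.mem_dedup, List.mem_flatMap]
  constructor
  · rintro ⟨t, ht, hw⟩
    obtain ⟨i, hi, rfl⟩ := List.mem_map.1 hw
    rw [List.mem_range] at hi
    refine ⟨?_, t, ht, List.take_prefix _ _⟩
    intro h
    have := congrArg List.length h
    rw [List.length_take, List.length_nil] at this
    omega
  · rintro ⟨hw, t, ht, hwt⟩
    refine ⟨t, ht, List.mem_map.2 ⟨w.length - 1, ?_, ?_⟩⟩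
    · rw [List.mem_range]
      have h1 := hwt.length_le
      have h2 : w.length ≠ 0 := fun h => hw (List.length_eq_zero_iff.1 h)
      omega
    · have h2 : w.length ≠ 0 := fun h => hw (List.length_eq_zero_iff.1 h)
      have h3 : w.length - 1 + 1 = w.length := by omega
      rw [h3]
      exact (List.prefix_iff_eq_take.1 hwt).symm

lemma mem_words_iff {l : List (List ℕ × k)} (hl : Red l) {w : List ℕ} :
    w ∈ words l ↔ w ≠ [] ∧ lq (FreeMonoid.ofList w) (ncK l) ≠ 0 := by
  rw [mem_words]
  refine and_congr_right fun _ => ?_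
  constructor
  · rintro ⟨t, ht, u, hu⟩ h
    have h1 : (lq (FreeMonoid.ofList w) (ncK l)).coeff (FreeMonoid.ofList u) = t.2 := by
      rw [coeff_lq, ← FreeMonoid.ofList_append, hu]
      exact coeff_ncK_of_mem hl.1 ht
    rw [h] at h1
    have h2 := hl.2 t ht
    rw [coeff_zero, Finsupp.zero_apply] at h1
    exact h2 h1.symm
  · intro h
    obtain ⟨u, hu, -⟩ := exists_coeff_ne_zero h
    rw [coeff_lq] at hu
    by_contra hcon
    push Not at hcon
    apply hu
    have h1 : FreeMonoid.ofList w * u = FreeMonoid.ofList (w ++ u.toList) := rfl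
    rw [h1]
    apply coeff_ncK_of_notMem
    intro h2
    obtain ⟨t, ht, ht'⟩ := List.mem_map.1 h2
    exact hcon t ht (ht' ▸ List.prefix_append _ _)

lemma nodup_words (l : List (List ℕ × k)) : (words l).Nodup := List.nodup_dedup _

lemma phi_apply (f : NC k ℕ) (ws : List (List ℕ)) (v : Fin ws.length → k) :
    phi f ws v = ∑ a, v a • lq (FreeMonoid.ofList (ws.get a)) f := by
  rw [phi, Fintype.linearCombination_apply]

lemma range_phi {l : List (List ℕ × k)} (hl : Red l) :
    LinearMap.range (phi (ncK l) (words l)) = U0 (ncK l) := by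
  apply le_antisymm
  · rintro _ ⟨v, rfl⟩
    rw [phi_apply]
    refine Submodule.sum_mem _ fun a _ => Submodule.smul_mem _ _ (lq_mem_U0 _ ?_)
    intro h
    have h1 := (mem_words.1 (List.get_mem (words l) a)).1
    exact h1 (FreeMonoid.ofList.injective h)
  · refine Submodule.span_le.2 ?_
    rintro v ⟨w, hw, rfl⟩
    by_cases h0 : lq w (ncK l) = 0
    · rw [h0]; exact Submodule.zero_mem _
    · have h1 : w.toList ∈ words l := by
        rw [mem_words_iff hl]
        exact ⟨fun h => hw (FreeMonoid.toList.injective h), h0⟩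
      obtain ⟨a, ha⟩ := List.get_of_mem h1
      refine ⟨Pi.single a 1, ?_⟩
      rw [phi_apply, Finset.sum_eq_single a]
      · rw [Pi.single_eq_same, one_smul, ha]; rfl
      · intro b _ hb
        rw [Pi.single_eq_of_ne hb, zero_smul]
      · simp

/-- Summation over the list of words. -/
lemma sum_words_list {M : Type*} [AddCommMonoid M] {l : List (List ℕ × k)} (hl : Red l)
    (H : FreeMonoid ℕ → M) (h1 : H 1 = 0) (h0 : ∀ w, lq w (ncK l) = 0 → H w = 0) :
    ∑ a : Fin (words l).length, H (FreeMonoid.ofList ((words l).get a)) =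
      ∑ w ∈ pre (ncK l), H w := by
  classical
  refine Finset.sum_bij_ne_zero (fun a _ _ => FreeMonoid.ofList ((words l).get a)) ?_ ?_ ?_ ?_
  · intro a _ hne
    rw [mem_pre]
    exact fun h => hne (h0 _ h)
  · intro a _ _ b _ _ hab
    exact (nodup_words l).injective_get (FreeMonoid.ofList.injective hab)
  · intro w hw hne
    have h2 : w.toList ∈ words l := by
      rw [mem_words_iff hl]
      refine ⟨fun h => hne ?_, mem_pre.1 hw⟩
      have : w = 1 := FreeMonoid.toList.injective h
      rw [this, h1]
    obtain ⟨a, ha⟩ := List.get_of_mem h2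
    refine ⟨a, Finset.mem_univ _, ?_, ?_⟩
    · rw [ha]; exact hne
    · rw [ha]; rfl
  · intro a _ _; rfl

/-! ### correctness -/

variable {s : ℕ} {tab : List (ℕ × List (List k))} {l : List (List ℕ × k)}

/-- First part of the operator. -/
lemma sum_first (hl : Red l) (w0 : List ℕ) (x : ℕ) (i j : Fin s) :
    ∑ a : Fin (words l).length, (if ((words l).get a).getLast? = some x then
      (if ((words l).get a).dropLast.take w0.length = w0 then
        revProd (tabMat s tab) (FreeMonoid.ofList
          (((words l).get a).dropLast.drop w0.length)) i j else 0) else 0) •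
      lq (FreeMonoid.ofList ((words l).get a)) (ncK l) =
    ∑ w ∈ pre (lq (FreeMonoid.ofList w0) (ncK l)), revProd (tabMat s tab) w i j •
      lq (FreeMonoid.ofList w0 * w * FreeMonoid.of x) (ncK l) := by
  classical
  have key := sum_words_list hl (fun w => (if w.toList.getLast? = some x then
      (if w.toList.dropLast.take w0.length = w0 then
        revProd (tabMat s tab) (FreeMonoid.ofList
          (w.toList.dropLast.drop w0.length)) i j else 0) else 0) • lq w (ncK l))
      (by simp) (fun w hw => by simp [hw])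
  simp only [FreeMonoid.toList_ofList] at key
  refine Eq.trans key ?_
  symm
  refine Finset.sum_bij_ne_zero
    (fun w _ _ => FreeMonoid.ofList w0 * w * FreeMonoid.of x) ?_ ?_ ?_ ?_
  · intro w _ hne
    rw [mem_pre]
    intro h
    exact hne (by rw [h, smul_zero])
  · intro w _ _ w' _ _ h
    exact mul_left_cancel (mul_right_cancel h)
  · intro w hw hne
    have h1 : w.toList.getLast? = some x := by
      by_contra h
      exact hne (by rw [if_neg h, zero_smul])
    have h2 : w.toList.dropLast.take w0.length = w0 := by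
      by_contra h
      exact hne (by rw [if_pos h1, if_neg h, zero_smul])
    rw [if_pos h1, if_pos h2] at hne
    have h3 : w = FreeMonoid.ofList w0 * FreeMonoid.ofList (w.toList.dropLast.drop w0.length) *
        FreeMonoid.of x := by
      apply FreeMonoid.toList.injective
      rw [FreeMonoid.toList_mul, FreeMonoid.toList_mul, FreeMonoid.toList_ofList,
        FreeMonoid.toList_ofList, FreeMonoid.toList_of]
      conv_rhs => rw [← h2]
      have h4 : (List.take w0.length w.toList.dropLast).length = w0.length := by rw [h2]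
      rw [List.length_take] at h4
      have h5 : List.drop (List.take w0.length w.toList.dropLast).length w.toList.dropLast =
          List.drop w0.length w.toList.dropLast := by rw [h2]
      rw [h5, List.take_append_drop]
      exact (List.dropLast_append_getLast? _ h1).symm
    refine ⟨FreeMonoid.ofList (w.toList.dropLast.drop w0.length), ?_, ?_, h3.symm⟩
    · rw [mem_pre]
      intro h
      apply hne
      conv_lhs => rw [h3]
      rw [lq_mul, lq_mul, h, map_zero, smul_zero]
    · rw [← h3]
      exact hne
  · intro w _ _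
    have h1 : (FreeMonoid.ofList w0 * w * FreeMonoid.of x).toList = w0 ++ w.toList ++ [x] := by
      rw [FreeMonoid.toList_mul, FreeMonoid.toList_mul]; rfl
    rw [h1, List.getLast?_append]
    simp

/-- Second part of the operator. -/
lemma sum_second (hl : Red l) (M : Matrix (Fin s) (Fin s) k) (x : ℕ) (i j : Fin s) :
    ∑ a : Fin (words l).length, (if ((words l).get a).getLast? = some x then
      (revProd (tabMat s tab) (FreeMonoid.ofList ((words l).get a).dropLast) * M) i j else 0) •
      lq (FreeMonoid.ofList ((words l).get a)) (ncK l) =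
    ∑ w ∈ pre (ncK l), (revProd (tabMat s tab) w * M) i j •
      lq (w * FreeMonoid.of x) (ncK l) := by
  classical
  have key := sum_words_list hl (fun w => (if w.toList.getLast? = some x then
      (revProd (tabMat s tab) (FreeMonoid.ofList w.toList.dropLast) * M) i j else 0) •
        lq w (ncK l))
      (by simp) (fun w hw => by simp [hw])
  simp only [FreeMonoid.toList_ofList] at key
  refine Eq.trans key ?_
  symm
  refine Finset.sum_bij_ne_zero (fun w _ _ => w * FreeMonoid.of x) ?_ ?_ ?_ ?_
  · intro w _ hne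
    rw [mem_pre]
    intro h
    exact hne (by rw [h, smul_zero])
  · intro w _ _ w' _ _ h
    exact mul_right_cancel h
  · intro w hw hne
    have h1 : w.toList.getLast? = some x := by
      by_contra h
      exact hne (by rw [if_neg h, zero_smul])
    rw [if_pos h1] at hne
    have h3 : w = FreeMonoid.ofList w.toList.dropLast * FreeMonoid.of x := by
      apply FreeMonoid.toList.injective
      rw [FreeMonoid.toList_mul, FreeMonoid.toList_ofList, FreeMonoid.toList_of]
      exact (List.dropLast_append_getLast? _ h1).symm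
    refine ⟨FreeMonoid.ofList w.toList.dropLast, ?_, ?_, h3.symm⟩
    · rw [mem_pre]
      intro h
      apply hne
      conv_lhs => rw [h3]
      rw [lq_mul, h, map_zero, smul_zero]
    · rw [← h3]
      exact hne
  · intro w _ _
    have h1 : (w * FreeMonoid.of x).toList = w.toList ++ [x] := by
      rw [FreeMonoid.toList_mul]; rfl
    rw [h1, List.getLast?_append]
    simp

/-- The columns of the operator matrices. -/
lemma opMat_col (hl : Red l) (Fh : List (List k))
    (hF : mat s s Fh = (revEval (tabMat s tab) (ncK l))⁻¹)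
    (x : ℕ) (i j : Fin s) (b : Fin (words l).length) :
    ∑ a, mat (words l).length (words l).length
      (opMat s tab l Fh (words l) x i j) a b • lq (FreeMonoid.ofList ((words l).get a)) (ncK l) =
    Eop (tabMat s tab) (ncK l) x i j
      (lq (FreeMonoid.ofList ((words l).get b)) (ncK l)) := by
  rw [Eop_lq, ← sum_first hl, ← sum_second hl, ← Finset.sum_sub_distrib]
  refine Finset.sum_congr rfl fun a _ => ?_
  rw [← sub_smul]
  congr 1
  have ha : (words l).getD (a : ℕ) [] = (words l).get a := by
    rw [List.getD_eq_getElem _ _ a.2]; rfl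
  have hb : (words l).getD (b : ℕ) [] = (words l).get b := by
    rw [List.getD_eq_getElem _ _ b.2]; rfl
  rw [opMat, mat_mk2, ha, hb, opEnt]
  by_cases h1 : ((words l).get a).getLast? = some x
  · rw [if_pos h1, if_pos h1, if_pos h1]
    congr 1
    · by_cases h2 : ((words l).get a).dropLast.take ((words l).get b).length = (words l).get b
      · rw [if_pos h2, if_pos h2, ← mat_rpL, mat_apply]
      · rw [if_neg h2, if_neg h2]
    · have h3 : ent (mmul s (rpL s tab ((words l).get a).dropLast)
          (mmul s Fh (evL s tab (quo ((words l).get b) l)))) i j =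
          (mat s s (mmul s (rpL s tab ((words l).get a).dropLast)
          (mmul s Fh (evL s tab (quo ((words l).get b) l))))) i j := rfl
      rw [h3, mat_mmul, mat_mmul, mat_rpL, mat_evL, ncK_quo, hF]
  · rw [if_neg h1, if_neg h1, if_neg h1]
    simp

/-- The operator as a linear map. -/
noncomputable def Elin (s : ℕ) (tab : List (ℕ × List (List k))) (S : Finset ℕ)
    (hT : ∀ x, x ∉ S → tabMat s tab x = 0) (f : NC k ℕ) (x : ℕ) (i j : Fin s) :
    NC k ℕ →ₗ[k] NC k ℕ where
  toFun v := Eop (tabMat s tab) f x i j v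
  map_add' v w := Eop_add hT f x i j v w
  map_smul' c v := Eop_smul hT f x i j c v

lemma phi_opMat (hl : Red l) {S : Finset ℕ} (hT : ∀ x, x ∉ S → tabMat s tab x = 0)
    (Fh : List (List k))
    (hF : mat s s Fh = (revEval (tabMat s tab) (ncK l))⁻¹)
    (x : ℕ) (i j : Fin s) (v : Fin (words l).length → k) :
    phi (ncK l) (words l) ((mat (words l).length (words l).length
      (opMat s tab l Fh (words l) x i j)).mulVec v) =
    Eop (tabMat s tab) (ncK l) x i j (phi (ncK l) (words l) v) := by
  have h1 : Eop (tabMat s tab) (ncK l) x i j (phi (ncK l) (words l) v) =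
      ∑ b, v b • Eop (tabMat s tab) (ncK l) x i j
        (lq (FreeMonoid.ofList ((words l).get b)) (ncK l)) := by
    have : ∀ u, Eop (tabMat s tab) (ncK l) x i j u = Elin s tab S hT (ncK l) x i j u := fun _ => rfl
    rw [phi_apply, this, map_sum]
    refine Finset.sum_congr rfl fun b _ => ?_
    rw [map_smul, this]
  rw [h1, phi_apply]
  simp only [Matrix.mulVec, dotProduct, Finset.sum_smul]
  rw [Finset.sum_comm]
  refine Finset.sum_congr rfl fun b _ => ?_
  rw [← opMat_col hl Fh hF x i j b, Finset.smul_sum]
  refine Finset.sum_congr rfl fun a _ => ?_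
  rw [smul_smul, mul_comm]

end spec

/-! ### polynomial time -/

section pt

variable {k : Type} [Field k] [Finite k] [PEnc k] {α : Type} [PEnc α]

lemma pt_ent {A : α → List (List k)} {i j : α → ℕ} (hA : PolyTime A) (hi : PolyTime i)
    (hj : PolyTime j) : PolyTime (fun a => ent (A a) (i a) (j a)) := by
  unfold ent
  exact PolyTime.getD (PolyTime.getD hA hi (PolyTime.const [])) hj (PolyTime.const 0)

lemma pt_mk2 {m n : α → ℕ} {f : α → ℕ → ℕ → k} (hm : PolyTime m) (hmb : PBd m)
    (hn : PolyTime n) (hnb : PBd n)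
    (hf : PolyTime fun q : α × ℕ × ℕ => f q.1 q.2.1 q.2.2) :
    PolyTime (fun a => mk2 (m a) (n a) (f a)) := by
  unfold mk2
  refine PolyTime.map (g := fun a i => (List.range (n a)).map fun j => f a i j)
    (PolyTime.range hm hmb) ?_
  refine PolyTime.map (α := α × ℕ) (l := fun q => List.range (n q.1))
    (g := fun q j => f q.1 q.2 j) (PolyTime.range (by fun_prop) (hnb.comp PolyTime.fst')) ?_
  exact hf.comp (f := fun q : (α × ℕ) × ℕ => (q.1.1, q.1.2, q.2)) (by fun_prop)

lemma size_mk2 (m n : ℕ) (f : ℕ → ℕ → k) :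
    size (mk2 m n f) ≤ m * (2 * (n * (2 * csz k + 1)) + 1) := by
  have h1 : (mk2 m n f).length = m := by simp [mk2]
  have h2 := size_le_of_forall (l := mk2 m n f) (B := n * (2 * csz k + 1)) (by
    intro u hu
    obtain ⟨i, _, rfl⟩ := List.mem_map.1 hu
    have := size_list_le ((List.range n).map fun j => f i j)
    simpa using this)
  rwa [h1] at h2

lemma pt_mmul {s : α → ℕ} {A B : α → List (List k)} (hs : PolyTime s) (hsb : PBd s)
    (hA : PolyTime A) (hB : PolyTime B) : PolyTime (fun a => mmul (s a) (A a) (B a)) := by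
  unfold mmul
  refine pt_mk2 hs hsb hs hsb ?_
  refine pt_list_sum (PolyTime.map (α := α × ℕ × ℕ) (l := fun q => List.range (s q.1))
    (g := fun q m => ent (A q.1) q.2.1 m * ent (B q.1) m q.2.2)
    (PolyTime.range (by fun_prop) (hsb.comp PolyTime.fst')) ?_)
  exact pt_mul (pt_ent (by fun_prop) (by fun_prop) (by fun_prop))
    (pt_ent (by fun_prop) (by fun_prop) (by fun_prop))

lemma pt_mident {s : α → ℕ} (hs : PolyTime s) (hsb : PBd s) :
    PolyTime (fun a => (mident (s a) : List (List k))) := by
  unfold mident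
  exact pt_mk2 hs hsb hs hsb
    (PolyTime.ite (PolyTime.decideEq (by fun_prop) (by fun_prop)) (by fun_prop) (by fun_prop))

lemma pt_inv [DecidableEq k] {s : α → ℕ} {F : α → List (List k)} (hs : PolyTime s) (hsb : PBd s)
    (hF : PolyTime F) : PolyTime (fun a => inv (s a) (F a)) := by
  unfold inv
  refine PolyTime.map (g := fun a i => solve (s a) (mk2 (s a) (s a) (ent (F a)))
    (mkv (s a) fun j => if i = j then 1 else 0)) (PolyTime.range hs hsb) ?_
  have hsb' : PBd (fun q : α × ℕ => s q.1) := hsb.comp PolyTime.fst'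
  refine pt_solve (α := α × ℕ) (n := fun q => s q.1)
    (L := fun q => mk2 (s q.1) (s q.1) (ent (F q.1))) (by fun_prop) hsb' ?_ ?_
  · exact pt_mk2 (α := α × ℕ) (by fun_prop) hsb' (by fun_prop) hsb'
      (pt_ent (by fun_prop) (by fun_prop) (by fun_prop))
  · exact pt_mkv (α := α × ℕ) (by fun_prop) hsb'
      (PolyTime.ite (PolyTime.decideEq (by fun_prop) (by fun_prop)) (by fun_prop) (by fun_prop))

lemma pt_Tmat {tab : α → List (ℕ × List (List k))} {x : α → ℕ} (ht : PolyTime tab)
    (hx : PolyTime x) : PolyTime (fun a => Tmat (tab a) (x a)) := by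
  unfold Tmat
  refine PolyTime.option_getD (PolyTime.option_map (PolyTime.find? ht ?_) (by fun_prop))
    (by fun_prop)
  have : PolyTime (fun q : α × ℕ × List (List k) => decide (q.2.1 = x q.1)) := by fun_prop
  refine this.congr fun q => ?_
  by_cases h : q.2.1 = x q.1 <;> simp [h]

lemma size_rpL (s : ℕ) (tab : List (ℕ × List (List k))) (w : List ℕ) :
    size (rpL s tab w) ≤ s * (2 * (s * (2 * csz k + 1)) + 1) := by
  rcases List.eq_nil_or_concat w with rfl | ⟨w', x, rfl⟩
  · exact size_mk2 _ _ _
  · rw [List.concat_eq_append, rpL, List.foldl_append, List.foldl_cons, List.foldl_nil]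
    exact size_mk2 _ _ _

lemma pt_rpL {s : α → ℕ} {tab : α → List (ℕ × List (List k))} {w : α → List ℕ}
    (hs : PolyTime s) (hsb : PBd s) (ht : PolyTime tab) (hw : PolyTime w) :
    PolyTime (fun a => rpL (s a) (tab a) (w a)) := by
  unfold rpL
  refine PolyTime.foldl (B := fun a => s a * (2 * (s a * (2 * csz k + 1)) + 1)) hw
    (pt_mident hs hsb) ?_ ?_ ?_
  · have hsb' : PBd (fun q : α × List (List k) × ℕ => s q.1) := hsb.comp PolyTime.fst'
    exact pt_mmul (α := α × List (List k) × ℕ) (s := fun q => s q.1) (by fun_prop) hsb'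
      (pt_Tmat (by fun_prop) (by fun_prop)) (by fun_prop)
  · exact hsb.mul (((PBd.const 2).mul (hsb.mul (PBd.const _))).add (PBd.const 1))
  · intro a i
    exact size_rpL (s a) (tab a) ((w a).take i)

lemma pt_evL {s : α → ℕ} {tab : α → List (ℕ × List (List k))} {l : α → List (List ℕ × k)}
    (hs : PolyTime s) (hsb : PBd s) (ht : PolyTime tab) (hl : PolyTime l) :
    PolyTime (fun a => evL (s a) (tab a) (l a)) := by
  unfold evL
  refine pt_mk2 hs hsb hs hsb ?_
  refine pt_list_sum (PolyTime.map (α := α × ℕ × ℕ) (l := fun q => l q.1)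
    (g := fun q t => t.2 * ent (rpL (s q.1) (tab q.1) t.1) q.2.1 q.2.2) (by fun_prop) ?_)
  refine pt_mul (by fun_prop) (pt_ent ?_ (by fun_prop) (by fun_prop))
  exact pt_rpL (α := (α × ℕ × ℕ) × List ℕ × k) (s := fun q => s q.1.1)
    (tab := fun q => tab q.1.1) (w := fun q => q.2.1) (by fun_prop)
    (hsb.comp (f := fun q : (α × ℕ × ℕ) × List ℕ × k => q.1.1) (by fun_prop)) (by fun_prop)
    (by fun_prop)

@[fun_prop]
lemma pt_quo {w : α → List ℕ} {l : α → List (List ℕ × k)} (hw : PolyTime w) (hl : PolyTime l) :
    PolyTime (fun a => quo (w a) (l a)) := by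
  unfold quo
  refine PolyTime.map (PolyTime.filter hl ?_) (by fun_prop)
  exact PolyTime.decideEq (by fun_prop) (by fun_prop)

lemma pt_words : PolyTime (words : List (List ℕ × k) → List (List ℕ)) := by
  unfold words
  refine pt_dedup ?_
  refine PolyTime.flatMap (l := fun l : List (List ℕ × k) => l) (by fun_prop) ?_
  exact PolyTime.map (PolyTime.range_length (by fun_prop)) (by fun_prop)

lemma pt_opEnt {s : α → ℕ} {tab : α → List (ℕ × List (List k))} {l : α → List (List ℕ × k)}
    {Fh : α → List (List k)} {x i j : α → ℕ} {w1 w0 : α → List ℕ}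
    (hs : PolyTime s) (hsb : PBd s) (ht : PolyTime tab) (hl : PolyTime l)
    (hF : PolyTime Fh) (hx : PolyTime x) (hi : PolyTime i) (hj : PolyTime j) (hw1 : PolyTime w1)
    (hw0 : PolyTime w0) : PolyTime (fun a => opEnt (s a) (tab a) (l a) (Fh a) (x a) (i a)
      (j a) (w1 a) (w0 a)) := by
  unfold opEnt
  refine PolyTime.ite (PolyTime.decideEq (by fun_prop) (by fun_prop)) ?_ (by fun_prop)
  refine pt_sub ?_ ?_
  · refine PolyTime.ite (PolyTime.decideEq (by fun_prop) (by fun_prop)) ?_ (by fun_prop)
    exact pt_ent (pt_rpL hs hsb ht (by fun_prop)) hi hj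
  · refine pt_ent (pt_mmul hs hsb (pt_rpL hs hsb ht (by fun_prop)) ?_) hi hj
    exact pt_mmul hs hsb hF (pt_evL hs hsb ht (by fun_prop))

lemma pt_opMat {s : α → ℕ} {tab : α → List (ℕ × List (List k))} {l : α → List (List ℕ × k)}
    {Fh : α → List (List k)} {x i j : α → ℕ} {ws : α → List (List ℕ)}
    (hs : PolyTime s) (hsb : PBd s) (ht : PolyTime tab) (hl : PolyTime l)
    (hF : PolyTime Fh) (hx : PolyTime x) (hi : PolyTime i) (hj : PolyTime j)
    (hws : PolyTime ws) : PolyTime (fun a => opMat (s a) (tab a) (l a) (Fh a) (ws a) (x a)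
      (i a) (j a)) := by
  unfold opMat
  refine pt_mk2 (by fun_prop) (pbd_length hws) (by fun_prop) (pbd_length hws) ?_
  exact pt_opEnt (α := α × ℕ × ℕ) (s := fun q => s q.1) (tab := fun q => tab q.1)
    (l := fun q => l q.1) (Fh := fun q => Fh q.1) (x := fun q => x q.1)
    (i := fun q => i q.1) (j := fun q => j q.1) (w1 := fun q => (ws q.1).getD q.2.1 [])
    (w0 := fun q => (ws q.1).getD q.2.2 []) (by fun_prop) (hsb.comp PolyTime.fst')
    (by fun_prop) (by fun_prop) (by fun_prop) (by fun_prop) (by fun_prop) (by fun_prop)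
    (by fun_prop) (by fun_prop)

lemma pt_opsL [DecidableEq k] {tab : α → List (ℕ × List (List k))} {l : α → List (List ℕ × k)}
    {s : α → ℕ} (hs : PolyTime s) (hsb : PBd s) (ht : PolyTime tab) (hl : PolyTime l) :
    PolyTime (fun a => opsL (s a) (tab a) (l a)) := by
  have hinv : PolyTime (fun a => inv (s a) (evL (s a) (tab a) (l a))) :=
    pt_inv hs hsb (pt_evL hs hsb ht hl)
  have hw : PolyTime (fun a => words (l a)) := pt_words.comp hl
  unfold opsL
  refine PolyTime.flatMap (by fun_prop) ?_
  refine PolyTime.flatMap (PolyTime.range (n := fun q : α × ℕ => s q.1) (by fun_prop)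
    (hsb.comp PolyTime.fst')) ?_
  refine PolyTime.map (PolyTime.range (n := fun q : (α × ℕ) × ℕ => s q.1.1) (by fun_prop)
    (hsb.comp (f := fun q : (α × ℕ) × ℕ => q.1.1) (by fun_prop))) ?_
  exact pt_opMat (α := ((α × ℕ) × ℕ) × ℕ) (s := fun q => s q.1.1.1)
    (tab := fun q => tab q.1.1.1) (l := fun q => l q.1.1.1)
    (Fh := fun q => inv (s q.1.1.1) (evL (s q.1.1.1) (tab q.1.1.1) (l q.1.1.1)))
    (x := fun q => q.1.1.2) (i := fun q => q.1.2) (j := fun q => q.2)
    (ws := fun q => words (l q.1.1.1)) (by fun_prop)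
    (hsb.comp (f := fun q : ((α × ℕ) × ℕ) × ℕ => q.1.1.1) (by fun_prop)) (by fun_prop)
    (by fun_prop)
    (hinv.comp (f := fun q : ((α × ℕ) × ℕ) × ℕ => q.1.1.1) (by fun_prop))
    (by fun_prop) (by fun_prop) (by fun_prop)
    (hw.comp (f := fun q : ((α × ℕ) × ℕ) × ℕ => q.1.1.1) (by fun_prop))

end pt

theorem exists_ops0 (k : Type) [Field k] [Finite k] [PEnc k]
    (sz : List (List ℕ × k) → List Unit) (hs : PolyTime sz)
    (chooseT : List (List ℕ × k) → List (ℕ × List (List k))) (hc : PolyTime chooseT) :
    ∃ (words : List (List ℕ × k) → List (List ℕ))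
      (ops : List (List ℕ × k) → List (List (List k))), PolyTime words ∧ PolyTime ops ∧
    ∀ l : List (List ℕ × k), Red l → (∃ t ∈ l, t.1 ≠ []) → 1 ≤ (sz l).length →
    (∀ p ∈ chooseT l, ∃ t ∈ l, p.1 ∈ t.1) →
    (revEval (tabMat (sz l).length (chooseT l)) (ncK l)).det ≠ 0 →
    (∀ w ∈ words l, w ≠ []) ∧ LinearMap.range (phi (ncK l) (words l)) = U0 (ncK l) ∧
    (∀ g ∈ ops l, ∃ (x : ℕ) (i j : Fin (sz l).length) (δ : k), δ ≠ 0 ∧
      ∀ v, phi (ncK l) (words l) (Matrix.mulVec (mat (words l).length (words l).length g) v) =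
      δ • Eop (tabMat (sz l).length (chooseT l)) (ncK l) x i j (phi (ncK l) (words l) v)) ∧
    (∀ (x : ℕ) (i j : Fin (sz l).length),
      (∀ v ∈ U0 (ncK l), Eop (tabMat (sz l).length (chooseT l)) (ncK l) x i j v = 0) ∨
      ∃ g ∈ ops l, ∃ δ : k, δ ≠ 0 ∧
      ∀ v, phi (ncK l) (words l) (Matrix.mulVec (mat (words l).length (words l).length g) v) =
      δ • Eop (tabMat (sz l).length (chooseT l)) (ncK l) x i j (phi (ncK l) (words l) v)) := by
  classical
  refine ⟨OP.words, fun l => opsL (sz l).length (chooseT l) l, pt_words, ?_, ?_⟩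
  · exact pt_opsL (by fun_prop) (pbd_length hs) (by fun_prop) (by fun_prop)
  · intro l hl _ hD hc1 hdet
    refine ⟨fun w hw => (mem_words.1 hw).1, range_phi hl, ?_⟩
    have hF : mat (sz l).length (sz l).length
        (inv (sz l).length (evL (sz l).length (chooseT l) l)) =
        (revEval (tabMat (sz l).length (chooseT l)) (ncK l))⁻¹ := by
      rw [mat_inv (by rwa [mat_evL]), mat_evL]
    have hT : ∀ x, x ∉ ((l.flatMap Prod.fst).toFinset) →
        tabMat (sz l).length (chooseT l) x = 0 := by
      intro x hx
      rw [tabMat_eq, Tmat]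
      have h5 : (chooseT l).find? (fun p => p.1 == x) = none := by
        rw [List.find?_eq_none]
        intro p hp hpx
        obtain ⟨t, ht, ht'⟩ := hc1 p hp
        apply hx
        rw [List.mem_toFinset, List.mem_flatMap]
        refine ⟨t, ht, ?_⟩
        have : p.1 = x := by simpa using hpx
        rwa [← this]
      rw [h5]
      ext i j
      simp [mat]
    constructor
    · intro g hg
      simp only [opsL] at hg
      rw [List.mem_flatMap] at hg
      obtain ⟨x, _, hg⟩ := hg
      rw [List.mem_flatMap] at hg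
      obtain ⟨i, hi, hg⟩ := hg
      obtain ⟨j, hj, rfl⟩ := List.mem_map.1 hg
      rw [List.mem_range] at hi hj
      refine ⟨x, ⟨i, hi⟩, ⟨j, hj⟩, 1, one_ne_zero, fun v => ?_⟩
      rw [one_smul]
      exact phi_opMat hl hT _ hF x ⟨i, hi⟩ ⟨j, hj⟩ v
    · intro x i j
      by_cases hx : x ∈ l.flatMap Prod.fst
      · right
        refine ⟨opMat (sz l).length (chooseT l) l
          (inv (sz l).length (evL (sz l).length (chooseT l) l)) (words l) x i j, ?_, 1,
          one_ne_zero, fun v => ?_⟩
        rotate_left
        · rw [one_smul]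
          exact phi_opMat hl hT _ hF x i j v
        simp only [opsL]
        rw [List.mem_flatMap]
        refine ⟨x, hx, ?_⟩
        rw [List.mem_flatMap]
        refine ⟨i, List.mem_range.2 i.2, ?_⟩
        exact List.mem_map.2 ⟨j, List.mem_range.2 j.2, rfl⟩
      · left
        have h0 : ∀ w, lq (w * FreeMonoid.of x) (ncK l) = 0 := by
          intro w
          by_contra h
          have h6 : (w * FreeMonoid.of x).toList ∈ OP.words l := by
            rw [mem_words_iff hl]
            refine ⟨?_, h⟩
            rw [FreeMonoid.toList_mul]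
            simp
          obtain ⟨_, t, ht, hpre⟩ := mem_words.1 h6
          apply hx
          rw [List.mem_flatMap]
          refine ⟨t, ht, hpre.subset ?_⟩
          rw [FreeMonoid.toList_mul]
          simp
        intro v hv
        have h1 : ∀ v ∈ U1 (ncK l), lq (FreeMonoid.of x) v = 0 := by
          intro v hv
          induction hv using Submodule.span_induction with
          | mem v hv =>
            obtain ⟨w, rfl⟩ := hv
            rw [← lq_mul, h0]
          | zero => simp
          | add v v' _ _ h h' => rw [map_add, h, h', add_zero]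
          | smul c v _ h => rw [map_smul, h, smul_zero]
        exact h1 _ (Rop_mem_U1 _ (U0_le_U1 _ hv) i j)

end OP

open Pool.Agent.PolyTime in
/-- The operators over a finite field. -/
theorem exists_ops (k : Type) [Field k] [Finite k] [PEnc k]
    (sz : List (List ℕ × k) → List Unit) (hs : PolyTime sz)
    (chooseT : List (List ℕ × k) → List (ℕ × List (List k))) (hc : PolyTime chooseT) :
    ∃ (words : List (List ℕ × k) → List (List ℕ))
      (ops : List (List ℕ × k) → List (List (List k))), PolyTime words ∧ PolyTime ops ∧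
    ∀ l : List (List ℕ × k), Red l → (∃ t ∈ l, t.1 ≠ []) → 1 ≤ (sz l).length →
    (∀ p ∈ chooseT l, ∃ t ∈ l, p.1 ∈ t.1) →
    (revEval (tabMat (sz l).length (chooseT l)) (ncK l)).det ≠ 0 →
    (∀ w ∈ words l, w ≠ []) ∧ LinearMap.range (phi (ncK l) (words l)) = U0 (ncK l) ∧
    (∀ g ∈ ops l, ∃ (x : ℕ) (i j : Fin (sz l).length) (δ : k), δ ≠ 0 ∧
      ∀ v, phi (ncK l) (words l) (Matrix.mulVec (mat (words l).length (words l).length g) v) =
      δ • Eop (tabMat (sz l).length (chooseT l)) (ncK l) x i j (phi (ncK l) (words l) v)) ∧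
    (∀ (x : ℕ) (i j : Fin (sz l).length),
      (∀ v ∈ U0 (ncK l), Eop (tabMat (sz l).length (chooseT l)) (ncK l) x i j v = 0) ∨
      ∃ g ∈ ops l, ∃ δ : k, δ ≠ 0 ∧
      ∀ v, phi (ncK l) (words l) (Matrix.mulVec (mat (words l).length (words l).length g) v) =
      δ • Eop (tabMat (sz l).length (chooseT l)) (ncK l) x i j (phi (ncK l) (words l) v)) :=
  OP.exists_ops0 k sz hs chooseT hc

end Pool.NCF.FF
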