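import Pool.Agent.NCF.RDiv
import Pool.Agent.NCF.FF.Defs

/-!
Exact right division of noncommutative polynomials over a finite field in polynomial time.

If `a = q * b` with `b` nonzero then every word of `q` is a prefix of a word of `a`, so the
coefficients of `q` solve an explicit linear system.
-/

set_option autoImplicit false
set_option linter.unusedSectionVars false

namespace Pool.NCF.FF

open Pool.Agent.PolyTime Pool.Agent.LinAlg
open Pool.NCF.RDiv (exists_prefix dd dd_sublist dd_nodup mem_dd pt_dd)

namespace RDiv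

section alg

variable {k : Type} [Field k] [DecidableEq k]

/-! ### coefficients -/

/-- The coefficient of the word `r` in `u * b`. -/
def cs (u : List ℕ) (b : List (List ℕ × k)) (r : List ℕ) : k :=
  ((b.filter fun t => decide (u ++ t.1 = r)).map Prod.snd).sum

theorem coeff_single_mul (u : List ℕ) (c : k) (b : List (List ℕ × k)) (r : List ℕ) :
    ((MonoidAlgebra.single (FreeMonoid.ofList u) c : NC k ℕ) * ncK b).coeff
      (FreeMonoid.ofList r) = c * cs u b r := by
  induction b with
  | nil => simp [ncK, cs]
  | cons t b ih =>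
    have h1 : ncK (t :: b) = MonoidAlgebra.single (FreeMonoid.ofList t.1) t.2
        + ncK b := by simp [ncK]
    rw [h1, mul_add, MonoidAlgebra.coeff_add, Finsupp.add_apply, ih,
      MonoidAlgebra.single_mul_single, MonoidAlgebra.coeff_single]
    by_cases h : u ++ t.1 = r
    · have h2 : FreeMonoid.ofList u * FreeMonoid.ofList t.1 = FreeMonoid.ofList r := by
        rw [← h]; rfl
      have h3 : cs u (t :: b) r = t.2 + cs u b r := by
        simp [cs, h]
      rw [h2, h3, Finsupp.single_eq_same]
      ring
    · have h2 : FreeMonoid.ofList r ≠ FreeMonoid.ofList u * FreeMonoid.ofList t.1 := by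
        intro h'
        exact h (FreeMonoid.ofList.injective h').symm
      have h3 : cs u (t :: b) r = cs u b r := by
        simp [cs, h]
      rw [h3, Finsupp.single_eq_of_ne h2, zero_add]

theorem coeff_ncK (b : List (List ℕ × k)) (r : List ℕ) :
    (ncK b).coeff (FreeMonoid.ofList r) = cs [] b r := by
  have h := coeff_single_mul [] 1 b r
  rw [one_mul] at h
  rw [← h]
  have : (MonoidAlgebra.single (FreeMonoid.ofList ([] : List ℕ)) (1 : k) : NC k ℕ) = 1 := rfl
  rw [this, one_mul]

theorem cs_eq_zero {u : List ℕ} {b : List (List ℕ × k)} {r : List ℕ}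
    (h : ∀ t ∈ b, u ++ t.1 ≠ r) : cs u b r = 0 := by
  unfold cs
  rw [List.filter_eq_nil_iff.2]
  · rfl
  · intro t ht
    simpa using h t ht

/-! ### the algorithm -/

/-- The prefixes of the words of `a`. -/
def us (a : List (List ℕ × k)) : List (List ℕ) :=
  dd (a.flatMap fun t => (List.range (t.1.length + 1)).map fun i => t.1.take i)

/-- The words at which coefficients are compared. -/
def rs (a b : List (List ℕ × k)) : List (List ℕ) :=
  a.map Prod.fst ++ (us a).flatMap fun u => b.map fun t => u ++ t.1

/-- The coefficients of `a`. -/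
def colA (a b : List (List ℕ × k)) : List k :=
  mkv (rs a b).length fun i => cs [] a ((rs a b).getD i [])

/-- The coefficients of the polynomials `u * b`. -/
def colU (a b : List (List ℕ × k)) : List (List k) :=
  (us a).map fun u => mkv (rs a b).length fun i => cs u b ((rs a b).getD i [])

/-- The quotient. -/
def rdiv (p : List (List ℕ × k) × List (List ℕ × k)) : List (List ℕ × k) :=
  ((us p.1).zip (solve (rs p.1 p.2).length (colU p.1 p.2) (colA p.1 p.2))).filter
    fun t => decide (t.2 ≠ 0)

theorem mem_us {a : List (List ℕ × k)} {u : List ℕ} :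
    u ∈ us a ↔ ∃ t ∈ a, u <+: t.1 := by
  unfold us
  rw [mem_dd, List.mem_flatMap]
  constructor
  · rintro ⟨t, ht, h⟩
    obtain ⟨i, _, rfl⟩ := List.mem_map.1 h
    exact ⟨t, ht, List.take_prefix _ _⟩
  · rintro ⟨t, ht, h⟩
    refine ⟨t, ht, List.mem_map.2 ⟨u.length, ?_, ?_⟩⟩
    · rw [List.mem_range]
      have := h.length_le
      omega
    · exact (List.prefix_iff_eq_take.1 h).symm

theorem supp_colU (a b : List (List ℕ × k)) :
    ∀ u ∈ colU a b, Supp (rs a b).length (vl u) := by
  intro v hv
  obtain ⟨u, _, rfl⟩ := List.mem_map.1 hv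
  exact supp_mkv _ _

theorem length_colU (a b : List (List ℕ × k)) : (colU a b).length = (us a).length := by
  simp [colU]

theorem vl_colU {a b : List (List ℕ × k)} {i j : ℕ} (hi : i < (us a).length)
    (hj : j < (rs a b).length) : vl ((colU a b).getD i []) j =
      cs ((us a).getD i []) b ((rs a b).getD j []) := by
  rw [List.getD_eq_getElem _ _ (by rw [length_colU]; exact hi)]
  unfold colU
  rw [List.getElem_map, vl_mkv_lt hj, List.getD_eq_getElem _ _ hi]

/-- A polynomial whose words are among `us a`. -/
theorem eq_sum_us {a : List (List ℕ × k)} {q : NC k ℕ}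
    (h : ∀ u : List ℕ, q.coeff (FreeMonoid.ofList u) ≠ 0 → u ∈ us a) :
    q = ∑ i ∈ Finset.range (us a).length, MonoidAlgebra.single
      (FreeMonoid.ofList ((us a).getD i [])) (q.coeff (FreeMonoid.ofList ((us a).getD i []))) := by
  ext w
  rw [MonoidAlgebra.coeff_sum, Finsupp.finsetSum_apply]
  by_cases hw : w.toList ∈ us a
  · obtain ⟨i, hi, hiw⟩ := List.getElem_of_mem hw
    have hg : (us a).getD i [] = w.toList := by
      rw [List.getD_eq_getElem _ _ hi, hiw]
    rw [Finset.sum_eq_single i]
    · rw [hg, MonoidAlgebra.coeff_single]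
      have : FreeMonoid.ofList w.toList = w := rfl
      rw [this, Finsupp.single_eq_same]
    · intro j hj hji
      rw [MonoidAlgebra.coeff_single, Finsupp.single_eq_of_ne]
      intro hc
      apply hji
      rw [Finset.mem_range] at hj
      rw [List.getD_eq_getElem _ _ hj] at hc
      have h1 : (us a)[j] = w.toList := by rw [hc]; rfl
      rw [← hiw] at h1
      exact (List.Nodup.getElem_inj_iff (dd_nodup _)).1 h1
    · intro hi'
      exact absurd (Finset.mem_range.2 hi) hi'
  · have h0 : q.coeff w = 0 := by
      by_contra hc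
      exact hw (h w.toList hc)
    rw [h0]
    symm
    apply Finset.sum_eq_zero
    intro j hj
    rw [MonoidAlgebra.coeff_single, Finsupp.single_eq_of_ne]
    intro hc
    rw [Finset.mem_range] at hj
    apply hw
    rw [List.getD_eq_getElem _ _ hj] at hc
    rw [hc]
    exact List.getElem_mem hj

theorem ncK_filter (l : List (List ℕ × k)) :
    ncK (l.filter fun t => decide (t.2 ≠ 0)) = ncK l := by
  induction l with
  | nil => rfl
  | cons t l ih =>
    by_cases h : t.2 = 0
    · rw [List.filter_cons_of_neg (by simpa using h), ih]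
      simp [ncK, h]
    · rw [List.filter_cons_of_pos (by simpa using h)]
      have h1 : ∀ m : List (List ℕ × k), ncK (t :: m) =
          MonoidAlgebra.single (FreeMonoid.ofList t.1) t.2 + ncK m := by
        intro m; simp [ncK]
      rw [h1, h1, ih]

theorem ncK_zip (l : List (List ℕ)) (c : List k) (h : c.length = l.length) :
    ncK (l.zip c) = ∑ i ∈ Finset.range l.length, MonoidAlgebra.single
      (FreeMonoid.ofList (l.getD i [])) (vl c i) := by
  induction l generalizing c with
  | nil => simp [ncK]
  | cons u l ih =>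
    cases c with
    | nil => simp at h
    | cons x c =>
      rw [List.zip_cons_cons, List.length_cons, Finset.sum_range_succ']
      have h1 : ∀ m : List (List ℕ × k), ncK ((u, x) :: m) =
          MonoidAlgebra.single (FreeMonoid.ofList u) x + ncK m := by
        intro m; simp [ncK]
      rw [h1, ih c (by simpa using h), add_comm]
      congr 1

theorem main (a b : List (List ℕ × k)) (hb : ncK b ≠ 0) (h : ncK a ∈ leftMul (ncK b)) :
    ncK a = ncK (rdiv (a, b)) * ncK b := by
  obtain ⟨q, hq⟩ := mem_leftMul.1 h
  have hsupp : ∀ u : List ℕ, q.coeff (FreeMonoid.ofList u) ≠ 0 → u ∈ us a := by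
    intro u hu
    obtain ⟨w, hw, hp⟩ := exists_prefix hq hb hu
    have hw2 : (ncK a).coeff (FreeMonoid.ofList w.toList) ≠ 0 := hw
    rw [coeff_ncK] at hw2
    have h3 : ¬ ∀ t ∈ a, [] ++ t.1 ≠ w.toList := by
      intro h4
      rw [cs_eq_zero h4] at hw2
      simp at hw2
    push Not at h3
    obtain ⟨t, ht, htw⟩ := h3
    rw [List.nil_append] at htw
    exact mem_us.2 ⟨t, ht, by rw [htw]; exact hp⟩
  have hqs := eq_sum_us hsupp
  set N := (rs a b).length with hN
  set c : ℕ → k := fun i => q.coeff (FreeMonoid.ofList ((us a).getD i [])) with hc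
  have hcoef : ∀ (d : ℕ → k) (r : List ℕ), ((∑ i ∈ Finset.range (us a).length,
      MonoidAlgebra.single (FreeMonoid.ofList ((us a).getD i [])) (d i) : NC k ℕ) * ncK b).coeff
      (FreeMonoid.ofList r) = ∑ i ∈ Finset.range (us a).length, d i *
        cs ((us a).getD i []) b r := by
    intro d r
    rw [Finset.sum_mul, MonoidAlgebra.coeff_sum, Finsupp.finsetSum_apply]
    exact Finset.sum_congr rfl fun i _ => coeff_single_mul _ _ _ _
  have hcomb : ∀ (d : ℕ → k) (j : ℕ), j < N → comb (colU a b) d j =
      ∑ i ∈ Finset.range (us a).length, d i *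
        cs ((us a).getD i []) b ((rs a b).getD j []) := by
    intro d j hj
    unfold comb
    rw [length_colU]
    exact Finset.sum_congr rfl fun i hi => by rw [vl_colU (Finset.mem_range.1 hi) hj]
  have hsuppA : Supp N (vl (colA a b)) := supp_mkv _ _
  have hA : comb (colU a b) c = vl (colA a b) := by
    funext j
    by_cases hj : j < N
    · rw [hcomb c j hj, colA, vl_mkv_lt hj, ← coeff_ncK, hq, ← hcoef c, ← hqs]
    · rw [hsuppA j (by omega)]
      exact Sp_le_Fn (supp_colU a b) (comb_mem _ _) j (by omega)
  have hmem : vl (colA a b) ∈ Sp (colU a b) := by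
    rw [← hA]; exact comb_mem _ _
  have hsol := comb_solve (supp_colU a b) hsuppA hmem
  have hlen : (solve (rs a b).length (colU a b) (colA a b)).length = (us a).length := by
    rw [length_solve, length_colU]
  have hr : ncK (rdiv (a, b)) = ∑ i ∈ Finset.range (us a).length, MonoidAlgebra.single
      (FreeMonoid.ofList ((us a).getD i []))
      (vl (solve (rs a b).length (colU a b) (colA a b)) i) := by
    unfold rdiv
    rw [ncK_filter, ncK_zip _ _ hlen]
  ext w
  have hw : w = FreeMonoid.ofList w.toList := rfl
  rw [hr, hw, hcoef]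
  by_cases hm : w.toList ∈ rs a b
  · obtain ⟨j, hj, hjw⟩ := List.getElem_of_mem hm
    have hg : (rs a b).getD j [] = w.toList := by
      rw [List.getD_eq_getElem _ _ hj, hjw]
    have h1 := congrFun hsol j
    rw [hcomb _ j hj, hg, colA, vl_mkv_lt hj, hg, ← coeff_ncK] at h1
    exact h1.symm
  · have h1 : (ncK a).coeff (FreeMonoid.ofList w.toList) = 0 := by
      rw [coeff_ncK]
      apply cs_eq_zero
      intro t ht htw
      rw [List.nil_append] at htw
      apply hm
      rw [rs, List.mem_append]
      left
      rw [← htw]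
      exact List.mem_map_of_mem ht
    rw [h1]
    symm
    apply Finset.sum_eq_zero
    intro i hi
    rw [Finset.mem_range] at hi
    rw [cs_eq_zero]
    · simp
    · intro t ht htw
      apply hm
      rw [rs, List.mem_append]
      right
      rw [List.mem_flatMap]
      refine ⟨(us a).getD i [], ?_, List.mem_map.2 ⟨t, ht, htw⟩⟩
      rw [List.getD_eq_getElem _ _ hi]
      exact List.getElem_mem hi

theorem redQ_rdiv (a b : List (List ℕ × k)) : Red (rdiv (a, b)) := by
  unfold rdiv
  refine ⟨?_, ?_⟩
  · refine List.Nodup.sublist (List.Sublist.map _ List.filter_sublist) ?_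
    rw [List.map_fst_zip]
    · exact dd_nodup _
    · rw [length_solve, length_colU]
  · intro t ht
    simpa using (List.mem_filter.1 ht).2

end alg

/-! ### polynomial time -/

section pt

variable {k : Type} [Field k] [Finite k] [DecidableEq k] [PEnc k]

variable {α : Type} [PEnc α]

theorem pt_cs {u r : α → List ℕ} {b : α → List (List ℕ × k)} (hu : PolyTime u)
    (hb : PolyTime b) (hr : PolyTime r) : PolyTime (fun a => cs (u a) (b a) (r a)) := by
  unfold cs
  refine pt_list_sum ?_
  fun_prop

theorem pt_us {a : α → List (List ℕ × k)} (ha : PolyTime a) : PolyTime (fun x => us (a x)) := by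
  unfold us
  refine pt_dd (PolyTime.flatMap ha ?_)
  refine PolyTime.map (PolyTime.range (by fun_prop) ?_) (by fun_prop)
  exact (pbd_length (l := fun p : α × List ℕ × k => p.2.1) (by fun_prop)).add (PBd.const 1)

theorem pt_rs {a b : α → List (List ℕ × k)} (ha : PolyTime a) (hb : PolyTime b) :
    PolyTime (fun x => rs (a x) (b x)) := by
  unfold rs
  refine PolyTime.append (by fun_prop) (PolyTime.flatMap (pt_us ha) ?_)
  exact PolyTime.map (by fun_prop) (by fun_prop)

theorem pt_colA {a b : α → List (List ℕ × k)} (ha : PolyTime a) (hb : PolyTime b) :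
    PolyTime (fun x => colA (a x) (b x)) := by
  unfold colA
  have h1 := pt_rs ha hb
  refine pt_mkv h1.length (pbd_length h1) ((pt_cs (by fun_prop) (by fun_prop) ?_))
  exact PolyTime.getD (h1.comp PolyTime.fst') (by fun_prop) (by fun_prop)

theorem pt_colU {a b : α → List (List ℕ × k)} (ha : PolyTime a) (hb : PolyTime b) :
    PolyTime (fun x => colU (a x) (b x)) := by
  unfold colU
  have h1 := pt_rs ha hb
  refine PolyTime.map (pt_us ha) ?_
  refine pt_mkv (α := α × List ℕ) (n := fun p => (rs (a p.1) (b p.1)).length)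
    (h1.length.comp PolyTime.fst') ((pbd_length h1).comp PolyTime.fst') ?_
  refine (pt_cs (by fun_prop) (by fun_prop) ?_)
  exact PolyTime.getD (h1.comp (PolyTime.fst'.comp PolyTime.fst')) (by fun_prop) (by fun_prop)

theorem pt_rdiv : PolyTime (rdiv (k := k)) := by
  have ha : PolyTime (fun p : List (List ℕ × k) × List (List ℕ × k) => p.1) :=
    PolyTime.fst'
  have hb : PolyTime (fun p : List (List ℕ × k) × List (List ℕ × k) => p.2) :=
    PolyTime.snd'
  unfold rdiv
  refine PolyTime.filter (PolyTime.zip (pt_us ha) ?_) (by fun_prop)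
  exact pt_solve (pt_rs ha hb).length (pbd_length (pt_rs ha hb)) (pt_colU ha hb) (pt_colA ha hb)

end pt

end RDiv

theorem exists_rdiv (k : Type) [Field k] [Finite k] [PEnc k] :
    ∃ rdiv : List (List ℕ × k) × List (List ℕ × k) → List (List ℕ × k),
    PolyTime rdiv ∧ ∀ a b : List (List ℕ × k), Red a → Red b → ncK b ≠ 0 →
      ncK a ∈ leftMul (ncK b) → Red (rdiv (a, b)) ∧ ncK a = ncK (rdiv (a, b)) * ncK b := by
  classical
  exact ⟨RDiv.rdiv, RDiv.pt_rdiv, fun a b _ _ hb h => ⟨RDiv.redQ_rdiv a b, RDiv.main a b hb h⟩⟩

end Pool.NCF.FF
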