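import Pool.Agent.NCF.FF.Main
import Pool.Agent.NCF.FF.Ops
import Pool.Agent.NCF.FF.MinElt
import Pool.Agent.NCF.FF.ChainMain
import Pool.Agent.NCF.FF.ChooseT
import Pool.Agent.NCF.FF.RDiv

/-! Finite fields: the algorithm. -/

set_option autoImplicit false

namespace Pool.NCF.FF

open Pool.Agent.PolyTime

/-- **Factorisation of sparse noncommutative polynomials over a finite field** in polynomial
time. -/
theorem nc_factorisation (k : Type) [Field k] [Finite k] [PEnc k] :
    ∃ G : List (List ℕ × k) → List (List (List ℕ × k)), PolyTime G ∧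
      ∀ l : List (List ℕ × k), Red l → (∃ t ∈ l, t.1 ≠ []) →
        (∀ g ∈ G l, Red g ∧ Irreducible (polyOf g)) ∧
          ((G l).map polyOf).prod = polyOf l :=
  factorisation_of k (exists_chain k) (exists_chooseT k) (exists_ops k) (exists_minElt k)
    (exists_rdiv k)

end Pool.NCF.FF
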