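import Pool.Agent.NCF.FF.Defs
import Pool.Agent.NCF.Glue2

/-! Finite fields: from chains of stable subspaces to factorisations. -/

set_option autoImplicit false

namespace Pool.NCF.FF

open MonoidAlgebra

variable {k : Type} [Field k]

/-! ### lists of terms -/

lemma ncK_nil : ncK ([] : List (List ℕ × k)) = 0 := rfl

lemma ncK_cons (t : List ℕ × k) (l : List (List ℕ × k)) :
    ncK (t :: l) = MonoidAlgebra.single (FreeMonoid.ofList t.1) t.2 + ncK l := rfl

lemma coeff_ncK_of_notMem {l : List (List ℕ × k)} {z : List ℕ} (h : z ∉ l.map Prod.fst) :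
    (ncK l).coeff (FreeMonoid.ofList z) = 0 := by
  classical
  induction l with
  | nil => simp [ncK_nil]
  | cons t l ih =>
    rw [List.map_cons, List.mem_cons, not_or] at h
    rw [ncK_cons, coeff_add, Finsupp.add_apply, ih h.2, coeff_single, Finsupp.single_apply,
      if_neg (fun h' => h.1 (FreeMonoid.ofList.injective h').symm), add_zero]

lemma coeff_ncK_of_mem {l : List (List ℕ × k)} (hl : (l.map Prod.fst).Nodup)
    {t : List ℕ × k} (ht : t ∈ l) : (ncK l).coeff (FreeMonoid.ofList t.1) = t.2 := by
  classical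
  induction l with
  | nil => simp at ht
  | cons t' l ih =>
    rw [List.map_cons, List.nodup_cons] at hl
    rw [ncK_cons, coeff_add, Finsupp.add_apply, coeff_single, Finsupp.single_apply]
    rcases List.mem_cons.1 ht with rfl | ht'
    · rw [if_pos rfl, coeff_ncK_of_notMem hl.1, add_zero]
    · rw [ih hl.2 ht', if_neg, zero_add]
      intro h
      exact hl.1 (FreeMonoid.ofList.injective h ▸ List.mem_map.2 ⟨t, ht', rfl⟩)

lemma ncK_ne_zero {l : List (List ℕ × k)} (hl : Red l) (hne : l ≠ []) : ncK l ≠ 0 := by
  obtain ⟨t, ht⟩ := List.exists_mem_of_ne_nil l hne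
  intro h
  have h1 := coeff_ncK_of_mem hl.1 ht
  rw [h] at h1
  exact hl.2 t ht (by
    rw [MonoidAlgebra.coeff_zero, Finsupp.zero_apply] at h1
    exact h1.symm)

/-! ### the data of the algorithm -/

/-- The data produced by the preparatory part of the algorithm. -/
structure Good (l : List (List ℕ × k)) (s : ℕ) (tab : List (ℕ × List (List k)))
    (ws : List (List ℕ)) (gens : List (List (List k))) : Prop where
  red : Red l
  nil : l ≠ []
  pos : 1 ≤ s
  tb : ∀ p ∈ tab, ∃ t ∈ l, p.1 ∈ t.1
  det : (revEval (tabMat s tab) (ncK l)).det ≠ 0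
  wne : ∀ w ∈ ws, w ≠ []
  rg : LinearMap.range (phi (ncK l) ws) = U0 (ncK l)
  g1 : ∀ g ∈ gens, ∃ (x : ℕ) (i j : Fin s) (δ : k), δ ≠ 0 ∧ ∀ v, phi (ncK l) ws
      (Matrix.mulVec (mat ws.length ws.length g) v) =
      δ • Eop (tabMat s tab) (ncK l) x i j (phi (ncK l) ws v)
  g2 : ∀ (x : ℕ) (i j : Fin s), (∀ v ∈ U0 (ncK l), Eop (tabMat s tab) (ncK l) x i j v = 0) ∨
      ∃ g ∈ gens, ∃ δ : k, δ ≠ 0 ∧ ∀ v, phi (ncK l) ws
      (Matrix.mulVec (mat ws.length ws.length g) v) =
      δ • Eop (tabMat s tab) (ncK l) x i j (phi (ncK l) ws v)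

variable {l : List (List ℕ × k)} {s : ℕ} {tab : List (ℕ × List (List k))}
  {ws : List (List ℕ)} {gens : List (List (List k))}

lemma Good.supp (h : Good l s tab ws gens) :
    ∀ x, x ∉ ((l.flatMap Prod.fst).toFinset) → tabMat s tab x = 0 := by
  intro x hx
  rw [tabMat]
  have h5 : tab.find? (fun p => p.1 == x) = none := by
    rw [List.find?_eq_none]
    intro p hp hpx
    obtain ⟨t, ht, ht'⟩ := h.tb p hp
    apply hx
    rw [List.mem_toFinset, List.mem_flatMap]
    refine ⟨t, ht, ?_⟩
    have : p.1 = x := by simpa using hpx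
    rwa [← this]
  rw [h5]
  ext i j
  simp [mat]

lemma Good.ne (h : Good l s tab ws gens) : ncK l ≠ 0 := ncK_ne_zero h.red h.nil

lemma endo_apply (n : ℕ) (g : List (List k)) (v : Fin n → k) :
    endo n g v = Matrix.mulVec (mat n n g) v := by
  rw [endo, Matrix.toLin'_apply]

lemma Good.A1 (h : Good l s tab ws gens) (U : Submodule k (NC k ℕ))
    (hU : EInv (tabMat s tab) (ncK l) U) :
    Inv (genAlg ws.length gens) (U.comap (phi (ncK l) ws)) := by
  intro a ha
  induction ha using Algebra.adjoin_induction with
  | mem a ha =>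
    obtain ⟨g, hg, rfl⟩ := ha
    intro v hv
    obtain ⟨x, i, j, δ, _, hδ⟩ := h.g1 g hg
    rw [Submodule.mem_comap, endo_apply, hδ]
    exact Submodule.smul_mem _ _ (hU x i j _ hv)
  | algebraMap r =>
    intro v hv
    rw [Module.algebraMap_end_apply]
    exact Submodule.smul_mem _ _ hv
  | add a b _ _ ha hb =>
    intro v hv
    rw [LinearMap.add_apply]
    exact add_mem (ha v hv) (hb v hv)
  | mul a b _ _ ha hb =>
    intro v hv
    rw [Module.End.mul_apply]
    exact ha _ (hb v hv)

lemma Good.A2 (h : Good l s tab ws gens) (x : ℕ) (i j : Fin s) :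
    (∀ v ∈ U0 (ncK l), Eop (tabMat s tab) (ncK l) x i j v = 0) ∨
      ∃ a ∈ genAlg ws.length gens, ∃ δ : k, δ ≠ 0 ∧
      ∀ v, phi (ncK l) ws (a v) =
        δ • Eop (tabMat s tab) (ncK l) x i j (phi (ncK l) ws v) := by
  rcases h.g2 x i j with h1 | ⟨g, hg, δ, hδ, h1⟩
  · exact Or.inl h1
  · right
    refine ⟨endo _ g, Algebra.subset_adjoin ⟨g, hg, rfl⟩, δ, hδ, fun v => ?_⟩
    rw [endo_apply, h1 v]

/-- The element of minimal degree is the attached right factor. -/
lemma Good.isH (h : Good l s tab ws gens) {Z : List (List k)} {m : List (List ℕ × k)}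
    (hZ : Inv (genAlg ws.length gens) (rowSpan ws.length Z))
    (hm : (Submodule.map (phi (ncK l) ws) (rowSpan ws.length Z) = ⊥ ∧ m = l) ∨
      (ncK m ∈ Submodule.map (phi (ncK l) ws) (rowSpan ws.length Z) ∧
        ncK m ≠ 0 ∧
        ∀ v ∈ Submodule.map (phi (ncK l) ws) (rowSpan ws.length Z), v ≠ 0 →
          ndeg (ncK m) ≤ ndeg v)) :
    IsH (ncK l) ((rowSpan ws.length Z).map (phi (ncK l) ws)) (ncK m) := by
  have : NeZero s := ⟨by have := h.pos; omega⟩
  rcases hm with ⟨h1, rfl⟩ | ⟨h1, h2, h3⟩
  · rw [h1]
    exact isH_self h.ne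
  · have hle : Submodule.map (phi (ncK l) ws) (rowSpan ws.length Z) ≤ U0 (ncK l) := by
      rw [← h.rg]
      exact LinearMap.map_le_range
    exact stable_structure h.supp h.ne h.det hle
      (EInv_map h.rg h.A2 hZ) h1 h2 h3

/-! ### constants -/

/-- All words are empty. -/
def isConst (t : List (List ℕ × k)) : Bool := t.all fun s => s.1.isEmpty

/-- The constant. -/
def constVal (t : List (List ℕ × k)) : k := (t.head?.map Prod.snd).getD 0

lemma ncK_const {t : List (List ℕ × k)} (ht : Red t) (h : isConst t = true) :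
    ncK t = MonoidAlgebra.single 1 (constVal t) := by
  rw [isConst, List.all_eq_true] at h
  rcases t with _ | ⟨a, _ | ⟨b, t⟩⟩
  · simp [ncK_nil, constVal]
  · have h1 := h a (by simp)
    have h2 : a.1 = [] := by simpa using h1
    rw [ncK_cons, ncK_nil, add_zero, h2]
    rfl
  · exfalso
    have h1 : a.1 = [] := by simpa using h a (by simp)
    have h2 : b.1 = [] := by simpa using h b (by simp)
    have h3 := ht.1
    rw [List.map_cons, List.map_cons, List.nodup_cons, List.mem_cons, h1, h2] at h3
    exact h3.1 (Or.inl rfl)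

lemma isConst_of_ndeg {t : List (List ℕ × k)} (ht : Red t) (h : ndeg (ncK t) = 0) :
    isConst t = true := by
  rw [isConst, List.all_eq_true]
  intro s hs
  have h1 : (ncK t).coeff (FreeMonoid.ofList s.1) ≠ 0 := by
    rw [coeff_ncK_of_mem ht.1 hs]
    exact ht.2 s hs
  have h2 := length_le_ndeg h1
  rw [h] at h2
  have h3 : s.1.length = 0 := Nat.le_zero.1 h2
  rw [List.length_eq_zero_iff.1 h3]
  rfl

lemma ndeg_single_one (c : k) : ndeg (MonoidAlgebra.single 1 c : NC k ℕ) = 0 := by
  rw [← Nat.le_zero, ndeg_le_iff]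
  intro w hw
  by_contra h3
  apply hw
  rw [coeff_single, Finsupp.single_eq_of_ne]
  rintro rfl
  simp at h3

lemma single_one_mul (c : k) (p : NC k ℕ) : (MonoidAlgebra.single 1 c : NC k ℕ) * p = c • p := by
  ext u; simp [coeff_single_one_mul]

/-- Constants are collected. -/
lemma prod_split (L : List (List (List ℕ × k))) (hL : ∀ t ∈ L, Red t) :
    (L.map ncK).prod = ((L.filter isConst).map constVal).prod •
      ((L.filter fun t => !isConst t).map ncK).prod := by
  induction L with
  | nil => simp
  | cons t L ih =>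
    have ih' := ih fun t ht => hL t (by simp [ht])
    rw [List.map_cons, List.prod_cons, ih']
    cases h : isConst t with
    | true =>
      rw [List.filter_cons_of_pos h, List.filter_cons_of_neg (by simp [h]), List.map_cons,
        List.prod_cons, ncK_const (hL t (by simp)) h, single_one_mul, smul_smul]
    | false =>
      rw [List.filter_cons_of_neg (by simp [h]), List.filter_cons_of_pos (by simp [h]),
        List.map_cons, List.prod_cons, mul_smul_comm]

/-! ### the chain of quotients -/

/-- Quotients of consecutive members, last one first, followed by the first member. -/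
def quots (rdiv : List (List ℕ × k) × List (List ℕ × k) → List (List ℕ × k))
    (hs : List (List (List ℕ × k))) : List (List (List ℕ × k)) :=
  (List.zipWith (fun a b => rdiv (b, a)) hs hs.tail).reverse ++ [hs.headD []]

/-- Telescoping. -/
lemma quots_spec {rdiv : List (List ℕ × k) × List (List ℕ × k) → List (List ℕ × k)}
    {P : List (List ℕ × k) → Prop} (a : List (List ℕ × k)) :
    ∀ (hs : List (List (List ℕ × k))),
    (a :: hs).IsChain (fun a b => P (rdiv (b, a)) ∧ ncK b = ncK (rdiv (b, a)) * ncK a) →
    (∀ t ∈ (List.zipWith (fun a b => rdiv (b, a)) (a :: hs) hs), P t) ∧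
    ncK ((a :: hs).getLast (by simp)) =
      ((List.zipWith (fun a b => rdiv (b, a)) (a :: hs) hs).reverse.map ncK).prod * ncK a := by
  intro hs
  induction hs generalizing a with
  | nil => intro _; simp
  | cons b hs ih =>
    intro h
    rw [List.isChain_cons_cons] at h
    obtain ⟨⟨h1, h2⟩, h3⟩ := h
    obtain ⟨h4, h5⟩ := ih b h3
    refine ⟨?_, ?_⟩
    · intro t ht
      rw [List.zipWith_cons_cons, List.mem_cons] at ht
      rcases ht with rfl | ht
      · exact h1
      · exact h4 t ht
    · rw [List.getLast_cons (by simp), h5, List.zipWith_cons_cons, List.reverse_cons,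
        List.map_append, List.prod_append, List.map_singleton, List.prod_singleton, mul_assoc, h2]

/-! ### the free algebra -/

/-- The polynomial in the free algebra with the given terms. -/
noncomputable def polyOf (l : List (List ℕ × k)) : FreeAlgebra k ℕ :=
  (l.map fun t => t.2 • (t.1.map (FreeAlgebra.ι k)).prod).sum

lemma equiv_polyOf (l : List (List ℕ × k)) :
    FreeAlgebra.equivMonoidAlgebraFreeMonoid (polyOf l) = ncK l := by
  induction l with
  | nil => simp [polyOf, ncK_nil]
  | cons t l ih =>
    have h1 : polyOf (t :: l) = t.2 • (t.1.map (FreeAlgebra.ι k)).prod + polyOf l := rfl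
    rw [h1, map_add, ih, ncK_cons, map_smul]
    congr 1
    have h2 : ∀ w : List ℕ, FreeAlgebra.equivMonoidAlgebraFreeMonoid (R := k)
        (w.map (FreeAlgebra.ι k)).prod = MonoidAlgebra.single (FreeMonoid.ofList w) 1 := by
      intro w
      induction w with
      | nil => simp [one_def]
      | cons x w ih =>
        rw [List.map_cons, List.prod_cons, map_mul, ih]
        have h3 : FreeAlgebra.equivMonoidAlgebraFreeMonoid (FreeAlgebra.ι k x) =
            (MonoidAlgebra.single (FreeMonoid.of x) 1 : NC k ℕ) := by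
          simp [FreeAlgebra.equivMonoidAlgebraFreeMonoid]
        rw [h3, single_mul_single, mul_one]
        rfl
    rw [h2, smul_single, smul_eq_mul, mul_one]

lemma irreducible_polyOf {l : List (List ℕ × k)} :
    Irreducible (polyOf l) ↔ Irreducible (ncK l) := by
  rw [← equiv_polyOf]
  exact (MulEquiv.irreducible_iff
    (FreeAlgebra.equivMonoidAlgebraFreeMonoid (R := k) (X := ℕ))).symm

/-! ### the algorithm -/

/-- Multiplication of all coefficients by a constant. -/
def scale (c : k) (l : List (List ℕ × k)) : List (List ℕ × k) := l.map fun t => (t.1, c * t.2)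

lemma ncK_scale (c : k) (l : List (List ℕ × k)) : ncK (scale c l) = c • ncK l := by
  induction l with
  | nil => simp [scale, ncK_nil]
  | cons t l ih =>
    have h1 : scale c (t :: l) = (t.1, c * t.2) :: scale c l := rfl
    rw [h1, ncK_cons, ncK_cons, ih, smul_add, smul_single, smul_eq_mul]

lemma red_scale {c : k} (hc : c ≠ 0) {l : List (List ℕ × k)} (hl : Red l) :
    Red (scale c l) := by
  refine ⟨?_, ?_⟩
  · rw [scale, List.map_map]
    exact hl.1
  · intro t ht
    obtain ⟨s, hs, rfl⟩ := List.mem_map.1 ht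
    exact mul_ne_zero hc (hl.2 s hs)

/-- Multiplication of the first member by a constant. -/
def scaleHead (c : k) : List (List (List ℕ × k)) → List (List (List ℕ × k))
  | [] => []
  | a :: L => scale c a :: L

lemma prod_scaleHead (c : k) {L : List (List (List ℕ × k))} (hL : L ≠ []) :
    ((scaleHead c L).map ncK).prod = c • (L.map ncK).prod := by
  cases L with
  | nil => exact absurd rfl hL
  | cons a L =>
    rw [scaleHead, List.map_cons, List.prod_cons, List.map_cons, List.prod_cons, ncK_scale,
      smul_mul_assoc]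

lemma irreducible_smul {c : k} (hc : c ≠ 0) {p : NC k ℕ} (hp : Irreducible p) :
    Irreducible (c • p) := by
  have hu : IsUnit (MonoidAlgebra.single 1 c : NC k ℕ) := by
    rw [isUnit_iff_ndeg]
    refine ⟨?_, ndeg_single_one c⟩
    intro h
    rw [MonoidAlgebra.single_eq_zero] at h
    exact hc h
  rw [← single_one_mul]
  obtain ⟨u, hu'⟩ := hu
  rw [← hu']
  exact (irreducible_units_mul u).2 hp

/-- The factors of a polynomial, constants included. -/
def facR (minElt : List (List ℕ × k) × List (List ℕ) × List (List k) → List (List ℕ × k))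
    (rdiv : List (List ℕ × k) × List (List ℕ × k) → List (List ℕ × k))
    (chain : List Unit × List (List (List k)) → List (List (List k)))
    (words : List (List ℕ × k) → List (List ℕ))
    (ops : List (List ℕ × k) → List (List (List k)))
    (l : List (List ℕ × k)) : List (List (List ℕ × k)) :=
  quots rdiv ((chain ((words l).map fun _ => (), ops l)).map fun Z => minElt (l, words l, Z))

/-- The whole algorithm. -/
def facK (fr : List (List ℕ × k) → List (List (List ℕ × k))) (l : List (List ℕ × k)) :
    List (List (List ℕ × k)) :=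
  scaleHead (((fr l).filter isConst).map constVal).prod ((fr l).filter fun t => !isConst t)

lemma facK_spec {fr : List (List ℕ × k) → List (List (List ℕ × k))} {l : List (List ℕ × k)}
    (hl : Red l) (hne : ∃ t ∈ l, t.1 ≠ [])
    (h1 : ∀ t ∈ fr l, Red t ∧ (ndeg (ncK t) = 0 ∨ Irreducible (ncK t)))
    (h2 : ((fr l).map ncK).prod = ncK l) :
    (∀ g ∈ facK fr l, Red g ∧ Irreducible (polyOf g)) ∧
      ((facK fr l).map polyOf).prod = polyOf l := by
  set L := fr l with hL
  have hsplit := prod_split L fun t ht => (h1 t ht).1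
  rw [h2] at hsplit
  set c := ((L.filter isConst).map constVal).prod with hc
  set N := L.filter fun t => !isConst t with hN
  obtain ⟨t0, ht0, ht0'⟩ := hne
  have hf : ncK l ≠ 0 := ncK_ne_zero hl (List.ne_nil_of_mem ht0)
  have hfd : ndeg (ncK l) ≠ 0 := by
    have h3 : (ncK l).coeff (FreeMonoid.ofList t0.1) ≠ 0 := by
      rw [coeff_ncK_of_mem hl.1 ht0]; exact hl.2 t0 ht0
    have h4 := length_le_ndeg h3
    have h5 : t0.1.length ≠ 0 := fun h => ht0' (List.length_eq_zero_iff.1 h)
    have h6 : (FreeMonoid.ofList t0.1).length = t0.1.length := rfl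
    omega
  have hc0 : c ≠ 0 := by
    intro h
    rw [h, zero_smul] at hsplit
    exact hf hsplit
  have hNne : N ≠ [] := by
    intro h
    rw [h, List.map_nil, List.prod_nil] at hsplit
    apply hfd
    rw [hsplit, MonoidAlgebra.one_def, smul_single]
    exact ndeg_single_one _
  have hirr : ∀ t ∈ N, Red t ∧ Irreducible (ncK t) := by
    intro t ht
    rw [hN, List.mem_filter] at ht
    obtain ⟨h3, h4⟩ := h1 t ht.1
    refine ⟨h3, ?_⟩
    rcases h4 with h4 | h4
    · have := isConst_of_ndeg h3 h4
      simp [this] at ht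
    · exact h4
  have hprod : ((facK fr l).map ncK).prod = ncK l := by
    rw [facK, prod_scaleHead _ hNne]
    exact hsplit.symm
  refine ⟨?_, ?_⟩
  · intro g hg
    rw [irreducible_polyOf]
    rw [facK, ← hL, ← hc, ← hN] at hg
    cases hNN : N with
    | nil => exact absurd hNN hNne
    | cons a N' =>
      rw [hNN, scaleHead, List.mem_cons] at hg
      rcases hg with rfl | hg
      · have h3 := hirr a (by rw [hNN]; simp)
        refine ⟨red_scale hc0 h3.1, ?_⟩
        rw [ncK_scale]
        exact irreducible_smul hc0 h3.2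
      · exact hirr g (by rw [hNN]; simp [hg])
  · apply (FreeAlgebra.equivMonoidAlgebraFreeMonoid (R := k) (X := ℕ)).injective
    rw [equiv_polyOf, ← hprod, map_list_prod, List.map_map]
    congr 1
    exact List.map_congr_left fun t _ => equiv_polyOf t

end Pool.NCF.FF
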