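import Pool.Agent.NCF.FF.Glue

/-! Finite fields: correctness and running time of the factorisation algorithm. -/

set_option autoImplicit false

namespace Pool.NCF.FF

open MonoidAlgebra Pool.Agent.PolyTime

section spec

variable {k : Type} [Field k]

/-- The property of the quotients. -/
def GoodF (t : List (List ℕ × k)) : Prop := Red t ∧ (ndeg (ncK t) = 0 ∨ Irreducible (ncK t))

variable
  {minElt : List (List ℕ × k) × List (List ℕ) × List (List k) → List (List ℕ × k)}
  {rdiv : List (List ℕ × k) × List (List ℕ × k) → List (List ℕ × k)}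
  {chain : List Unit × List (List (List k)) → List (List (List k))}
  {words : List (List ℕ × k) → List (List ℕ)}
  {ops : List (List ℕ × k) → List (List (List k))}

theorem facR_spec
    (hmin : ∀ (l : List (List ℕ × k)) (ws : List (List ℕ)) (Z : List (List k)),
      Red l → l ≠ [] → (∀ w ∈ ws, w ≠ []) → Red (minElt (l, ws, Z)) ∧
      ((Submodule.map (phi (ncK l) ws) (rowSpan ws.length Z) = ⊥ ∧ minElt (l, ws, Z) = l) ∨
      (ncK (minElt (l, ws, Z)) ∈ Submodule.map (phi (ncK l) ws) (rowSpan ws.length Z) ∧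
        ncK (minElt (l, ws, Z)) ≠ 0 ∧
        ∀ v ∈ Submodule.map (phi (ncK l) ws) (rowSpan ws.length Z), v ≠ 0 →
          ndeg (ncK (minElt (l, ws, Z))) ≤ ndeg v)))
    (hrdiv : ∀ a b : List (List ℕ × k), Red a → Red b → ncK b ≠ 0 →
      ncK a ∈ leftMul (ncK b) → Red (rdiv (a, b)) ∧ ncK a = ncK (rdiv (a, b)) * ncK b)
    (hchain : ∀ (u : List Unit) (gens : List (List (List k))),
        ((chain (u, gens)).head?.map (rowSpan u.length)) = some ⊤ ∧
        ((chain (u, gens)).getLast?.map (rowSpan u.length)) = some ⊥ ∧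
        ((chain (u, gens)).map (rowSpan u.length)).IsChain (Step (genAlg u.length gens)))
    {l : List (List ℕ × k)} {s : ℕ} {tab : List (ℕ × List (List k))}
    (h : Good l s tab (words l) (ops l)) :
    (∀ t ∈ facR minElt rdiv chain words ops l, GoodF t) ∧
      ((facR minElt rdiv chain words ops l).map ncK).prod = ncK l := by
  have : NeZero s := ⟨by have := h.pos; omega⟩
  obtain ⟨hC1, hC2, hC3⟩ := hchain ((words l).map fun _ => ()) (ops l)
  have hlen : ((words l).map fun _ => ()).length = (words l).length := List.length_map _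
  rw [hlen] at hC1 hC2 hC3
  set C := chain ((words l).map fun _ => (), ops l) with hC
  obtain ⟨Z0, rest, hCe⟩ : ∃ Z0 rest, C = Z0 :: rest := by
    cases hg : C with
    | nil => rw [hg] at hC1; simp at hC1
    | cons a b => exact ⟨a, b, rfl⟩
  have hZ0 : rowSpan (words l).length Z0 = ⊤ := by
    rw [hCe, List.head?_cons, Option.map_some, Option.some_inj] at hC1
    exact hC1
  have hmin' := fun Z => hmin l (words l) Z h.red h.nil h.wne
  have hIsH : ∀ Z, Inv (genAlg (words l).length (ops l)) (rowSpan (words l).length Z) →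
      IsH (ncK l) ((rowSpan (words l).length Z).map (phi (ncK l) (words l)))
        (ncK (minElt (l, words l, Z))) := fun Z hZ => h.isH hZ (hmin' Z).2
  have hND : NoDouble (genAlg (words l).length (ops l)) (LinearMap.ker (phi (ncK l) (words l))) :=
    noDouble_ker h.supp h.ne h.det h.rg h.A2
  -- the chain property
  have hchain2 : (C.map fun Z => minElt (l, words l, Z)).IsChain
      (fun a b => GoodF (rdiv (b, a)) ∧ ncK b = ncK (rdiv (b, a)) * ncK a) := by
    rw [List.isChain_map] at hC3 ⊢
    refine hC3.imp ?_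
    intro Z Y hst
    have hZ := hIsH Z hst.1
    have hY := hIsH Y hst.2.1
    have hdvd := hY.dvd h.ne hZ (Submodule.map_mono hst.2.2.1)
    have hZne : ncK (minElt (l, words l, Z)) ≠ 0 := by
      obtain ⟨g, hg⟩ := mem_leftMul.1 hZ.1
      intro h0
      rw [h0, mul_zero] at hg
      exact h.ne hg
    obtain ⟨h1, h2⟩ := hrdiv _ _ (hmin' Y).1 (hmin' Z).1 hZne hdvd
    exact ⟨⟨h1, step_factor h.supp h.ne h.det h.rg h.A1 hND hst hZ hY h2⟩, h2⟩
  -- the first member
  have hfirst : ndeg (ncK (minElt (l, words l, Z0))) = 0 := by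
    have h1 : IsH (ncK l) ((rowSpan (words l).length Z0).map
        (phi (ncK l) (words l))) (ncK (minElt (l, words l, Z0))) := by
      apply hIsH
      rw [hZ0]
      intro a _ y _
      trivial
    have h2 := h1.2
    rw [hZ0, Submodule.map_top, h.rg] at h2
    have h3 := isH_one (ncK l)
    rw [← ndeg_one (k := k) (X := ℕ)]
    exact ndeg_eq_of_inf_eq h.ne h1.1 h3.1 (h2.symm.trans h3.2)
  -- the last member
  have hlast : ∀ Z, C.getLast? = some Z → minElt (l, words l, Z) = l := by
    intro Z hZ
    rw [hZ, Option.map_some, Option.some_inj] at hC2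
    have h1 := (hmin' Z).2
    rw [hC2, Submodule.map_bot] at h1
    rcases h1 with ⟨_, h1⟩ | ⟨h1, h2, _⟩
    · exact h1
    · exact absurd ((Submodule.mem_bot k).1 h1) h2
  rw [hCe, List.map_cons] at hchain2
  obtain ⟨h1, h2⟩ := quots_spec (P := GoodF) (minElt (l, words l, Z0))
    (rest.map fun Z => minElt (l, words l, Z)) hchain2
  have hfac : facR minElt rdiv chain words ops l =
      (List.zipWith (fun a b => rdiv (b, a))
        (minElt (l, words l, Z0) :: (rest.map fun Z => minElt (l, words l, Z)))
        (rest.map fun Z => minElt (l, words l, Z))).reverse ++ [minElt (l, words l, Z0)] := by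
    rw [facR, ← hC, hCe, List.map_cons, quots]
    rfl
  have hlast2 : ncK ((minElt (l, words l, Z0) ::
      (rest.map fun Z => minElt (l, words l, Z))).getLast (by simp)) = ncK l := by
    have h3 : (((Z0 :: rest)).map fun Z => minElt (l, words l, Z)).getLast? =
        some ((minElt (l, words l, Z0) ::
      (rest.map fun Z => minElt (l, words l, Z))).getLast (by simp)) :=
        List.getLast?_eq_some_getLast
          (l := minElt (l, words l, Z0) ::
            (rest.map fun Z => minElt (l, words l, Z))) (by simp)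
    rw [List.getLast?_map, ← hCe] at h3
    cases hg : C.getLast? with
    | none =>
      rw [hg] at h3
      simp at h3
    | some Z =>
      rw [hg, Option.map_some, Option.some_inj, hlast Z hg] at h3
      rw [← h3]
  refine ⟨?_, ?_⟩
  · intro t ht
    rw [hfac, List.mem_append, List.mem_reverse, List.mem_singleton] at ht
    rcases ht with ht | rfl
    · exact h1 t ht
    · exact ⟨(hmin' _).1, Or.inl hfirst⟩
  · rw [hfac, List.map_append, List.prod_append, List.map_singleton, List.prod_singleton,
      ← h2, hlast2]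

end spec

/-! ### polynomial time -/

section pt

variable {k : Type} [Field k] [Finite k] [PEnc k] {α : Type} [PEnc α]

@[fun_prop]
lemma pt_isConst {t : α → List (List ℕ × k)} (ht : PolyTime t) :
    PolyTime (fun a => isConst (t a)) := by
  unfold isConst
  exact PolyTime.all ht (by fun_prop)

@[fun_prop]
lemma pt_constVal {t : α → List (List ℕ × k)} (ht : PolyTime t) :
    PolyTime (fun a => constVal (t a)) := by
  unfold constVal
  exact PolyTime.option_getD (PolyTime.option_map (PolyTime.head? ht) (by fun_prop))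
    (by fun_prop)

@[fun_prop]
lemma pt_scale {c : α → k} {l : α → List (List ℕ × k)} (hc : PolyTime c) (hl : PolyTime l) :
    PolyTime (fun a => scale (c a) (l a)) := by
  unfold scale
  exact PolyTime.map hl (by fun_prop)

@[fun_prop]
lemma pt_scaleHead {c : α → k} {L : α → List (List (List ℕ × k))} (hc : PolyTime c)
    (hL : PolyTime L) : PolyTime (fun a => scaleHead (c a) (L a)) := by
  refine (PolyTime.list_casesOn (l := L) (f := fun _ => ([] : List (List (List ℕ × k))))
    (g := fun a b M => scale (c a) b :: M) hL (by fun_prop) (by fun_prop)).congr fun a => ?_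
  cases L a <;> rfl

lemma pt_facK {fr : List (List ℕ × k) → List (List (List ℕ × k))} (hfr : PolyTime fr) :
    PolyTime (facK fr) := by
  unfold facK
  refine pt_scaleHead ?_ (PolyTime.filter hfr (by fun_prop))
  refine pt_list_prod (PolyTime.map (PolyTime.filter hfr ?_) ?_)
  · fun_prop
  · fun_prop

lemma pt_facR
    {minElt : List (List ℕ × k) × List (List ℕ) × List (List k) → List (List ℕ × k)}
    {rdiv : List (List ℕ × k) × List (List ℕ × k) → List (List ℕ × k)}
    {chain : List Unit × List (List (List k)) → List (List (List k))}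
    {words : List (List ℕ × k) → List (List ℕ)}
    {ops : List (List ℕ × k) → List (List (List k))}
    (h1 : PolyTime minElt) (h2 : PolyTime rdiv) (h3 : PolyTime chain) (h4 : PolyTime words)
    (h5 : PolyTime ops) : PolyTime (facR minElt rdiv chain words ops) := by
  unfold facR quots
  have h6 : PolyTime fun l : List (List ℕ × k) =>
      (chain ((words l).map fun _ => (), ops l)).map fun Z => minElt (l, words l, Z) := by
    refine PolyTime.map (g := fun l Z => minElt (l, words l, Z)) ?_ (by fun_prop)
    refine h3.comp (PolyTime.prodMk (PolyTime.map h4 (by fun_prop)) h5)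
  refine PolyTime.append (PolyTime.reverse (PolyTime.zipWith h6 (PolyTime.tail h6) ?_)) ?_
  · fun_prop
  · exact PolyTime.cons (PolyTime.headD h6 (by fun_prop)) (by fun_prop)

end pt

/-- Factorisation over a finite field, relative to the subroutines. -/
theorem factorisation_of (k : Type) [Field k] [Finite k] [PEnc k]
    (hchain : ∃ chain : List Unit × List (List (List k)) → List (List (List k)), PolyTime chain ∧
      ∀ (u : List Unit) (gens : List (List (List k))),
        ((chain (u, gens)).head?.map (rowSpan u.length)) = some ⊤ ∧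
        ((chain (u, gens)).getLast?.map (rowSpan u.length)) = some ⊥ ∧
        ((chain (u, gens)).map (rowSpan u.length)).IsChain (Step (genAlg u.length gens)))
    (hT : ∃ (sz : List (List ℕ × k) → List Unit)
      (chooseT : List (List ℕ × k) → List (ℕ × List (List k))), PolyTime sz ∧ PolyTime chooseT ∧
    ∀ l : List (List ℕ × k), Red l → (∃ t ∈ l, t.1 ≠ []) → 1 ≤ (sz l).length ∧
      (∀ p ∈ chooseT l, ∃ t ∈ l, p.1 ∈ t.1) ∧
      (revEval (tabMat (sz l).length (chooseT l)) (ncK l)).det ≠ 0)
    (hO : ∀ (sz : List (List ℕ × k) → List Unit) (_ : PolyTime sz)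
    (chooseT : List (List ℕ × k) → List (ℕ × List (List k))) (_ : PolyTime chooseT),
    ∃ (words : List (List ℕ × k) → List (List ℕ))
      (ops : List (List ℕ × k) → List (List (List k))), PolyTime words ∧ PolyTime ops ∧
    ∀ l : List (List ℕ × k), Red l → (∃ t ∈ l, t.1 ≠ []) → 1 ≤ (sz l).length →
    (∀ p ∈ chooseT l, ∃ t ∈ l, p.1 ∈ t.1) →
    (revEval (tabMat (sz l).length (chooseT l)) (ncK l)).det ≠ 0 →
    (∀ w ∈ words l, w ≠ []) ∧ LinearMap.range (phi (ncK l) (words l)) = U0 (ncK l) ∧
    (∀ g ∈ ops l, ∃ (x : ℕ) (i j : Fin (sz l).length) (δ : k), δ ≠ 0 ∧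
      ∀ v, phi (ncK l) (words l) (Matrix.mulVec (mat (words l).length (words l).length g) v) =
      δ • Eop (tabMat (sz l).length (chooseT l)) (ncK l) x i j (phi (ncK l) (words l) v)) ∧
    (∀ (x : ℕ) (i j : Fin (sz l).length),
      (∀ v ∈ U0 (ncK l), Eop (tabMat (sz l).length (chooseT l)) (ncK l) x i j v = 0) ∨
      ∃ g ∈ ops l, ∃ δ : k, δ ≠ 0 ∧
      ∀ v, phi (ncK l) (words l) (Matrix.mulVec (mat (words l).length (words l).length g) v) =
      δ • Eop (tabMat (sz l).length (chooseT l)) (ncK l) x i j (phi (ncK l) (words l) v)))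
    (hM : ∃ minElt : List (List ℕ × k) × List (List ℕ) × List (List k) →
    List (List ℕ × k), PolyTime minElt ∧
    ∀ (l : List (List ℕ × k)) (ws : List (List ℕ)) (Z : List (List k)),
      Red l → l ≠ [] → (∀ w ∈ ws, w ≠ []) → Red (minElt (l, ws, Z)) ∧
      ((Submodule.map (phi (ncK l) ws) (rowSpan ws.length Z) = ⊥ ∧ minElt (l, ws, Z) = l) ∨
      (ncK (minElt (l, ws, Z)) ∈ Submodule.map (phi (ncK l) ws) (rowSpan ws.length Z) ∧
        ncK (minElt (l, ws, Z)) ≠ 0 ∧
        ∀ v ∈ Submodule.map (phi (ncK l) ws) (rowSpan ws.length Z), v ≠ 0 →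
          ndeg (ncK (minElt (l, ws, Z))) ≤ ndeg v)))
    (hR : ∃ rdiv : List (List ℕ × k) × List (List ℕ × k) → List (List ℕ × k),
    PolyTime rdiv ∧ ∀ a b : List (List ℕ × k), Red a → Red b → ncK b ≠ 0 →
      ncK a ∈ leftMul (ncK b) → Red (rdiv (a, b)) ∧ ncK a = ncK (rdiv (a, b)) * ncK b) :
    ∃ G : List (List ℕ × k) → List (List (List ℕ × k)), PolyTime G ∧
      ∀ l : List (List ℕ × k), Red l → (∃ t ∈ l, t.1 ≠ []) →
        (∀ g ∈ G l, Red g ∧ Irreducible (polyOf g)) ∧
          ((G l).map polyOf).prod = polyOf l := by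
  obtain ⟨chain, hC1, hC2⟩ := hchain
  obtain ⟨sz, chooseT, hS1, hT1, hT2⟩ := hT
  obtain ⟨words, ops, hW1, hO1, hO2⟩ := hO sz hS1 chooseT hT1
  obtain ⟨minElt, hM1, hM2⟩ := hM
  obtain ⟨rdiv, hR1, hR2⟩ := hR
  refine ⟨facK (facR minElt rdiv chain words ops), pt_facK (pt_facR hM1 hR1 hC1 hW1 hO1), ?_⟩
  intro l hl hne
  obtain ⟨h1, h2, h3⟩ := hT2 l hl hne
  obtain ⟨h4, h5, h6, h7⟩ := hO2 l hl hne h1 h2 h3
  have hnil : l ≠ [] := by
    obtain ⟨t, ht, _⟩ := hne
    exact List.ne_nil_of_mem ht
  have hgood : Good l (sz l).length (chooseT l) (words l) (ops l) :=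
    ⟨hl, hnil, h1, h2, h3, h4, h5, h6, h7⟩
  obtain ⟨h8, h9⟩ := facR_spec hM2 hR2 hC2 hgood
  exact facK_spec hl hne h8 h9

end Pool.NCF.FF
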