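import Pool.Agent.NCF.FF.Defs

/-!
Square matrices over a finite field as flat lists, subspaces of the endomorphism algebra given by
lists, and preimages of subspaces.
-/

set_option autoImplicit false
set_option linter.unusedSectionVars false

namespace Pool.NCF.FF

open Pool.Agent.PolyTime Pool.Agent.LinAlg

section

variable {k : Type} [Field k]

/-- Matrices as endomorphisms. -/
noncomputable def toE (n : ℕ) : Matrix (Fin n) (Fin n) k ≃ₐ[k] Module.End k (Fin n → k) :=
  Matrix.toLinAlgEquiv'

theorem toE_apply {n : ℕ} (M : Matrix (Fin n) (Fin n) k) (v : Fin n → k) :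
    toE n M v = M.mulVec v := Matrix.toLinAlgEquiv'_apply M v

theorem endo_eq (n : ℕ) (A : List (List k)) : endo n A = toE n (mat n n A) := rfl

/-- The matrix with the entries `x (i * n + j)`. -/
def um (n : ℕ) : (ℕ → k) →ₗ[k] Matrix (Fin n) (Fin n) k where
  toFun x := fun i j => x ((i : ℕ) * n + j)
  map_add' _ _ := rfl
  map_smul' _ _ := rfl

theorem um_apply (n : ℕ) (x : ℕ → k) (i j : Fin n) : um n x i j = x ((i : ℕ) * n + j) := rfl

/-- The endomorphism of a flat vector. -/
noncomputable def ue (n : ℕ) : (ℕ → k) →ₗ[k] Module.End k (Fin n → k) :=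
  (toE n).toLinearMap ∘ₗ um n

theorem ue_apply (n : ℕ) (x : ℕ → k) : ue n x = toE n (um n x) := rfl

theorem idx_lt {n i j : ℕ} (hi : i < n) (hj : j < n) : i * n + j < n * n := by
  calc i * n + j < i * n + n := Nat.add_lt_add_left hj _
    _ = (i + 1) * n := by ring
    _ ≤ n * n := Nat.mul_le_mul_right _ hi

theorem idx_div {n i j : ℕ} (hj : j < n) : (i * n + j) / n = i := by
  have hn : 0 < n := lt_of_le_of_lt (Nat.zero_le _) hj
  rw [mul_comm, Nat.mul_add_div hn, Nat.div_eq_of_lt hj, add_zero]

theorem idx_mod {n i j : ℕ} (hj : j < n) : (i * n + j) % n = j := by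
  rw [mul_comm, Nat.mul_add_mod, Nat.mod_eq_of_lt hj]

theorem div_lt_of_lt_sq {n t : ℕ} (ht : t < n * n) : t / n < n := Nat.div_lt_of_lt_mul ht

theorem mod_lt_of_lt_sq {n t : ℕ} (ht : t < n * n) : t % n < n := by
  refine Nat.mod_lt _ (Nat.pos_of_ne_zero fun h0 => ?_)
  subst h0
  simp at ht

theorem eq_zero_of_ue {n : ℕ} {x : ℕ → k} (hx : Supp (n * n) x) (h : ue n x = 0) : x = 0 := by
  have h1 : um n x = 0 := (toE n).injective (by rw [← ue_apply, h, map_zero])
  funext t
  by_cases ht : t < n * n
  · have h2 := congrFun (congrFun h1 ⟨t / n, div_lt_of_lt_sq ht⟩) ⟨t % n, mod_lt_of_lt_sq ht⟩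
    rw [um_apply] at h2
    simp only at h2
    rwa [mul_comm, Nat.div_add_mod] at h2
  · exact hx t (by omega)

theorem ue_inj {n : ℕ} {x y : ℕ → k} (hx : Supp (n * n) x) (hy : Supp (n * n) y)
    (h : ue n x = ue n y) : x = y := by
  have h1 := eq_zero_of_ue (n := n) (x := x - y)
    (fun i hi => by rw [Pi.sub_apply, hx i hi, hy i hi, sub_zero]) (by rw [map_sub, h, sub_self])
  exact sub_eq_zero.1 h1

theorem exists_ue (n : ℕ) (a : Module.End k (Fin n → k)) :
    ∃ x : ℕ → k, Supp (n * n) x ∧ ue n x = a := by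
  obtain ⟨M, rfl⟩ := (toE n).surjective a
  refine ⟨fun t => if h : t < n * n then M ⟨t / n, div_lt_of_lt_sq h⟩ ⟨t % n, mod_lt_of_lt_sq h⟩
    else 0, fun t ht => dif_neg (by omega), ?_⟩
  rw [ue_apply]
  congr 1
  ext i j
  rw [um_apply]
  have h := idx_lt i.2 j.2
  rw [dif_pos h]
  congr 1
  · exact Fin.ext (idx_div j.2)
  · exact Fin.ext (idx_mod j.2)

/-! ### operations -/

/-- The flat form of a matrix. -/
def flF (n : ℕ) (A : List (List k)) : List k :=
  mkv (n * n) fun t => (A.getD (t / n) []).getD (t % n) 0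

/-- Product of flat matrices. -/
def mulF (n : ℕ) (a b : List k) : List k :=
  mkv (n * n) fun t => ((List.range n).map fun l => vl a (t / n * n + l) * vl b (l * n + t % n)).sum

/-- Difference. -/
def subF (n : ℕ) (a b : List k) : List k := mkv (n * n) fun t => vl a t - vl b t

/-- The identity matrix. -/
def oneF (k : Type) [Field k] (n : ℕ) : List k :=
  mkv (n * n) fun t => if t / n = t % n then 1 else 0

/-- Scalar matrices. -/
def scF (n : ℕ) (s : k) : List k := mkv (n * n) fun t => if t / n = t % n then s else 0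

/-- Powers with a constant exponent. -/
def powF (n q : ℕ) (a : List k) : List k := (mulF n a)^[q] (oneF k n)

theorem ue_mkv (n : ℕ) (f : ℕ → k) :
    um n (vl (mkv (n * n) f)) = fun (i j : Fin n) => f ((i : ℕ) * n + j) := by
  funext i j
  rw [um_apply, vl_mkv_lt (idx_lt i.2 j.2)]

theorem ue_flF (n : ℕ) (A : List (List k)) : ue n (vl (flF n A)) = endo n A := by
  rw [ue_apply, endo_eq]
  congr 1
  unfold flF
  rw [ue_mkv]
  funext i j
  rw [idx_div j.2, idx_mod j.2]
  rfl

theorem list_sum_range' (m : ℕ) (f : ℕ → k) :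
    ((List.range m).map f).sum = ∑ i : Fin m, f i := by
  classical
  rw [list_sum_range, Finset.sum_range]

theorem ue_mulF (n : ℕ) (a b : List k) :
    ue n (vl (mulF n a b)) = ue n (vl a) * ue n (vl b) := by
  rw [ue_apply, ue_apply, ue_apply, ← map_mul]
  congr 1
  unfold mulF
  rw [ue_mkv]
  funext i j
  rw [Matrix.mul_apply, list_sum_range']
  refine Finset.sum_congr rfl fun l _ => ?_
  rw [idx_div j.2, idx_mod j.2]
  rfl

theorem ue_subF (n : ℕ) (a b : List k) :
    ue n (vl (subF n a b)) = ue n (vl a) - ue n (vl b) := by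
  rw [ue_apply, ue_apply, ue_apply, ← map_sub]
  congr 1
  unfold subF
  rw [ue_mkv]
  rfl

theorem ue_scF (n : ℕ) (s : k) : ue n (vl (scF n s)) = s • 1 := by
  rw [ue_apply, ← map_one (toE n), ← map_smul]
  congr 1
  unfold scF
  rw [ue_mkv]
  funext i j
  rw [idx_div j.2, idx_mod j.2, Matrix.smul_apply, Matrix.one_apply]
  by_cases h : i = j
  · subst h; simp
  · rw [if_neg h, if_neg fun h1 => h (Fin.ext h1), smul_zero]

theorem ue_oneF (n : ℕ) : ue n (vl (oneF k n)) = 1 := by
  have h := ue_scF (k := k) n 1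
  rw [one_smul] at h
  exact h

theorem ue_powF (n q : ℕ) (a : List k) : ue n (vl (powF n q a)) = ue n (vl a) ^ q := by
  unfold powF
  induction q with
  | zero => rw [Function.iterate_zero, id, ue_oneF, pow_zero]
  | succ q ih => rw [Function.iterate_succ_apply', ue_mulF, ih, pow_succ']

theorem length_mulF (n : ℕ) (a b : List k) : (mulF n a b).length = n * n := length_mkv _ _

theorem length_powF (n q : ℕ) (a : List k) : (powF n q a).length = n * n := by
  cases q with
  | zero => exact length_mkv _ _
  | succ q =>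
    unfold powF
    rw [Function.iterate_succ_apply']
    exact length_mkv _ _

/-! ### subspaces of the endomorphism algebra -/

/-- All vectors of the list are flat `n × n` matrices. -/
def Fl (n : ℕ) (L : List (List k)) : Prop := ∀ v ∈ L, v.length = n * n

theorem Fl.supp {n : ℕ} {L : List (List k)} (h : Fl n L) : ∀ v ∈ L, Supp (n * n) (vl v) :=
  fun v hv => supp_vl (h v hv).le

/-- The subspace of endomorphisms spanned by a list of flat matrices. -/
noncomputable def es (n : ℕ) (L : List (List k)) : Submodule k (Module.End k (Fin n → k)) :=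
  (Sp L).map (ue n)

theorem mem_es {n : ℕ} {L : List (List k)} {v : List k} (h : v ∈ L) : ue n (vl v) ∈ es n L :=
  ⟨_, mem_Sp h, rfl⟩

theorem es_le {n : ℕ} {L : List (List k)} {U : Submodule k (Module.End k (Fin n → k))} :
    es n L ≤ U ↔ ∀ v ∈ L, ue n (vl v) ∈ U := by
  unfold es
  rw [Submodule.map_le_iff_le_comap, Sp_le]
  rfl

theorem es_append (n : ℕ) (L M : List (List k)) : es n (L ++ M) = es n L ⊔ es n M := by
  unfold es
  rw [Sp_append, Submodule.map_sup]

theorem es_mono {n : ℕ} {L M : List (List k)} (h : L ⊆ M) : es n L ≤ es n M :=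
  Submodule.map_mono (Sp_mono h)

variable [DecidableEq k]

/-- A basis of the span. -/
def bas (n : ℕ) (L : List (List k)) : List (List k) := rows (rref n L)

theorem length_bas_mem {n : ℕ} {L : List (List k)} {v : List k} (hv : v ∈ bas n L)
    : v.length = n := by
  have key : ∀ (L : List (List k)) (S : St k), (∀ p ∈ S, p.2.length = n) →
      ∀ p ∈ L.foldl (step n) S, p.2.length = n := by
    intro L
    induction L with
    | nil => intro S hS; exact hS
    | cons v L ih =>
      intro S hS
      refine ih _ ?_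
      unfold step
      cases lead n (red n S v) with
      | none => exact hS
      | some j =>
        intro p hp
        rcases List.mem_cons.1 hp with rfl | hp
        · simp
        · obtain ⟨q, _, rfl⟩ := List.mem_map.1 hp
          simp
  obtain ⟨p, hp, rfl⟩ := List.mem_map.1 hv
  exact key L [] (by simp) p hp

theorem length_bas_le (n : ℕ) (L : List (List k)) : (bas n L).length ≤ n := by
  unfold bas rows
  rw [List.length_map]
  exact length_rref_le n L

theorem fl_bas (n : ℕ) (L : List (List k)) : Fl n (bas (n * n) L) := fun _ hv => length_bas_mem hv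

theorem Sp_bas {n : ℕ} {L : List (List k)} (hL : ∀ v ∈ L, Supp n (vl v)) :
    Sp (bas n L) = Sp L := Sp_rref hL

theorem es_bas {n : ℕ} {L : List (List k)} (hL : Fl n L) : es n (bas (n * n) L) = es n L := by
  unfold es
  rw [Sp_bas hL.supp]

theorem comb_append (L U : List (List k)) (c : ℕ → k) :
    comb (L ++ U) c = comb L c + comb U (fun i => c (L.length + i)) := by
  funext j
  unfold comb
  rw [List.length_append, Finset.sum_range_add, Pi.add_apply]
  congr 1
  · refine Finset.sum_congr rfl fun i hi => ?_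
    rw [Finset.mem_range] at hi
    rw [List.getD_append _ _ _ _ hi]
  · refine Finset.sum_congr rfl fun i _ => ?_
    rw [List.getD_append_right _ _ _ _ (by omega), Nat.add_sub_cancel_left]

/-- Preimage of the span of `U` under the map given on the generators `L` by `φ`. -/
def preE (n : ℕ) (L : List (List k)) (φ : List k → List k) (U : List (List k)) :
    List (List k) :=
  bas (n * n) ((rels (n * n) (L.map φ ++ U)).map fun c => lc (n * n) L c)

theorem fl_preE (n : ℕ) (L : List (List k)) (φ : List k → List k) (U : List (List k)) :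
    Fl n (preE n L φ U) := fl_bas _ _

theorem mem_Sp_preE {n : ℕ} {L : List (List k)} {φ : List k → List k} {U : List (List k)}
    (hL : Fl n L) (hφ : Fl n (L.map φ)) (hU : Fl n U) {x : ℕ → k} :
    x ∈ Sp (preE n L φ U) ↔ ∃ c : ℕ → k, Supp L.length c ∧ comb L c = x ∧
      comb (L.map φ) c ∈ Sp U := by
  have h1 : Sp (preE n L φ U) = (Sp (rels (n * n) (L.map φ ++ U))).map (combL L) := by
    unfold preE
    rw [Sp_bas]
    · apply le_antisymm
      · rw [Sp_le]
        intro v hv
        obtain ⟨c, hc, rfl⟩ := List.mem_map.1 hv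
        rw [vl_lc hL.supp]
        exact ⟨_, mem_Sp hc, rfl⟩
      · rw [Submodule.map_le_iff_le_comap, Sp_le]
        intro c hc
        rw [Submodule.mem_comap, combL_apply, ← vl_lc hL.supp]
        exact mem_Sp (List.mem_map.2 ⟨c, hc, rfl⟩)
    · intro v hv
      obtain ⟨c, hc, rfl⟩ := List.mem_map.1 hv
      exact supp_mkv _ _
  have hsupp : ∀ u ∈ L.map φ ++ U, Supp (n * n) (vl u) := by
    intro u hu
    rcases List.mem_append.1 hu with h | h
    · exact hφ.supp u h
    · exact hU.supp u h
  have hcomb : ∀ c : ℕ → k, (∀ j < n * n, comb (L.map φ ++ U) c j = 0) ↔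
      comb (L.map φ) c = - comb U (fun i => c (L.length + i)) := by
    intro c
    rw [eq_neg_iff_add_eq_zero]
    have e := comb_append (L.map φ) U c
    rw [List.length_map] at e
    rw [← e]
    constructor
    · intro h
      funext j
      by_cases hj : j < n * n
      · exact h j hj
      · exact Sp_le_Fn hsupp (comb_mem _ _) j (by omega)
    · intro h j _
      rw [h]; rfl
  rw [h1]
  constructor
  · rintro ⟨c, hc, rfl⟩
    obtain ⟨h2, h3⟩ := mem_rels.1 hc
    rw [hcomb] at h3
    refine ⟨fun i => if i < L.length then c i else 0, fun i hi => if_neg (by omega), ?_, ?_⟩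
    · rw [combL_apply]
      exact comb_congr L fun i hi => if_pos hi
    · have : comb (L.map φ) (fun i => if i < L.length then c i else 0) = comb (L.map φ) c :=
        comb_congr _ fun i hi => if_pos (by simpa using hi)
      rw [this, h3]
      exact Submodule.neg_mem _ (comb_mem _ _)
  · rintro ⟨c, hc, rfl, hcU⟩
    obtain ⟨d, hd, hdU⟩ := mem_Sp_iff_comb.1 hcU
    refine ⟨fun i => if i < L.length then c i else - d (i - L.length), ?_, ?_⟩
    · apply mem_rels.2
      refine ⟨fun i hi => ?_, ?_⟩
      · rw [List.length_append, List.length_map] at hi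
        beta_reduce
        rw [if_neg (by omega), hd _ (by omega), neg_zero]
      · rw [hcomb]
        have e1 : comb (L.map φ) (fun i => if i < L.length then c i else - d (i - L.length)) =
            comb (L.map φ) c := comb_congr _ fun i hi => if_pos (by simpa using hi)
        have e2 : comb U (fun i => if L.length + i < L.length then c (L.length + i) else
            - d (L.length + i - L.length)) = comb U (-d) := by
          refine comb_congr _ fun i _ => ?_
          rw [if_neg (by omega), Nat.add_sub_cancel_left]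
          rfl
        have e3 : comb U (-d) = - comb U d := by
          have := comb_smul U (-1) d
          rwa [neg_one_smul, neg_one_smul] at this
        rw [e1]
        refine Eq.trans ?_ (congrArg Neg.neg e2.symm)
        rw [e3, neg_neg, hdU]
    · rw [combL_apply]
      exact comb_congr L fun i hi => if_pos hi

end

/-- A map that is linear modulo `U` on `P` maps linear combinations to linear combinations. -/
theorem sum_mod {k E ι : Type*} [Field k] [AddCommGroup E] [Module k E] (P U : Submodule k E)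
    (Φ : E → E) (hadd : ∀ a ∈ P, ∀ b ∈ P, Φ (a + b) - Φ a - Φ b ∈ U)
    (hsmul : ∀ (c : k), ∀ a ∈ P, Φ (c • a) - c • Φ a ∈ U) (s : Finset ι) (c : ι → k)
    (a : ι → E) (ha : ∀ i ∈ s, a i ∈ P) :
    Φ (∑ i ∈ s, c i • a i) - ∑ i ∈ s, c i • Φ (a i) ∈ U := by
  classical
  induction s using Finset.induction_on with
  | empty =>
    rw [Finset.sum_empty, Finset.sum_empty]
    have := hsmul 0 0 P.zero_mem
    rwa [zero_smul, zero_smul] at this
  | insert i s hi ih =>
    rw [Finset.sum_insert hi, Finset.sum_insert hi]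
    have h1 := ih fun j hj => ha j (Finset.mem_insert_of_mem hj)
    have h2 := hsmul (c i) (a i) (ha i (Finset.mem_insert_self _ _))
    have h3 := hadd (c i • a i) (P.smul_mem _ (ha i (Finset.mem_insert_self _ _)))
      (∑ j ∈ s, c j • a j) (P.sum_mem fun j hj => P.smul_mem _
        (ha j (Finset.mem_insert_of_mem hj)))
    have e : Φ (c i • a i + ∑ j ∈ s, c j • a j) - (c i • Φ (a i) + ∑ j ∈ s, c j • Φ (a j)) =
        (Φ (c i • a i + ∑ j ∈ s, c j • a j) - Φ (c i • a i) - Φ (∑ j ∈ s, c j • a j)) +
        (Φ (c i • a i) - c i • Φ (a i)) +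
        (Φ (∑ j ∈ s, c j • a j) - ∑ j ∈ s, c j • Φ (a j)) := by abel
    rw [e]
    exact U.add_mem (U.add_mem h3 h2) h1

section

variable {k : Type} [Field k] [DecidableEq k]

theorem mem_es_preE {n : ℕ} {L : List (List k)} {φ : List k → List k} {U : List (List k)}
    (hL : Fl n L) (hφ : ∀ v, (φ v).length = n * n) (hU : Fl n U)
    (Φ : Module.End k (Fin n → k) → Module.End k (Fin n → k))
    (hΦ : ∀ v, ue n (vl (φ v)) = Φ (ue n (vl v)))
    (hadd : ∀ a ∈ es n L, ∀ b ∈ es n L, Φ (a + b) - Φ a - Φ b ∈ es n U)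
    (hsmul : ∀ (c : k), ∀ a ∈ es n L, Φ (c • a) - c • Φ a ∈ es n U)
    {a : Module.End k (Fin n → k)} :
    a ∈ es n (preE n L φ U) ↔ a ∈ es n L ∧ Φ a ∈ es n U := by
  have hφL : Fl n (L.map φ) := by
    intro v hv
    obtain ⟨u, _, rfl⟩ := List.mem_map.1 hv
    exact hφ u
  have hsum : ∀ (M : List (List k)) (c : ℕ → k), ue n (comb M c) =
      ∑ i ∈ Finset.range M.length, c i • ue n (vl (M.getD i [])) := by
    intro M c
    have : comb M c = ∑ i ∈ Finset.range M.length, c i • vl (M.getD i []) := by
      funext j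
      simp [comb, Finset.sum_apply]
    rw [this, map_sum]
    simp only [map_smul]
  have key : ∀ c : ℕ → k, Φ (ue n (comb L c)) - ue n (comb (L.map φ) c) ∈ es n U := by
    intro c
    have h1 := sum_mod (es n L) (es n U) Φ hadd hsmul (Finset.range L.length) c
      (fun i => ue n (vl (L.getD i []))) (fun i hi => by
        rw [Finset.mem_range] at hi
        rw [List.getD_eq_getElem _ _ hi]
        exact mem_es (List.getElem_mem hi))
    rw [hsum, hsum, List.length_map]
    have h2 : ∑ i ∈ Finset.range L.length, c i • Φ (ue n (vl (L.getD i []))) =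
        ∑ i ∈ Finset.range L.length, c i • ue n (vl ((L.map φ).getD i [])) := by
      refine Finset.sum_congr rfl fun i hi => ?_
      rw [Finset.mem_range] at hi
      rw [List.getD_eq_getElem _ _ hi, List.getD_eq_getElem _ _ (by simpa using hi),
        List.getElem_map, hΦ]
    rwa [h2] at h1
  constructor
  · rintro ⟨x, hx, rfl⟩
    obtain ⟨c, _, rfl, hcU⟩ := (mem_Sp_preE hL hφL hU).1 hx
    refine ⟨⟨_, comb_mem _ _, rfl⟩, ?_⟩
    have h1 := (es n U).add_mem (key c) (⟨_, hcU, rfl⟩ : ue n (comb (L.map φ) c) ∈ es n U)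
    rwa [sub_add_cancel] at h1
  · rintro ⟨⟨x, hx, rfl⟩, hΦU⟩
    obtain ⟨c, hc, rfl⟩ := mem_Sp_iff_comb.1 hx
    refine ⟨_, (mem_Sp_preE hL hφL hU).2 ⟨c, hc, rfl, ?_⟩, rfl⟩
    have h1 := (es n U).sub_mem hΦU (key c)
    rw [sub_sub_cancel] at h1
    obtain ⟨y, hy, hyx⟩ := h1
    have : y = comb (L.map φ) c :=
      ue_inj (Sp_le_Fn hU.supp hy) (Sp_le_Fn hφL.supp (comb_mem _ _)) hyx
    rwa [← this]

end

/-! ### polynomial time -/

section pt

variable {k : Type} [Field k] [Finite k] [DecidableEq k] [PEnc k] {α : Type} [PEnc α]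

theorem pt_flF {n : α → ℕ} {A : α → List (List k)} (hn : PolyTime n) (hb : PBd n)
    (hA : PolyTime A) : PolyTime (fun a => flF (n a) (A a)) := by
  unfold flF
  refine pt_mkv (by fun_prop) (hb.mul hb) ?_
  exact PolyTime.getD (PolyTime.getD (by fun_prop) (by fun_prop) (PolyTime.const []))
    (by fun_prop) (PolyTime.const 0)

theorem pt_mulF {n : α → ℕ} {a b : α → List k} (hn : PolyTime n) (hnb : PBd n)
    (ha : PolyTime a) (hb : PolyTime b) : PolyTime (fun x => mulF (n x) (a x) (b x)) := by
  unfold mulF
  refine pt_mkv (by fun_prop) (hnb.mul hnb) (pt_list_sum ?_)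
  refine PolyTime.map (PolyTime.range (by fun_prop) (hnb.comp PolyTime.fst')) ?_
  fun_prop

theorem pt_subF {n : α → ℕ} {a b : α → List k} (hn : PolyTime n) (hnb : PBd n)
    (ha : PolyTime a) (hb : PolyTime b) : PolyTime (fun x => subF (n x) (a x) (b x)) := by
  unfold subF
  exact pt_mkv (by fun_prop) (hnb.mul hnb) (by fun_prop)

theorem pt_oneF {n : α → ℕ} (hn : PolyTime n) (hnb : PBd n) :
    PolyTime (fun x => oneF k (n x)) := by
  unfold oneF
  exact pt_mkv (by fun_prop) (hnb.mul hnb)
    (PolyTime.ite (by fun_prop) (PolyTime.const 1) (PolyTime.const 0))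

theorem pt_scF {n : α → ℕ} {s : α → k} (hn : PolyTime n) (hnb : PBd n) (hs : PolyTime s) :
    PolyTime (fun x => scF (n x) (s x)) := by
  unfold scF
  exact pt_mkv (by fun_prop) (hnb.mul hnb)
    (PolyTime.ite (by fun_prop) (by fun_prop) (PolyTime.const 0))

theorem pt_powF (q : ℕ) {n : α → ℕ} {a : α → List k} (hn : PolyTime n) (hnb : PBd n)
    (ha : PolyTime a) : PolyTime (fun x => powF (n x) q (a x)) := by
  unfold powF
  induction q with
  | zero => simpa using pt_oneF (k := k) hn hnb
  | succ q ih =>
    simp only [Function.iterate_succ_apply']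
    exact pt_mulF hn hnb ha ih

theorem pt_bas {n : α → ℕ} {L : α → List (List k)} (hn : PolyTime n) (hb : PBd n)
    (hL : PolyTime L) : PolyTime (fun a => bas (n a) (L a)) := by
  unfold bas
  exact pt_rows (pt_rref hn hb hL)

theorem pt_preE {n : α → ℕ} {L U : α → List (List k)} {φ : α → List k → List k}
    (hn : PolyTime n) (hb : PBd n) (hL : PolyTime L)
    (hφ : PolyTime fun p : α × List k => φ p.1 p.2) (hU : PolyTime U) :
    PolyTime (fun a => preE (n a) (L a) (φ a) (U a)) := by
  unfold preE
  refine pt_bas (by fun_prop) (hb.mul hb) (PolyTime.map (pt_rels (by fun_prop) (hb.mul hb)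
    (PolyTime.append (PolyTime.map hL hφ) hU)) ?_)
  exact pt_lc (α := α × List k) (n := fun p => n p.1 * n p.1) (by fun_prop)
    ((hb.comp PolyTime.fst').mul (hb.comp PolyTime.fst')) (by fun_prop) (by fun_prop)

theorem size_bas_le (n : ℕ) (L : List (List k)) :
    size (bas n L) ≤ n * (2 * (n * (2 * csz k + 1)) + 1) := by
  refine (size_le_of_forall (B := n * (2 * csz k + 1)) fun v hv => ?_).trans
    (Nat.mul_le_mul_right _ (length_bas_le n L))
  have := size_list_le v
  rwa [length_bas_mem hv] at this

end pt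

end Pool.NCF.FF
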