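import Pool.Agent.NCF.FF.Brauer
import Pool.Agent.NCF.AlgB

/-!
# The radical of an algebra of endomorphisms over a finite field
-/

set_option autoImplicit false

namespace Pool.NCF.FF

section rad

variable {R : Type*} [Ring R]

/-- Linear representations: an element whose multiples have their `Q`-th powers in the span of
the commutators acts as zero on a space over a field on which the ring acts by all
endomorphisms. -/
theorem map_eq_zero {D M : Type*} [Field D] [AddCommGroup M] [Module D M]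
    [FiniteDimensional D M] (ρ : R →+* Module.End D M) (hρ : Function.Surjective ρ)
    {Q : ℕ} (hQ : Q ≠ 0) {a : R} (ha : ∀ b, (a * b) ^ Q ∈ Kg R) : ρ a = 0 := by
  by_contra hne
  obtain ⟨x, hx⟩ : ∃ x, ρ a x ≠ 0 := by
    by_contra h
    push Not at h
    exact hne (LinearMap.ext h)
  have hx0 : x ≠ 0 := by
    rintro rfl
    rw [map_zero] at hx
    exact hx rfl
  obtain ⟨l, hl⟩ := Module.Projective.exists_dual_eq_one D hx0
  obtain ⟨l', hl'⟩ := Module.Projective.exists_dual_eq_one D hx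
  obtain ⟨c, hc⟩ := hρ (l'.smulRight x)
  obtain ⟨d, hd⟩ := hρ (l.smulRight x)
  set f : Module.End D M := l.smulRight x with hf
  -- the element c a d acts as the projection f
  have hj : ρ (c * (a * d)) = f := by
    rw [map_mul, map_mul, hc, hd]
    ext v
    simp only [Module.End.mul_apply, hf, LinearMap.smulRight_apply, map_smul, hl', one_smul]
  have hidem : ∀ m : ℕ, m ≠ 0 → f ^ m = f := by
    intro m hm
    have hff : f * f = f := by
      ext v
      simp only [Module.End.mul_apply, hf, LinearMap.smulRight_apply, map_smul, hl, one_smul]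
    obtain ⟨m, rfl⟩ := Nat.exists_eq_succ_of_ne_zero hm
    induction m with
    | zero => rw [Nat.succ_eq_add_one, zero_add, pow_one]
    | succ m ih => rw [Nat.succ_eq_add_one, pow_succ, ih (Nat.succ_ne_zero m), hff]
  have hK : (c * (a * d)) ^ Q ∈ Kg R := by
    have h1 := cyc_pow_mem c (a * d) Q
    have h2 : (a * d * c) ^ Q ∈ Kg R := by rw [mul_assoc]; exact ha (d * c)
    have h3 := AddSubgroup.add_mem _ h1 h2
    rwa [sub_add_cancel] at h3
  have htr : ∀ z ∈ Kg R, LinearMap.trace D M (ρ z) = 0 := by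
    intro z hz
    induction hz using AddSubgroup.closure_induction with
    | mem z hz =>
      obtain ⟨u, v, rfl⟩ := hz
      rw [map_sub, map_mul, map_mul, map_sub, LinearMap.trace_mul_comm, sub_self]
    | zero => rw [map_zero, map_zero]
    | add x y _ _ hx hy => rw [map_add, map_add, hx, hy, add_zero]
    | neg x _ hx => rw [map_neg, map_neg, hx, neg_zero]
  have h1 := htr _ hK
  rw [map_pow, hj, hidem Q hQ, hf, LinearMap.trace_smulRight, hl] at h1
  exact one_ne_zero h1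

/-- Elements whose multiples have their `Q`-th powers in the span of the commutators are in the
Jacobson radical (finite rings). -/
theorem mem_jacobson_of_pow_mem [Finite R] {Q : ℕ} (hQ : Q ≠ 0) {a : R}
    (ha : ∀ b, (a * b) ^ Q ∈ Kg R) : a ∈ Ring.jacobson R := by
  classical
  rw [Ring.jacobson_eq_sInf_isMaximal, Submodule.mem_sInf]
  intro m hm
  have hm' : Ideal.IsMaximal m := hm
  have hs : IsSimpleModule R (R ⧸ m) := isSimpleModule_iff_isCoatom.2 hm'.out
  have hfin : Finite (R ⧸ m) := Finite.of_surjective _ (Submodule.mkQ_surjective m)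
  have hfinD : Finite (Module.End R (R ⧸ m)) :=
    Finite.of_injective (fun f : Module.End R (R ⧸ m) => (f : R ⧸ m → R ⧸ m))
      DFunLike.coe_injective
  let hF : Field (Module.End R (R ⧸ m)) := littleWedderburn _
  have hfd : Module.Finite (Module.End R (R ⧸ m)) (R ⧸ m) := Module.Finite.of_finite
  have hsurj := Module.Finite.toModuleEnd_moduleEnd_surjective (R := R) (M := R ⧸ m)
  have h1 := map_eq_zero (D := Module.End R (R ⧸ m)) (M := R ⧸ m)
    (Module.toModuleEnd (Module.End R (R ⧸ m)) (S := R) (R ⧸ m)) hsurj hQ ha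
  have h2 := LinearMap.congr_fun h1 (Submodule.Quotient.mk 1)
  have h3 : a • (Submodule.Quotient.mk (1 : R) : R ⧸ m) = 0 := h2
  rw [← Submodule.Quotient.mk_smul, smul_eq_mul, mul_one, Submodule.Quotient.mk_eq_zero] at h3
  exact h3

end rad

/-! ### the radical as an ideal -/

section ideal

variable {k V : Type*} [Field k] [Finite k] [AddCommGroup V] [Module k V]
  (𝒜 : Subalgebra k (Module.End k V))

theorem InT.add {N : ℕ} {a b : Module.End k V} (ha : InT (Nat.card k) N 𝒜 a)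
    (hb : InT (Nat.card k) N 𝒜 b) : InT (Nat.card k) N 𝒜 (a + b) := by
  refine ⟨𝒜.add_mem ha.1 hb.1, ?_⟩
  have h1 := pow_pow_add_mem_Kom 𝒜 ha.1 hb.1 N
  have h2 := Submodule.add_mem _ h1 (Submodule.add_mem _ ha.2 hb.2)
  rwa [sub_add_cancel] at h2

theorem InR.add {N : ℕ} {a b : Module.End k V} (ha : InR (Nat.card k) N 𝒜 a)
    (hb : InR (Nat.card k) N 𝒜 b) : InR (Nat.card k) N 𝒜 (a + b) :=
  ⟨𝒜.add_mem ha.1 hb.1, fun c hc => by
    rw [add_mul]
    exact InT.add 𝒜 (ha.2 c hc) (hb.2 c hc)⟩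

theorem InR.mul_left {N : ℕ} {a b : Module.End k V} (ha : InR (Nat.card k) N 𝒜 a)
    (hb : b ∈ 𝒜) : InR (Nat.card k) N 𝒜 (b * a) := by
  refine ⟨𝒜.mul_mem hb ha.1, fun c hc => ⟨𝒜.mul_mem (𝒜.mul_mem hb ha.1) hc, ?_⟩⟩
  have h1 := cyc_mem_Kom 𝒜 hb (𝒜.mul_mem ha.1 hc) (Nat.card k ^ N)
  have h2 := (ha.2 (c * b) (𝒜.mul_mem hc hb)).2
  rw [← mul_assoc] at h2
  have h3 := Submodule.add_mem _ h1 h2
  rw [sub_add_cancel, ← mul_assoc] at h3
  exact h3

theorem InR.mul_right {N : ℕ} {a b : Module.End k V} (ha : InR (Nat.card k) N 𝒜 a)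
    (hb : b ∈ 𝒜) : InR (Nat.card k) N 𝒜 (a * b) := by
  refine ⟨𝒜.mul_mem ha.1 hb, fun c hc => ?_⟩
  rw [mul_assoc]
  exact ha.2 _ (𝒜.mul_mem hb hc)

theorem InR.zero {N : ℕ} : InR (Nat.card k) N 𝒜 (0 : Module.End k V) := by
  refine ⟨𝒜.zero_mem, fun c _ => ?_⟩
  rw [zero_mul]
  refine ⟨𝒜.zero_mem, ?_⟩
  rw [zero_pow (pow_ne_zero _ Nat.card_pos.ne')]
  exact Submodule.zero_mem _

theorem InR.smul {N : ℕ} {a : Module.End k V} (ha : InR (Nat.card k) N 𝒜 a) (c : k) :
    InR (Nat.card k) N 𝒜 (c • a) := by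
  have h1 : c • a = algebraMap k (Module.End k V) c * a := by
    rw [Algebra.smul_def]
  rw [h1]
  exact InR.mul_left 𝒜 ha (𝒜.algebraMap_mem c)

theorem InR.neg {N : ℕ} {a : Module.End k V} (ha : InR (Nat.card k) N 𝒜 a) :
    InR (Nat.card k) N 𝒜 (-a) := by
  have := InR.smul 𝒜 ha (-1)
  rwa [neg_smul, one_smul] at this

theorem InR.sub {N : ℕ} {a b : Module.End k V} (ha : InR (Nat.card k) N 𝒜 a)
    (hb : InR (Nat.card k) N 𝒜 b) : InR (Nat.card k) N 𝒜 (a - b) := by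
  rw [sub_eq_add_neg]
  exact InR.add 𝒜 ha (InR.neg 𝒜 hb)

theorem InR.sum {N : ℕ} {ι : Type*} (s : Finset ι) (f : ι → Module.End k V)
    (h : ∀ i ∈ s, InR (Nat.card k) N 𝒜 (f i)) : InR (Nat.card k) N 𝒜 (∑ i ∈ s, f i) := by
  classical
  induction s using Finset.induction_on with
  | empty => rw [Finset.sum_empty]; exact InR.zero 𝒜
  | insert i s hi ih =>
    rw [Finset.sum_insert hi]
    exact InR.add 𝒜 (h i (Finset.mem_insert_self _ _))
      (ih (fun j hj => h j (Finset.mem_insert_of_mem hj)))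

/-- The radical as an ideal of the algebra. -/
def RI (N : ℕ) : Ideal 𝒜 where
  carrier := {a | InR (Nat.card k) N 𝒜 a.1}
  add_mem' ha hb := InR.add 𝒜 ha hb
  zero_mem' := InR.zero 𝒜
  smul_mem' c _ ha := InR.mul_left 𝒜 ha c.2

theorem mem_RI {N : ℕ} {a : 𝒜} : a ∈ RI 𝒜 N ↔ InR (Nat.card k) N 𝒜 a.1 := Iff.rfl

instance (N : ℕ) : (RI 𝒜 N).IsTwoSided := ⟨fun b ha => InR.mul_right 𝒜 ha b.2⟩

theorem RCen.pow_add {N : ℕ} {a b : Module.End k V} (ha : RCen (Nat.card k) N 𝒜 a)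
    (hb : RCen (Nat.card k) N 𝒜 b) :
    InR (Nat.card k) N 𝒜 ((a + b) ^ Nat.card k - a ^ Nat.card k - b ^ Nat.card k) := by
  obtain ⟨p, e, hp, hc, hq⟩ := exists_char k
  set x : 𝒜 := ⟨a, ha.1⟩ with hx
  set y : 𝒜 := ⟨b, hb.1⟩ with hy
  have h0 : (x + y) ^ Nat.card k - x ^ Nat.card k - y ^ Nat.card k ∈ RI 𝒜 N := by
    rw [← Ideal.Quotient.eq_zero_iff_mem, map_sub, map_sub, map_pow, map_pow, map_pow, map_add]
    have hcomm : Commute (Ideal.Quotient.mk (RI 𝒜 N) x) (Ideal.Quotient.mk (RI 𝒜 N) y) := by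
      rw [commute_iff_eq, ← map_mul, ← map_mul, Ideal.Quotient.mk_eq_mk_iff_sub_mem, mem_RI]
      exact ha.2 b hb.1
    obtain ⟨r, hr⟩ := hcomm.exists_add_pow_prime_pow_eq hp.out e
    have hp0 : ((p : ℕ) : 𝒜 ⧸ RI 𝒜 N) = 0 := by
      have h1 : ((p : ℕ) : 𝒜) = algebraMap k 𝒜 (p : k) := (map_natCast _ _).symm
      have h2 : ((p : ℕ) : 𝒜) = 0 := by
        rw [h1, CharP.cast_eq_zero, map_zero]
      have h3 := congrArg (Ideal.Quotient.mk (RI 𝒜 N)) h2
      rwa [map_natCast, map_zero] at h3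
    rw [hq, hr, hp0, zero_mul, zero_mul, zero_mul, add_zero, add_sub_cancel_left, sub_self]
  exact h0

end ideal

section jac

variable {k V : Type*} [Field k] [Finite k] [AddCommGroup V] [Module k V]
  [FiniteDimensional k V] (𝒜 : Subalgebra k (Module.End k V))

instance finite_sub : Finite 𝒜 := by
  have h2 : Finite (Module.End k V) := Module.finite_of_finite k
  exact Finite.of_injective (Subtype.val) Subtype.val_injective

theorem RI_le_jacobson (N : ℕ) : RI 𝒜 N ≤ Ring.jacobson 𝒜 := by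
  intro a ha
  refine mem_jacobson_of_pow_mem (Q := Nat.card k ^ N) (pow_ne_zero _ Nat.card_pos.ne') ?_
  intro b
  exact (mem_Kom_iff ((a * b) ^ Nat.card k ^ N)).1 (ha.2 b.1 b.2).2

theorem jacobson_le_RI {N : ℕ} (hN : Module.finrank k V ≤ N) : Ring.jacobson 𝒜 ≤ RI 𝒜 N := by
  intro a ha
  refine ⟨a.2, fun b hb => ⟨𝒜.mul_mem a.2 hb, ?_⟩⟩
  obtain ⟨n, hn⟩ := IsSemiprimaryRing.isNilpotent (R := 𝒜)
  have h1 : a * ⟨b, hb⟩ ∈ Ring.jacobson 𝒜 := Ideal.mul_mem_right _ _ ha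
  have h2 := Ideal.pow_mem_pow h1 n
  rw [hn, Ideal.zero_eq_bot, Submodule.mem_bot] at h2
  have h3 : (a.1 * b) ^ n = 0 := congrArg Subtype.val h2
  have h4 : (a.1 * b) ^ Module.finrank k V = 0 := by
    have h5 := (LinearMap.isNilpotent_iff_charpoly (a.1 * b)).1 ⟨n, h3⟩
    have h6 := LinearMap.aeval_self_charpoly (a.1 * b)
    rw [h5, map_pow, Polynomial.aeval_X] at h6
    exact h6
  have h7 : Module.finrank k V ≤ Nat.card k ^ N := by
    have hq : 1 < Nat.card k := Finite.one_lt_card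
    exact hN.trans (Nat.lt_pow_self hq).le
  rw [pow_eq_zero_of_le h7 h4]
  exact Submodule.zero_mem _

theorem RI_eq_jacobson {N : ℕ} (hN : Module.finrank k V ≤ N) : RI 𝒜 N = Ring.jacobson 𝒜 :=
  le_antisymm (RI_le_jacobson 𝒜 N) (jacobson_le_RI 𝒜 hN)

theorem InR.isNilpotent {N : ℕ} {a : Module.End k V} (ha : InR (Nat.card k) N 𝒜 a) :
    IsNilpotent a := by
  have h1 : (⟨a, ha.1⟩ : 𝒜) ∈ Ring.jacobson 𝒜 := RI_le_jacobson 𝒜 N ha
  obtain ⟨n, hn⟩ := IsSemiprimaryRing.isNilpotent (R := 𝒜)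
  have h2 := Ideal.pow_mem_pow h1 n
  rw [hn, Ideal.zero_eq_bot, Submodule.mem_bot] at h2
  exact ⟨n, congrArg Subtype.val h2⟩

/-- Nothing is equal to the radical times itself. -/
theorem eq_bot_of_R {N : ℕ} (hN : Module.finrank k V ≤ N) (Z : Submodule k V) (hZ : Inv 𝒜 Z)
    (h : Z ≤ Submodule.span k {v | ∃ a, InR (Nat.card k) N 𝒜 a ∧ ∃ z ∈ Z, v = a z}) :
    Z = ⊥ := by
  have _ := hN
  by_contra hne
  obtain ⟨m, ⟨hmI, hmZ⟩, hmax⟩ := (wellFounded_gt (α := Submodule k V)).has_min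
    {Y | Inv 𝒜 Y ∧ Y < Z} ⟨⊥, by
      intro a _ y hy
      rw [Submodule.mem_bot] at hy ⊢
      rw [hy, map_zero], bot_lt_iff_ne_bot.2 hne⟩
  have key : ∀ a, InR (Nat.card k) N 𝒜 a → ∀ z ∈ Z, a z ∈ m := by
    intro a ha z hz
    by_contra hcon
    let P : Submodule k V :=
      { carrier := {v | ∃ b, InR (Nat.card k) N 𝒜 b ∧ v = b z}
        add_mem' := by
          rintro _ _ ⟨b, hb, rfl⟩ ⟨c, hc, rfl⟩
          exact ⟨b + c, InR.add 𝒜 hb hc, rfl⟩
        zero_mem' := ⟨0, InR.zero 𝒜, rfl⟩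
        smul_mem' := by
          rintro c _ ⟨b, hb, rfl⟩
          exact ⟨c • b, InR.smul 𝒜 hb c, rfl⟩ }
    have hP : P ≤ Z := by
      rintro _ ⟨b, hb, rfl⟩
      exact hZ b hb.1 z hz
    have hPI : Inv 𝒜 P := by
      rintro c hc _ ⟨b, hb, rfl⟩
      exact ⟨c * b, InR.mul_left 𝒜 hb hc, rfl⟩
    have hsup : m ⊔ P = Z := by
      by_contra hne2
      refine hmax (m ⊔ P) ⟨?_, lt_of_le_of_ne (sup_le hmZ.le hP) hne2⟩ ?_
      · intro c hc y hy
        obtain ⟨y1, hy1, y2, hy2, rfl⟩ := Submodule.mem_sup.1 hy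
        rw [map_add]
        exact Submodule.add_mem_sup (hmI c hc y1 hy1) (hPI c hc y2 hy2)
      · refine lt_of_le_of_ne le_sup_left ?_
        intro h1
        apply hcon
        rw [h1]
        exact Submodule.mem_sup_right ⟨a, ha, rfl⟩
    have hz' : z ∈ m ⊔ P := by rw [hsup]; exact hz
    obtain ⟨y1, hy1, y2, ⟨j, hj, rfl⟩, hy⟩ := Submodule.mem_sup.1 hz'
    obtain ⟨n, hn⟩ := InR.isNilpotent 𝒜 hj
    have h1 : (1 - j) z = y1 := by
      rw [LinearMap.sub_apply, Module.End.one_apply]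
      rw [sub_eq_iff_eq_add]
      exact hy.symm
    have h2 : z = (∑ i ∈ Finset.range n, j ^ i) ((1 - j) z) := by
      rw [← Module.End.mul_apply, geom_sum_mul_neg, hn, sub_zero, Module.End.one_apply]
    have h3 : z ∈ m := by
      rw [h2, h1]
      exact hmI _ (𝒜.sum_mem fun i _ => 𝒜.pow_mem hj.1 i) y1 hy1
    exact hcon (hmI a ha.1 z h3)
  have : Z ≤ m := by
    refine h.trans (Submodule.span_le.2 ?_)
    rintro _ ⟨a, ha, z, hz, rfl⟩
    exact key a ha z hz
  exact absurd (lt_of_le_of_lt this hmZ) (lt_irrefl _)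

end jac

end Pool.NCF.FF
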