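import Pool.Agent.NCF.FF.Defs
import Mathlib.FieldTheory.KummerExtension
import Mathlib.FieldTheory.Finite.Extension

/-!
Explicit block companion matrices over a finite field all of whose nonzero polynomial expressions
of small degree are invertible.
-/

set_option autoImplicit false

namespace Pool.NCF.FF

/-- Shift by one of `m` blocks of size 3 with the block `A` in the corner. -/
def Th {k : Type} [Field k] (m : ℕ) (A : Matrix (Fin 3) (Fin 3) k) :
    Matrix (Fin m × Fin 3) (Fin m × Fin 3) k :=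
  fun i j => if (i.1 : ℕ) = j.1 + 1 then (if i.2 = j.2 then 1 else 0)
    else if (i.1 : ℕ) = 0 ∧ (j.1 : ℕ) + 1 = m then A i.2 j.2 else 0

theorem Th_pow {k : Type} [Field k] (m : ℕ) (A : Matrix (Fin 3) (Fin 3) k) (e : ℕ) (he : e ≤ m)
    (i j : Fin m × Fin 3) : (Th m A ^ e) i j =
      if (i.1 : ℕ) = j.1 + e then (if i.2 = j.2 then 1 else 0)
      else if (i.1 : ℕ) + m = j.1 + e then A i.2 j.2 else 0 := by
  induction e generalizing i j with
  | zero =>
    obtain ⟨i1, i2⟩ := i
    obtain ⟨j1, j2⟩ := j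
    have h1 := j1.2
    simp only [pow_zero, Matrix.one_apply, Prod.mk.injEq, add_zero]
    by_cases h : i1 = j1
    · subst h; simp
    · have h' : (i1 : ℕ) ≠ j1 := fun hh => h (Fin.ext hh)
      have h'' : ¬ ((i1 : ℕ) + m = j1) := by omega
      simp [h, h', h'']
  | succ e ih =>
    have ihe := ih (by omega)
    obtain ⟨i1, i2⟩ := i
    obtain ⟨j1, j2⟩ := j
    have hi := i1.2
    have hj := j1.2
    rw [pow_succ', Matrix.mul_apply, Fintype.sum_prod_type]
    by_cases h0 : (i1 : ℕ) = 0
    · -- only the last block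
      have hm : m - 1 < m := by omega
      rw [Finset.sum_eq_single (⟨m - 1, hm⟩ : Fin m)]
      · have e1 : ∀ v : Fin 3, Th m A (i1, i2) (⟨m - 1, hm⟩, v) = A i2 v := by
          intro v
          unfold Th
          rw [if_neg, if_pos]
          · exact ⟨h0, by simp; omega⟩
          · simp only [h0]; omega
        have e2 : ∀ v : Fin 3, (Th m A ^ e) (⟨m - 1, hm⟩, v) (j1, j2) =
            if m - 1 = (j1 : ℕ) + e then (if v = j2 then 1 else 0) else 0 := by
          intro v
          rw [ihe]
          simp only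
          have : ¬ (m - 1 + m = (j1 : ℕ) + e) := by omega
          rw [if_neg this]
        simp only [e1, e2]
        rw [h0]
        rw [if_neg (by omega)]
        by_cases h1 : m - 1 = (j1 : ℕ) + e
        · rw [if_pos (show 0 + m = (j1 : ℕ) + (e + 1) by omega)]
          simp [h1]
        · rw [if_neg (show ¬ (0 + m = (j1 : ℕ) + (e + 1)) by omega)]
          simp [h1]
      · intro b _ hb
        apply Finset.sum_eq_zero
        intro v _
        have : Th m A (i1, i2) (b, v) = 0 := by
          unfold Th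
          rw [if_neg, if_neg]
          · rintro ⟨-, h2⟩
            apply hb
            apply Fin.ext
            simp only at h2 ⊢
            omega
          · simp only [h0]; omega
        rw [this, zero_mul]
      · intro h; exact absurd (Finset.mem_univ _) h
    · have hm : (i1 : ℕ) - 1 < m := by omega
      rw [Finset.sum_eq_single (⟨(i1 : ℕ) - 1, hm⟩ : Fin m)]
      · rw [Finset.sum_eq_single i2]
        · have e1 : Th m A (i1, i2) (⟨(i1 : ℕ) - 1, hm⟩, i2) = 1 := by
            unfold Th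
            rw [if_pos, if_pos rfl]
            simp only
            omega
          rw [e1, one_mul, ihe]
          simp only
          by_cases h1 : (i1 : ℕ) = (j1 : ℕ) + (e + 1)
          · rw [if_pos h1, if_pos (by omega)]
          · rw [if_neg h1, if_neg (by omega)]
            by_cases h2 : (i1 : ℕ) + m = (j1 : ℕ) + (e + 1)
            · rw [if_pos h2, if_pos (by omega)]
            · rw [if_neg h2, if_neg (by omega)]
        · intro v _ hv
          have : Th m A (i1, i2) (⟨(i1 : ℕ) - 1, hm⟩, v) = 0 := by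
            unfold Th
            rw [if_pos (by simp only; omega), if_neg (fun h => hv h.symm)]
          rw [this, zero_mul]
        · intro h; exact absurd (Finset.mem_univ _) h
      · intro b _ hb
        apply Finset.sum_eq_zero
        intro v _
        have : Th m A (i1, i2) (b, v) = 0 := by
          unfold Th
          rw [if_neg, if_neg]
          · rintro ⟨h1, -⟩
            exact h0 h1
          · intro h1
            apply hb
            apply Fin.ext
            simp only at h1 ⊢
            omega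
        rw [this, zero_mul]
      · intro h; exact absurd (Finset.mem_univ _) h

/-- The matrix with `m` diagonal blocks `B`. -/
def Dg {k : Type} [Field k] (m : ℕ) (B : Matrix (Fin 3) (Fin 3) k) :
    Matrix (Fin m × Fin 3) (Fin m × Fin 3) k :=
  fun i j => if i.1 = j.1 then B i.2 j.2 else 0

theorem Dg_mul {k : Type} [Field k] (m : ℕ) (B C : Matrix (Fin 3) (Fin 3) k) :
    Dg m (B * C) = Dg m B * Dg m C := by
  ext ⟨i1, i2⟩ ⟨j1, j2⟩
  rw [Matrix.mul_apply, Fintype.sum_prod_type, Finset.sum_eq_single i1]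
  · simp only [Dg, if_true]
    by_cases h : i1 = j1
    · simp [h, Matrix.mul_apply]
    · simp [h]
  · intro b _ hb
    apply Finset.sum_eq_zero
    intro v _
    simp [Dg, Ne.symm hb]
  · intro h; exact absurd (Finset.mem_univ _) h

theorem Dg_one {k : Type} [Field k] (m : ℕ) :
    Dg m (1 : Matrix (Fin 3) (Fin 3) k) = 1 := by
  ext ⟨i1, i2⟩ ⟨j1, j2⟩
  simp only [Dg, Matrix.one_apply, Prod.mk.injEq]
  by_cases h : i1 = j1 <;> simp [h]

theorem Dg_add {k : Type} [Field k] (m : ℕ) (B C : Matrix (Fin 3) (Fin 3) k) :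
    Dg m (B + C) = Dg m B + Dg m C := by
  ext ⟨i1, i2⟩ ⟨j1, j2⟩
  simp only [Dg, Matrix.add_apply]
  by_cases h : i1 = j1 <;> simp [h]

theorem Dg_zero {k : Type} [Field k] (m : ℕ) :
    Dg m (0 : Matrix (Fin 3) (Fin 3) k) = 0 := by
  ext ⟨i1, i2⟩ ⟨j1, j2⟩
  simp [Dg]

/-- `Th` commutes with diagonal blocks that commute with the corner. -/
theorem Dg_comm {k : Type} [Field k] (m : ℕ) (A B : Matrix (Fin 3) (Fin 3) k)
    (h : B * A = A * B) : Dg m B * Th m A = Th m A * Dg m B := by
  ext ⟨i1, i2⟩ ⟨j1, j2⟩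
  rw [Matrix.mul_apply, Matrix.mul_apply, Fintype.sum_prod_type, Fintype.sum_prod_type,
    Finset.sum_eq_single i1, Finset.sum_eq_single j1]
  · simp only [Dg, if_true, Th]
    by_cases h1 : (i1 : ℕ) = j1 + 1
    · simp [h1]
    · simp only [h1, if_false]
      by_cases h2 : (i1 : ℕ) = 0 ∧ (j1 : ℕ) + 1 = m
      · simp only [h2, and_self, if_true]
        have := congrFun (congrFun h i2) j2
        rwa [Matrix.mul_apply, Matrix.mul_apply] at this
      · simp [h2]
  · intro b _ hb
    apply Finset.sum_eq_zero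
    intro v _
    simp [Dg, hb]
  · intro h; exact absurd (Finset.mem_univ _) h
  · intro b _ hb
    apply Finset.sum_eq_zero
    intro v _
    simp [Dg, Ne.symm hb]
  · intro h; exact absurd (Finset.mem_univ _) h

theorem Th_pow_self {k : Type} [Field k] (m : ℕ) (A : Matrix (Fin 3) (Fin 3) k) :
    Th m A ^ m = Dg m A := by
  ext ⟨i1, i2⟩ ⟨j1, j2⟩
  rw [Th_pow m A m le_rfl]
  have := i1.2
  simp only [Dg]
  rw [if_neg (by omega)]
  by_cases h : i1 = j1
  · simp [h]
  · have : ¬ ((i1 : ℕ) + m = j1 + m) := fun hh => h (Fin.ext (by omega))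
    rw [if_neg this, if_neg h]

/-- In a finite field extension of degree three there is an element that is not an `ℓ`-th power
for some odd prime `ℓ`. -/
theorem exists_nonpower (k K : Type) [Field k] [Finite k] [Field K] [Finite K]
    (hK : Nat.card K = Nat.card k ^ 3) :
    ∃ ℓ : ℕ, ℓ.Prime ∧ ℓ ≠ 2 ∧ ∃ a : K, ∀ b : K, b ^ ℓ ≠ a := by
  set q := Nat.card k with hq
  have hq2 : 2 ≤ q := Finite.one_lt_card
  have hne : q ^ 2 + q + 1 ≠ 1 := by
    have : 0 < q ^ 2 := by positivity
    omega
  obtain ⟨ℓ, hℓ, hd⟩ := Nat.exists_prime_and_dvd hne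
  have h2 : ℓ ≠ 2 := by
    rintro rfl
    have : Even (q * (q + 1)) := Nat.even_mul_succ_self q
    obtain ⟨r, hr⟩ := this
    obtain ⟨s, hs⟩ := hd
    have : q ^ 2 + q = q * (q + 1) := by ring
    omega
  refine ⟨ℓ, hℓ, h2, ?_⟩
  have hfin : Finite Kˣ := inferInstance
  have hcard : Nat.card Kˣ = q ^ 3 - 1 := by
    rw [Nat.card_units, hK]
  have hdv : ℓ ∣ Nat.card Kˣ := by
    rw [hcard]
    have : q ^ 3 - 1 = (q - 1) * (q ^ 2 + q + 1) := by
      obtain ⟨r, hr⟩ : ∃ r, q = r + 1 := ⟨q - 1, by omega⟩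
      rw [hr]
      have h3 : 1 ≤ (r + 1) ^ 3 := Nat.one_le_pow _ _ (by omega)
      rw [Nat.sub_eq_iff_eq_add h3]
      simp only [Nat.add_sub_cancel]
      ring
    rw [this]
    exact dvd_mul_of_dvd_right hd _
  haveI : Fact ℓ.Prime := ⟨hℓ⟩
  obtain ⟨u, hu⟩ := exists_prime_orderOf_dvd_card' ℓ hdv
  by_contra hcon
  push_neg at hcon
  have hsurj : Function.Surjective (fun x : Kˣ => x ^ ℓ) := by
    intro y
    obtain ⟨b, hb⟩ := hcon (y : K)
    have hb0 : b ≠ 0 := by
      rintro rfl
      rw [zero_pow hℓ.ne_zero] at hb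
      exact y.ne_zero hb.symm
    refine ⟨Units.mk0 b hb0, ?_⟩
    ext
    simpa using hb
  have hinj := Finite.injective_iff_surjective.2 hsurj
  have h1 : u ^ ℓ = 1 := by rw [← hu]; exact pow_orderOf_eq_one u
  have : u = 1 := hinj (by simp [h1])
  rw [this, orderOf_one] at hu
  exact hℓ.one_lt.ne hu

theorem exists_Th (k : Type) [Field k] [Finite k] : ∃ (ℓ : ℕ) (A : Matrix (Fin 3) (Fin 3) k),
    2 ≤ ℓ ∧ ∀ (i : ℕ) (P : Polynomial k), P ≠ 0 → P.natDegree < ℓ ^ i →
      IsUnit (Polynomial.aeval (Th (ℓ ^ i) A) P) := by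
  obtain ⟨p, hp⟩ := CharP.exists k
  haveI : Fact p.Prime := ⟨CharP.char_is_prime k p⟩
  haveI : NeZero (3 : ℕ) := ⟨by norm_num⟩
  let K := FiniteField.Extension k p 3
  have hK : Nat.card K = Nat.card k ^ 3 := FiniteField.natCard_extension k p 3
  obtain ⟨ℓ, hℓ, hℓ2, a, ha⟩ := exists_nonpower k K hK
  have hfr : Module.finrank k K = 3 := FiniteField.finrank_extension k p 3
  let b : Module.Basis (Fin 3) k K := Module.finBasisOfFinrankEq k K hfr
  let L : K →ₐ[k] Matrix (Fin 3) (Fin 3) k := Algebra.leftMulMatrix b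
  refine ⟨ℓ, L a, hℓ.two_le, ?_⟩
  intro i P hP hdeg
  set m := ℓ ^ i with hm
  have hm0 : m ≠ 0 := pow_ne_zero _ hℓ.ne_zero
  have hirr : Irreducible (Polynomial.X ^ m - Polynomial.C a : Polynomial K) :=
    X_pow_sub_C_irreducible_of_prime_pow hℓ hℓ2 i ha
  let f : K →+* Matrix (Fin m × Fin 3) (Fin m × Fin 3) k :=
    { toFun := fun c => Dg m (L c)
      map_one' := by rw [map_one, Dg_one]
      map_mul' := fun c d => by rw [map_mul, Dg_mul]
      map_zero' := by rw [map_zero, Dg_zero]
      map_add' := fun c d => by rw [map_add, Dg_add] }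
  have hf : ∀ c : K, Commute (f c) (Th m (L a)) := by
    intro c
    exact Dg_comm m (L a) (L c) (by rw [← map_mul, ← map_mul, mul_comm])
  let Ψ : Polynomial K →+* Matrix (Fin m × Fin 3) (Fin m × Fin 3) k :=
    Polynomial.eval₂RingHom' f (Th m (L a)) hf
  have hΨX : Ψ Polynomial.X = Th m (L a) := Polynomial.eval₂_X _ _
  have hΨC : ∀ c, Ψ (Polynomial.C c) = f c := fun c => Polynomial.eval₂_C _ _
  have hΨ : Ψ (Polynomial.X ^ m - Polynomial.C a) = 0 := by
    rw [map_sub, map_pow, hΨX, hΨC, Th_pow_self]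
    exact sub_self _
  have hΨP : Ψ (P.map (algebraMap k K)) = Polynomial.aeval (Th m (L a)) P := by
    have hfc : ∀ c : k, f (algebraMap k K c) = algebraMap k _ c := by
      intro c
      change Dg m (L (algebraMap k K c)) = _
      rw [AlgHom.commutes, Algebra.algebraMap_eq_smul_one, Algebra.algebraMap_eq_smul_one]
      rw [← Dg_one]
      ext ⟨i1, i2⟩ ⟨j1, j2⟩
      simp [Dg]
    change Polynomial.eval₂ f (Th m (L a)) (P.map (algebraMap k K)) = _
    rw [Polynomial.eval₂_map, Polynomial.aeval_def]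
    congr 1
    ext1 c
    exact hfc c
  have hmap0 : P.map (algebraMap k K) ≠ 0 :=
    (Polynomial.map_ne_zero_iff (algebraMap k K).injective).2 hP
  have hnd : ¬ (Polynomial.X ^ m - Polynomial.C a : Polynomial K) ∣ P.map (algebraMap k K) := by
    intro hdvd
    have h1 := Polynomial.natDegree_le_of_dvd hdvd hmap0
    rw [Polynomial.natDegree_X_pow_sub_C, Polynomial.natDegree_map] at h1
    omega
  obtain ⟨u, v, huv⟩ := (hirr.coprime_iff_not_dvd.2 hnd)
  have h2 := congrArg Ψ huv
  rw [map_add, map_mul, map_mul, hΨ, mul_zero, zero_add, hΨP, map_one] at h2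
  exact (Units.mkOfMulEqOne _ _ (mul_eq_one_comm.1 h2)).isUnit

end Pool.NCF.FF
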